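import Mathlib
set_option autoImplicit false
set_option maxHeartbeats 4000000

namespace Pyj
open Finset ComplexConjugate

/-- `x` is within `ε` of an integer. -/
def Near (ε x : ℝ) : Prop := ∃ k : ℤ, |x - k| ≤ ε

/-- `ω = (1 + i √(4R-1)) / 2`, so `ω² = ω - R`. -/
noncomputable def om (R : ℕ) : ℂ := ⟨1 / 2, Real.sqrt (4 * R - 1) / 2⟩

/-- the order `Z[ω]` -/
noncomputable def OO (R : ℕ) : Subring ℂ := Subring.closure {om R}

/-- the dual lattice of `Z[ω]` for the pairing `Re (ζ γ)` -/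
def OV (R : ℕ) : AddSubgroup ℂ where
  carrier := {ζ | ∀ γ ∈ OO R, ∃ k : ℤ, (ζ * γ).re = k}
  zero_mem' := by
    intro γ _
    exact ⟨0, by simp⟩
  add_mem' := by
    intro x y hx hy γ hγ
    obtain ⟨k, hk⟩ := hx γ hγ
    obtain ⟨l, hl⟩ := hy γ hγ
    exact ⟨k + l, by rw [add_mul, Complex.add_re, hk, hl]; push_cast; ring⟩
  neg_mem' := by
    intro x hx γ hγ
    obtain ⟨k, hk⟩ := hx γ hγ
    exact ⟨-k, by rw [neg_mul, Complex.neg_re, hk]; push_cast; ring⟩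

/-- the lattice `D R^M O^∨` -/
noncomputable def Ls (R : ℕ) (D : ℂ) (M : ℕ) : AddSubgroup ℂ :=
  (OV R).map (AddMonoidHom.mulLeft (D * (R : ℂ) ^ M))

/-- trigonometric polynomial -/
noncomputable def tf (K : ℕ) (c : ℕ → ℝ) (x : ℝ) : ℝ :=
  ∑ k ∈ range (K + 1), c k * Real.cos (2 * Real.pi * k * x)

structure TestFn (ε : ℝ) (K : ℕ) (c : ℕ → ℝ) : Prop where
  bd : ∀ k, |c k| ≤ 4
  m0 : ε ^ 2 ≤ c 0
  top : ∀ x, tf K c x ≤ 2 * K
  neg : ∀ x, ¬ Near ε x → tf K c x ≤ 0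

/-- positive normalised functional on all functions -/
structure IsMean (Λ : (ℂ → ℝ) → ℝ) : Prop where
  add : ∀ f g : ℂ → ℝ, Λ (fun z => f z + g z) = Λ f + Λ g
  smul : ∀ (c : ℝ) (f : ℂ → ℝ), Λ (fun z => c * f z) = c * Λ f
  mono : ∀ f g : ℂ → ℝ, (∀ z, f z ≤ g z) → Λ f ≤ Λ g
  one : Λ (fun _ => 1) = 1

/-- average of `h` over the rotated points `z u`, `u ∈ l` -/
noncomputable def pav (l : Multiset ℂ) (h : ℂ → ℝ) (z : ℂ) : ℝ :=
  (l.map (fun u => h (z * u))).sum / (Multiset.card l : ℝ)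

def NearInv (θ : ℝ) (Λ : (ℂ → ℝ) → ℝ) (l : Multiset ℂ) : Prop :=
  ∀ (h : ℂ → ℝ) (B : ℝ), (∀ z, 0 ≤ h z ∧ h z ≤ B) → |Λ (pav l h) - Λ h| ≤ θ * B

open Classical in
noncomputable def ind (p : ℂ → Prop) (z : ℂ) : ℝ := if p z then 1 else 0

/-- `z` is structured: `β z` is close to the lattice, with `β ≤ A` -/
def Str (R : ℕ) (D : ℂ) (M A : ℕ) (z : ℂ) : Prop :=
  ∃ β : ℕ, 1 ≤ β ∧ β ≤ A ∧ ∃ T : ℂ, ‖T‖ ≤ A ∧ (β : ℂ) * z - T ∈ Ls R D M

/-- `t` is an archimedean part of `z` -/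
def IsTau (R : ℕ) (D : ℂ) (M A : ℕ) (z t : ℂ) : Prop :=
  ∃ β : ℕ, 1 ≤ β ∧ β ≤ A ∧ ‖(β : ℂ) * t‖ ≤ A ∧ (β : ℂ) * (z - t) ∈ Ls R D M

open Classical in
/-- the archimedean part of a structured point -/
noncomputable def tau (R : ℕ) (D : ℂ) (M A : ℕ) (z : ℂ) : ℂ :=
  if h : ∃ t, IsTau R D M A z t then Classical.choose h else 0

/-- the order of the torsion part -/
noncomputable def ordz (R : ℕ) (D : ℂ) (M A : ℕ) (z : ℂ) : ℕ :=
  sInf {n : ℕ | 1 ≤ n ∧ (n : ℂ) * (z - tau R D M A z) ∈ Ls R D M}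

noncomputable def g0 (R : ℕ) : ℂ := om R / conj (om R)

/-- the element `a + b ω` -/
noncomputable def yv (R : ℕ) (b a : ℤ) : ℂ := (a : ℂ) + (b : ℂ) * om R

/-- its rotation -/
noncomputable def gv (R : ℕ) (b a : ℤ) : ℂ := yv R b a / conj (yv R b a)

/-- its norm -/
def Ny (R : ℕ) (b a : ℤ) : ℕ := (a ^ 2 + a * b + R * b ^ 2).natAbs

/-- the arithmetic phase -/
noncomputable def ph (n R : ℕ) (b lam mu a : ℤ) : ℝ :=
  ((((a : ZMod n) * b * lam + (b : ZMod n) ^ 2 * mu) *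
    ((a : ZMod n) ^ 2 + a * b + R * b ^ 2)⁻¹ : ZMod n).val : ℝ) / n

/-- product of the elements a + ω over H -/
noncomputable def yH (R : ℕ) (H : Finset ℕ) : ℂ := ∏ a ∈ H, ((a : ℂ) + om R)

noncomputable def uH (R : ℕ) (H : Finset ℕ) : ℂ := yH R H / conj (yH R H)

/-- product of y_i or its conjugate -/
noncomputable def YS {r : ℕ} (y : Fin r → ℂ) (ξ : Fin r → Bool) : ℂ :=
  ∏ i, if ξ i then y i else conj (y i)

noncomputable def vS {r : ℕ} (y : Fin r → ℂ) (ξ : Fin r → Bool) : ℂ :=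
  YS y ξ / ∏ i, conj (y i)

/-- the family of the S cube -/
noncomputable def famS {r : ℕ} (y : Fin r → ℂ) : Multiset ℂ :=
  (Finset.univ : Finset (Fin r → Bool)).val.map (vS y)

noncomputable def famE (R : ℕ) (𝒜 : Finset ℕ) : Multiset ℂ :=
  𝒜.powerset.val.map (uH R)

noncomputable def famY (R : ℕ) (b : ℤ) {m : ℕ} (a : Fin m → ℤ) : Multiset ℂ :=
  (Finset.univ : Finset (Fin m)).val.map (fun i => gv R b (a i))

end Pyj
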