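import Mathlib
import Pool.Agent.Pyj.Defs
set_option autoImplicit false
set_option maxHeartbeats 4000000

namespace Pyj
open Finset ComplexConjugate

def nu (R : ℕ) (b : ℤ) (P : ℕ) : ℕ := ((Finset.range P).filter (fun a : ℕ => (Ny R b a).Coprime P)).card

noncomputable def Om (R : ℕ) (b : ℤ) (P : ℕ) (a0 : ℤ) (J : ℕ) : Finset ℤ :=
  (Finset.Ico a0 (a0 + J * P)).filter (fun a : ℤ => (Ny R b a).Coprime P)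

def P2 (R A : ℕ) (b : ℤ) (ε c1 : ℝ) {m : ℕ} (a : Fin m → ℤ) : Prop :=
  ∀ nl : ℕ, 1 ≤ nl → nl ≤ A → nl.Coprime R → ∀ rho1 rho2 : ℤ, ∀ t : ℂ, ‖t‖ ≤ A →
    ¬ ((nl : ℤ) ∣ 2 * rho2 - rho1 ∧ (nl : ℤ) ∣ rho2 - 2 * R * rho1) →
    ∃ I : Finset (Fin m), c1 * m ≤ I.card ∧
      ∀ i ∈ I, Near ε ((t * gv R b (a i)).re + rho1 / nl +
          ph nl R b (2 * rho2 - rho1) (rho2 - 2 * R * rho1) (a i))

def P3 (R A : ℕ) (b : ℤ) (ε c1 : ℝ) {m : ℕ} (a : Fin m → ℤ) : Prop :=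
  ∀ t : ℂ, ‖t‖ ≤ A → ∃ I : Finset (Fin m), c1 * m ≤ I.card ∧
      ∀ i ∈ I, Near ε (t * gv R b (a i)).re

def Dfc (R : ℕ) (D : ℂ) (M A : ℕ) (b : ℤ) (a : ℤ) (z : ℂ) : Prop :=
  Str R D M A z ∧ Str R D M A (z * gv R b a) ∧
    (¬ (Ny R b a).Coprime (ordz R D M A z) ∨ ¬ (Ny R b a).Coprime (ordz R D M A (z * gv R b a)))

noncomputable def ev (R : ℕ) (D : ℂ) (M A : ℕ) (b : ℤ) (ε : ℝ) (a : ℤ) (z : ℂ) : ℝ :=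
  ind (fun z => Near ε z.re) (z * gv R b a) + ind (fun z => ¬ Str R D M A z) (z * gv R b a) +
    ind (Dfc R D M A b a) z

def VV (R1 R2 : ℕ) (D1 D2 : ℂ) (N : ℕ) : Set ℂ :=
  {u | ‖u‖ = 1 ∧ ∃ Y1 ∈ OO R1, ∃ Y2 ∈ OO R2, (D1 * D2) ^ N * u = Y1 * Y2}

noncomputable def zet (R : ℕ) : ℂ := ⟨0, 2 / Real.sqrt (4 * R - 1)⟩

end Pyj
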