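import Mathlib
import Pool.Agent.Pyj.Defs2
set_option autoImplicit false
set_option maxHeartbeats 4000000

namespace Pyj
open Finset ComplexConjugate
namespace ME1
namespace E1

/-- the quadratic algebra -/
abbrev QA (p : ℕ) (r : ZMod p) := QuadraticAlgebra (ZMod p) (-r) 1

section alg
variable {p : ℕ} [Fact p.Prime] {r : ZMod p}

open QuadraticAlgebra

theorem reduced (hd : 1 - 4 * r ≠ 0) (x : QA p r) (h : x * x = 0) : x = 0 := by
  have h1 := congrArg QuadraticAlgebra.re h
  have h2 := congrArg QuadraticAlgebra.im h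
  simp only [re_mul, im_mul, re_zero, im_zero] at h1 h2
  have h3 : x.im * (2 * x.re + x.im) = 0 := by linear_combination h2
  rcases mul_eq_zero.1 h3 with h4 | h4
  · have h5 : x.re * x.re = 0 := by rw [h4] at h1; linear_combination h1
    ext
    · exact mul_self_eq_zero.1 h5
    · exact h4
  · have h5 : x.im = -2 * x.re := by linear_combination h4
    have h6 : (1 - 4 * r) * (x.re * x.re) = 0 := by rw [h5] at h1; linear_combination h1
    have h7 : x.re = 0 := mul_self_eq_zero.1 ((mul_eq_zero.1 h6).resolve_left hd)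
    ext
    · exact h7
    · rw [h5, h7]; simp

theorem mul_star_one {h : QA p r} (hh : h.norm = 1) : h * star h = 1 := by
  rw [← algebraMap_norm_eq_mul_star, hh, map_one]

theorem unit_sub (hd : 1 - 4 * r ≠ 0) {h k : QA p r} (hh : h.norm = 1) (hk : k.norm = 1)
    (hne : h ≠ k) : IsUnit (h - k) := by
  rw [isUnit_iff_norm_isUnit, isUnit_iff_ne_zero]
  intro h0
  apply hne
  have e1 := mul_star_one hh
  have e2 := mul_star_one hk
  have e3 : (h - k) * star (h - k) = 0 := by rw [← algebraMap_norm_eq_mul_star, h0, map_zero]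
  rw [star_sub] at e3
  have e4 : (h * star k - 1) * (h * star k - 1) = 0 := by
    linear_combination (h * star k) * e1 + (h * star k) * e2 - (h * star k) * e3 -
      (k * star k) * e1 - e2
  have e5 := sub_eq_zero.1 (reduced hd _ e4)
  calc h = h * (k * star k) := by rw [e2, mul_one]
    _ = (h * star k) * k := by ring
    _ = k := by rw [e5, one_mul]

theorem energy_aux (hd : 1 - 4 * r ≠ 0) {a b c d : QA p r} (ha : a.norm = 1) (hb : b.norm = 1)
    (hc : c.norm = 1) (hd' : d.norm = 1) (hs : a + b ≠ 0) (he : c + d = a + b) : c = a ∨ c = b := by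
  have hbn : (-b).norm = 1 := by rw [QuadraticAlgebra.norm_neg, hb]
  have hu : IsUnit (a + b) := by
    have := unit_sub hd ha hbn (by intro h; apply hs; rw [h]; ring)
    rwa [sub_neg_eq_add] at this
  have hus : IsUnit (star (a + b)) := by
    rw [isUnit_iff_norm_isUnit, QuadraticAlgebra.norm_star, ← isUnit_iff_norm_isUnit]; exact hu
  have e1 := mul_star_one ha
  have e2 := mul_star_one hb
  have e3 := mul_star_one hc
  have e4 := mul_star_one hd'
  have e5 : star (a + b) * (a * b) = a + b := by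
    rw [star_add]; linear_combination b * e1 + a * e2
  have e6 : star (c + d) * (c * d) = c + d := by
    rw [star_add]; linear_combination d * e3 + c * e4
  rw [he] at e6
  have e7 : c * d = a * b := hus.mul_left_cancel (e6.trans e5.symm)
  have e8 : (c - a) * (c - b) = 0 := by linear_combination c * he - e7
  by_cases hca : c = a
  · exact Or.inl hca
  · right
    have := (unit_sub hd hc ha hca).mul_left_cancel (e8.trans (mul_zero _).symm)
    exact sub_eq_zero.1 this

end alg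

/-! ### the group of norm one elements and the parametrisation -/

section par
variable {p : ℕ} [Fact p.Prime] {r : ZMod p}

open QuadraticAlgebra

/-- the parametrisation -/
def gg (r t : ZMod p) : QA p r :=
  ⟨(t ^ 2 - r) * (t ^ 2 + t + r)⁻¹, (2 * t + 1) * (t ^ 2 + t + r)⁻¹⟩

/-- its inverse -/
def gi (h : QA p r) : ZMod p := (1 - h.re - 2 * r * h.im) * (2 * h.re + h.im - 2)⁻¹

theorem gg_norm {t : ZMod p} (ht : t ^ 2 + t + r ≠ 0) : (gg r t).norm = 1 := by
  rw [norm_def]
  simp only [gg]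
  have hn := mul_inv_cancel₀ ht
  generalize (t ^ 2 + t + r)⁻¹ = n at hn ⊢
  linear_combination ((t ^ 2 + t + r) * n + 1) * hn

theorem gg_ne_one (hd : 1 - 4 * r ≠ 0) {t : ZMod p} (ht : t ^ 2 + t + r ≠ 0) :
    gg r t ≠ 1 := by
  intro h
  have h1 := congrArg QuadraticAlgebra.re h
  have h2 := congrArg QuadraticAlgebra.im h
  simp only [gg, re_one, im_one] at h1 h2
  have h3 : 2 * t + 1 = 0 := by
    rcases mul_eq_zero.1 h2 with h | h
    · exact h
    · exact absurd (inv_eq_zero.1 h) ht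
  have h4 : t ^ 2 - r = t ^ 2 + t + r := by
    have := congrArg (· * (t ^ 2 + t + r)) h1
    simpa [mul_assoc, inv_mul_cancel₀ ht] using this
  apply hd
  linear_combination h3 + 2 * h4

theorem w_ne (hd : 1 - 4 * r ≠ 0) {h : QA p r} (hh : h.norm = 1) (hne : h ≠ 1) :
    2 * h.re + h.im - 2 ≠ 0 := by
  have h1 := unit_sub hd hh (QuadraticAlgebra.norm_one) hne
  rw [isUnit_iff_norm_isUnit, isUnit_iff_ne_zero, norm_def] at h1
  rw [norm_def] at hh
  simp only [re_sub, im_sub, re_one, im_one] at h1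
  intro h2
  apply h1
  linear_combination hh - h2

theorem gi_mem (hd : 1 - 4 * r ≠ 0) {h : QA p r} (hh : h.norm = 1) (hne : h ≠ 1) :
    (gi h) ^ 2 + gi h + r = (1 - 4 * r) * (2 * h.re + h.im - 2)⁻¹ := by
  have hw := w_ne hd hh hne
  rw [norm_def] at hh
  unfold gi
  have hn := mul_inv_cancel₀ hw
  generalize (2 * h.re + h.im - 2)⁻¹ = n at hn ⊢
  -- numerator identity times n^2, using w n = 1
  have key : (1 - h.re - 2 * r * h.im) ^ 2 + (1 - h.re - 2 * r * h.im) * (2 * h.re + h.im - 2) +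
      r * (2 * h.re + h.im - 2) ^ 2 = (1 - 4 * r) * (2 * h.re + h.im - 2) := by
    linear_combination (4 * r - 1) * hh
  linear_combination n ^ 2 * key - ((1 - h.re - 2 * r * h.im) * n) * hn -
    r * ((2 * h.re + h.im - 2) * n + 1) * hn + (1 - 4 * r) * n * hn

theorem gg_gi (hd : 1 - 4 * r ≠ 0) {h : QA p r} (hh : h.norm = 1) (hne : h ≠ 1) :
    gg r (gi h) = h := by
  have hw := w_ne hd hh hne
  have hN := gi_mem hd hh hne
  rw [norm_def] at hh
  have hinv : ((1 - 4 * r) * (2 * h.re + h.im - 2)⁻¹)⁻¹ =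
      (2 * h.re + h.im - 2) * (1 - 4 * r)⁻¹ := by
    rw [mul_inv, inv_inv, mul_comm]
  have hn := mul_inv_cancel₀ hw
  have hm := mul_inv_cancel₀ hd
  ext
  · show (gi h ^ 2 - r) * (gi h ^ 2 + gi h + r)⁻¹ = h.re
    rw [hN, hinv]
    unfold gi
    generalize (2 * h.re + h.im - 2)⁻¹ = n at hn ⊢
    generalize (1 - 4 * r)⁻¹ = m at hm ⊢
    have key : (1 - h.re - 2 * r * h.im) ^ 2 - r * (2 * h.re + h.im - 2) ^ 2 =
        h.re * (2 * h.re + h.im - 2) * (1 - 4 * r) := by
      linear_combination (4 * r - 1) * hh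
    linear_combination (n * m) * key + ((1 - h.re - 2 * r * h.im) ^ 2 * n * m) * hn +
      (h.re * (1 - 4 * r) * m) * hn + h.re * hm +
      (r * (2 * h.re + h.im - 2) * m) * hn
  · show (2 * gi h + 1) * (gi h ^ 2 + gi h + r)⁻¹ = h.im
    rw [hN, hinv]
    unfold gi
    generalize (2 * h.re + h.im - 2)⁻¹ = n at hn ⊢
    generalize (1 - 4 * r)⁻¹ = m at hm ⊢
    linear_combination (2 * (1 - h.re - 2 * r * h.im) * m) * hn + h.im * hm

theorem gi_gg (hd : 1 - 4 * r ≠ 0) {t : ZMod p} (ht : t ^ 2 + t + r ≠ 0) :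
    gi (gg r t) = t := by
  have hn := mul_inv_cancel₀ ht
  have hw2 : 2 * (gg r t).re + (gg r t).im - 2 = (1 - 4 * r) * (t ^ 2 + t + r)⁻¹ := by
    simp only [gg]
    generalize (t ^ 2 + t + r)⁻¹ = n at hn ⊢
    linear_combination 2 * hn
  have hw3 : 1 - (gg r t).re - 2 * r * (gg r t).im = t * (1 - 4 * r) * (t ^ 2 + t + r)⁻¹ := by
    simp only [gg]
    generalize (t ^ 2 + t + r)⁻¹ = n at hn ⊢
    linear_combination (-1) * hn
  unfold gi
  rw [hw2, hw3, mul_inv, inv_inv]
  have hm := mul_inv_cancel₀ hd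
  generalize (t ^ 2 + t + r)⁻¹ = n at hn ⊢
  generalize (1 - 4 * r)⁻¹ = m at hm ⊢
  linear_combination (t * (1 - 4 * r) * m) * hn + t * hm

end par

/-! ### moments -/

theorem parseval {A : Type*} [CommRing A] [Fintype A] [DecidableEq A] (Ψ : AddChar A ℂ)
    (hΨ : Ψ.IsPrimitive) {ι : Type*} (P : Finset ι) (f : ι → A) :
    ∑ y : A, ‖∑ q ∈ P, Ψ (y * f q)‖ ^ 2 =
      Fintype.card A * ∑ q ∈ P, ∑ q' ∈ P, (if f q = f q' then (1 : ℝ) else 0) := by
  have h : ((∑ y : A, ‖∑ q ∈ P, Ψ (y * f q)‖ ^ 2 : ℝ) : ℂ) =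
      ((Fintype.card A * ∑ q ∈ P, ∑ q' ∈ P, (if f q = f q' then (1 : ℝ) else 0) : ℝ) : ℂ) := by
    push_cast
    have h1 : ∀ y : A, ((‖∑ q ∈ P, Ψ (y * f q)‖ : ℂ)) ^ 2 =
        ∑ q ∈ P, ∑ q' ∈ P, Ψ (y * (f q - f q')) := by
      intro y
      rw [← Complex.mul_conj', map_sum, Finset.sum_mul_sum]
      refine Finset.sum_congr rfl fun q _ => Finset.sum_congr rfl fun q' _ => ?_
      rw [← AddChar.map_neg_eq_conj, ← AddChar.map_add_eq_mul]
      congr 1
      ring
    rw [Finset.sum_congr rfl fun y _ => h1 y, Finset.sum_comm, Finset.mul_sum]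
    refine Finset.sum_congr rfl fun q _ => ?_
    rw [Finset.sum_comm, Finset.mul_sum]
    refine Finset.sum_congr rfl fun q' _ => ?_
    rw [AddChar.sum_mulShift _ hΨ]
    by_cases hq : f q = f q'
    · simp [hq]
    · rw [if_neg (sub_ne_zero.2 hq), if_neg hq]
      simp
  exact_mod_cast h

section T
variable {p : ℕ} [Fact p.Prime] {r : ZMod p}

open QuadraticAlgebra

noncomputable instance instFin (r : ZMod p) : Fintype (QA p r) :=
  Fintype.ofEquiv _ (QuadraticAlgebra.equivProd (-r) 1).symm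

noncomputable instance instDec (r : ZMod p) : DecidableEq (QA p r) := Classical.decEq _

theorem card_QA (r : ZMod p) : Fintype.card (QA p r) = p ^ 2 := by
  rw [Fintype.card_congr (QuadraticAlgebra.equivProd (-r) 1), Fintype.card_prod, ZMod.card, sq]

/-- the additive character -/
noncomputable def PsiA (r : ZMod p) : AddChar (QA p r) ℂ where
  toFun x := ZMod.stdAddChar x.im
  map_zero_eq_one' := by simp
  map_add_eq_mul' a b := by
    rw [QuadraticAlgebra.im_add, AddChar.map_add_eq_mul]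

theorem PsiA_apply (x : QA p r) : PsiA r x = ZMod.stdAddChar x.im := rfl

theorem PsiA_prim (r : ZMod p) : (PsiA r).IsPrimitive := by
  intro a ha h
  apply ha
  have h1 : ∀ x, PsiA r (a * x) = 1 := by
    intro x
    have := DFunLike.congr_fun h x
    rw [AddChar.mulShift_apply] at this
    simpa using this
  have hinj : ∀ z : ZMod p, (ZMod.stdAddChar z : ℂ) = 1 → z = 0 := by
    intro z hz
    rwa [← (ZMod.stdAddChar (N := p)).map_zero_eq_one, ZMod.injective_stdAddChar.eq_iff] at hz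
  have h2 := hinj _ (h1 1)
  have h3 := hinj _ (h1 ⟨0, 1⟩)
  simp only [im_mul, re_one, im_one] at h2 h3
  have h4 : a.im = 0 := by linear_combination h2
  have h5 : a.re = 0 := by
    rw [h4] at h3
    linear_combination h3
  ext
  · exact h5
  · exact h4

/-- norm one elements -/
noncomputable def HH (r : ZMod p) : Finset (QA p r) := Finset.univ.filter (fun h => h.norm = 1)

theorem mem_HH {h : QA p r} : h ∈ HH r ↔ h.norm = 1 := by simp [HH]

/-- the sums -/
noncomputable def TS (y : QA p r) : ℂ := ∑ h ∈ HH r, PsiA r (y * h)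

theorem TS_inv (y : QA p r) {k : QA p r} (hk : k ∈ HH r) : TS (y * k) = TS y := by
  rw [mem_HH] at hk
  unfold TS
  refine Finset.sum_nbij' (fun h => k * h) (fun h => star k * h) ?_ ?_ ?_ ?_ ?_
  · intro h hh
    rw [mem_HH] at hh ⊢
    rw [map_mul, hk, hh, one_mul]
  · intro h hh
    rw [mem_HH] at hh ⊢
    rw [map_mul, QuadraticAlgebra.norm_star, hk, hh, one_mul]
  · intro h _
    show star k * (k * h) = h
    linear_combination h * mul_star_one hk
  · intro h _
    show k * (star k * h) = h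
    linear_combination h * mul_star_one hk
  · intro h _
    rw [mul_assoc]

theorem energy (hd : 1 - 4 * r ≠ 0) :
    ∑ q ∈ HH r ×ˢ HH r, ∑ q' ∈ HH r ×ˢ HH r,
      (if q.1 + q.2 = q'.1 + q'.2 then (1 : ℝ) else 0) ≤ 3 * ((HH r).card : ℝ) ^ 2 := by
  have hcard : ∀ s : QA p r, (((HH r ×ˢ HH r).filter (fun q => s = q.1 + q.2)).card : ℝ) ≤
      (HH r).card := by
    intro s
    exact_mod_cast Finset.card_le_card_of_injOn (fun q : QA p r × QA p r => q.1) (by
      intro q hq
      have := (Finset.mem_filter.1 (Finset.mem_coe.1 hq)).1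
      exact Finset.mem_coe.2 (Finset.mem_product.1 this).1) (by
      intro q hq q' hq' he
      have h1 := (Finset.mem_filter.1 (Finset.mem_coe.1 hq)).2
      have h2 := (Finset.mem_filter.1 (Finset.mem_coe.1 hq')).2
      have he' : q.1 = q'.1 := he
      refine Prod.ext he' ?_
      have : q.1 + q.2 = q'.1 + q'.2 := h1.symm.trans h2
      rw [he'] at this
      exact add_left_cancel this)
  have h1 : ∀ q ∈ HH r ×ˢ HH r, ∑ q' ∈ HH r ×ˢ HH r,
      (if q.1 + q.2 = q'.1 + q'.2 then (1 : ℝ) else 0) ≤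
      2 + (if 0 = q.1 + q.2 then (1 : ℝ) else 0) * (HH r).card := by
    intro q hq
    rw [Finset.sum_boole]
    by_cases h0 : 0 = q.1 + q.2
    · rw [if_pos h0, one_mul]
      have := hcard (q.1 + q.2)
      linarith
    · rw [if_neg h0, zero_mul, add_zero]
      have hsub : (HH r ×ˢ HH r).filter (fun q' => q.1 + q.2 = q'.1 + q'.2) ⊆
          {(q.1, q.2), (q.2, q.1)} := by
        intro q' hq'
        obtain ⟨h2, h3⟩ := Finset.mem_filter.1 hq'
        rw [Finset.mem_product] at hq h2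
        have h4 := energy_aux hd (mem_HH.1 hq.1) (mem_HH.1 hq.2) (mem_HH.1 h2.1) (mem_HH.1 h2.2)
          (fun h => h0 h.symm) h3.symm
        rw [Finset.mem_insert, Finset.mem_singleton]
        rcases h4 with h4 | h4
        · left
          refine Prod.ext h4 ?_
          rw [h4] at h3
          exact (add_left_cancel h3).symm
        · right
          refine Prod.ext h4 ?_
          rw [h4] at h3
          show q'.2 = q.1
          linear_combination -h3
      have h5 : ((HH r ×ˢ HH r).filter (fun q' => q.1 + q.2 = q'.1 + q'.2)).card ≤ 2 :=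
        (Finset.card_le_card hsub).trans Finset.card_le_two
      exact_mod_cast h5
  refine (Finset.sum_le_sum h1).trans ?_
  rw [Finset.sum_add_distrib, Finset.sum_const, ← Finset.sum_mul, Finset.sum_boole,
    Finset.card_product, nsmul_eq_mul]
  have h2 := hcard 0
  push_cast
  have h3 : (0 : ℝ) ≤ ((HH r).card : ℝ) := Nat.cast_nonneg _
  nlinarith

theorem TS_moment (hd : 1 - 4 * r ≠ 0) :
    ∑ y : QA p r, ‖TS y‖ ^ 4 ≤ (p : ℝ) ^ 2 * (3 * ((HH r).card : ℝ) ^ 2) := by
  have h1 : ∀ y : QA p r, ‖TS y‖ ^ 4 =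
      ‖∑ q ∈ HH r ×ˢ HH r, PsiA r (y * (q.1 + q.2))‖ ^ 2 := by
    intro y
    have : ∑ q ∈ HH r ×ˢ HH r, PsiA r (y * (q.1 + q.2)) = TS y * TS y := by
      unfold TS
      rw [Finset.sum_mul_sum, Finset.sum_product]
      refine Finset.sum_congr rfl fun q _ => Finset.sum_congr rfl fun q' _ => ?_
      rw [mul_add, AddChar.map_add_eq_mul]
    rw [this, norm_mul]
    ring
  rw [Finset.sum_congr rfl fun y _ => h1 y, parseval (PsiA r) (PsiA_prim r), card_QA]
  push_cast
  exact mul_le_mul_of_nonneg_left (energy hd) (by positivity)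

theorem TS_bound (hd : 1 - 4 * r ≠ 0) {y : QA p r} (hy : y ≠ 0) :
    ((HH r).card : ℝ) * ‖TS y‖ ^ 4 ≤ (p : ℝ) ^ 2 * (3 * ((HH r).card : ℝ) ^ 2) := by
  refine le_trans ?_ (TS_moment hd)
  have hinj : Set.InjOn (fun k => y * k) (HH r : Set (QA p r)) := by
    intro k hk k' hk' he
    by_contra hne
    have h1 := unit_sub hd (mem_HH.1 (Finset.mem_coe.1 hk)) (mem_HH.1 (Finset.mem_coe.1 hk')) hne
    have h2 : y * (k - k') = 0 := by
      have he' : y * k = y * k' := he
      rw [mul_sub, he', sub_self]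
    apply hy
    exact h1.mul_right_cancel (h2.trans (zero_mul _).symm)
  have h2 : ((HH r).card : ℝ) * ‖TS y‖ ^ 4 = ∑ k ∈ HH r, ‖TS (y * k)‖ ^ 4 := by
    rw [Finset.sum_congr rfl fun k hk => by rw [TS_inv y hk], Finset.sum_const, nsmul_eq_mul]
  rw [h2, ← Finset.sum_image (f := fun z => ‖TS z‖ ^ 4) hinj]
  exact Finset.sum_le_univ_sum_of_nonneg fun z => by positivity

theorem one_mem_HH (r : ZMod p) : (1 : QA p r) ∈ HH r := mem_HH.2 (QuadraticAlgebra.norm_one)

theorem sum_par (hd : 1 - 4 * r ≠ 0) (F : QA p r → ℂ) :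
    ∑ t ∈ Finset.univ.filter (fun t : ZMod p => t ^ 2 + t + r ≠ 0), F (gg r t) =
      ∑ h ∈ (HH r).erase 1, F h := by
  refine Finset.sum_nbij' (gg r) gi ?_ ?_ ?_ ?_ ?_
  · intro t ht
    have ht' := (Finset.mem_filter.1 ht).2
    exact Finset.mem_erase.2 ⟨gg_ne_one hd ht', mem_HH.2 (gg_norm ht')⟩
  · intro h hh
    obtain ⟨h1, h2⟩ := Finset.mem_erase.1 hh
    rw [Finset.mem_filter]
    refine ⟨Finset.mem_univ _, ?_⟩
    rw [gi_mem hd (mem_HH.1 h2) h1]
    exact mul_ne_zero hd (inv_ne_zero (w_ne hd (mem_HH.1 h2) h1))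
  · intro t ht
    exact gi_gg hd (Finset.mem_filter.1 ht).2
  · intro h hh
    obtain ⟨h1, h2⟩ := Finset.mem_erase.1 hh
    exact gg_gi hd (mem_HH.1 h2) h1
  · intro t _
    rfl

theorem card_HH (hd : 1 - 4 * r ≠ 0) : (HH r).card ≤ p + 1 := by
  have h1 : ((Finset.univ.filter (fun t : ZMod p => t ^ 2 + t + r ≠ 0)).card : ℂ) =
      (((HH r).erase 1).card : ℂ) := by
    have := sum_par hd (fun _ => 1)
    simpa using this
  have h2 : (Finset.univ.filter (fun t : ZMod p => t ^ 2 + t + r ≠ 0)).card =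
      ((HH r).erase 1).card := by exact_mod_cast h1
  have h3 : (Finset.univ.filter (fun t : ZMod p => t ^ 2 + t + r ≠ 0)).card ≤ p := by
    have := Finset.card_le_univ (Finset.univ.filter (fun t : ZMod p => t ^ 2 + t + r ≠ 0))
    rwa [ZMod.card] at this
  have h4 := Finset.card_erase_add_one (one_mem_HH r)
  omega

theorem TS_bound2 (hd : 1 - 4 * r ≠ 0) {y : QA p r} (hy : y ≠ 0) :
    ‖TS y‖ ^ 4 ≤ 6 * (p : ℝ) ^ 3 := by
  have h1 := TS_bound hd hy
  have h2 : 0 < ((HH r).card : ℝ) := by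
    have := Finset.card_pos.2 ⟨1, one_mem_HH r⟩
    exact_mod_cast this
  have h3 : ((HH r).card : ℝ) ≤ p + 1 := by exact_mod_cast card_HH hd
  have hp : (2 : ℝ) ≤ p := by exact_mod_cast (Fact.out : p.Prime).two_le
  have h4 : ‖TS y‖ ^ 4 ≤ 3 * (p : ℝ) ^ 2 * (HH r).card := by
    refine le_of_mul_le_mul_left ?_ h2
    calc _ ≤ _ := h1
      _ = _ := by ring
  calc ‖TS y‖ ^ 4 ≤ 3 * (p : ℝ) ^ 2 * (HH r).card := h4
    _ ≤ 3 * (p : ℝ) ^ 2 * (2 * p) := by
        apply mul_le_mul_of_nonneg_left _ (by positivity)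
        linarith
    _ = 6 * (p : ℝ) ^ 3 := by ring

end T

end E1

/-- TARGET: Kloosterman type sum over the norm one group, disc ≠ 0 -/
theorem exp_prime_disc (p : ℕ) [Fact p.Prime] (hp : 5 ≤ p) (lam mu r : ZMod p)
    (hnz : ¬ (lam = 0 ∧ mu = 0)) (hdisc : 1 - 4 * r ≠ 0) (q : ℝ) (hq : 0 < q) (hq4 : q ^ 4 ≤ p) :
    ‖∑ t ∈ Finset.univ.filter (fun t : ZMod p => t ^ 2 + t + r ≠ 0),
      ZMod.stdAddChar ((lam * t + mu) * (t ^ 2 + t + r)⁻¹)‖ * q ≤ 3 * p := by
  set y : E1.QA p r := ⟨((1 - 2 * r) * lam - mu) * (1 - 4 * r)⁻¹, (2 * mu - lam) * (1 - 4 * r)⁻¹⟩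
    with hy
  have hm := mul_inv_cancel₀ hdisc
  have hlam : lam = 2 * y.re + y.im := by
    simp only [hy]
    generalize (1 - 4 * r)⁻¹ = m at hm ⊢
    linear_combination (-lam) * hm
  have hmu : mu = y.re + (1 - 2 * r) * y.im := by
    simp only [hy]
    generalize (1 - 4 * r)⁻¹ = m at hm ⊢
    linear_combination (-mu) * hm
  have hy0 : y ≠ 0 := by
    intro h
    apply hnz
    rw [h] at hlam hmu
    simp only [QuadraticAlgebra.re_zero, QuadraticAlgebra.im_zero] at hlam hmu
    constructor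
    · rw [hlam]; ring
    · rw [hmu]; ring
  set S := ∑ t ∈ Finset.univ.filter (fun t : ZMod p => t ^ 2 + t + r ≠ 0),
      ZMod.stdAddChar ((lam * t + mu) * (t ^ 2 + t + r)⁻¹) with hS
  have hterm : ∀ t ∈ Finset.univ.filter (fun t : ZMod p => t ^ 2 + t + r ≠ 0),
      ZMod.stdAddChar y.im * ZMod.stdAddChar ((lam * t + mu) * (t ^ 2 + t + r)⁻¹) =
      E1.PsiA r (y * E1.gg r t) := by
    intro t ht
    have ht' := (Finset.mem_filter.1 ht).2
    rw [← AddChar.map_add_eq_mul, E1.PsiA_apply]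
    congr 1
    rw [QuadraticAlgebra.im_mul]
    simp only [E1.gg]
    have hn := mul_inv_cancel₀ ht'
    generalize (t ^ 2 + t + r)⁻¹ = n at hn ⊢
    rw [hlam, hmu]
    linear_combination (-y.im) * hn
  have hsum : ZMod.stdAddChar y.im * S = E1.TS y - E1.PsiA r (y * 1) := by
    rw [hS, Finset.mul_sum, Finset.sum_congr rfl hterm,
      E1.sum_par hdisc (fun h => E1.PsiA r (y * h))]
    have h1 := Finset.add_sum_erase (E1.HH r) (fun h => E1.PsiA r (y * h)) (E1.one_mem_HH r)
    have h2 : E1.TS y = ∑ h ∈ E1.HH r, E1.PsiA r (y * h) := rfl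
    rw [h2, ← h1]
    ring
  have hnorm : ‖S‖ ≤ ‖E1.TS y‖ + 1 := by
    have h1 : ‖ZMod.stdAddChar y.im * S‖ = ‖S‖ := by
      rw [norm_mul, AddChar.norm_apply, one_mul]
    rw [← h1, hsum]
    refine (norm_sub_le _ _).trans ?_
    rw [AddChar.norm_apply]
  have hT := E1.TS_bound2 hdisc hy0
  have hp5 : (5 : ℝ) ≤ p := by exact_mod_cast hp
  have hTq : ‖E1.TS y‖ * q ≤ 1.6 * p := by
    have h1 : (‖E1.TS y‖ * q) ^ 4 ≤ (1.6 * (p : ℝ)) ^ 4 := by
      rw [mul_pow, mul_pow]
      calc ‖E1.TS y‖ ^ 4 * q ^ 4 ≤ (6 * (p : ℝ) ^ 3) * p :=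
            mul_le_mul hT hq4 (by positivity) (by positivity)
        _ = 6 * (p : ℝ) ^ 4 := by ring
        _ ≤ 1.6 ^ 4 * (p : ℝ) ^ 4 := by
            apply mul_le_mul_of_nonneg_right _ (by positivity)
            norm_num
    exact (pow_le_pow_iff_left₀ (by positivity) (by positivity) (by norm_num)).1 h1
  have hqp : q ≤ p := by
    by_contra hcon
    push Not at hcon
    have h1 : (p : ℝ) ^ 4 < q ^ 4 := pow_lt_pow_left₀ hcon (by positivity) (by norm_num)
    have h2 : (p : ℝ) ≤ (p : ℝ) ^ 4 := by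
      have : (1 : ℝ) ≤ (p : ℝ) ^ 3 := one_le_pow₀ (by linarith)
      nlinarith
    linarith
  have h3 : ‖S‖ * q ≤ (‖E1.TS y‖ + 1) * q := mul_le_mul_of_nonneg_right hnorm hq.le
  nlinarith

end ME1
export ME1 (exp_prime_disc)
end Pyj
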