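import Mathlib
import Pool.Agent.Pyj.Defs2
set_option autoImplicit false
set_option maxHeartbeats 4000000

namespace Pyj
open Finset ComplexConjugate
namespace ME7
/-! ### auxiliary lemmas -/

theorem E7_cop_iff (x : ℤ) (m : ℕ) : x.natAbs.Coprime m ↔ IsCoprime x (m : ℤ) := by
  rw [Int.isCoprime_iff_gcd_eq_one, Int.gcd, Int.natAbs_natCast]

theorem E7_norm_modEq (R : ℕ) (b : ℤ) {a a' m : ℤ} (h : a ≡ a' [ZMOD m]) :
    a ^ 2 + a * b + R * b ^ 2 ≡ a' ^ 2 + a' * b + R * b ^ 2 [ZMOD m] :=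
  ((h.pow 2).add (h.mul_right b)).add_right _

theorem E7_cop_mod (R : ℕ) (b : ℤ) (P : ℕ) {a a' : ℤ} (h : a ≡ a' [ZMOD P]) :
    (Ny R b a).Coprime P ↔ (Ny R b a').Coprime P := by
  have h1 := E7_norm_modEq R b h
  obtain ⟨k, hk⟩ := h1.dvd
  have h2 : a' ^ 2 + a' * b + R * b ^ 2 = (a ^ 2 + a * b + R * b ^ 2) + (P : ℤ) * k := by
    linarith
  rw [Ny, Ny, E7_cop_iff, E7_cop_iff, h2]
  exact IsCoprime.add_mul_left_left_iff.symm

theorem E7_dvd_mod (R : ℕ) (b : ℤ) (p : ℕ) {a a' : ℤ} (h : a ≡ a' [ZMOD p]) :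
    p ∣ Ny R b a ↔ p ∣ Ny R b a' := by
  have h1 := E7_norm_modEq R b h
  rw [Ny, Ny, ← Int.natCast_dvd, ← Int.natCast_dvd]
  exact h1.dvd_iff

theorem E7_per_block (q : ℤ → Prop) [DecidablePred q] (P : ℕ) (hP : 0 < P)
    (hq : ∀ a a' : ℤ, a ≡ a' [ZMOD P] → (q a ↔ q a')) (a0 : ℤ) :
    ((Finset.Ico a0 (a0 + P)).filter q).card =
      ((Finset.range P).filter (fun a : ℕ => q a)).card := by
  have hP' : (0 : ℤ) < P := by exact_mod_cast hP
  refine Finset.card_nbij' (fun a => (a % P).toNat) (fun r => a0 + ((r : ℤ) - a0) % P)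
    ?_ ?_ ?_ ?_
  · intro a ha
    simp only [Finset.coe_filter, Finset.mem_Ico, Set.mem_ofPred_eq] at ha
    simp only [Finset.coe_filter, Finset.mem_range, Set.mem_ofPred_eq]
    have h1 := Int.emod_nonneg a hP'.ne'
    have h2 := Int.emod_lt_of_pos a hP'
    refine ⟨by omega, ?_⟩
    rw [Int.toNat_of_nonneg h1]
    exact (hq _ _ (Int.mod_modEq a P)).mpr ha.2
  · intro r hr
    simp only [Finset.coe_filter, Finset.mem_range, Set.mem_ofPred_eq] at hr
    simp only [Finset.coe_filter, Finset.mem_Ico, Set.mem_ofPred_eq]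
    have h1 := Int.emod_nonneg ((r : ℤ) - a0) hP'.ne'
    have h2 := Int.emod_lt_of_pos ((r : ℤ) - a0) hP'
    refine ⟨⟨by omega, by omega⟩, ?_⟩
    refine (hq _ _ ?_).mpr hr.2
    have h3 := (Int.mod_modEq ((r : ℤ) - a0) P).add_left a0
    rwa [add_sub_cancel] at h3
  · intro a ha
    simp only [Finset.coe_filter, Finset.mem_Ico, Set.mem_ofPred_eq] at ha
    have h1 := Int.emod_nonneg a hP'.ne'
    simp only
    rw [Int.toNat_of_nonneg h1]
    have h2 : (a % P - a0) % P = (a - a0) % P :=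
      Int.ModEq.sub_right a0 (Int.mod_modEq a P)
    rw [h2, Int.emod_eq_of_lt (by omega) (by omega)]
    ring
  · intro r hr
    simp only [Finset.coe_filter, Finset.mem_range, Set.mem_ofPred_eq] at hr
    simp only
    have h2 : (a0 + ((r : ℤ) - a0) % P) % P = (r : ℤ) % P := by
      have h3 := (Int.mod_modEq ((r : ℤ) - a0) P).add_left a0
      rwa [add_sub_cancel] at h3
    rw [h2, Int.emod_eq_of_lt (by omega) (by omega)]
    simp

theorem E7_per_count (q : ℤ → Prop) [DecidablePred q] (P : ℕ) (hP : 0 < P)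
    (hq : ∀ a a' : ℤ, a ≡ a' [ZMOD P] → (q a ↔ q a')) (a0 : ℤ) (J : ℕ) :
    ((Finset.Ico a0 (a0 + J * P)).filter q).card =
      J * ((Finset.range P).filter (fun a : ℕ => q a)).card := by
  induction J with
  | zero => simp
  | succ J ih =>
    have h0 : (0 : ℤ) ≤ J * P := by positivity
    have hP' : (0 : ℤ) < P := by exact_mod_cast hP
    have h1 : Finset.Ico a0 (a0 + ((J + 1 : ℕ) : ℤ) * P) =
        Finset.Ico a0 (a0 + J * P) ∪ Finset.Ico (a0 + J * P) (a0 + J * P + P) := by
      rw [Finset.Ico_union_Ico_eq_Ico (by omega) (by omega)]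
      congr 1
      push_cast
      ring
    rw [h1, Finset.filter_union, Finset.card_union_of_disjoint, ih, E7_per_block q P hP hq]
    · ring
    · exact Finset.disjoint_filter_filter (Finset.Ico_disjoint_Ico_consecutive _ _ _)

theorem E7_range_count (q : ℤ → Prop) [DecidablePred q] (P : ℕ) (hP : 0 < P)
    (hq : ∀ a a' : ℤ, a ≡ a' [ZMOD P] → (q a ↔ q a')) (K : ℕ) (hK : 0 < K) :
    ((Finset.range (K * P)).filter (fun a : ℕ => q a)).card =
      K * ((Finset.range P).filter (fun a : ℕ => q a)).card := by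
  rw [← E7_per_count q P hP hq 0 K, ← E7_per_block q (K * P) (Nat.mul_pos hK hP) ?_ 0]
  · push_cast
    rfl
  · intro a a' h
    exact hq a a' (h.of_dvd (by push_cast; exact Dvd.intro_left _ rfl))

theorem E7_roots_le (R : ℕ) (b : ℤ) (p : ℕ) (hp : p.Prime) :
    ((Finset.range p).filter (fun s : ℕ => p ∣ Ny R b s)).card ≤ 2 := by
  have := Fact.mk hp
  classical
  let f : Polynomial (ZMod p) :=
    Polynomial.X ^ 2 + Polynomial.C (b : ZMod p) * Polynomial.X +
      Polynomial.C ((R : ZMod p) * (b : ZMod p) ^ 2)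
  have hf : f.Monic := by
    have : f = Polynomial.X ^ 2 + (Polynomial.C (b : ZMod p) * Polynomial.X +
      Polynomial.C ((R : ZMod p) * (b : ZMod p) ^ 2)) := by simp only [f]; ring
    rw [this]
    refine Polynomial.monic_X_pow_add (n := 2) ?_
    exact lt_of_le_of_lt Polynomial.degree_linear_le (by norm_num)
  have hdeg : f.natDegree ≤ 2 := by
    simp only [f]
    compute_degree
  have h1 : ((Finset.range p).filter (fun s : ℕ => p ∣ Ny R b s)).card ≤
      f.roots.toFinset.card := by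
    refine Finset.card_le_card_of_injOn (fun s : ℕ => (s : ZMod p)) ?_ ?_
    · intro s hs
      simp only [Finset.coe_filter, Finset.mem_range, Set.mem_ofPred_eq] at hs
      have h2 := hs.2
      rw [Ny, ← Int.natCast_dvd, ← ZMod.intCast_zmod_eq_zero_iff_dvd] at h2
      push_cast at h2
      simp only [Finset.mem_coe, Multiset.mem_toFinset]
      rw [Polynomial.mem_roots hf.ne_zero]
      simp only [f, Polynomial.IsRoot.def, Polynomial.eval_add, Polynomial.eval_mul,
        Polynomial.eval_pow, Polynomial.eval_X, Polynomial.eval_C]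
      rw [← h2]
      ring
    · intro s hs t ht hst
      simp only [Finset.coe_filter, Finset.mem_range, Set.mem_ofPred_eq] at hs ht
      have h3 := (ZMod.natCast_eq_natCast_iff' s t p).mp hst
      rwa [Nat.mod_eq_of_lt hs.1, Nat.mod_eq_of_lt ht.1] at h3
  exact h1.trans ((Multiset.toFinset_card_le _).trans ((Polynomial.card_roots' f).trans hdeg))

theorem E7_crt_bound (R : ℕ) (b : ℤ) (P p : ℕ) (hP : 0 < P) (hp : p.Prime)
    (hco : P.Coprime p) :
    ((Finset.range (P * p)).filter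
      (fun a : ℕ => (Ny R b a).Coprime P ∧ p ∣ Ny R b a)).card ≤ nu R b P * 2 := by
  have h1 : ((Finset.range (P * p)).filter
      (fun a : ℕ => (Ny R b a).Coprime P ∧ p ∣ Ny R b a)).card ≤
      (((Finset.range P).filter (fun a : ℕ => (Ny R b a).Coprime P)) ×ˢ
        ((Finset.range p).filter (fun s : ℕ => p ∣ Ny R b s))).card := by
    refine Finset.card_le_card_of_injOn (fun a : ℕ => (a % P, a % p)) ?_ ?_
    · intro a ha
      simp only [Finset.coe_filter, Finset.mem_range, Set.mem_ofPred_eq] at ha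
      simp only [Finset.coe_product, Finset.coe_filter, Finset.mem_range, Set.mem_prod,
        Set.mem_ofPred_eq]
      refine ⟨⟨Nat.mod_lt _ hP, ?_⟩, ⟨Nat.mod_lt _ hp.pos, ?_⟩⟩
      · refine (E7_cop_mod R b P ?_).mpr ha.2.1
        push_cast
        exact Int.mod_modEq _ _
      · refine (E7_dvd_mod R b p ?_).mpr ha.2.2
        push_cast
        exact Int.mod_modEq _ _
    · intro x hx y hy hxy
      simp only [Finset.coe_filter, Finset.mem_range, Set.mem_ofPred_eq] at hx hy
      simp only [Prod.mk.injEq] at hxy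
      have h2 : x ≡ y [MOD P * p] :=
        (Nat.modEq_and_modEq_iff_modEq_mul hco).mp ⟨hxy.1, hxy.2⟩
      exact Nat.ModEq.eq_of_lt_of_lt h2 hx.1 hy.1
  rw [Finset.card_product] at h1
  exact h1.trans (Nat.mul_le_mul_left _ (E7_roots_le R b p hp))

/-- TARGET 1 -/
theorem card_Om (R : ℕ) (b : ℤ) (P : ℕ) (hP : 0 < P) (a0 : ℤ) (J : ℕ) :
    (Om R b P a0 J).card = J * nu R b P := by
  unfold Om nu
  exact E7_per_count (fun a : ℤ => (Ny R b a).Coprime P) P hP
    (fun a a' h => E7_cop_mod R b P h) a0 J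

/-- TARGET 2 -/
theorem nu_pos (R Q0 W t : ℕ) (hRp : ∀ p : ℕ, p.Prime → (p ∣ R ↔ p ≤ Q0)) (hR : 0 < R)
    (ht : 1 ≤ t) : 0 < nu R ((R : ℤ) ^ t) (primorial W) := by
  classical
  have hPpos := primorial_pos W
  let P' : ℕ := ∏ p ∈ (Finset.range (W + 1)).filter (fun p => p.Prime ∧ ¬ p ∣ R), p
  have key : (Ny R ((R : ℤ) ^ t) (P' : ℤ)).Coprime (primorial W) := by
    rw [Nat.coprime_comm]
    refine Nat.coprime_of_dvd ?_
    intro p hp hpW hpN
    have hpW' : p ≤ W := hp.dvd_primorial_iff.mp hpW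
    rw [Ny, ← Int.natCast_dvd] at hpN
    have hpI : Prime (p : ℤ) := Nat.prime_iff_prime_int.mp hp
    by_cases hpR : p ∣ R
    · have h1 : (p : ℤ) ∣ (R : ℤ) := by exact_mod_cast hpR
      have h2 : (p : ℤ) ∣ (R : ℤ) ^ t := h1.trans (dvd_pow_self _ (by omega))
      have h3 : (p : ℤ) ∣ (P' : ℤ) ^ 2 := by
        have h4 : (p : ℤ) ∣ (P' : ℤ) * (R : ℤ) ^ t + R * ((R : ℤ) ^ t) ^ 2 :=
          dvd_add (h2.mul_left _) (h1.mul_right _)
        have h5 := dvd_sub hpN h4
        ring_nf at h5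
        ring_nf
        exact h5
      have h6 : (p : ℤ) ∣ (P' : ℤ) := hpI.dvd_of_dvd_pow h3
      have h7 : p ∣ P' := by exact_mod_cast h6
      obtain ⟨q, hq, hpq⟩ := (hp.prime.dvd_finsetProd_iff _).mp h7
      simp only [Finset.mem_filter] at hq
      have h8 : p = q := (Nat.prime_dvd_prime_iff_eq hp hq.2.1).mp hpq
      exact hq.2.2 (h8 ▸ hpR)
    · have h1 : p ∣ P' := by
        refine Finset.dvd_prod_of_mem (fun p : ℕ => p) ?_
        simp only [Finset.mem_filter, Finset.mem_range]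
        exact ⟨by omega, hp, hpR⟩
      have h2 : (p : ℤ) ∣ (P' : ℤ) := by exact_mod_cast h1
      have h3 : (p : ℤ) ∣ (R : ℤ) * ((R : ℤ) ^ t) ^ 2 := by
        have h4 : (p : ℤ) ∣ (P' : ℤ) ^ 2 + (P' : ℤ) * (R : ℤ) ^ t :=
          dvd_add (h2.trans (dvd_pow_self _ (by norm_num))) (h2.mul_right _)
        have h5 := dvd_sub hpN h4
        ring_nf at h5
        ring_nf
        exact h5
      have h6 : ¬ (p : ℤ) ∣ (R : ℤ) := by exact_mod_cast hpR
      rcases hpI.dvd_or_dvd h3 with h | h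
      · exact h6 h
      · exact h6 (hpI.dvd_of_dvd_pow (hpI.dvd_of_dvd_pow h))
  unfold nu
  rw [Finset.card_pos]
  refine ⟨P' % primorial W, ?_⟩
  simp only [Finset.mem_filter, Finset.mem_range]
  refine ⟨Nat.mod_lt _ hPpos, ?_⟩
  refine (E7_cop_mod R _ (primorial W) ?_).mpr key
  push_cast
  exact Int.mod_modEq _ _

theorem E7_cop_prime {W p : ℕ} (hp : p.Prime) (hW : W < p) : (primorial W).Coprime p := by
  rw [Nat.coprime_comm, hp.coprime_iff_not_dvd, hp.dvd_primorial_iff]
  omega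

/-- TARGET 3 -/
theorem full_P1 (R W J : ℕ) (b a0 : ℤ) (hW : 1 ≤ W) (hWJ : W ≤ J) (δ : ℝ)
    (hδ : 4 ≤ δ * W) (p : ℕ) (hp : p.Prime) :
    (((Om R b (primorial W) a0 J).filter (fun a : ℤ => p ∣ Ny R b a)).card : ℝ) ≤
      δ * (Om R b (primorial W) a0 J).card := by
  have hPpos := primorial_pos W
  have hWr : (1 : ℝ) ≤ W := by exact_mod_cast hW
  have hδ0 : 0 < δ := by
    by_contra h
    push Not at h
    nlinarith
  rcases Nat.lt_or_ge W p with hpW | hpW
  · have hco := E7_cop_prime hp hpW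
    have h1 : ((Om R b (primorial W) a0 J).filter (fun a : ℤ => p ∣ Ny R b a)).card ≤
        ((Finset.Ico a0 (a0 + ((J / p + 1 : ℕ) : ℤ) * ((primorial W * p : ℕ) : ℤ))).filter
          (fun a : ℤ => (Ny R b a).Coprime (primorial W) ∧ p ∣ Ny R b a)).card := by
      refine Finset.card_le_card ?_
      intro a ha
      simp only [Om, Finset.mem_filter, Finset.mem_Ico] at ha ⊢
      refine ⟨⟨ha.1.1.1, lt_of_lt_of_le ha.1.1.2 ?_⟩, ha.1.2, ha.2⟩
      have h2 : J ≤ (J / p + 1) * p := by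
        have := Nat.lt_div_mul_add (a := J) hp.pos
        rw [Nat.add_mul, Nat.one_mul]
        exact this.le
      have h3 : J * primorial W ≤ (J / p + 1) * (primorial W * p) := by
        calc J * primorial W ≤ ((J / p + 1) * p) * primorial W := Nat.mul_le_mul_right _ h2
          _ = _ := by ring
      have h4 : ((J : ℤ)) * (primorial W : ℤ) ≤
          ((J / p + 1 : ℕ) : ℤ) * ((primorial W * p : ℕ) : ℤ) := by exact_mod_cast h3
      linarith
    rw [E7_per_count (fun a : ℤ => (Ny R b a).Coprime (primorial W) ∧ p ∣ Ny R b a)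
      (primorial W * p) (Nat.mul_pos hPpos hp.pos) (fun a a' h => by
        have ha1 : a ≡ a' [ZMOD (primorial W : ℕ)] :=
          h.of_dvd (by push_cast; exact Dvd.intro _ rfl)
        have ha2 : a ≡ a' [ZMOD p] := h.of_dvd (by push_cast; exact Dvd.intro_left _ rfl)
        rw [E7_cop_mod R b _ ha1, E7_dvd_mod R b p ha2]) a0 (J / p + 1)] at h1
    have h2 := h1.trans (Nat.mul_le_mul_left _ (E7_crt_bound R b _ p hPpos hp hco))
    have h3 : (((Om R b (primorial W) a0 J).filter (fun a : ℤ => p ∣ Ny R b a)).card : ℝ) ≤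
        ((J / p + 1 : ℕ) : ℝ) * ((nu R b (primorial W) : ℝ) * 2) := by exact_mod_cast h2
    have hpr : (W : ℝ) ≤ p := by exact_mod_cast hpW.le
    have h4 : ((J / p + 1 : ℕ) : ℝ) ≤ 2 * J / W := by
      have h5 : ((J / p : ℕ) : ℝ) ≤ (J : ℝ) / p := Nat.cast_div_le
      have h6 : (J : ℝ) / p ≤ (J : ℝ) / W :=
        div_le_div_of_nonneg_left (by positivity) (by linarith) hpr
      have h7 : (1 : ℝ) ≤ (J : ℝ) / W := by
        rw [one_le_div (by linarith)]
        exact_mod_cast hWJ
      push_cast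
      calc ((J / p : ℕ) : ℝ) + 1 ≤ (J : ℝ) / W + (J : ℝ) / W := by linarith
        _ = 2 * J / W := by ring
    rw [card_Om R b _ hPpos]
    have hnu : (0 : ℝ) ≤ (nu R b (primorial W) : ℝ) := Nat.cast_nonneg _
    have hJ0 : (0 : ℝ) ≤ (J : ℝ) := Nat.cast_nonneg _
    calc (((Om R b (primorial W) a0 J).filter (fun a : ℤ => p ∣ Ny R b a)).card : ℝ)
        ≤ ((J / p + 1 : ℕ) : ℝ) * ((nu R b (primorial W) : ℝ) * 2) := h3
      _ ≤ (2 * J / W) * ((nu R b (primorial W) : ℝ) * 2) :=
          mul_le_mul_of_nonneg_right h4 (by positivity)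
      _ = (4 / W) * (J * (nu R b (primorial W) : ℝ)) := by ring
      _ ≤ δ * (J * (nu R b (primorial W) : ℝ)) := by
          refine mul_le_mul_of_nonneg_right ?_ (by positivity)
          rw [div_le_iff₀ (by linarith)]
          exact hδ
      _ = δ * ((J * nu R b (primorial W) : ℕ) : ℝ) := by push_cast; ring
  · have h1 : (Om R b (primorial W) a0 J).filter (fun a : ℤ => p ∣ Ny R b a) = ∅ := by
      rw [Finset.filter_eq_empty_iff]
      intro a ha hpa
      simp only [Om, Finset.mem_filter] at ha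
      have h2 : p ∣ primorial W := hp.dvd_primorial_iff.mpr hpW
      have h3 := Nat.dvd_gcd hpa h2
      rw [Nat.Coprime] at ha
      rw [ha.2] at h3
      exact hp.one_lt.ne' (Nat.dvd_one.mp h3)
    rw [h1, Finset.card_empty, Nat.cast_zero]
    positivity

theorem E7_card_primeFactors (n : ℕ) (hn : 1 ≤ n) :
    (n.primeFactors.card : ℝ) ≤ Real.logb 2 n := by
  have h1 : 2 ^ n.primeFactors.card ≤ n := by
    calc 2 ^ n.primeFactors.card ≤ ∏ p ∈ n.primeFactors, p := by
          rw [← Finset.prod_const]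
          exact Finset.prod_le_prod' fun p hp => (Nat.prime_of_mem_primeFactors hp).two_le
      _ ≤ n := Nat.le_of_dvd hn (Nat.prod_primeFactors_dvd n)
  have hn0 : (0 : ℝ) < n := by exact_mod_cast hn
  rw [Real.le_logb_iff_rpow_le (by norm_num) hn0, Real.rpow_natCast]
  exact_mod_cast h1

/-- TARGET 4: passing to a multiple modulus loses at most half -/
theorem nu_half (R W A n Q : ℕ) (b : ℤ) (hA : 2 ≤ A) (hn1 : 1 ≤ n) (hnA : n ≤ A)
    (hW : 8 * Real.logb 2 A ≤ W) (hQ : Q = Nat.lcm (primorial W) n) :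
    (Q : ℝ) / (primorial W) * nu R b (primorial W) ≤
      2 * (((Finset.range Q).filter (fun a : ℕ => (Ny R b a).Coprime Q)).card : ℝ) := by
  classical
  have hPpos := primorial_pos W
  set P := primorial W with hPdef
  have hPr : (0 : ℝ) < P := by exact_mod_cast hPpos
  have hAr : (2 : ℝ) ≤ A := by exact_mod_cast hA
  have hlog1 : 1 ≤ Real.logb 2 A := by
    rw [Real.le_logb_iff_rpow_le (by norm_num) (by linarith), Real.rpow_one]
    exact hAr
  have hWr : (8 : ℝ) ≤ W := by linarith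
  have hQpos : 0 < Q := by
    rw [hQ]
    exact Nat.lcm_pos hPpos hn1
  have hQr : (0 : ℝ) < Q := by exact_mod_cast hQpos
  have hPQ : P ∣ Q := hQ ▸ Nat.dvd_lcm_left _ _
  have hnQ : n ∣ Q := hQ ▸ Nat.dvd_lcm_right _ _
  obtain ⟨k, hk⟩ := hPQ
  have hkpos : 0 < k := by
    rcases Nat.eq_zero_or_pos k with h | h
    · rw [h, Nat.mul_zero] at hk; omega
    · exact h
  -- all a with norm prime to P
  have hall : ((Finset.range Q).filter (fun a : ℕ => (Ny R b a).Coprime P)).card =
      k * nu R b P := by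
    rw [hk, Nat.mul_comm P k]
    exact E7_range_count (fun a : ℤ => (Ny R b a).Coprime P) P hPpos
      (fun a a' h => E7_cop_mod R b P h) k hkpos
  have hkr : (Q : ℝ) / P = k := by
    rw [hk]
    push_cast
    field_simp
  -- bad primes
  let B : Finset ℕ := n.primeFactors.filter (fun p => W < p)
  have hBcard : (B.card : ℝ) ≤ Real.logb 2 A := by
    have h1 : (B.card : ℝ) ≤ (n.primeFactors.card : ℝ) := by
      exact_mod_cast Finset.card_le_card (Finset.filter_subset _ _)
    refine h1.trans ((E7_card_primeFactors n hn1).trans ?_)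
    have hn0 : (0 : ℝ) < n := by exact_mod_cast hn1
    exact Real.logb_le_logb_of_le (by norm_num) hn0 (by exact_mod_cast hnA)
  have hbad : ∀ p ∈ B, (((Finset.range Q).filter
      (fun a : ℕ => (Ny R b a).Coprime P ∧ p ∣ Ny R b a)).card : ℝ) ≤
      (k : ℝ) / W * (nu R b P * 2) := by
    intro p hpB
    simp only [B, Finset.mem_filter] at hpB
    have hp := Nat.prime_of_mem_primeFactors hpB.1
    have hpn := Nat.dvd_of_mem_primeFactors hpB.1
    have hco : P.Coprime p := E7_cop_prime hp hpB.2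
    have hpk : p ∣ k := by
      have h1 : p ∣ P * k := hk ▸ hpn.trans hnQ
      exact (Nat.Coprime.symm hco).dvd_of_dvd_mul_left h1
    obtain ⟨l, hl⟩ := hpk
    have hlpos : 0 < l := by
      rcases Nat.eq_zero_or_pos l with h | h
      · rw [h, Nat.mul_zero] at hl; omega
      · exact h
    have hQl : Q = l * (P * p) := by rw [hk, hl]; ring
    have h2 : ((Finset.range Q).filter
        (fun a : ℕ => (Ny R b a).Coprime P ∧ p ∣ Ny R b a)).card ≤ l * (nu R b P * 2) := by
      rw [hQl]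
      have h3 := E7_range_count (fun a : ℤ => (Ny R b a).Coprime P ∧ p ∣ Ny R b a)
        (P * p) (Nat.mul_pos hPpos hp.pos) (fun a a' h => by
          have ha1 : a ≡ a' [ZMOD P] := h.of_dvd (by push_cast; exact Dvd.intro _ rfl)
          have ha2 : a ≡ a' [ZMOD p] := h.of_dvd (by push_cast; exact Dvd.intro_left _ rfl)
          rw [E7_cop_mod R b _ ha1, E7_dvd_mod R b p ha2]) l hlpos
      rw [h3]
      exact Nat.mul_le_mul_left _ (E7_crt_bound R b P p hPpos hp hco)
    have h4 : (((Finset.range Q).filter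
        (fun a : ℕ => (Ny R b a).Coprime P ∧ p ∣ Ny R b a)).card : ℝ) ≤
        (l : ℝ) * (nu R b P * 2) := by exact_mod_cast h2
    refine h4.trans (mul_le_mul_of_nonneg_right ?_ (by positivity))
    rw [le_div_iff₀ (by linarith)]
    have h5 : (W : ℝ) ≤ p := by exact_mod_cast hpB.2.le
    have h6 : (k : ℝ) = p * l := by rw [hl]; push_cast; ring
    rw [h6]
    have hl0 : (0 : ℝ) ≤ l := Nat.cast_nonneg _
    nlinarith
  -- covering
  have hcov : (Finset.range Q).filter (fun a : ℕ => (Ny R b a).Coprime P) ⊆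
      (Finset.range Q).filter (fun a : ℕ => (Ny R b a).Coprime Q) ∪
      B.biUnion (fun p => (Finset.range Q).filter
        (fun a : ℕ => (Ny R b a).Coprime P ∧ p ∣ Ny R b a)) := by
    intro a ha
    simp only [Finset.mem_filter] at ha
    simp only [Finset.mem_union, Finset.mem_biUnion, Finset.mem_filter]
    by_cases hc : (Ny R b a).Coprime Q
    · left
      exact ⟨ha.1, hc⟩
    · right
      obtain ⟨p, hp, hp1, hp2⟩ := Nat.Prime.not_coprime_iff_dvd.mp hc
      have hpP : ¬ p ∣ P := by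
        intro h
        have h3 := Nat.dvd_gcd hp1 h
        have h4 := ha.2
        rw [Nat.Coprime] at h4
        rw [h4] at h3
        exact hp.one_lt.ne' (Nat.dvd_one.mp h3)
      have hpn : p ∣ n := by
        rw [hQ] at hp2
        rcases (Nat.Prime.dvd_mul hp).mp (hp2.trans (Nat.lcm_dvd_mul _ _)) with h | h
        · exact absurd h hpP
        · exact h
      have hpW : W < p := by
        by_contra h
        exact hpP (hp.dvd_primorial_iff.mpr (by omega))
      refine ⟨p, ?_, ha.1, ha.2, hp1⟩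
      simp only [B, Finset.mem_filter]
      exact ⟨Nat.mem_primeFactors.mpr ⟨hp, hpn, by omega⟩, hpW⟩
  have h7 := (Finset.card_le_card hcov).trans (Finset.card_union_le _ _)
  have h8 := h7.trans (Nat.add_le_add_left Finset.card_biUnion_le _)
  rw [hall] at h8
  have h9 : (k : ℝ) * nu R b P ≤
      (((Finset.range Q).filter (fun a : ℕ => (Ny R b a).Coprime Q)).card : ℝ) +
      ∑ p ∈ B, (((Finset.range Q).filter
        (fun a : ℕ => (Ny R b a).Coprime P ∧ p ∣ Ny R b a)).card : ℝ) := by exact_mod_cast h8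
  have h10 : ∑ p ∈ B, (((Finset.range Q).filter
        (fun a : ℕ => (Ny R b a).Coprime P ∧ p ∣ Ny R b a)).card : ℝ) ≤
      (B.card : ℝ) * ((k : ℝ) / W * (nu R b P * 2)) := by
    rw [← nsmul_eq_mul]
    exact Finset.sum_le_card_nsmul _ _ _ hbad
  have hX0 : (0 : ℝ) ≤ (k : ℝ) * nu R b P := by positivity
  have h11 : (B.card : ℝ) * ((k : ℝ) / W * (nu R b P * 2)) ≤ (1 / 4) * ((k : ℝ) * nu R b P) := by
    have h12 : (B.card : ℝ) / W ≤ 1 / 8 := by
      rw [div_le_iff₀ (by linarith)]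
      linarith
    calc (B.card : ℝ) * ((k : ℝ) / W * (nu R b P * 2))
        = 2 * ((B.card : ℝ) / W) * ((k : ℝ) * nu R b P) := by ring
      _ ≤ 2 * (1 / 8) * ((k : ℝ) * nu R b P) :=
          mul_le_mul_of_nonneg_right (by linarith) hX0
      _ = _ := by ring
  rw [hkr]
  linarith

end ME7
export ME7 (card_Om nu_pos full_P1 nu_half)
end Pyj
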