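import Mathlib
import Pool.Agent.Pyj.Defs2
set_option autoImplicit false
set_option maxHeartbeats 4000000

namespace Pyj
open Finset ComplexConjugate
namespace ME2
theorem exp_prime_ram_gauss (p : ℕ) [Fact p.Prime] (hp : 5 ≤ p) (lam m : ZMod p) (hm : m ≠ 0) :
    ‖∑ c : ZMod p, ZMod.stdAddChar (lam * c + m * c ^ 2)‖ ^ 2 = (p : ℝ) := by
  have h2 : (2 : ZMod p) ≠ 0 := by
    intro h
    have h' : ((2 : ℕ) : ZMod p) = 0 := by exact_mod_cast h
    rw [ZMod.natCast_eq_zero_iff] at h'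
    have := Nat.le_of_dvd (by norm_num) h'
    omega
  set T : ℂ := ∑ c : ZMod p, ZMod.stdAddChar (lam * c + m * c ^ 2) with hT
  have hTT : T * conj T = (p : ℂ) := by
    have h3 : conj T = ∑ c : ZMod p, ZMod.stdAddChar (-(lam * c + m * c ^ 2)) := by
      rw [hT, map_sum]
      apply Finset.sum_congr rfl
      intro c _
      rw [AddChar.map_neg_eq_conj]
    rw [h3, hT, Finset.sum_mul_sum, Finset.sum_comm]
    have h4 : ∀ d : ZMod p, ∑ c : ZMod p, (ZMod.stdAddChar (lam * c + m * c ^ 2) : ℂ) *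
        ZMod.stdAddChar (-(lam * d + m * d ^ 2)) =
        ∑ h : ZMod p, ZMod.stdAddChar (lam * h + m * h ^ 2 + d * (2 * m * h)) := by
      intro d
      rw [← Equiv.sum_comp (Equiv.addRight d)]
      apply Finset.sum_congr rfl
      intro h _
      rw [← AddChar.map_add_eq_mul]
      congr 1
      simp only [Equiv.coe_addRight]
      ring
    rw [Finset.sum_congr rfl (fun d _ => h4 d), Finset.sum_comm]
    have h5 : ∀ h : ZMod p, ∑ d : ZMod p,
        (ZMod.stdAddChar (lam * h + m * h ^ 2 + d * (2 * m * h)) : ℂ) =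
        if h = 0 then (p : ℂ) else 0 := by
      intro h
      have h6 : ∀ d : ZMod p, (ZMod.stdAddChar (lam * h + m * h ^ 2 + d * (2 * m * h)) : ℂ) =
          ZMod.stdAddChar (lam * h + m * h ^ 2) * ZMod.stdAddChar (d * (2 * m * h)) := by
        intro d
        rw [AddChar.map_add_eq_mul]
      rw [Finset.sum_congr rfl (fun d _ => h6 d), ← Finset.mul_sum,
        AddChar.sum_mulShift _ (ZMod.isPrimitive_stdAddChar p)]
      by_cases hh : h = 0
      · rw [if_pos hh, hh]
        simp [ZMod.card]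
      · rw [if_neg hh, if_neg (mul_ne_zero (mul_ne_zero h2 hm) hh), Nat.cast_zero, mul_zero]
    rw [Finset.sum_congr rfl (fun h _ => h5 h), Finset.sum_ite_eq', if_pos (Finset.mem_univ _)]
  have h7 : ((‖T‖ ^ 2 : ℝ) : ℂ) = ((p : ℝ) : ℂ) := by
    rw [← Complex.normSq_eq_norm_sq, ← Complex.mul_conj, hTT]
    simp
  exact_mod_cast h7

/-- TARGET: the ramified prime, Gauss sum -/
theorem exp_prime_ram (p : ℕ) [Fact p.Prime] (hp : 5 ≤ p) (lam mu r : ZMod p)
    (hnz : ¬ (lam = 0 ∧ mu = 0)) (hdisc : 1 - 4 * r = 0) (q : ℝ) (hq : 0 < q) (hq4 : q ^ 4 ≤ p) :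
    ‖∑ t ∈ Finset.univ.filter (fun t : ZMod p => t ^ 2 + t + r ≠ 0),
      ZMod.stdAddChar ((lam * t + mu) * (t ^ 2 + t + r)⁻¹)‖ * q ≤ 3 * p := by
  have h2 : (2 : ZMod p) ≠ 0 := by
    intro h
    have h' : ((2 : ℕ) : ZMod p) = 0 := by exact_mod_cast h
    rw [ZMod.natCast_eq_zero_iff] at h'
    have := Nat.le_of_dvd (by norm_num) h'
    omega
  set h : ZMod p := 2⁻¹ with hh
  have h2h : 2 * h = 1 := mul_inv_cancel₀ h2
  have hr : r = h ^ 2 := by
    have e1 : 4 * r = 1 := by linear_combination -hdisc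
    have e2 : (4 : ZMod p) * h ^ 2 = 1 := by
      have : (4 : ZMod p) * h ^ 2 = (2 * h) ^ 2 := by ring
      rw [this, h2h, one_pow]
    have h4 : (4 : ZMod p) ≠ 0 := by
      have : (4 : ZMod p) = 2 * 2 := by norm_num
      rw [this]; exact mul_ne_zero h2 h2
    exact mul_left_cancel₀ h4 (e1.trans e2.symm)
  have hsq : ∀ t : ZMod p, t ^ 2 + t + r = (t + h) ^ 2 := by
    intro t
    rw [hr]
    linear_combination (-t) * h2h
  set m : ZMod p := mu - lam * h with hm
  have hS : ∑ t ∈ Finset.univ.filter (fun t : ZMod p => t ^ 2 + t + r ≠ 0),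
      (ZMod.stdAddChar ((lam * t + mu) * (t ^ 2 + t + r)⁻¹) : ℂ) =
      ∑ c ∈ Finset.univ.filter (fun c : ZMod p => c ≠ 0),
        ZMod.stdAddChar (lam * c + m * c ^ 2) := by
    apply Finset.sum_nbij' (fun t => (t + h)⁻¹) (fun c => c⁻¹ - h)
    · intro t ht
      rw [Finset.mem_filter] at ht ⊢
      refine ⟨Finset.mem_univ _, ?_⟩
      have h3 := ht.2
      rw [hsq] at h3
      exact inv_ne_zero (fun h4 => h3 (by rw [h4]; ring))
    · intro c hc
      rw [Finset.mem_filter] at hc ⊢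
      refine ⟨Finset.mem_univ _, ?_⟩
      rw [hsq, sub_add_cancel]
      exact pow_ne_zero 2 (inv_ne_zero hc.2)
    · intro t _
      rw [inv_inv, add_sub_cancel_right]
    · intro c _
      rw [sub_add_cancel, inv_inv]
    · intro t ht
      rw [Finset.mem_filter] at ht
      have h3 := ht.2
      rw [hsq] at h3
      have h4 : t + h ≠ 0 := fun h4 => h3 (by rw [h4]; ring)
      congr 1
      rw [hsq, hm]
      field_simp
      ring
  rw [hS]
  have hfil : ∑ c ∈ Finset.univ.filter (fun c : ZMod p => c ≠ 0),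
      (ZMod.stdAddChar (lam * c + m * c ^ 2) : ℂ) =
      ∑ c : ZMod p, (ZMod.stdAddChar (lam * c + m * c ^ 2) : ℂ) - 1 := by
    rw [← Finset.sum_filter_add_sum_filter_not Finset.univ (fun c : ZMod p => c ≠ 0)
      (fun c => (ZMod.stdAddChar (lam * c + m * c ^ 2) : ℂ))]
    have h3 : Finset.univ.filter (fun c : ZMod p => ¬ c ≠ 0) = {0} := by
      ext c
      simp
    rw [h3, Finset.sum_singleton]
    simp
  rw [hfil]
  have hp0 : (0 : ℝ) < p := by
    have : 0 < p := by omega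
    exact_mod_cast this
  have hp1 : (1 : ℝ) ≤ p := by
    have : 1 ≤ p := by omega
    exact_mod_cast this
  have hbound : ‖∑ c : ZMod p, (ZMod.stdAddChar (lam * c + m * c ^ 2) : ℂ) - 1‖ ≤
      Real.sqrt p + 1 := by
    by_cases hm0 : m = 0
    · have hlam : lam ≠ 0 := by
        intro hl
        apply hnz
        refine ⟨hl, ?_⟩
        have : mu = m + lam * h := by rw [hm]; ring
        rw [this, hm0, hl]; ring
      have h3 : ∑ c : ZMod p, (ZMod.stdAddChar (lam * c + m * c ^ 2) : ℂ) = 0 := by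
        have h4 : ∀ c : ZMod p, (ZMod.stdAddChar (lam * c + m * c ^ 2) : ℂ) =
            ZMod.stdAddChar (c * lam) := by
          intro c
          congr 1
          rw [hm0]; ring
        rw [Finset.sum_congr rfl (fun c _ => h4 c),
          AddChar.sum_mulShift _ (ZMod.isPrimitive_stdAddChar p), if_neg hlam, Nat.cast_zero]
      rw [h3, zero_sub, norm_neg, norm_one]
      have := Real.sqrt_nonneg (p : ℝ)
      linarith
    · have h3 := exp_prime_ram_gauss p hp lam m hm0
      have h4 : ‖∑ c : ZMod p, (ZMod.stdAddChar (lam * c + m * c ^ 2) : ℂ)‖ = Real.sqrt p := by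
        rw [← h3, Real.sqrt_sq (norm_nonneg _)]
      calc ‖∑ c : ZMod p, (ZMod.stdAddChar (lam * c + m * c ^ 2) : ℂ) - 1‖
          ≤ ‖∑ c : ZMod p, (ZMod.stdAddChar (lam * c + m * c ^ 2) : ℂ)‖ + ‖(1 : ℂ)‖ :=
            norm_sub_le _ _
        _ = Real.sqrt p + 1 := by rw [h4, norm_one]
  have hqs : q ≤ Real.sqrt p := by
    apply Real.le_sqrt_of_sq_le
    have h3 : (q ^ 2) ^ 2 ≤ (p : ℝ) ^ 2 := by nlinarith
    exact (pow_le_pow_iff_left₀ (by positivity) hp0.le (by norm_num)).1 h3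
  have hs1 : Real.sqrt p * Real.sqrt p = p := Real.mul_self_sqrt hp0.le
  have hs0 : 0 ≤ Real.sqrt p := Real.sqrt_nonneg _
  have hsp : Real.sqrt p ≤ p := by
    rw [Real.sqrt_le_left hp0.le]
    nlinarith
  calc ‖∑ c : ZMod p, (ZMod.stdAddChar (lam * c + m * c ^ 2) : ℂ) - 1‖ * q
      ≤ (Real.sqrt p + 1) * Real.sqrt p := by
        apply mul_le_mul hbound hqs hq.le (by positivity)
    _ = p + Real.sqrt p := by rw [add_mul, hs1, one_mul]
    _ ≤ 3 * p := by linarith

end ME2
export ME2 (exp_prime_ram)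
end Pyj
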