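import Mathlib
import Pool.Agent.Pyj.Defs2
set_option autoImplicit false
set_option maxHeartbeats 4000000

namespace Pyj
open Finset ComplexConjugate
namespace ME3
theorem pp_dvd_iff (p e : ℕ) [Fact p.Prime] (he : 1 ≤ e) [NeZero (p ^ e)] (x : ZMod (p ^ e)) :
    (p : ZMod (p ^ e)) ∣ x ↔ ZMod.castHom (dvd_pow_self p (by omega : e ≠ 0)) (ZMod p) x = 0 := by
  constructor
  · rintro ⟨y, rfl⟩
    rw [map_mul, map_natCast, ZMod.natCast_self, zero_mul]
  · intro h
    have h1 : x = ((x.val : ℕ) : ZMod (p ^ e)) := (ZMod.natCast_zmod_val x).symm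
    rw [h1, map_natCast, ZMod.natCast_eq_zero_iff] at h
    obtain ⟨k, hk⟩ := h
    rw [h1, hk]
    exact ⟨k, by push_cast; ring⟩

theorem pp_P_mul (p e : ℕ) [Fact p.Prime] (he : 1 ≤ e) [NeZero (p ^ e)] (x : ZMod (p ^ e)) :
    ((p ^ (e - 1) : ℕ) : ZMod (p ^ e)) * x = 0 ↔ (p : ZMod (p ^ e)) ∣ x := by
  have hp0 : 0 < p := (Fact.out : p.Prime).pos
  have hpe : p ^ e = p ^ (e - 1) * p := by
    rw [← pow_succ]; congr 1; omega
  constructor
  · intro h
    have h1 : x = ((x.val : ℕ) : ZMod (p ^ e)) := (ZMod.natCast_zmod_val x).symm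
    rw [h1, ← Nat.cast_mul, ZMod.natCast_eq_zero_iff] at h
    have h2 : p ∣ x.val := by
      generalize x.val = y at h
      rw [hpe] at h
      exact Nat.dvd_of_mul_dvd_mul_left (pow_pos hp0 _) h
    obtain ⟨k, hk⟩ := h2
    rw [h1, hk]
    exact ⟨k, by push_cast; ring⟩
  · rintro ⟨y, rfl⟩
    rw [← mul_assoc, ← Nat.cast_mul, ← hpe, ZMod.natCast_self, zero_mul]

theorem pp_geom (p e : ℕ) [Fact p.Prime] (he : 1 ≤ e) [NeZero (p ^ e)] (x : ZMod (p ^ e)) :
    ‖∑ s ∈ range p, ZMod.stdAddChar (((p ^ (e - 1) : ℕ) : ZMod (p ^ e)) * (s : ZMod (p ^ e)) * x)‖ ≤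
      if (p : ZMod (p ^ e)) ∣ x then (p : ℝ) else 0 := by
  split_ifs with h
  · refine (norm_sum_le _ _).trans ?_
    have h1 : ∀ s ∈ range p, ‖ZMod.stdAddChar (((p ^ (e - 1) : ℕ) : ZMod (p ^ e)) * (s : ZMod (p ^ e)) * x)‖ ≤ 1 := by
      intro s _
      rw [AddChar.norm_apply]
    refine (Finset.sum_le_sum h1).trans ?_
    simp
  · set z := ZMod.stdAddChar (((p ^ (e - 1) : ℕ) : ZMod (p ^ e)) * x) with hz
    have h1 : ∀ s : ℕ, ZMod.stdAddChar (((p ^ (e - 1) : ℕ) : ZMod (p ^ e)) * (s : ZMod (p ^ e)) * x) = z ^ s := by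
      intro s
      rw [hz, ← AddChar.map_nsmul_eq_pow]
      congr 1
      rw [nsmul_eq_mul]
      ring
    simp only [h1]
    have hz1 : z ≠ 1 := by
      intro h2
      apply h
      rw [← pp_P_mul p e he x]
      apply ZMod.injective_stdAddChar
      rw [AddChar.map_zero_eq_one]
      exact h2
    have hzp : z ^ p = 1 := by
      rw [hz, ← AddChar.map_nsmul_eq_pow, nsmul_eq_mul]
      have : ((p : ℕ) : ZMod (p ^ e)) * (((p ^ (e - 1) : ℕ) : ZMod (p ^ e)) * x) = 0 := by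
        rw [← mul_assoc, mul_comm (p : ZMod (p ^ e)), mul_assoc]
        rw [pp_P_mul p e he]
        exact dvd_mul_right _ _
      rw [this, AddChar.map_zero_eq_one]
    rw [geom_sum_eq hz1, hzp, sub_self, zero_div, norm_zero]

theorem pp_unit {R : Type*} [CommRing R] (x y P : R) (hP : P * P = 0) (hx : IsUnit x) :
    IsUnit (x + P * y) := by
  obtain ⟨u, rfl⟩ := hx
  have h : ((u : R) + P * y) * ((↑u⁻¹ : R) - P * y * (↑u⁻¹ : R) * (↑u⁻¹ : R)) = 1 := by
    have hu : (u : R) * (↑u⁻¹ : R) = 1 := u.mul_inv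
    linear_combination (1 - P * y * (↑u⁻¹ : R)) * hu - y * y * (↑u⁻¹ : R) * (↑u⁻¹ : R) * hP
  exact IsUnit.of_mul_eq_one _ h

theorem pp_unit_iff {R : Type*} [CommRing R] (x y P : R) (hP : P * P = 0) :
    IsUnit (x + P * y) ↔ IsUnit x := by
  constructor
  · intro h
    have := pp_unit _ (-y) P hP h
    have e : x + P * y + P * -y = x := by ring
    rwa [e] at this
  · exact pp_unit x y P hP

theorem pp_inv {n : ℕ} (x y P : ZMod n) (hP : P * P = 0) (hx : IsUnit x) :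
    (x + P * y)⁻¹ = x⁻¹ - P * y * x⁻¹ * x⁻¹ := by
  have hu : x * x⁻¹ = 1 := ZMod.mul_inv_of_unit x hx
  have hu2 : (x + P * y) * (x + P * y)⁻¹ = 1 := ZMod.mul_inv_of_unit _ (pp_unit x y P hP hx)
  have h : (x + P * y) * (x⁻¹ - P * y * x⁻¹ * x⁻¹) = 1 := by
    linear_combination (1 - P * y * x⁻¹) * hu - y * y * x⁻¹ * x⁻¹ * hP
  calc (x + P * y)⁻¹ = (x + P * y)⁻¹ * ((x + P * y) * (x⁻¹ - P * y * x⁻¹ * x⁻¹)) := by rw [h, mul_one]
    _ = ((x + P * y) * (x + P * y)⁻¹) * (x⁻¹ - P * y * x⁻¹ * x⁻¹) := by ring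
    _ = _ := by rw [hu2, one_mul]

/-- the linearisation -/
theorem pp_lin {n : ℕ} (lam mu r t s P : ZMod n) (hP : P * P = 0) (hN : IsUnit (t ^ 2 + t + r)) :
    (lam * (t + P * s) + mu) * ((t + P * s) ^ 2 + (t + P * s) + r)⁻¹ =
      (lam * t + mu) * (t ^ 2 + t + r)⁻¹ +
        P * s * ((lam * (t ^ 2 + t + r) - (lam * t + mu) * (2 * t + 1)) *
          ((t ^ 2 + t + r)⁻¹ * (t ^ 2 + t + r)⁻¹)) := by
  have h1 : (t + P * s) ^ 2 + (t + P * s) + r = (t ^ 2 + t + r) + P * (s * (2 * t + 1)) := by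
    linear_combination s ^ 2 * hP
  rw [h1, pp_inv _ _ P hP hN]
  have hu : (t ^ 2 + t + r) * (t ^ 2 + t + r)⁻¹ = 1 := ZMod.mul_inv_of_unit _ hN
  linear_combination (-(P * s * lam * (t ^ 2 + t + r)⁻¹)) * hu -
    lam * s * s * (2 * t + 1) * (t ^ 2 + t + r)⁻¹ * (t ^ 2 + t + r)⁻¹ * hP

open Polynomial in
/-- the number of bad t -/
theorem pp_count (p e : ℕ) [Fact p.Prime] (hp : 5 ≤ p) (he : 2 ≤ e) [NeZero (p ^ e)]
    (lam mu r : ZMod (p ^ e))
    (hnz : ¬ ((p : ZMod (p ^ e)) ∣ lam ∧ (p : ZMod (p ^ e)) ∣ mu)) :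
    (Finset.univ.filter (fun t : ZMod (p ^ e) => (p : ZMod (p ^ e)) ∣
      (lam * (t ^ 2 + t + r) - (lam * t + mu) * (2 * t + 1)))).card ≤ 2 * p ^ (e - 1) := by
  have he1 : 1 ≤ e := by omega
  set φ := ZMod.castHom (dvd_pow_self p (by omega : e ≠ 0)) (ZMod p) with hφ
  have hd : ∀ x : ZMod (p ^ e), (p : ZMod (p ^ e)) ∣ x ↔ φ x = 0 := fun x => pp_dvd_iff p e he1 x
  set g : (ZMod p)[X] := C (-φ lam) * X ^ 2 + C (-2 * φ mu) * X + C (φ lam * φ r - φ mu) with hg
  have hg0 : g ≠ 0 := by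
    intro h0
    apply hnz
    have c2 : g.coeff 2 = -φ lam := by
      rw [hg]
      simp [coeff_X, coeff_C]
    have c1 : g.coeff 1 = -2 * φ mu := by
      rw [hg]
      simp [coeff_X, coeff_C]
    rw [h0, coeff_zero] at c1 c2
    constructor
    · rw [hd]
      exact neg_eq_zero.1 c2.symm
    · rw [hd]
      have h2 : (-2 : ZMod p) ≠ 0 := by
        rw [neg_ne_zero]
        intro h2
        have h3 : ((2 : ℕ) : ZMod p) = 0 := by exact_mod_cast h2
        rw [ZMod.natCast_eq_zero_iff] at h3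
        have := Nat.le_of_dvd (by norm_num) h3
        omega
      exact (mul_eq_zero.1 c1.symm).resolve_left h2
  have hgd : g.natDegree ≤ 2 := by
    rw [hg]
    exact natDegree_quadratic_le
  have hroots : g.roots.toFinset.card ≤ 2 :=
    (Multiset.toFinset_card_le _).trans ((card_roots' g).trans hgd)
  have hcard : (g.roots.toFinset ×ˢ range (p ^ (e - 1))).card ≤ 2 * p ^ (e - 1) := by
    rw [card_product, card_range]
    exact Nat.mul_le_mul_right _ hroots
  refine le_trans ?_ hcard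
  have hpe : p ^ e = p ^ (e - 1) * p := by
    rw [← pow_succ]; congr 1; omega
  apply Finset.card_le_card_of_injOn (fun t : ZMod (p ^ e) => (φ t, t.val / p))
  · intro t ht
    simp only [coe_filter, mem_univ, true_and, Set.mem_setOf_eq] at ht
    rw [hd] at ht
    simp only [coe_product, Set.mem_prod, Finset.mem_coe, Multiset.mem_toFinset, mem_roots hg0,
      IsRoot.def, mem_range]
    constructor
    · rw [hg]
      simp only [eval_add, eval_mul, eval_C, eval_pow, eval_X]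
      simp only [map_sub, map_mul, map_add, map_pow, map_one, map_ofNat] at ht
      linear_combination ht
    · have h1 := ZMod.val_lt t
      generalize t.val = y at h1
      rw [hpe] at h1
      exact Nat.div_lt_of_lt_mul (by rwa [mul_comm] at h1)
  · intro t _ t' _ h
    simp only [Prod.mk.injEq] at h
    obtain ⟨h1, h2⟩ := h
    apply ZMod.val_injective
    have h3 : t.val % p = t'.val % p := by
      have e1 : ((t.val : ℕ) : ZMod p) = ((t'.val : ℕ) : ZMod p) := by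
        have f1 : φ ((t.val : ℕ) : ZMod (p ^ e)) = ((t.val : ℕ) : ZMod p) := map_natCast φ _
        have f2 : φ ((t'.val : ℕ) : ZMod (p ^ e)) = ((t'.val : ℕ) : ZMod p) := map_natCast φ _
        rw [ZMod.natCast_zmod_val] at f1 f2
        rw [← f1, ← f2, h1]
      exact (ZMod.natCast_eq_natCast_iff' _ _ _).1 e1
    rw [← Nat.div_add_mod t.val p, ← Nat.div_add_mod t'.val p, h2, h3]

/-- TARGET: prime powers, e ≥ 2 -/
theorem exp_pp (p e : ℕ) [Fact p.Prime] (hp : 5 ≤ p) (he : 2 ≤ e) [NeZero (p ^ e)]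
    (lam mu r : ZMod (p ^ e))
    (hnz : ¬ ((p : ZMod (p ^ e)) ∣ lam ∧ (p : ZMod (p ^ e)) ∣ mu)) :
    ‖∑ t ∈ Finset.univ.filter (fun t : ZMod (p ^ e) => IsUnit (t ^ 2 + t + r)),
      ZMod.stdAddChar ((lam * t + mu) * (t ^ 2 + t + r)⁻¹)‖ ≤ 2 * (p : ℝ) ^ (e - 1) := by
  classical
  have he1 : 1 ≤ e := by omega
  have hp0 : 0 < p := (Fact.out : p.Prime).pos
  set P : ZMod (p ^ e) := ((p ^ (e - 1) : ℕ) : ZMod (p ^ e)) with hPdef
  have hP : P * P = 0 := by
    rw [hPdef, ← Nat.cast_mul, ZMod.natCast_eq_zero_iff, ← pow_add]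
    exact pow_dvd_pow p (by omega)
  set F : ZMod (p ^ e) → ℂ := fun t => if IsUnit (t ^ 2 + t + r) then
    ZMod.stdAddChar ((lam * t + mu) * (t ^ 2 + t + r)⁻¹) else 0 with hF
  rw [Finset.sum_filter]
  change ‖∑ t, F t‖ ≤ _
  have htr : ∀ s : ℕ, ∑ t, F (t + P * s) = ∑ t, F t := fun s =>
    Fintype.sum_equiv (Equiv.addRight (P * (s : ZMod (p ^ e)))) _ _ (fun t => rfl)
  have h1 : (p : ℂ) * ∑ t, F t = ∑ t, ∑ s ∈ range p, F (t + P * s) := by
    rw [Finset.sum_comm]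
    rw [Finset.sum_congr rfl (fun s _ => htr s)]
    rw [Finset.sum_const, card_range, nsmul_eq_mul]
  have h2 : ∀ t, ‖∑ s ∈ range p, F (t + P * s)‖ ≤
      if (p : ZMod (p ^ e)) ∣ (lam * (t ^ 2 + t + r) - (lam * t + mu) * (2 * t + 1)) then (p : ℝ) else 0 := by
    intro t
    have hunit : ∀ s : ZMod (p ^ e), IsUnit ((t + P * s) ^ 2 + (t + P * s) + r) ↔ IsUnit (t ^ 2 + t + r) := by
      intro s
      have e1 : (t + P * s) ^ 2 + (t + P * s) + r = (t ^ 2 + t + r) + P * (s * (2 * t + 1)) := by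
        linear_combination s ^ 2 * hP
      rw [e1]
      exact pp_unit_iff _ _ P hP
    by_cases hN : IsUnit (t ^ 2 + t + r)
    · set G := lam * (t ^ 2 + t + r) - (lam * t + mu) * (2 * t + 1) with hG
      have h3 : ∀ s : ℕ, F (t + P * s) = ZMod.stdAddChar ((lam * t + mu) * (t ^ 2 + t + r)⁻¹) *
          ZMod.stdAddChar (P * (s : ZMod (p ^ e)) * (G * ((t ^ 2 + t + r)⁻¹ * (t ^ 2 + t + r)⁻¹))) := by
        intro s
        simp only [hF]
        rw [if_pos ((hunit s).2 hN), pp_lin lam mu r t s P hP hN, AddChar.map_add_eq_mul]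
      simp only [h3]
      rw [← Finset.mul_sum, norm_mul, AddChar.norm_apply, one_mul]
      refine (pp_geom p e he1 _).trans (le_of_eq ?_)
      have h4 : (p : ZMod (p ^ e)) ∣ G * ((t ^ 2 + t + r)⁻¹ * (t ^ 2 + t + r)⁻¹) ↔
          (p : ZMod (p ^ e)) ∣ G := by
        constructor
        · rintro ⟨y, hy⟩
          have hu : (t ^ 2 + t + r) * (t ^ 2 + t + r)⁻¹ = 1 := ZMod.mul_inv_of_unit _ hN
          refine ⟨y * (t ^ 2 + t + r) ^ 2, ?_⟩
          rw [← mul_assoc, ← hy]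
          linear_combination (-G * (1 + (t ^ 2 + t + r) * (t ^ 2 + t + r)⁻¹)) * hu
        · intro h
          exact h.mul_right _
      simp only [h4]
    · have h3 : ∀ s : ℕ, F (t + P * s) = 0 := by
        intro s
        simp only [hF]
        rw [if_neg]
        rw [hunit s]
        exact hN
      simp only [h3, Finset.sum_const_zero, norm_zero]
      split_ifs <;> positivity
  have h5 : ‖(p : ℂ) * ∑ t, F t‖ ≤ (p : ℝ) * (2 * (p : ℝ) ^ (e - 1)) := by
    rw [h1]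
    refine (norm_sum_le _ _).trans ((Finset.sum_le_sum fun t _ => h2 t).trans ?_)
    rw [← Finset.sum_filter, Finset.sum_const, nsmul_eq_mul, mul_comm]
    apply mul_le_mul_of_nonneg_left _ (by positivity)
    have h6 := pp_count p e hp he lam mu r hnz
    exact_mod_cast h6
  rw [norm_mul, Complex.norm_natCast] at h5
  exact le_of_mul_le_mul_left h5 (by exact_mod_cast hp0)

end ME3
export ME3 (exp_pp)
end Pyj
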