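import Mathlib
import Pool.Agent.Pyj.Defs2
import Pool.Agent.Pyj.E1
import Pool.Agent.Pyj.E2
import Pool.Agent.Pyj.E3
set_option autoImplicit false
set_option maxHeartbeats 4000000

namespace Pyj
open Finset ComplexConjugate
namespace ME4
theorem exp_loc_unit (p e : ℕ) [Fact p.Prime] (he : 1 ≤ e) [NeZero (p ^ e)]
    (y : ZMod (p ^ e)) :
    IsUnit y ↔ (ZMod.castHom (dvd_pow_self p (by omega : e ≠ 0)) (ZMod p)) y ≠ 0 := by
  have h1 : y = ((y.val : ℕ) : ZMod (p ^ e)) := (ZMod.natCast_zmod_val y).symm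
  have h2 : (ZMod.castHom (dvd_pow_self p (by omega : e ≠ 0)) (ZMod p)) y
      = ((y.val : ℕ) : ZMod p) := by
    conv_lhs => rw [h1]
    rw [map_natCast]
  rw [h2]
  conv_lhs => rw [h1]
  rw [ZMod.isUnit_iff_coprime, Nat.coprime_pow_right_iff (by omega), Ne,
    ZMod.natCast_eq_zero_iff, Nat.coprime_comm,
    (Nat.Prime.coprime_iff_not_dvd (Fact.out : p.Prime))]

theorem exp_loc_card (p e : ℕ) [Fact p.Prime] (hp : 5 ≤ p) (he : 1 ≤ e) [NeZero (p ^ e)]
    (r : ZMod (p ^ e)) :
    (p : ℝ) ^ e ≤ 2 * ((Finset.univ.filter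
      (fun t : ZMod (p ^ e) => IsUnit (t ^ 2 + t + r))).card : ℝ) := by
  classical
  set φ := ZMod.castHom (dvd_pow_self p (by omega : e ≠ 0)) (ZMod p) with hφ
  have hval : ∀ y : ZMod (p ^ e), (φ y).val = y.val % p := by
    intro y
    have h1 : y = ((y.val : ℕ) : ZMod (p ^ e)) := (ZMod.natCast_zmod_val y).symm
    have h2 : φ y = ((y.val : ℕ) : ZMod p) := by
      conv_lhs => rw [h1]
      rw [map_natCast]
    rw [h2, ZMod.val_natCast]
  have hpe : p ^ e = p ^ (e - 1) * p := by
    rw [← pow_succ]; congr 1; omega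
  have hp0 : 0 < p := by omega
  -- nonunits
  set N := Finset.univ.filter (fun t : ZMod (p ^ e) => ¬ IsUnit (t ^ 2 + t + r)) with hN
  have himg : (N.image φ).card ≤ 2 := by
    by_cases hne : (N.image φ).Nonempty
    · obtain ⟨x0, hx0⟩ := hne
      have hroot : ∀ x ∈ N.image φ, x ^ 2 + x + φ r = 0 := by
        intro x hx
        obtain ⟨t, ht, rfl⟩ := Finset.mem_image.mp hx
        rw [hN, Finset.mem_filter] at ht
        have := ht.2
        rw [exp_loc_unit p e he, not_not] at this
        rw [← this]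
        simp only [map_add, map_pow]
        rfl
      have hsub : N.image φ ⊆ {x0, -1 - x0} := by
        intro x hx
        have h1 := hroot x hx
        have h2 := hroot x0 hx0
        have h3 : (x - x0) * (x + x0 + 1) = 0 := by linear_combination h1 - h2
        rcases mul_eq_zero.mp h3 with h | h
        · rw [Finset.mem_insert]; left; exact sub_eq_zero.mp h
        · rw [Finset.mem_insert]; right; rw [Finset.mem_singleton]; linear_combination h
      exact (Finset.card_le_card hsub).trans Finset.card_le_two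
    · rw [Finset.not_nonempty_iff_eq_empty] at hne
      rw [hne]; simp
  have hfib : ∀ a ∈ N.image φ, (N.filter (fun x => φ x = a)).card ≤ p ^ (e - 1) := by
    intro a _
    have : (N.filter (fun x => φ x = a)).card ≤ (Finset.range (p ^ (e - 1))).card := by
      refine Finset.card_le_card_of_injOn (fun x => x.val / p) ?_ ?_
      · intro x _
        have hx := ZMod.val_lt x
        simp only [Finset.coe_range, Set.mem_Iio]
        rw [Nat.div_lt_iff_lt_mul hp0, ← hpe]
        exact hx
      · intro x hx y hy hxy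
        simp only [Finset.coe_filter, Set.mem_setOf_eq] at hx hy
        have h1 := hval x
        have h2 := hval y
        rw [hx.2] at h1
        rw [hy.2] at h2
        have h3 : x.val % p = y.val % p := by rw [← h1, ← h2]
        have h4 : x.val / p = y.val / p := hxy
        apply ZMod.val_injective
        rw [← Nat.div_add_mod x.val p, ← Nat.div_add_mod y.val p, h3, h4]
    rwa [Finset.card_range] at this
  have hNc : N.card ≤ p ^ (e - 1) * 2 :=
    (Finset.card_le_mul_card_image N _ hfib).trans (Nat.mul_le_mul_left _ himg)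
  have htot : (Finset.univ.filter
      (fun t : ZMod (p ^ e) => IsUnit (t ^ 2 + t + r))).card + N.card = p ^ e := by
    rw [hN, Finset.card_filter_add_card_filter_not, Finset.card_univ, ZMod.card]
  have h5 : 5 * p ^ (e - 1) ≤ p ^ e := by
    rw [hpe, mul_comm]; exact Nat.mul_le_mul_left _ hp
  have h6 : p ^ e ≤ 2 * (Finset.univ.filter
      (fun t : ZMod (p ^ e) => IsUnit (t ^ 2 + t + r))).card := by omega
  exact_mod_cast h6

theorem exp_loc_one (p : ℕ) [Fact p.Prime] (hp : 5 ≤ p) (n : ℕ) (hn : n = p) [NeZero n]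
    (lam mu r : ZMod n)
    (hnz : ¬ ((p : ZMod n) ∣ lam ∧ (p : ZMod n) ∣ mu)) (q : ℝ) (hq : 0 < q)
    (hq4 : q ^ 4 ≤ p) :
    ‖∑ t ∈ Finset.univ.filter (fun t : ZMod n => IsUnit (t ^ 2 + t + r)),
      ZMod.stdAddChar ((lam * t + mu) * (t ^ 2 + t + r)⁻¹)‖ * q ≤ 3 * p := by
  subst hn
  have hnz' : ¬ (lam = 0 ∧ mu = 0) := by
    rintro ⟨h1, h2⟩
    apply hnz
    simp [h1, h2]
  have hset : (Finset.univ.filter (fun t : ZMod n => IsUnit (t ^ 2 + t + r)))
      = Finset.univ.filter (fun t : ZMod n => t ^ 2 + t + r ≠ 0) := by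
    ext t
    simp only [Finset.mem_filter, Finset.mem_univ, true_and, isUnit_iff_ne_zero]
  rw [hset]
  by_cases hd : 1 - 4 * r = 0
  · exact exp_prime_ram n hp lam mu r hnz' hd q hq hq4
  · exact exp_prime_disc n hp lam mu r hnz' hd q hq hq4

/-- TARGET -/
theorem exp_loc (p e : ℕ) [Fact p.Prime] (hp : 5 ≤ p) (he : 1 ≤ e) [NeZero (p ^ e)]
    (lam mu r : ZMod (p ^ e))
    (hnz : ¬ ((p : ZMod (p ^ e)) ∣ lam ∧ (p : ZMod (p ^ e)) ∣ mu)) (q : ℝ) (hq : 0 < q)
    (hq4 : q ^ 4 ≤ p) :
    ‖∑ t ∈ Finset.univ.filter (fun t : ZMod (p ^ e) => IsUnit (t ^ 2 + t + r)),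
      ZMod.stdAddChar ((lam * t + mu) * (t ^ 2 + t + r)⁻¹)‖ * q ≤
    6 * ((Finset.univ.filter (fun t : ZMod (p ^ e) => IsUnit (t ^ 2 + t + r))).card : ℝ) := by
  have hcard := exp_loc_card p e hp he r
  have h5 : (5 : ℝ) ≤ p := by exact_mod_cast hp
  rcases Nat.lt_or_ge 1 e with h2 | h2
  · have hS := exp_pp p e hp h2 lam mu r hnz
    have hqp : q ≤ p := by
      rcases le_or_gt q 1 with h | h
      · linarith
      · have : q ≤ q ^ 4 := by
          calc q = q ^ 1 := (pow_one q).symm
            _ ≤ q ^ 4 := pow_le_pow_right₀ h.le (by norm_num)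
        linarith
    have hpe : (p : ℝ) ^ e = (p : ℝ) ^ (e - 1) * p := by
      rw [← pow_succ]; congr 1; omega
    have hpos : (0 : ℝ) ≤ (p : ℝ) ^ (e - 1) := by positivity
    calc _ ≤ (2 * (p : ℝ) ^ (e - 1)) * p := by
            apply mul_le_mul hS hqp hq.le (by positivity)
      _ ≤ 6 * _ := by
        rw [mul_assoc, ← hpe]
        have : (0 : ℝ) ≤ (p : ℝ) ^ e := by positivity
        nlinarith
  · have he1 : e = 1 := by omega
    have hn : p ^ e = p := by rw [he1, pow_one]
    have h3 := exp_loc_one p hp (p ^ e) hn lam mu r hnz q hq hq4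
    have h4 : (p : ℝ) ^ e = p := by exact_mod_cast hn
    rw [h4] at hcard
    linarith

end ME4
export ME4 (exp_loc)
end Pyj
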