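import Mathlib
import Pool.Agent.Pyj.Defs2
import Pool.Agent.Pyj.E4
set_option autoImplicit false
set_option maxHeartbeats 4000000

namespace Pyj
open Finset ComplexConjugate
namespace ME5
theorem auxSumBase {M : Type*} [AddCommMonoid M] (n : ℕ) [NeZero n] (g : ZMod n → M) :
    ∑ a ∈ range n, g (a : ZMod n) = ∑ x : ZMod n, g x := by
  refine Finset.sum_nbij' (fun a => (a : ZMod n)) (fun x => x.val) ?_ ?_ ?_ ?_ ?_
  · intro a _; exact Finset.mem_univ _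
  · intro x _; exact Finset.mem_range.2 (ZMod.val_lt x)
  · intro a ha; exact ZMod.val_cast_of_lt (Finset.mem_range.1 ha)
  · intro x _; exact ZMod.natCast_zmod_val x
  · intro a _; rfl

theorem auxSumMul {M : Type*} [AddCommMonoid M] (n : ℕ) [NeZero n] (g : ZMod n → M) (d : ℕ) :
    ∑ a ∈ range (n * d), g (a : ZMod n) = d • ∑ x : ZMod n, g x := by
  induction d with
  | zero => simp
  | succ d ih =>
    rw [Nat.mul_succ, Finset.sum_range_add, ih, succ_nsmul]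
    congr 1
    rw [← auxSumBase]
    refine Finset.sum_congr rfl (fun a _ => ?_)
    congr 1
    push_cast
    simp

theorem auxUnit (R : ℕ) (b a : ℤ) (m : ℕ) :
    (Ny R b a).Coprime m ↔
      IsUnit ((a : ZMod m) ^ 2 + (a : ZMod m) * (b : ZMod m) + (R : ZMod m) * (b : ZMod m) ^ 2) := by
  have h := ZMod.coe_int_isUnit_iff_isCoprime (a ^ 2 + a * b + R * b ^ 2) m
  push_cast at h
  rw [h, Int.isCoprime_iff_gcd_eq_one, Ny, Nat.coprime_comm, Nat.Coprime]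
  simp [Int.gcd]

theorem auxUnitPow (p e : ℕ) (he : 1 ≤ e) (R : ℕ) (b a : ℤ) :
    (Ny R b a).Coprime p ↔
      IsUnit ((a : ZMod (p ^ e)) ^ 2 + (a : ZMod (p ^ e)) * (b : ZMod (p ^ e)) +
        (R : ZMod (p ^ e)) * (b : ZMod (p ^ e)) ^ 2) := by
  rw [← auxUnit, Nat.coprime_pow_right_iff (by omega)]

theorem auxInv (R : ℕ) (b a : ℤ) (m : ℕ) (h : (Ny R b a).Coprime m) :
    ∃ w : ℤ, ∀ m' : ℕ, m' ∣ m →
      ((a : ZMod m') ^ 2 + (a : ZMod m') * (b : ZMod m') + (R : ZMod m') * (b : ZMod m') ^ 2)⁻¹ =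
        (w : ZMod m') := by
  have h1 : IsCoprime (a ^ 2 + a * b + R * b ^ 2 : ℤ) (m : ℤ) := by
    rw [Int.isCoprime_iff_gcd_eq_one, Int.gcd]
    exact h
  obtain ⟨u, v, huv⟩ := h1
  refine ⟨u, fun m' hm' => ?_⟩
  apply ZMod.inv_eq_of_mul_eq_one
  have h2 : ((u * (a ^ 2 + a * b + R * b ^ 2) + v * m : ℤ) : ZMod m') = 1 := by
    rw [huv]; simp
  push_cast at h2
  have h3 : (m : ZMod m') = 0 := (ZMod.natCast_eq_zero_iff m m').2 hm'
  rw [h3] at h2
  rw [← h2]; ring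

theorem auxTerm (p g e' : ℕ) (hp : 0 < p) [NeZero (p ^ (g + e'))] [NeZero (p ^ e')] (R : ℕ) (b : ℤ)
    (l m a : ℕ) (h : (Ny R b a).Coprime p) :
    ZMod.stdAddChar (((a : ZMod (p ^ (g + e'))) * (b : ZMod (p ^ (g + e'))) * ((p ^ g * l : ℕ) : ZMod (p ^ (g + e')))
        + (b : ZMod (p ^ (g + e'))) ^ 2 * ((p ^ g * m : ℕ) : ZMod (p ^ (g + e')))) *
        ((a : ZMod (p ^ (g + e'))) ^ 2 + (a : ZMod (p ^ (g + e'))) * (b : ZMod (p ^ (g + e'))) +
          (R : ZMod (p ^ (g + e'))) * (b : ZMod (p ^ (g + e'))) ^ 2)⁻¹) =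
    ZMod.stdAddChar (((a : ZMod (p ^ e')) * (b : ZMod (p ^ e')) * (l : ZMod (p ^ e'))
        + (b : ZMod (p ^ e')) ^ 2 * (m : ZMod (p ^ e'))) *
        ((a : ZMod (p ^ e')) ^ 2 + (a : ZMod (p ^ e')) * (b : ZMod (p ^ e')) +
          (R : ZMod (p ^ e')) * (b : ZMod (p ^ e')) ^ 2)⁻¹) := by
  obtain ⟨w, hw⟩ := auxInv R b a (p ^ (g + e')) (Nat.Coprime.pow_right _ h)
  have h1 := hw (p ^ (g + e')) dvd_rfl
  have h2 := hw (p ^ e') (pow_dvd_pow _ (by omega))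
  simp only [Int.cast_natCast] at h1 h2
  rw [h1, h2]
  have e1 : ((a : ZMod (p ^ (g + e'))) * (b : ZMod (p ^ (g + e'))) * ((p ^ g * l : ℕ) : ZMod (p ^ (g + e')))
        + (b : ZMod (p ^ (g + e'))) ^ 2 * ((p ^ g * m : ℕ) : ZMod (p ^ (g + e')))) * (w : ZMod (p ^ (g + e'))) =
        ((p ^ g * ((a * b * l + b ^ 2 * m) * w) : ℤ) : ZMod (p ^ (g + e'))) := by
    push_cast; ring
  have e2 : ((a : ZMod (p ^ e')) * (b : ZMod (p ^ e')) * (l : ZMod (p ^ e'))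
        + (b : ZMod (p ^ e')) ^ 2 * (m : ZMod (p ^ e'))) * (w : ZMod (p ^ e')) =
        (((a * b * l + b ^ 2 * m) * w : ℤ) : ZMod (p ^ e')) := by
    push_cast; ring
  rw [e1, e2, ZMod.stdAddChar_coe, ZMod.stdAddChar_coe]
  congr 1
  have hpg : ((p : ℂ)) ≠ 0 := by exact_mod_cast hp.ne'
  push_cast
  field_simp
  rw [pow_add]
  ring

theorem auxVal (p e : ℕ) (hp : p.Prime) [NeZero (p ^ e)] (lam mu : ZMod (p ^ e))
    (hnz : ¬ (lam = 0 ∧ mu = 0)) : ∃ g l m : ℕ, g < e ∧ lam = ((p ^ g * l : ℕ) : ZMod (p ^ e)) ∧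
      mu = ((p ^ g * m : ℕ) : ZMod (p ^ e)) ∧ ¬ (p ∣ l ∧ p ∣ m) := by
  set d := Nat.gcd lam.val mu.val with hd
  have hd0 : d ≠ 0 := by
    intro h0
    rw [hd, Nat.gcd_eq_zero_iff] at h0
    exact hnz ⟨(ZMod.val_eq_zero lam).1 h0.1, (ZMod.val_eq_zero mu).1 h0.2⟩
  have hlt : d < p ^ e := by
    rcases Nat.eq_zero_or_pos lam.val with h0 | h0
    · have : 0 < mu.val := by
        rcases Nat.eq_zero_or_pos mu.val with h1 | h1
        · exact absurd (by rw [hd, h0, h1]; rfl) hd0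
        · exact h1
      exact lt_of_le_of_lt (Nat.le_of_dvd this (Nat.gcd_dvd_right _ _)) (ZMod.val_lt mu)
    · exact lt_of_le_of_lt (Nat.le_of_dvd h0 (Nat.gcd_dvd_left _ _)) (ZMod.val_lt lam)
  set g := d.factorization p with hg
  have hgd : p ^ g ∣ d := Nat.ordProj_dvd d p
  have hge : g < e := by
    have : p ^ g < p ^ e := lt_of_le_of_lt (Nat.le_of_dvd (Nat.pos_of_ne_zero hd0) hgd) hlt
    exact (Nat.pow_lt_pow_iff_right hp.one_lt).1 this
  obtain ⟨l, hl⟩ := hgd.trans (Nat.gcd_dvd_left lam.val mu.val)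
  obtain ⟨m, hm⟩ := hgd.trans (Nat.gcd_dvd_right lam.val mu.val)
  refine ⟨g, l, m, hge, ?_, ?_, ?_⟩
  · rw [← hl, ZMod.natCast_zmod_val]
  · rw [← hm, ZMod.natCast_zmod_val]
  · rintro ⟨⟨l', rfl⟩, ⟨m', rfl⟩⟩
    have h1 : p ^ (g + 1) ∣ d := by
      apply Nat.dvd_gcd
      · rw [hl]; exact ⟨l', by ring⟩
      · rw [hm]; exact ⟨m', by ring⟩
    exact (Nat.pow_succ_factorization_not_dvd hd0 hp) h1

/-- TARGET 1: one prime power, variable a, modulus p^f for the summation -/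
theorem exp_pf (p e f : ℕ) [Fact p.Prime] (hp : 5 ≤ p) (he : 1 ≤ e) (hef : e ≤ f)
    [NeZero (p ^ e)] (R : ℕ) (hpR : ¬ p ∣ R) (b : ℤ) (hb : ¬ (p : ℤ) ∣ b) (lam mu : ZMod (p ^ e))
    (hnz : ¬ (lam = 0 ∧ mu = 0)) (q : ℝ) (hq : 0 < q) (hq4 : q ^ 4 ≤ p) :
    ‖∑ a ∈ (Finset.range (p ^ f)).filter (fun a : ℕ => (Ny R b a).Coprime p),
      ZMod.stdAddChar (((a : ZMod (p ^ e)) * (b : ZMod (p ^ e)) * lam + (b : ZMod (p ^ e)) ^ 2 * mu) *
        ((a : ZMod (p ^ e)) ^ 2 + (a : ZMod (p ^ e)) * (b : ZMod (p ^ e)) +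
          (R : ZMod (p ^ e)) * (b : ZMod (p ^ e)) ^ 2)⁻¹)‖ * q ≤
    6 * (((Finset.range (p ^ f)).filter (fun a : ℕ => (Ny R b a).Coprime p)).card : ℝ) := by
  have hpp : p.Prime := Fact.out
  obtain ⟨g, l, m, hge, rfl, rfl, hlm⟩ := auxVal p e hpp lam mu hnz
  obtain ⟨e', rfl⟩ : ∃ e', e = g + e' := ⟨e - g, by omega⟩
  have he' : 1 ≤ e' := by omega
  haveI : NeZero (p ^ e') := ⟨pow_ne_zero _ hpp.ne_zero⟩
  rw [Finset.sum_congr rfl (fun a ha => auxTerm p g e' hpp.pos R b l m a (Finset.mem_filter.1 ha).2)]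
  classical
  obtain ⟨β, hβ⟩ : IsUnit (b : ZMod (p ^ e')) := by
    rw [ZMod.coe_int_isUnit_iff_isCoprime]
    push_cast
    apply IsCoprime.pow_left
    exact (Prime.coprime_iff_not_dvd (Nat.prime_iff_prime_int.1 hpp)).2 hb
  -- reduce to functions on ZMod
  set U : Finset (ZMod (p ^ e')) :=
    Finset.univ.filter (fun t : ZMod (p ^ e') => IsUnit (t ^ 2 + t + (R : ZMod (p ^ e')))) with hU
  set S : ℂ := ∑ t ∈ U, ZMod.stdAddChar (((l : ZMod (p ^ e')) * t + (m : ZMod (p ^ e'))) *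
    (t ^ 2 + t + (R : ZMod (p ^ e')))⁻¹) with hS
  have hfe : p ^ f = p ^ e' * p ^ (f - e') := by
    rw [← pow_add]; congr 1; omega
  have hquad : ∀ t : ZMod (p ^ e'), ((β : ZMod (p ^ e')) * t) ^ 2 + ((β : ZMod (p ^ e')) * t) * (b : ZMod (p ^ e')) +
      (R : ZMod (p ^ e')) * (b : ZMod (p ^ e')) ^ 2 = ((β ^ 2 : (ZMod (p ^ e'))ˣ) : ZMod (p ^ e')) * (t ^ 2 + t + R) := by
    intro t; rw [← hβ]; push_cast; ring
  have hunit : ∀ t : ZMod (p ^ e'), IsUnit (((β : ZMod (p ^ e')) * t) ^ 2 + ((β : ZMod (p ^ e')) * t) * (b : ZMod (p ^ e')) +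
      (R : ZMod (p ^ e')) * (b : ZMod (p ^ e')) ^ 2) ↔ IsUnit (t ^ 2 + t + (R : ZMod (p ^ e'))) := by
    intro t; rw [hquad]; exact Units.isUnit_units_mul _ _
  have hsum : ∑ a ∈ (Finset.range (p ^ f)).filter (fun a : ℕ => (Ny R b a).Coprime p),
      ZMod.stdAddChar (((a : ZMod (p ^ e')) * (b : ZMod (p ^ e')) * (l : ZMod (p ^ e'))
        + (b : ZMod (p ^ e')) ^ 2 * (m : ZMod (p ^ e'))) *
        ((a : ZMod (p ^ e')) ^ 2 + (a : ZMod (p ^ e')) * (b : ZMod (p ^ e')) +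
          (R : ZMod (p ^ e')) * (b : ZMod (p ^ e')) ^ 2)⁻¹) = p ^ (f - e') • S := by
    rw [Finset.sum_filter, hfe]
    have h1 := auxSumMul (p ^ e') (fun x : ZMod (p ^ e') =>
      if IsUnit (x ^ 2 + x * (b : ZMod (p ^ e')) + (R : ZMod (p ^ e')) * (b : ZMod (p ^ e')) ^ 2) then
        (ZMod.stdAddChar ((x * (b : ZMod (p ^ e')) * (l : ZMod (p ^ e'))
        + (b : ZMod (p ^ e')) ^ 2 * (m : ZMod (p ^ e'))) *
        (x ^ 2 + x * (b : ZMod (p ^ e')) +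
          (R : ZMod (p ^ e')) * (b : ZMod (p ^ e')) ^ 2)⁻¹) : ℂ) else 0) (p ^ (f - e'))
    have h2 : ∑ x : ZMod (p ^ e'), (if IsUnit (x ^ 2 + x * (b : ZMod (p ^ e')) + (R : ZMod (p ^ e')) * (b : ZMod (p ^ e')) ^ 2) then
        (ZMod.stdAddChar ((x * (b : ZMod (p ^ e')) * (l : ZMod (p ^ e'))
        + (b : ZMod (p ^ e')) ^ 2 * (m : ZMod (p ^ e'))) *
        (x ^ 2 + x * (b : ZMod (p ^ e')) +
          (R : ZMod (p ^ e')) * (b : ZMod (p ^ e')) ^ 2)⁻¹) : ℂ) else 0) = S := by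
      rw [hS, hU, Finset.sum_filter]
      symm
      refine Fintype.sum_equiv (Units.mulLeft β) _ _ (fun t => ?_)
      simp only [Units.mulLeft_apply]
      rw [if_congr (hunit t) rfl rfl]
      split_ifs with ht
      · congr 1
        obtain ⟨y, hy⟩ := ht
        rw [hquad, ← hy, ← Units.val_mul, ZMod.inv_coe_unit, ZMod.inv_coe_unit, mul_inv, ← hβ]
        have : (l * t + m : ZMod (p ^ e')) * ((y⁻¹ : (ZMod (p ^ e'))ˣ) : ZMod (p ^ e')) =
          (l * t + m : ZMod (p ^ e')) * ((y⁻¹ : (ZMod (p ^ e'))ˣ) : ZMod (p ^ e')) *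
            (((β ^ 2)⁻¹ * β ^ 2 : (ZMod (p ^ e'))ˣ) : ZMod (p ^ e')) := by
          rw [inv_mul_cancel]; simp
        rw [this]
        push_cast
        ring
      · rfl
    rw [← h2, ← h1]
    refine Finset.sum_congr rfl (fun a _ => ?_)
    refine if_congr ?_ rfl rfl
    have := auxUnitPow p e' he' R b a
    simpa using this
  have hcard : ((Finset.range (p ^ f)).filter (fun a : ℕ => (Ny R b a).Coprime p)).card =
      p ^ (f - e') • U.card := by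
    rw [Finset.card_filter, hfe]
    have h1 := auxSumMul (p ^ e') (fun x : ZMod (p ^ e') =>
      if IsUnit (x ^ 2 + x * (b : ZMod (p ^ e')) + (R : ZMod (p ^ e')) * (b : ZMod (p ^ e')) ^ 2) then
        1 else 0) (p ^ (f - e'))
    have h2 : ∑ x : ZMod (p ^ e'), (if IsUnit (x ^ 2 + x * (b : ZMod (p ^ e')) + (R : ZMod (p ^ e')) * (b : ZMod (p ^ e')) ^ 2) then
        1 else 0) = U.card := by
      rw [hU, Finset.card_filter]
      symm
      refine Fintype.sum_equiv (Units.mulLeft β) _ _ (fun t => ?_)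
      simp only [Units.mulLeft_apply]
      rw [if_congr (hunit t) rfl rfl]
    rw [← h2, ← h1]
    refine Finset.sum_congr rfl (fun a _ => ?_)
    refine if_congr ?_ rfl rfl
    have := auxUnitPow p e' he' R b a
    simpa using this
  have hnd : ¬ ((p : ZMod (p ^ e')) ∣ (l : ZMod (p ^ e')) ∧ (p : ZMod (p ^ e')) ∣ (m : ZMod (p ^ e'))) := by
    have key : ∀ x : ℕ, (p : ZMod (p ^ e')) ∣ (x : ZMod (p ^ e')) → p ∣ x := by
      rintro x ⟨c, hc⟩
      have h1 := congrArg (ZMod.castHom (dvd_pow_self p (by omega : e' ≠ 0)) (ZMod p)) hc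
      rw [map_mul, map_natCast, map_natCast, ZMod.natCast_self, zero_mul] at h1
      exact (ZMod.natCast_eq_zero_iff x p).1 h1
    rintro ⟨h1, h2⟩
    exact hlm ⟨key l h1, key m h2⟩
  have hloc := exp_loc p e' hp he' (l : ZMod (p ^ e')) (m : ZMod (p ^ e')) (R : ZMod (p ^ e')) hnd q hq hq4
  have hloc2 : ‖S‖ * q ≤ 6 * (U.card : ℝ) := by
    rw [hS, hU]; convert hloc
  rw [hsum, hcard, nsmul_eq_mul, norm_mul]
  have h5 : ‖((p ^ (f - e') : ℕ) : ℂ)‖ = ((p ^ (f - e') : ℕ) : ℝ) := by simp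
  rw [h5]
  have h6 : (0:ℝ) ≤ ((p ^ (f - e') : ℕ) : ℝ) := Nat.cast_nonneg _
  have h7 := mul_le_mul_of_nonneg_left hloc2 h6
  simp only [smul_eq_mul, Nat.cast_mul]
  calc _ = ((p ^ (f - e') : ℕ) : ℝ) * (‖S‖ * q) := by ring
    _ ≤ _ := h7
    _ = _ := by ring


theorem auxCopLt {p k Q0 : ℕ} (hp : p.Prime) (hk : 1 ≤ k) (hkQ : k ≤ Q0)
    (h : Q0 < p) : p.Coprime k :=
  Nat.coprime_of_lt_prime (by omega) (by omega) hp

theorem auxCrt {M : Type*} [CommSemiring M] (m1 m2 : ℕ) (h1 : 0 < m1) (h2 : 0 < m2)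
    (hc : m1.Coprime m2) (f1 f2 : ℕ → M) (hf1 : ∀ a, f1 a = f1 (a % m1))
    (hf2 : ∀ a, f2 a = f2 (a % m2)) :
    ∑ a ∈ range (m1 * m2), f1 a * f2 a = (∑ a ∈ range m1, f1 a) * (∑ a ∈ range m2, f2 a) := by
  rw [Finset.sum_mul_sum, ← Finset.sum_product']
  refine Finset.sum_nbij' (fun a => (a % m1, a % m2))
    (fun x => (Nat.chineseRemainder hc x.1 x.2 : ℕ)) ?_ ?_ ?_ ?_ ?_
  · intro a _
    exact Finset.mem_product.2 ⟨Finset.mem_range.2 (Nat.mod_lt _ h1), Finset.mem_range.2 (Nat.mod_lt _ h2)⟩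
  · intro x _
    exact Finset.mem_range.2 (Nat.chineseRemainder_lt_mul hc x.1 x.2 h1.ne' h2.ne')
  · intro a ha
    have h3 := Nat.chineseRemainder_modEq_unique hc (a := a % m1) (b := a % m2) (z := a)
      (Nat.mod_modEq a m1).symm (Nat.mod_modEq a m2).symm
    have h4 := Nat.chineseRemainder_lt_mul hc (a % m1) (a % m2) h1.ne' h2.ne'
    exact (Nat.ModEq.eq_of_lt_of_lt h3 (Finset.mem_range.1 ha) h4).symm
  · rintro ⟨x, y⟩ hx
    rw [Finset.mem_product, Finset.mem_range, Finset.mem_range] at hx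
    have h3 := (Nat.chineseRemainder hc x y).2
    refine Prod.ext ?_ ?_
    · exact (h3.1.trans (Nat.ModEq.refl x)) ▸ (Nat.mod_eq_of_lt hx.1)
    · exact (h3.2.trans (Nat.ModEq.refl y)) ▸ (Nat.mod_eq_of_lt hx.2)
  · intro a _
    exact congrArg₂ (· * ·) (hf1 a) (hf2 a)

/-- the summand for modulus N with multiplier t -/
theorem auxPh (n R : ℕ) [NeZero n] (b lam mu : ℤ) (k a : ℕ) (w : ℤ)
    (hw : ((a : ZMod n) ^ 2 + (a : ZMod n) * (b : ZMod n) + (R : ZMod n) * (b : ZMod n) ^ 2)⁻¹ =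
        (w : ZMod n)) :
    Complex.exp (2 * Real.pi * Complex.I * ((k * ph n R b lam mu a : ℝ) : ℂ)) =
      Complex.exp (2 * Real.pi * Complex.I * ((k * ((a * b * lam + b ^ 2 * mu) * w) : ℤ) : ℂ) / (n : ℂ)) := by
  rw [← ZMod.stdAddChar_coe]
  set z : ZMod n := (((a : ZMod n) * b * lam + (b : ZMod n) ^ 2 * mu) *
    ((a : ZMod n) ^ 2 + a * b + R * b ^ 2)⁻¹ : ZMod n) with hz
  have h1 : ((k * ((a * b * lam + b ^ 2 * mu) * w) : ℤ) : ZMod n) = ((k * z.val : ℕ) : ℤ) := by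
    rw [Int.cast_natCast, Nat.cast_mul, ZMod.natCast_zmod_val, hz, hw]
    push_cast
    ring
  rw [h1, ZMod.stdAddChar_coe]
  congr 1
  have h2 : ph n R b lam mu a = (z.val : ℝ) / n := by
    rw [ph, hz]; simp
  rw [h2]
  push_cast
  ring

/-- TARGET 2 -/
theorem exp_crt (Q n R Q0 : ℕ) (hQ : 0 < Q) (hn1 : 1 ≤ n) (hn : n ∣ Q) (hcop : n.Coprime R)
    (hQ0 : 5 ≤ Q0) (hR : ∀ p : ℕ, p.Prime → p ≤ Q0 → p ∣ R) (b : ℤ) (hb : IsCoprime b (n : ℤ))
    (lam mu : ℤ) (hnc : ¬ ((n : ℤ) ∣ lam ∧ (n : ℤ) ∣ mu)) (k : ℕ) (hk : 1 ≤ k) (hkQ : k ≤ Q0)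
    (q : ℝ) (hq : 0 < q) (hq4 : q ^ 4 ≤ Q0) :
    ‖∑ a ∈ (Finset.range Q).filter (fun a : ℕ => (Ny R b a).Coprime Q),
      Complex.exp (2 * Real.pi * Complex.I * ((k * ph n R b lam mu a : ℝ) : ℂ))‖ * q ≤
    6 * (((Finset.range Q).filter (fun a : ℕ => (Ny R b a).Coprime Q)).card : ℝ) := by
  classical
  -- choose the prime
  obtain ⟨p, hpp, hpn, hpe⟩ : ∃ p : ℕ, p.Prime ∧ p ∣ n ∧
      ¬ (((p ^ n.factorization p : ℕ) : ℤ) ∣ lam ∧ ((p ^ n.factorization p : ℕ) : ℤ) ∣ mu) := by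
    by_contra hcon
    push Not at hcon
    apply hnc
    have key : n ∣ Int.gcd lam mu := by
      rw [Nat.dvd_iff_prime_pow_dvd_dvd]
      intro p j hp hj
      rcases Nat.eq_zero_or_pos j with rfl | hj0
      · simp
      · have hpn : p ∣ n := (dvd_pow_self p hj0.ne').trans hj
        have h1 := hcon p hp hpn
        have h2 := h1
        have h5 : p ^ j ∣ p ^ n.factorization p :=
          pow_dvd_pow p ((hp.pow_dvd_iff_le_factorization (by omega)).1 hj)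
        apply h5.trans
        rw [← Int.natCast_dvd_natCast]
        exact Int.dvd_coe_gcd h2.1 h2.2
    rw [← Int.natCast_dvd_natCast] at key
    exact ⟨key.trans (Int.gcd_dvd_left _ _), key.trans (Int.gcd_dvd_right _ _)⟩
  have hn0 : n ≠ 0 := by omega
  have hQn : Q ≠ 0 := by omega
  set e := n.factorization p with he_def
  set f := Q.factorization p with hf_def
  have he1 : 1 ≤ e := (hpp.dvd_iff_one_le_factorization hn0).1 hpn
  have hef : e ≤ f := (Nat.factorization_le_iff_dvd hn0 hQn).2 hn p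
  set n' := n / p ^ e with hn'
  set Q' := Q / p ^ f with hQ'
  have hn_eq : p ^ e * n' = n := Nat.ordProj_mul_ordCompl_eq_self n p
  have hQ_eq : p ^ f * Q' = Q := Nat.ordProj_mul_ordCompl_eq_self Q p
  have hcn : p.Coprime n' := Nat.coprime_ordCompl hpp hn0
  have hcQ : p.Coprime Q' := Nat.coprime_ordCompl hpp hQn
  have hn'0 : n' ≠ 0 := by rintro h; rw [h, mul_zero] at hn_eq; exact hn0 hn_eq.symm
  have hQ'0 : Q' ≠ 0 := by rintro h; rw [h, mul_zero] at hQ_eq; exact hQn hQ_eq.symm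
  have hn'Q' : n' ∣ Q' := by
    have h1 : n' ∣ p ^ f * Q' := by
      rw [hQ_eq]; exact (Dvd.intro_left _ hn_eq).trans hn
    exact (Nat.Coprime.pow_right f hcn.symm).dvd_of_dvd_mul_left h1
  have hpQ0 : Q0 < p := by
    by_contra h
    push Not at h
    have h1 := hR p hpp h
    have h2 : p ∣ Nat.gcd n R := Nat.dvd_gcd hpn h1
    rw [hcop] at h2
    exact hpp.one_lt.ne' (Nat.dvd_one.1 h2)
  haveI : Fact p.Prime := ⟨hpp⟩
  haveI : NeZero n := ⟨hn0⟩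
  haveI : NeZero n' := ⟨hn'0⟩
  haveI : NeZero (p ^ e) := ⟨pow_ne_zero _ hpp.ne_zero⟩
  have hpR : ¬ p ∣ R := by
    intro h1
    have h2 : p ∣ Nat.gcd n R := Nat.dvd_gcd hpn h1
    rw [hcop] at h2
    exact hpp.one_lt.ne' (Nat.dvd_one.1 h2)
  have hbp : ¬ (p : ℤ) ∣ b := by
    intro h1
    have h2 : IsCoprime (p : ℤ) (p : ℤ) :=
      (hb.of_isCoprime_of_dvd_left h1).of_isCoprime_of_dvd_right (Int.natCast_dvd_natCast.2 hpn)
    rw [isCoprime_self] at h2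
    exact (Nat.prime_iff_prime_int.1 hpp).not_isUnit h2
  -- Bezout
  obtain ⟨u, v, huv⟩ : ∃ u v : ℤ, u * n' + v * (p ^ e : ℕ) = 1 := by
    have h1 : IsCoprime (n' : ℤ) ((p ^ e : ℕ) : ℤ) := by
      rw [Nat.isCoprime_iff_coprime]
      exact Nat.Coprime.pow_right _ hcn.symm
    obtain ⟨u, v, h⟩ := h1
    exact ⟨u, v, h⟩
  set lam1 : ZMod (p ^ e) := ((k * u * lam : ℤ) : ZMod (p ^ e)) with hlam1
  set mu1 : ZMod (p ^ e) := ((k * u * mu : ℤ) : ZMod (p ^ e)) with hmu1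
  have hnz : ¬ (lam1 = 0 ∧ mu1 = 0) := by
    rintro ⟨h1, h2⟩
    rw [hlam1, ZMod.intCast_zmod_eq_zero_iff_dvd] at h1
    rw [hmu1, ZMod.intCast_zmod_eq_zero_iff_dvd] at h2
    have hcop1 : IsCoprime ((p ^ e : ℕ) : ℤ) (k * u) := by
      apply IsCoprime.mul_right
      · rw [Nat.isCoprime_iff_coprime]
        apply Nat.Coprime.pow_left
        exact (auxCopLt hpp hk hkQ hpQ0)
      · exact ⟨v, n', by rw [← huv]; ring⟩
    exact hpe ⟨hcop1.dvd_of_dvd_mul_left h1, hcop1.dvd_of_dvd_mul_left h2⟩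
  set f1 : ℕ → ℂ := fun a => if (Ny R b a).Coprime p then
      ZMod.stdAddChar (((a : ZMod (p ^ e)) * (b : ZMod (p ^ e)) * lam1 + (b : ZMod (p ^ e)) ^ 2 * mu1) *
        ((a : ZMod (p ^ e)) ^ 2 + (a : ZMod (p ^ e)) * (b : ZMod (p ^ e)) +
          (R : ZMod (p ^ e)) * (b : ZMod (p ^ e)) ^ 2)⁻¹) else 0 with hf1
  set f2 : ℕ → ℂ := fun a => if (Ny R b a).Coprime Q' then
      ZMod.stdAddChar (((a : ZMod n') * (b : ZMod n') * ((k * v * lam : ℤ) : ZMod n') +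
        (b : ZMod n') ^ 2 * ((k * v * mu : ℤ) : ZMod n')) *
        ((a : ZMod n') ^ 2 + (a : ZMod n') * (b : ZMod n') +
          (R : ZMod n') * (b : ZMod n') ^ 2)⁻¹) else 0 with hf2
  have hmodcast : ∀ (a m M : ℕ), m ∣ M → ((a % M : ℕ) : ZMod m) = (a : ZMod m) := by
    intro a m M h
    rw [ZMod.natCast_eq_natCast_iff]
    exact (Nat.mod_modEq a M).of_dvd h
  have hNy : ∀ (a m M : ℕ), m ∣ M → ((Ny R b (a : ℤ)).Coprime m ↔ (Ny R b ((a % M : ℕ) : ℤ)).Coprime m) := by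
    intro a m M h
    rw [auxUnit, auxUnit]
    simp only [Int.cast_natCast]
    rw [hmodcast a m M h]
  have hper1 : ∀ a, f1 a = f1 (a % p ^ f) := by
    intro a
    simp only [hf1]
    rw [hmodcast a (p ^ e) (p ^ f) (pow_dvd_pow p hef)]
    exact if_congr (hNy a p (p ^ f) (dvd_pow_self p (by omega))) rfl rfl
  have hper2 : ∀ a, f2 a = f2 (a % Q') := by
    intro a
    simp only [hf2]
    rw [hmodcast a n' Q' hn'Q']
    exact if_congr (hNy a Q' Q' dvd_rfl) rfl rfl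
  have hcopow : (p ^ f).Coprime Q' := Nat.Coprime.pow_left f hcQ
  have hpf0 : 0 < p ^ f := pow_pos hpp.pos f
  have hcond : ∀ a : ℕ, (Ny R b a).Coprime Q ↔ ((Ny R b a).Coprime p ∧ (Ny R b a).Coprime Q') := by
    intro a
    rw [← hQ_eq, Nat.coprime_mul_iff_right, Nat.coprime_pow_right_iff (by omega)]
  have hterm : ∀ a : ℕ, (Ny R b a).Coprime Q →
      Complex.exp (2 * Real.pi * Complex.I * ((k * ph n R b lam mu a : ℝ) : ℂ)) = f1 a * f2 a := by
    intro a ha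
    obtain ⟨w, hw⟩ := auxInv R b a Q ha
    simp only [Int.cast_natCast] at hw
    have h1 := (hcond a).1 ha
    simp only [hf1, hf2]
    rw [if_pos h1.1, if_pos h1.2, hw (p ^ e) ((Dvd.intro _ hn_eq).trans hn),
      hw n' ((Dvd.intro_left _ hn_eq).trans hn), auxPh n R b lam mu k a w (hw n hn)]
    have e1 : ((a : ZMod (p ^ e)) * (b : ZMod (p ^ e)) * lam1 + (b : ZMod (p ^ e)) ^ 2 * mu1) *
        (w : ZMod (p ^ e)) = ((u * (k * ((a * b * lam + b ^ 2 * mu) * w)) : ℤ) : ZMod (p ^ e)) := by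
      rw [hlam1, hmu1]; push_cast; ring
    have e2 : ((a : ZMod n') * (b : ZMod n') * ((k * v * lam : ℤ) : ZMod n') +
        (b : ZMod n') ^ 2 * ((k * v * mu : ℤ) : ZMod n')) * (w : ZMod n') =
        ((v * (k * ((a * b * lam + b ^ 2 * mu) * w)) : ℤ) : ZMod n') := by
      push_cast; ring
    rw [e1, e2, ZMod.stdAddChar_coe, ZMod.stdAddChar_coe, ← Complex.exp_add]
    congr 1
    have hpC : ((p : ℂ)) ≠ 0 := by exact_mod_cast hpp.ne_zero
    have hn'C : ((n' : ℂ)) ≠ 0 := by exact_mod_cast hn'0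
    have hnC : (n : ℂ) = (p : ℂ) ^ e * (n' : ℂ) := by rw [← hn_eq]; push_cast; ring
    have huvC : (u : ℂ) * (n' : ℂ) + (v : ℂ) * (p : ℂ) ^ e = 1 := by exact_mod_cast huv
    rw [hnC]
    push_cast
    set K : ℂ := (k : ℂ) * (((a : ℂ) * (b : ℂ) * (lam : ℂ) + (b : ℂ) ^ 2 * (mu : ℂ)) * (w : ℂ)) with hK
    field_simp
    linear_combination (-K) * huvC
  have hsum : ∑ a ∈ (Finset.range Q).filter (fun a : ℕ => (Ny R b a).Coprime Q),
      Complex.exp (2 * Real.pi * Complex.I * ((k * ph n R b lam mu a : ℝ) : ℂ)) =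
      (∑ a ∈ range (p ^ f), f1 a) * (∑ a ∈ range Q', f2 a) := by
    rw [← auxCrt (p ^ f) Q' hpf0 (Nat.pos_of_ne_zero hQ'0) hcopow f1 f2 hper1 hper2, hQ_eq,
      Finset.sum_filter]
    refine Finset.sum_congr rfl (fun a _ => ?_)
    by_cases ha : (Ny R b a).Coprime Q
    · rw [if_pos ha, hterm a ha]
    · rw [if_neg ha]
      have h1 := fun h => ha ((hcond a).2 h)
      by_cases h2 : (Ny R b a).Coprime p
      · have h3 : ¬ (Ny R b a).Coprime Q' := fun h => h1 ⟨h2, h⟩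
        simp only [hf2]; rw [if_neg h3, mul_zero]
      · simp only [hf1]; rw [if_neg h2, zero_mul]
  have hcard : ((Finset.range Q).filter (fun a : ℕ => (Ny R b a).Coprime Q)).card =
      ((Finset.range (p ^ f)).filter (fun a : ℕ => (Ny R b a).Coprime p)).card *
      ((Finset.range Q').filter (fun a : ℕ => (Ny R b a).Coprime Q')).card := by
    rw [Finset.card_filter, Finset.card_filter, Finset.card_filter,
      ← auxCrt (p ^ f) Q' hpf0 (Nat.pos_of_ne_zero hQ'0) hcopow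
        (fun a => if (Ny R b a).Coprime p then 1 else 0) (fun a => if (Ny R b a).Coprime Q' then 1 else 0)
        (fun a => if_congr (hNy a p (p ^ f) (dvd_pow_self p (by omega))) rfl rfl)
        (fun a => if_congr (hNy a Q' Q' dvd_rfl) rfl rfl), hQ_eq]
    refine Finset.sum_congr rfl (fun a _ => ?_)
    by_cases ha : (Ny R b a).Coprime Q
    · rw [if_pos ha, if_pos ((hcond a).1 ha).1, if_pos ((hcond a).1 ha).2, mul_one]
    · rw [if_neg ha]
      have h1 := fun h => ha ((hcond a).2 h)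
      by_cases h2 : (Ny R b a).Coprime p
      · have h3 : ¬ (Ny R b a).Coprime Q' := fun h => h1 ⟨h2, h⟩
        rw [if_neg h3, mul_zero]
      · rw [if_neg h2, zero_mul]
  have hq4p : q ^ 4 ≤ p := hq4.trans (by exact_mod_cast hpQ0.le)
  have hS1 := exp_pf p e f (by omega) he1 hef R hpR b hbp lam1 mu1 hnz q hq hq4p
  rw [Finset.sum_filter] at hS1
  have hS2 : ‖∑ a ∈ range Q', f2 a‖ ≤ (((Finset.range Q').filter (fun a : ℕ => (Ny R b a).Coprime Q')).card : ℝ) := by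
    refine (norm_sum_le _ _).trans ?_
    rw [Finset.card_filter]
    push_cast
    refine Finset.sum_le_sum (fun a _ => ?_)
    simp only [hf2]
    split_ifs with h
    · rw [ZMod.stdAddChar_apply, Circle.norm_coe]
    · simp
  rw [hsum, hcard, norm_mul]
  have hS1' : ‖∑ a ∈ range (p ^ f), f1 a‖ * q ≤
      6 * (((Finset.range (p ^ f)).filter (fun a : ℕ => (Ny R b a).Coprime p)).card : ℝ) := hS1
  have h9 := mul_le_mul hS1' hS2 (norm_nonneg _) (mul_nonneg (by norm_num) (Nat.cast_nonneg _))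
  push_cast
  calc _ = ‖∑ a ∈ range (p ^ f), f1 a‖ * q * ‖∑ a ∈ range Q', f2 a‖ := by ring
    _ ≤ _ := h9
    _ = _ := by ring

end ME5
export ME5 (exp_pf exp_crt)
end Pyj
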