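import Mathlib
import Pool.Agent.Pyj.Defs2
import Pool.Agent.Pyj.E5
set_option autoImplicit false
set_option maxHeartbeats 4000000

namespace Pyj
open Finset ComplexConjugate
namespace ME6
/-- TARGET 1 -/
theorem block_hit0 (Q n R Q0 : ℕ) (hQ : 0 < Q) (hn1 : 1 ≤ n) (hn : n ∣ Q) (hcop : n.Coprime R)
    (hQ0 : 5 ≤ Q0) (hR : ∀ p : ℕ, p.Prime → p ≤ Q0 → p ∣ R) (b : ℤ) (hb : IsCoprime b (n : ℤ))
    (lam mu : ℤ) (hnc : ¬ ((n : ℤ) ∣ lam ∧ (n : ℤ) ∣ mu))
    (q : ℝ) (hq : 0 < q) (hq4 : q ^ 4 ≤ Q0) (ε : ℝ) (hε : 0 < ε) (K : ℕ) (hKQ : K ≤ Q0)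
    (c : ℕ → ℝ) (hc : TestFn ε K c) (hKq : 48 * (K : ℝ) ≤ ε ^ 2 * q) (x : ℝ) :
    ∃ I : Finset ℕ, I ⊆ Finset.range Q ∧
      (∀ a ∈ I, (Ny R b a).Coprime Q ∧ Near ε (x + ph n R b lam mu a)) ∧
      ε ^ 2 / (4 * K) * (((Finset.range Q).filter (fun a : ℕ => (Ny R b a).Coprime Q)).card : ℝ) ≤
        (I.card : ℝ) := by
  classical
  set S : Finset ℕ := (Finset.range Q).filter (fun a : ℕ => (Ny R b a).Coprime Q) with hS
  refine ⟨S.filter (fun a : ℕ => Near ε (x + ph n R b lam mu a)), ?_, ?_, ?_⟩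
  · intro a ha
    rw [Finset.mem_filter, hS, Finset.mem_filter] at ha
    exact ha.1.1
  · intro a ha
    rw [Finset.mem_filter, hS, Finset.mem_filter] at ha
    exact ⟨ha.1.2, ha.2⟩
  · rcases Nat.eq_zero_or_pos K with hK | hK
    · subst hK
      simp
    · have hKr : (0 : ℝ) < K := by exact_mod_cast hK
      -- upper bound
      have hup : ∑ a ∈ S, tf K c (x + ph n R b lam mu a) ≤
          ((S.filter (fun a : ℕ => Near ε (x + ph n R b lam mu a))).card : ℝ) * (2 * K) := by
        rw [← Finset.sum_filter_add_sum_filter_not S (fun a : ℕ => Near ε (x + ph n R b lam mu a))]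
        have h1 : ∑ a ∈ S.filter (fun a : ℕ => Near ε (x + ph n R b lam mu a)),
            tf K c (x + ph n R b lam mu a) ≤
            ((S.filter (fun a : ℕ => Near ε (x + ph n R b lam mu a))).card : ℝ) * (2 * K) := by
          have := Finset.sum_le_card_nsmul (S.filter (fun a : ℕ => Near ε (x + ph n R b lam mu a)))
            (fun a : ℕ => tf K c (x + ph n R b lam mu a)) (2 * K) (fun a _ => hc.top _)
          simpa [nsmul_eq_mul] using this
        have h2 : ∑ a ∈ S.filter (fun a : ℕ => ¬ Near ε (x + ph n R b lam mu a)),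
            tf K c (x + ph n R b lam mu a) ≤ 0 := by
          apply Finset.sum_nonpos
          intro a ha
          rw [Finset.mem_filter] at ha
          exact hc.neg _ ha.2
        linarith
      -- lower bound
      have hexp : ∀ k ∈ Finset.range (K + 1), k ≠ 0 →
          -(4 * (6 * (S.card : ℝ) / q)) ≤
            ∑ a ∈ S, c k * Real.cos (2 * Real.pi * k * (x + ph n R b lam mu a)) := by
        intro k hk hk0
        have hk1 : 1 ≤ k := Nat.one_le_iff_ne_zero.mpr hk0
        have hkK : k ≤ K := by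
          rw [Finset.mem_range] at hk; omega
        have hE := exp_crt Q n R Q0 hQ hn1 hn hcop hQ0 hR b hb lam mu hnc k hk1
          (hkK.trans hKQ) q hq hq4
        rw [← hS] at hE
        have hE' : ‖∑ a ∈ S, Complex.exp (2 * Real.pi * Complex.I *
            ((k * ph n R b lam mu a : ℝ) : ℂ))‖ ≤ 6 * (S.card : ℝ) / q := by
          rw [le_div_iff₀ hq]; exact hE
        have hre : ∑ a ∈ S, Real.cos (2 * Real.pi * k * (x + ph n R b lam mu a)) =
            (Complex.exp (((2 * Real.pi * k * x : ℝ) : ℂ) * Complex.I) *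
              ∑ a ∈ S, Complex.exp (2 * Real.pi * Complex.I *
                ((k * ph n R b lam mu a : ℝ) : ℂ))).re := by
          rw [Finset.mul_sum, Complex.re_sum]
          apply Finset.sum_congr rfl
          intro a _
          rw [← Complex.exp_add]
          have : ((2 * Real.pi * k * x : ℝ) : ℂ) * Complex.I + 2 * Real.pi * Complex.I *
                ((k * ph n R b lam mu a : ℝ) : ℂ) =
              ((2 * Real.pi * k * (x + ph n R b lam mu a) : ℝ) : ℂ) * Complex.I := by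
            push_cast; ring
          rw [this, Complex.exp_ofReal_mul_I_re]
        have habs : |∑ a ∈ S, Real.cos (2 * Real.pi * k * (x + ph n R b lam mu a))| ≤
            6 * (S.card : ℝ) / q := by
          rw [hre]
          refine (Complex.abs_re_le_norm _).trans ?_
          rw [norm_mul, Complex.norm_exp_ofReal_mul_I, one_mul]
          exact hE'
        rw [← Finset.mul_sum]
        have h3 : |c k * ∑ a ∈ S, Real.cos (2 * Real.pi * k * (x + ph n R b lam mu a))| ≤
            4 * (6 * (S.card : ℝ) / q) := by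
          rw [abs_mul]
          exact mul_le_mul (hc.bd k) habs (abs_nonneg _) (by norm_num)
        exact (abs_le.mp h3).1
      have hlow : (S.card : ℝ) * (ε ^ 2 / 2) ≤ ∑ a ∈ S, tf K c (x + ph n R b lam mu a) := by
        unfold tf
        rw [Finset.sum_comm, Finset.sum_range_succ']
        have h0 : ∑ a ∈ S, c 0 * Real.cos (2 * Real.pi * ((0 : ℕ) : ℝ) *
            (x + ph n R b lam mu a)) = (S.card : ℝ) * c 0 := by
          simp
        rw [h0]
        have h1 : -((K : ℝ) * (4 * (6 * (S.card : ℝ) / q))) ≤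
            ∑ k ∈ Finset.range K, ∑ a ∈ S, c (k + 1) *
              Real.cos (2 * Real.pi * ((k + 1 : ℕ) : ℝ) * (x + ph n R b lam mu a)) := by
          have := Finset.card_nsmul_le_sum (Finset.range K) (fun k => ∑ a ∈ S, c (k + 1) *
              Real.cos (2 * Real.pi * ((k + 1 : ℕ) : ℝ) * (x + ph n R b lam mu a)))
              (-(4 * (6 * (S.card : ℝ) / q))) (fun k hk => by
                refine hexp (k + 1) ?_ (by omega)
                rw [Finset.mem_range] at hk ⊢; omega)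
          rw [Finset.card_range, nsmul_eq_mul] at this
          linarith
        have h2 : (K : ℝ) * (4 * (6 * (S.card : ℝ) / q)) ≤ (S.card : ℝ) * (ε ^ 2 / 2) := by
          have h3 : 24 * (K : ℝ) / q ≤ ε ^ 2 / 2 := by
            rw [div_le_div_iff₀ hq (by norm_num)]
            nlinarith
          have h4 : (0 : ℝ) ≤ S.card := Nat.cast_nonneg _
          calc (K : ℝ) * (4 * (6 * (S.card : ℝ) / q)) = (S.card : ℝ) * (24 * (K : ℝ) / q) := by
                field_simp; ring
            _ ≤ _ := mul_le_mul_of_nonneg_left h3 h4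
        have h5 : (S.card : ℝ) * ε ^ 2 ≤ (S.card : ℝ) * c 0 :=
          mul_le_mul_of_nonneg_left hc.m0 (Nat.cast_nonneg _)
        linarith
      have hfin := hlow.trans hup
      rw [div_mul_eq_mul_div, div_le_iff₀ (by positivity)]
      nlinarith

/-- TARGET 2: the same for any interval of length Q -/
theorem block_hit (Q n R Q0 : ℕ) (hQ : 0 < Q) (hn1 : 1 ≤ n) (hn : n ∣ Q) (hcop : n.Coprime R)
    (hQ0 : 5 ≤ Q0) (hR : ∀ p : ℕ, p.Prime → p ≤ Q0 → p ∣ R) (b : ℤ) (hb : IsCoprime b (n : ℤ))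
    (lam mu : ℤ) (hnc : ¬ ((n : ℤ) ∣ lam ∧ (n : ℤ) ∣ mu))
    (q : ℝ) (hq : 0 < q) (hq4 : q ^ 4 ≤ Q0) (ε : ℝ) (hε : 0 < ε) (K : ℕ) (hKQ : K ≤ Q0)
    (c : ℕ → ℝ) (hc : TestFn ε K c) (hKq : 48 * (K : ℝ) ≤ ε ^ 2 * q) (x : ℝ) (a0 : ℤ) :
    ∃ I : Finset ℤ, I ⊆ Finset.Ico a0 (a0 + Q) ∧
      (∀ a ∈ I, (Ny R b a).Coprime Q ∧ Near ε (x + ph n R b lam mu a)) ∧
      ε ^ 2 / (4 * K) * (((Finset.range Q).filter (fun a : ℕ => (Ny R b a).Coprime Q)).card : ℝ) ≤
        (I.card : ℝ) := by
  classical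
  obtain ⟨I, hI1, hI2, hI3⟩ := block_hit0 Q n R Q0 hQ hn1 hn hcop hQ0 hR b hb lam mu hnc q hq hq4
    ε hε K hKQ c hc hKq x
  have hQz : (0 : ℤ) < Q := by exact_mod_cast hQ
  have hcong : ∀ a : ℤ, (Q : ℤ) ∣ (a0 + (a - a0) % Q) - a := by
    intro a
    have := Int.emod_add_mul_ediv (a - a0) Q
    refine ⟨-((a - a0) / Q), ?_⟩
    linarith
  have hinj : Set.InjOn (fun a : ℕ => a0 + ((a : ℤ) - a0) % Q) (I : Set ℕ) := by
    intro a ha a' ha' h
    have h1 := Finset.mem_range.mp (hI1 ha)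
    have h2 := Finset.mem_range.mp (hI1 ha')
    simp only at h
    have h3 : (Q : ℤ) ∣ (a : ℤ) - a' := by
      have e1 := hcong a
      have e2 := hcong a'
      rw [h] at e1
      have := dvd_sub e2 e1
      have h4 : a0 + ((a' : ℤ) - a0) % Q - a' - (a0 + ((a' : ℤ) - a0) % Q - a) = a - a' := by ring
      rwa [h4] at this
    have h5 : (a : ℤ) - a' = 0 := by
      apply Int.eq_zero_of_abs_lt_dvd h3
      rw [abs_lt]
      constructor <;> omega
    omega
  have hNy : ∀ a a' : ℤ, (Q : ℤ) ∣ a' - a → (Ny R b a).Coprime Q → (Ny R b a').Coprime Q := by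
    intro a a' h hc
    unfold Ny at hc ⊢
    have h1 : IsCoprime (a ^ 2 + a * b + R * b ^ 2 : ℤ) (Q : ℤ) := by
      rw [Int.isCoprime_iff_gcd_eq_one]
      unfold Nat.Coprime at hc
      rw [Int.gcd, Int.natAbs_natCast]
      exact hc
    have h2 : IsCoprime (a' ^ 2 + a' * b + R * b ^ 2 : ℤ) (Q : ℤ) := by
      obtain ⟨t, ht⟩ := h
      have : (a' ^ 2 + a' * b + R * b ^ 2 : ℤ) =
          (a ^ 2 + a * b + R * b ^ 2) + Q * (t * (a' + a + b)) := by
        have : a' = a + Q * t := by linarith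
        subst this; ring
      rw [this]
      exact IsCoprime.add_mul_left_left h1 _
    rw [Int.isCoprime_iff_gcd_eq_one] at h2
    rw [Int.gcd, Int.natAbs_natCast] at h2
    exact h2
  have hph : ∀ a a' : ℤ, (Q : ℤ) ∣ a' - a → ph n R b lam mu a' = ph n R b lam mu a := by
    intro a a' h
    have h1 : (a' : ZMod n) = (a : ZMod n) := by
      rw [ZMod.intCast_eq_intCast_iff_dvd_sub]
      have : (n : ℤ) ∣ a' - a := (Int.natCast_dvd_natCast.mpr hn).trans h
      have h2 : a - a' = -(a' - a) := by ring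
      rw [h2]
      exact (dvd_neg).mpr this
    unfold ph
    rw [h1]
  refine ⟨I.image (fun a : ℕ => a0 + ((a : ℤ) - a0) % Q), ?_, ?_, ?_⟩
  · intro z hz
    rw [Finset.mem_image] at hz
    obtain ⟨a, ha, rfl⟩ := hz
    rw [Finset.mem_Ico]
    have h1 := Int.emod_nonneg ((a : ℤ) - a0) hQz.ne'
    have h2 := Int.emod_lt_of_pos ((a : ℤ) - a0) hQz
    constructor <;> omega
  · intro z hz
    rw [Finset.mem_image] at hz
    obtain ⟨a, ha, rfl⟩ := hz
    obtain ⟨h1, h2⟩ := hI2 a ha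
    refine ⟨hNy a _ (hcong a) h1, ?_⟩
    rw [hph a _ (hcong a)]
    exact h2
  · rw [Finset.card_image_of_injOn hinj]
    exact hI3

end ME6
export ME6 (block_hit0 block_hit)
end Pyj
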