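import Mathlib
import Pool.Agent.Pyj.Defs2
import Pool.Agent.Pyj.E6
import Pool.Agent.Pyj.E7
set_option autoImplicit false
set_option maxHeartbeats 4000000

namespace Pyj
open Finset ComplexConjugate
namespace ME8
/-- TARGET 1 -/
theorem gv_lip (R : ℕ) (hR : 1 ≤ R) (b : ℤ) (hb : 0 < b) (a a' : ℤ) :
    ‖gv R b a - gv R b a'‖ ≤ 4 * |(a : ℝ) - a'| / b := by
  have hbR : (0 : ℝ) < b := by exact_mod_cast hb
  have hR' : (1 : ℝ) ≤ R := by exact_mod_cast hR
  have him : ∀ c : ℤ, (b : ℝ) / 2 ≤ ‖yv R b c‖ := by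
    intro c
    have h1 : (yv R b c).im = b * (Real.sqrt (4 * R - 1) / 2) := by
      simp [yv, om]
    have h2 : 1 ≤ Real.sqrt (4 * R - 1) := by
      rw [Real.one_le_sqrt]; linarith
    have h3 := Complex.abs_im_le_norm (yv R b c)
    rw [h1] at h3
    refine le_trans ?_ ((le_abs_self _).trans h3)
    nlinarith
  have hne : ∀ c : ℤ, yv R b c ≠ 0 := by
    intro c h
    have := him c
    rw [h, norm_zero] at this
    linarith
  have hcne : ∀ c : ℤ, conj (yv R b c) ≠ 0 := by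
    intro c
    rw [Ne, map_eq_zero]
    exact hne c
  have hδ : yv R b a - yv R b a' = (((a : ℝ) - a' : ℝ) : ℂ) := by
    simp only [yv]; push_cast; ring
  have hδ' : conj (yv R b a) - conj (yv R b a') = (((a : ℝ) - a' : ℝ) : ℂ) := by
    rw [← map_sub, hδ, Complex.conj_ofReal]
  have e : gv R b a - gv R b a' = (((a : ℝ) - a' : ℝ) : ℂ) * (conj (yv R b a') - yv R b a') /
      (conj (yv R b a) * conj (yv R b a')) := by
    unfold gv
    rw [div_sub_div _ _ (hcne a) (hcne a')]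
    congr 1
    linear_combination (conj (yv R b a')) * hδ - (yv R b a') * hδ'
  rw [e, norm_div, norm_mul, norm_mul, Complex.norm_real, Complex.norm_conj, Complex.norm_conj,
    Real.norm_eq_abs, div_le_div_iff₀ (mul_pos (norm_pos_iff.2 (hne a)) (norm_pos_iff.2 (hne a'))) hbR]
  have h1 : ‖conj (yv R b a') - yv R b a'‖ ≤ 2 * ‖yv R b a'‖ := by
    refine (norm_sub_le _ _).trans ?_
    rw [Complex.norm_conj]; linarith
  have h2 := him a
  have h3 := norm_nonneg (yv R b a')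
  calc |(a : ℝ) - a'| * ‖conj (yv R b a') - yv R b a'‖ * b
      ≤ |(a : ℝ) - a'| * (2 * ‖yv R b a'‖) * b := by gcongr
    _ = 4 * |(a : ℝ) - a'| * ((b : ℝ) / 2 * ‖yv R b a'‖) := by ring
    _ ≤ 4 * |(a : ℝ) - a'| * (‖yv R b a‖ * ‖yv R b a'‖) := by gcongr

/-- TARGET 2 -/
theorem full_P2 (R Q0 W A J : ℕ) (hR1 : 1 ≤ R) (hA : 2 ≤ A) (hQ0 : 5 ≤ Q0)
    (hR : ∀ p : ℕ, p.Prime → p ≤ Q0 → p ∣ R)
    (hW : 8 * Real.logb 2 A ≤ W) (hJ : 2 * A ≤ J) (n : ℕ) (hn1 : 1 ≤ n) (hnA : n ≤ A)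
    (hcop : n.Coprime R) (b : ℤ) (hb0 : 0 < b) (hb : IsCoprime b (n : ℤ))
    (lam mu : ℤ) (hnc : ¬ ((n : ℤ) ∣ lam ∧ (n : ℤ) ∣ mu))
    (q : ℝ) (hq : 0 < q) (hq4 : q ^ 4 ≤ Q0) (ε : ℝ) (hε : 0 < ε) (K : ℕ) (hKQ : K ≤ Q0)
    (c : ℕ → ℝ) (hc : TestFn ε K c) (hKq : 48 * (K : ℝ) ≤ ε ^ 2 * q) (x : ℝ) (a0 : ℤ)
    (t : ℂ) (T v : ℝ) (hT : ‖t‖ ≤ T) (hv : 4 * T * (primorial W * A) ≤ v * b) :
    ∃ I : Finset ℤ, I ⊆ Om R b (primorial W) a0 J ∧
      (∀ a ∈ I, Near (ε + v) ((t * gv R b a).re + x + ph n R b lam mu a)) ∧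
      ε ^ 2 / (16 * K) * ((Om R b (primorial W) a0 J).card : ℝ) ≤ (I.card : ℝ) := by
  have hP : 0 < primorial W := primorial_pos W
  set P := primorial W with hPdef
  set Q := Nat.lcm P n with hQdef
  have hQ : 0 < Q := Nat.lcm_pos hP hn1
  obtain ⟨n', hn'⟩ : P ∣ Q := Nat.dvd_lcm_left P n
  have hn'1 : 1 ≤ n' := by
    rcases Nat.eq_zero_or_pos n' with h | h
    · rw [h, mul_zero] at hn'; omega
    · exact h
  have hn'n : n' ≤ n := by
    have h1 : Q ≤ P * n := Nat.le_of_dvd (Nat.mul_pos hP hn1) (Nat.lcm_dvd_mul P n)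
    rw [hn'] at h1
    exact Nat.le_of_mul_le_mul_left h1 hP
  have hn'A : n' ≤ A := hn'n.trans hnA
  set J' := J / n' with hJ'
  have hJ'1 : J' * n' ≤ J := Nat.div_mul_le_self J n'
  have hJ'2 : J ≤ 2 * (J' * n') := by
    have h0 := Nat.div_add_mod J n'
    rw [← hJ', mul_comm] at h0
    have h1 := Nat.mod_lt J hn'1
    omega
  have hblk := fun i : ℕ => block_hit Q n R Q0 hQ hn1 (Nat.dvd_lcm_right P n) hcop hQ0 hR b hb
    lam mu hnc q hq hq4 ε hε K hKQ c hc hKq ((t * gv R b (a0 + i * Q)).re + x) (a0 + i * Q)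
  choose I hIsub hIprop hIcard using hblk
  have hbR : (0 : ℝ) < b := by exact_mod_cast hb0
  have hT0 : 0 ≤ T := (norm_nonneg t).trans hT
  refine ⟨(Finset.range J').biUnion I, ?_, ?_, ?_⟩
  · intro a ha
    obtain ⟨i, hi, hai⟩ := Finset.mem_biUnion.1 ha
    rw [Finset.mem_range] at hi
    have h1 := Finset.mem_Ico.1 (hIsub i hai)
    unfold Om
    rw [Finset.mem_filter, Finset.mem_Ico]
    refine ⟨⟨?_, ?_⟩, ?_⟩
    · have : (0 : ℤ) ≤ i * Q := by positivity
      linarith [h1.1]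
    · have h2 : (i + 1) * Q ≤ J * P := by
        calc (i + 1) * Q ≤ J' * Q := Nat.mul_le_mul_right _ hi
          _ = (J' * n') * P := by rw [hn']; ring
          _ ≤ J * P := Nat.mul_le_mul_right _ hJ'1
      have h3 : ((i : ℤ) + 1) * Q ≤ J * P := by exact_mod_cast h2
      have h4 := h1.2
      nlinarith
    · exact Nat.Coprime.coprime_dvd_right ⟨n', hn'⟩ (hIprop i a hai).1
  · intro a ha
    obtain ⟨i, hi, hai⟩ := Finset.mem_biUnion.1 ha
    obtain ⟨k, hk⟩ := (hIprop i a hai).2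
    have h1 := Finset.mem_Ico.1 (hIsub i hai)
    refine ⟨k, ?_⟩
    have h2 : |(t * gv R b a).re - (t * gv R b (a0 + i * Q)).re| ≤ v := by
      rw [← Complex.sub_re, ← mul_sub]
      refine (Complex.abs_re_le_norm _).trans ?_
      rw [norm_mul]
      have h3 := gv_lip R hR1 b hb0 a (a0 + i * Q)
      have h4 : |(a : ℝ) - ((a0 + i * Q : ℤ) : ℝ)| ≤ P * A := by
        have h5 : (0 : ℝ) ≤ (a : ℝ) - ((a0 + i * Q : ℤ) : ℝ) := by
          have : ((a0 + i * Q : ℤ) : ℝ) ≤ a := by exact_mod_cast h1.1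
          linarith
        rw [abs_of_nonneg h5]
        have h6 : (a : ℝ) < ((a0 + i * Q : ℤ) : ℝ) + Q := by exact_mod_cast h1.2
        have h7 : (Q : ℝ) ≤ P * A := by
          rw [hn']
          push_cast
          gcongr
        linarith
      calc ‖t‖ * ‖gv R b a - gv R b (a0 + i * Q)‖ ≤ T * (4 * (P * A) / b) := by
            refine mul_le_mul hT (h3.trans ?_) (norm_nonneg _) hT0
            gcongr
        _ = 4 * T * (P * A) / b := by ring
        _ ≤ v := by rw [div_le_iff₀ hbR]; exact hv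
    have h8 : (t * gv R b a).re + x + ph n R b lam mu a - k =
        ((t * gv R b a).re - (t * gv R b (a0 + i * Q)).re) +
        ((t * gv R b (a0 + i * Q)).re + x + ph n R b lam mu a - k) := by ring
    rw [h8]
    refine (abs_add_le _ _).trans ?_
    linarith
  · have hdisj : Set.PairwiseDisjoint ((Finset.range J' : Finset ℕ) : Set ℕ) I := by
      intro i _ j _ hij
      rw [Function.onFun, Finset.disjoint_left]
      intro a hai haj
      have h1 := Finset.mem_Ico.1 (hIsub i hai)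
      have h2 := Finset.mem_Ico.1 (hIsub j haj)
      have hQZ : (0 : ℤ) < Q := by exact_mod_cast hQ
      rcases lt_or_gt_of_ne hij with h | h
      · have h3 : (i : ℤ) + 1 ≤ j := by exact_mod_cast h
        nlinarith [mul_le_mul_of_nonneg_right h3 hQZ.le]
      · have h3 : (j : ℤ) + 1 ≤ i := by exact_mod_cast h
        nlinarith [mul_le_mul_of_nonneg_right h3 hQZ.le]
    rw [Finset.card_biUnion hdisj, card_Om R b P hP a0 J]
    push_cast
    have hnu := nu_half R W A n Q b hA hn1 hnA hW hQdef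
    set U : ℝ := (((Finset.range Q).filter (fun a : ℕ => (Ny R b a).Coprime Q)).card : ℝ) with hU
    have hsum : (J' : ℝ) * (ε ^ 2 / (4 * K) * U) ≤ ∑ i ∈ Finset.range J', ((I i).card : ℝ) := by
      calc (J' : ℝ) * (ε ^ 2 / (4 * K) * U) = ∑ i ∈ Finset.range J', ε ^ 2 / (4 * K) * U := by
            rw [Finset.sum_const, Finset.card_range, nsmul_eq_mul]
        _ ≤ _ := Finset.sum_le_sum fun i _ => hIcard i
    refine le_trans ?_ hsum
    have hPR : (0 : ℝ) < P := by exact_mod_cast hP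
    have hnu2 : (n' : ℝ) * nu R b P ≤ 2 * U := by
      have h1 : (Q : ℝ) / P = n' := by
        rw [hn']; push_cast; field_simp
      rw [← h1]
      exact hnu
    have hJR : (J : ℝ) ≤ 2 * (J' * n') := by exact_mod_cast hJ'2
    have hnu0 : (0 : ℝ) ≤ nu R b P := by positivity
    have hmain : (J : ℝ) * nu R b P ≤ 4 * (J' * U) := by
      calc (J : ℝ) * nu R b P ≤ (2 * (J' * n')) * nu R b P := by gcongr
        _ = 2 * J' * (n' * nu R b P) := by ring
        _ ≤ 2 * J' * (2 * U) := by gcongr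
        _ = _ := by ring
    calc ε ^ 2 / (16 * K) * (J * nu R b P) ≤ ε ^ 2 / (16 * K) * (4 * (J' * U)) := by gcongr
      _ = J' * (ε ^ 2 / (4 * K) * U) := by
        rcases Nat.eq_zero_or_pos K with h | h
        · simp [h]
        · have : (K : ℝ) ≠ 0 := by exact_mod_cast h.ne'
          field_simp
          ring

end ME8
export ME8 (gv_lip full_P2)
end Pyj
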