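import Mathlib
import Pool.Agent.Pyj.Defs2
set_option autoImplicit false
set_option maxHeartbeats 4000000

namespace Pyj
open Finset ComplexConjugate
namespace ME9
/-- the circle parametrisation -/
noncomputable def arc_g (s : ℝ) : ℂ := ((s : ℂ) + Complex.I) / ((s : ℂ) - Complex.I)

lemma arc_ne (s : ℝ) : (s : ℂ) - Complex.I ≠ 0 := by
  intro h
  have := congrArg Complex.im h
  simp at this

lemma arc_norm_ge (s : ℝ) : 1 ≤ ‖(s : ℂ) - Complex.I‖ := by
  have h := Complex.abs_im_le_norm ((s : ℂ) - Complex.I)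
  simpa using h

lemma arc_lip (s s' : ℝ) : ‖arc_g s - arc_g s'‖ ≤ 2 * |s - s'| := by
  have h1 := arc_ne s
  have h2 := arc_ne s'
  have h3 : arc_g s - arc_g s' = (-2 * Complex.I * ((s : ℂ) - s')) /
      (((s : ℂ) - Complex.I) * ((s' : ℂ) - Complex.I)) := by
    unfold arc_g
    field_simp
    ring
  rw [h3, norm_div, norm_mul, norm_mul, norm_mul]
  have h4 : ‖(s : ℂ) - s'‖ = |s - s'| := by
    rw [← Complex.ofReal_sub, Complex.norm_real, Real.norm_eq_abs]
  rw [h4]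
  have h5 := arc_norm_ge s
  have h6 := arc_norm_ge s'
  have h7 : 1 ≤ ‖(s : ℂ) - Complex.I‖ * ‖(s' : ℂ) - Complex.I‖ := by nlinarith
  rw [div_le_iff₀ (by linarith)]
  have h8 : ‖(-2 : ℂ)‖ * ‖Complex.I‖ = 2 := by simp
  rw [h8]
  have := abs_nonneg (s - s')
  nlinarith

/-- the real part -/
noncomputable def arc_h (t : ℂ) (s : ℝ) : ℝ := (t * arc_g s).re

lemma arc_h_lip (t : ℂ) (s s' : ℝ) : |arc_h t s - arc_h t s'| ≤ 2 * ‖t‖ * |s - s'| := by
  unfold arc_h
  rw [← Complex.sub_re, ← mul_sub]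
  refine (Complex.abs_re_le_norm _).trans ?_
  rw [norm_mul]
  have := mul_le_mul_of_nonneg_left (arc_lip s s') (norm_nonneg t)
  linarith

lemma arc_h_cont (t : ℂ) : Continuous (arc_h t) := by
  unfold arc_h arc_g
  refine Complex.continuous_re.comp (continuous_const.mul ?_)
  refine Continuous.div (by fun_prop) (by fun_prop) arc_ne

lemma arc_h_val (t : ℂ) (s : ℝ) :
    arc_h t s = (t.re * (s ^ 2 - 1) - 2 * t.im * s) / (s ^ 2 + 1) := by
  have h1 : arc_g s = (((s ^ 2 - 1) / (s ^ 2 + 1) : ℝ) : ℂ) +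
      ((2 * s / (s ^ 2 + 1) : ℝ) : ℂ) * Complex.I := by
    unfold arc_g
    have h2 := arc_ne s
    have h3 : ((s : ℂ) ^ 2 + 1) ≠ 0 := by
      have : (s : ℝ) ^ 2 + 1 ≠ 0 := by positivity
      exact_mod_cast this
    push_cast
    rw [div_eq_iff h2]
    field_simp
    linear_combination (2 * (s : ℂ)) * Complex.I_sq
  unfold arc_h
  rw [h1]
  simp only [Complex.mul_re, Complex.add_re, Complex.add_im, Complex.ofReal_re, Complex.ofReal_im,
    Complex.I_re, Complex.I_im, Complex.mul_im]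
  ring


/-- the rotation `gv` in terms of the circle parametrisation -/
lemma arc_gv (R : ℕ) (hR : 4 ≤ R) (b a : ℤ) (hb : 0 < b) :
    gv R b a = arc_g ((2 * a + b) / (b * Real.sqrt (4 * R - 1))) := by
  have hR' : (4 : ℝ) ≤ R := by exact_mod_cast hR
  have hb' : (0 : ℝ) < b := by exact_mod_cast hb
  have hq : 0 < Real.sqrt (4 * R - 1) := Real.sqrt_pos.2 (by linarith)
  set q := Real.sqrt (4 * R - 1) with hqd
  set s : ℝ := (2 * a + b) / (b * q) with hs
  have hbq : (b : ℝ) * q ≠ 0 := by positivity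
  have h1 : yv R b a = (((b * q / 2 : ℝ)) : ℂ) * ((s : ℂ) + Complex.I) := by
    apply Complex.ext
    · unfold yv om
      simp
      rw [hs]
      field_simp
    · unfold yv om
      simp
      ring
  have h2 : conj (yv R b a) = (((b * q / 2 : ℝ)) : ℂ) * ((s : ℂ) - Complex.I) := by
    rw [h1, map_mul, map_add, Complex.conj_ofReal, Complex.conj_ofReal, Complex.conj_I]
    ring
  unfold gv arc_g
  rw [h2, h1]
  apply mul_div_mul_left
  have : (b * q / 2 : ℝ) ≠ 0 := by positivity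
  exact_mod_cast this

/-- the range of `h` -/
lemma arc_range (t : ℂ) : ∃ κ : ℝ, (κ = 1 ∨ κ = -1) ∧ ∀ v : ℝ, 0 ≤ v → v ≤ ‖t‖ →
    ∃ s : ℝ, -1 ≤ s ∧ s ≤ 1 ∧ arc_h t s = κ * v := by
  have hconn : (arc_h t '' Set.Icc (-1) 1).OrdConnected :=
    (isPreconnected_Icc.image _ (arc_h_cont t).continuousOn).ordConnected
  have hm1 : arc_h t (-1) = t.im := by
    rw [arc_h_val]; norm_num; try ring
  have hp1 : arc_h t 1 = -t.im := by
    rw [arc_h_val]; norm_num; try ring
  have hmem1 : t.im ∈ arc_h t '' Set.Icc (-1) 1 := ⟨-1, by norm_num, hm1⟩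
  have hmem2 : -t.im ∈ arc_h t '' Set.Icc (-1) 1 := ⟨1, by norm_num, hp1⟩
  have h0 : (0 : ℝ) ∈ arc_h t '' Set.Icc (-1) 1 := by
    rcases le_total 0 t.im with h | h
    · exact hconn.out hmem2 hmem1 ⟨by linarith, h⟩
    · exact hconn.out hmem1 hmem2 ⟨h, by linarith⟩
  -- the extreme value
  obtain ⟨κ, hκ, hκx⟩ : ∃ κ : ℝ, (κ = 1 ∨ κ = -1) ∧ κ * t.re ≤ 0 := by
    rcases le_total 0 t.re with h | h
    · exact ⟨-1, Or.inr rfl, by linarith⟩
    · exact ⟨1, Or.inl rfl, by linarith⟩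
  have hκ2 : κ ^ 2 = 1 := by
    rcases hκ with h | h <;> rw [h] <;> norm_num
  have hN : κ * ‖t‖ ∈ arc_h t '' Set.Icc (-1) 1 := by
    rcases eq_or_lt_of_le (norm_nonneg t) with h | hpos
    · rw [← h, mul_zero]; exact h0
    · have hn2 : ‖t‖ ^ 2 = t.re ^ 2 + t.im ^ 2 := by
        rw [Complex.sq_norm, Complex.normSq_apply]; ring
      set N := ‖t‖ with hNd
      set u := N - κ * t.re with hu
      have hu0 : 0 < u := by rw [hu]; linarith
      have huN : N ≤ u := by rw [hu]; linarith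
      have hyN : t.im ^ 2 ≤ u ^ 2 := by nlinarith [sq_nonneg t.re]
      have hyu : |t.im| ≤ u := abs_le_of_sq_le_sq hyN hu0.le
      refine ⟨-(κ * t.im) / u, ⟨?_, ?_⟩, ?_⟩
      · rw [le_div_iff₀ hu0]
        rw [abs_le] at hyu
        rcases hκ with h | h <;> rw [h] <;> linarith [hyu.1, hyu.2]
      · rw [div_le_iff₀ hu0]
        rw [abs_le] at hyu
        rcases hκ with h | h <;> rw [h] <;> linarith [hyu.1, hyu.2]
      · rw [arc_h_val]
        have h5 : (-(κ * t.im) / u) ^ 2 + 1 = 2 * N / u := by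
          have : t.im ^ 2 + u ^ 2 = 2 * N * u := by
            have e1 : t.im ^ 2 = N ^ 2 - t.re ^ 2 := by linarith
            rw [e1, hu]
            nlinarith
          rw [div_pow, neg_sq, mul_pow, hκ2, one_mul]
          field_simp
          linarith
        have h6 : t.re * ((-(κ * t.im) / u) ^ 2 - 1) - 2 * t.im * (-(κ * t.im) / u) =
            2 * κ * N ^ 2 / u := by
          rw [div_pow, neg_sq, mul_pow, hκ2, one_mul]
          have e1 : t.im ^ 2 - u ^ 2 = 2 * κ * t.re * u := by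
            have e2 : t.im ^ 2 = N ^ 2 - t.re ^ 2 := by linarith
            rw [e2, hu]
            have e3 : t.re ^ 2 = κ ^ 2 * t.re ^ 2 := by rw [hκ2, one_mul]
            nlinarith
          have e4 : t.im ^ 2 / u ^ 2 - 1 = 2 * κ * t.re / u := by
            rw [div_sub_one (by positivity), e1]
            field_simp
          rw [e4]
          field_simp
          rw [hn2]
          ring
        rw [h5, h6]
        field_simp
  refine ⟨κ, hκ, fun v hv0 hv => ?_⟩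
  have : κ * v ∈ arc_h t '' Set.Icc (-1) 1 := by
    rcases hκ with h | h
    · rw [h] at hN ⊢
      exact hconn.out h0 hN ⟨by linarith, by linarith⟩
    · rw [h] at hN ⊢
      exact hconn.out hN h0 ⟨by linarith, by linarith⟩
  obtain ⟨s, hs, hs'⟩ := this
  exact ⟨s, hs.1, hs.2, hs'⟩

/-- grid points in windows -/
lemma arc_count (s0 σ : ℝ) (J : ℕ) (hσ : 0 < σ) (h0 : s0 ≤ -1) (hJ : 1 < s0 + J * σ)
    (A w : ℝ) (hA : -1 ≤ A) (hAw : A + w ≤ 1) (n : ℕ) (hn : n * σ ≤ w) :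
    ∃ j0 : ℕ, ∀ k < n, j0 + k < J ∧ A ≤ s0 + ((j0 + k : ℕ) : ℝ) * σ ∧
      s0 + ((j0 + k : ℕ) : ℝ) * σ ≤ A + w := by
  refine ⟨⌈(A - s0) / σ⌉₊, fun k hk => ?_⟩
  have hnn : 0 ≤ (A - s0) / σ := div_nonneg (by linarith) hσ.le
  have h1 : (A - s0) / σ ≤ ⌈(A - s0) / σ⌉₊ := Nat.le_ceil _
  have h2 : (⌈(A - s0) / σ⌉₊ : ℝ) < (A - s0) / σ + 1 := Nat.ceil_lt_add_one hnn
  set j0 := ⌈(A - s0) / σ⌉₊ with hj0
  have h3 : A - s0 ≤ j0 * σ := by rwa [div_le_iff₀ hσ] at h1
  have h4 : (j0 : ℝ) * σ < A - s0 + σ := by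
    have := mul_lt_mul_of_pos_right h2 hσ
    have e : ((A - s0) / σ + 1) * σ = A - s0 + σ := by field_simp
    linarith
  have hk' : (k : ℝ) + 1 ≤ n := by exact_mod_cast hk
  have hkσ : ((k : ℝ) + 1) * σ ≤ n * σ := mul_le_mul_of_nonneg_right hk' hσ.le
  have hk0 : (0 : ℝ) ≤ k * σ := by positivity
  push_cast
  have e5 : s0 + ((j0 : ℝ) + k) * σ ≤ A + w := by linarith
  refine ⟨?_, by linarith, e5⟩
  by_contra hc
  push Not at hc
  have hc' : (J : ℝ) ≤ (j0 : ℝ) + k := by exact_mod_cast hc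
  have := mul_le_mul_of_nonneg_right hc' hσ.le
  linarith

/-- TARGET -/
theorem arc_hit (R P J : ℕ) (hR : 4 ≤ R) (hP : 1 ≤ P) (b : ℤ) (hb : 0 < b)
    (ε T : ℝ) (hε : 0 < ε) (hε1 : ε ≤ 1) (hT : 1 ≤ T)
    (hs : 1000 * P * T ≤ ε * b)
    (hJ : J * (P : ℤ) ≤ 2 * ((Nat.sqrt (4 * R) + 1 : ℕ) * b))
    (hJ2 : 2 * ((Nat.sqrt (4 * R) + 1 : ℕ) * b) ≤ (J + 1) * (P : ℤ)) (t : ℂ) (ht : ‖t‖ ≤ T) :
    ∃ S : Finset ℕ, S ⊆ Finset.range J ∧ ε / 400 * J ≤ (S.card : ℝ) ∧
      ∀ j ∈ S, Near (ε / 4) (t * gv R b (-((Nat.sqrt (4 * R) + 1 : ℕ) * b) + j * P)).re := by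
  have hR' : (4 : ℝ) ≤ R := by exact_mod_cast hR
  have hb' : (0 : ℝ) < b := by exact_mod_cast hb
  have hP' : (1 : ℝ) ≤ P := by exact_mod_cast hP
  set c : ℕ := Nat.sqrt (4 * R) + 1 with hc
  have hJr : (J : ℝ) * P ≤ 2 * (c * b) := by exact_mod_cast hJ
  have hJr2 : 2 * ((c : ℝ) * b) ≤ (J + 1) * P := by exact_mod_cast hJ2
  have hc1 : (4 : ℝ) * R < (c : ℝ) ^ 2 := by
    have := Nat.lt_succ_sqrt (4 * R)
    have h2 : 4 * R < c * c := this
    have h3 : ((4 * R : ℕ) : ℝ) < ((c * c : ℕ) : ℝ) := by exact_mod_cast h2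
    push_cast at h3
    nlinarith
  have hc2 : ((c : ℝ) - 1) ^ 2 ≤ 4 * R := by
    have := Nat.sqrt_le (4 * R)
    have h3 : ((Nat.sqrt (4 * R) * Nat.sqrt (4 * R) : ℕ) : ℝ) ≤ ((4 * R : ℕ) : ℝ) := by
      exact_mod_cast this
    push_cast at h3
    have h4 : (c : ℝ) - 1 = Nat.sqrt (4 * R) := by rw [hc]; push_cast; ring
    rw [h4]
    nlinarith
  set q := Real.sqrt (4 * R - 1) with hq
  have hq2 : q ^ 2 = 4 * R - 1 := Real.sq_sqrt (by linarith)
  have hq0 : 0 ≤ q := Real.sqrt_nonneg _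
  have hq3 : 3 ≤ q := by nlinarith
  have hcpos : (1 : ℝ) ≤ c := by rw [hc]; push_cast; have := Nat.cast_nonneg (α := ℝ) (Nat.sqrt (4 * R)); linarith
  have hcq : q < c := by nlinarith
  have hcq2 : (c : ℝ) ≤ 3 / 2 * q := by
    by_contra h
    push Not at h
    have h1 : (3 / 2 * q - 1) ^ 2 < ((c : ℝ) - 1) ^ 2 := by
      apply pow_lt_pow_left₀ (by linarith) (by linarith) (by norm_num)
    nlinarith
  set σ : ℝ := 2 * P / (b * q) with hσ
  have hbq : 0 < (b : ℝ) * q := by positivity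
  have hσ0 : 0 < σ := by positivity
  have hσe : σ * (b * q) = 2 * P := by rw [hσ]; field_simp
  set s0 : ℝ := (1 - 2 * c) / q with hs0
  have hs0e : s0 * q = 1 - 2 * c := by rw [hs0]; field_simp
  -- size of the step
  have hσT : 16 * T * σ ≤ ε := by
    have h1 : 16 * T * σ * (b * q) ≤ ε * (b * q) := by
      calc 16 * T * σ * (b * q) = 32 * (P * T) := by rw [mul_assoc, hσe]; ring
        _ ≤ 1000 * P * T := by nlinarith [mul_pos (by linarith : (0 : ℝ) < P) (by linarith : 0 < T)]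
        _ ≤ ε * b := hs
        _ ≤ ε * (b * q) := by
            apply mul_le_mul_of_nonneg_left _ hε.le
            nlinarith
    exact le_of_mul_le_mul_right h1 hbq
  have hσsmall : σ ≤ 1 := by nlinarith
  have hs0le : s0 ≤ -1 := by
    rw [hs0, div_le_iff₀ (by linarith)]
    nlinarith
  have hsJ : 1 < s0 + J * σ := by
    have h1 : (s0 + J * σ) * (b * q) = (1 - 2 * c) * b + 2 * (J * P) := by
      calc (s0 + J * σ) * (b * q) = (s0 * q) * b + J * (σ * (b * q)) := by ring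
        _ = _ := by rw [hs0e, hσe]; ring
    have h2 : 1 * (b * q) < (s0 + J * σ) * (b * q) := by
      rw [h1]
      have h3 : 4 * ((c : ℝ) * b) - 2 * P ≤ 2 * (J * P) := by linarith
      have h4 : 2 * (P : ℝ) ≤ b * q := by
        rw [← hσe]
        exact mul_le_of_le_one_left hbq.le hσsmall
      have h5 : (b : ℝ) * q < b * c := mul_lt_mul_of_pos_left hcq hb'
      nlinarith
    exact lt_of_mul_lt_mul_right h2 hbq.le
  have hJσ : J * σ ≤ 6 := by
    have h1 : J * σ * (b * q) ≤ 6 * (b * q) := by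
      calc J * σ * (b * q) = 2 * (J * P) := by rw [mul_assoc, hσe]; ring
        _ ≤ 4 * (c * b) := by linarith
        _ ≤ 6 * (b * q) := by nlinarith
    exact le_of_mul_le_mul_right h1 hbq
  -- the rotations
  have hgv : ∀ j : ℕ, (t * gv R b (-((c : ℕ) * b) + j * P)).re = arc_h t (s0 + j * σ) := by
    intro j
    rw [arc_gv R hR b _ hb]
    unfold arc_h
    congr 3
    push_cast
    rw [← hq, hs0, hσ]
    field_simp
    ring
  -- windows
  obtain ⟨κ, hκ, hrange⟩ := arc_range t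
  set N := ‖t‖ with hN
  have hN0 : 0 ≤ N := norm_nonneg t
  set τ := max N 1 with hτ
  have hτ1 : 1 ≤ τ := le_max_right _ _
  have hτN : N ≤ τ := le_max_left _ _
  have hτT : τ ≤ T := max_le ht hT
  set w := ε / (8 * τ) with hw
  have hw0 : 0 < w := by positivity
  have hwe : w * (8 * τ) = ε := by rw [hw]; field_simp
  have hw1 : w ≤ 1 / 8 := by
    rw [hw, div_le_iff₀ (by positivity)]
    linarith
  set n : ℕ := ⌊w / σ⌋₊ with hn
  have hnσ : (n : ℝ) * σ ≤ w := by
    have := Nat.floor_le (show 0 ≤ w / σ by positivity)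
    rwa [le_div_iff₀ hσ0] at this
  have hnσ2 : w / 2 ≤ (n : ℝ) * σ := by
    have h1 := Nat.lt_floor_add_one (w / σ)
    rw [div_lt_iff₀ hσ0] at h1
    have h2 : 2 * σ ≤ w := by
      rw [hw, le_div_iff₀ (by positivity)]
      calc 2 * σ * (8 * τ) = 16 * τ * σ := by ring
        _ ≤ 16 * T * σ := by
            apply mul_le_mul_of_nonneg_right _ hσ0.le
            linarith
        _ ≤ ε := hσT
    rw [← hn] at h1
    linarith
  set M : ℕ := ⌊N⌋₊ + 1 with hM
  have hMτ : τ ≤ M := by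
    rw [hM, hτ]
    push_cast
    apply max_le
    · exact (Nat.lt_floor_add_one N).le
    · have := Nat.cast_nonneg (α := ℝ) ⌊N⌋₊
      linarith
  have hex : ∀ m : ℕ, m < M → ∃ j0 : ℕ, ∀ k < n, j0 + k < J ∧
      |arc_h t (s0 + ((j0 + k : ℕ) : ℝ) * σ) - κ * m| ≤ ε / 4 := by
    intro m hm
    have hmN : (m : ℝ) ≤ N := by
      have h1 : m ≤ ⌊N⌋₊ := by omega
      exact (Nat.cast_le.2 h1).trans (Nat.floor_le hN0)
    obtain ⟨s, hs1, hs2, hs3⟩ := hrange m (Nat.cast_nonneg m) hmN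
    have hclose : ∀ x : ℝ, |x - s| ≤ w → |arc_h t x - κ * m| ≤ ε / 4 := by
      intro x hx
      rw [← hs3]
      refine (arc_h_lip t x s).trans ?_
      calc 2 * ‖t‖ * |x - s| ≤ 2 * τ * w :=
            mul_le_mul (by linarith) hx (abs_nonneg _) (by positivity)
        _ = ε / 4 := by rw [← hwe]; ring
    rcases le_total s 0 with h | h
    · obtain ⟨j0, hj0⟩ := arc_count s0 σ J hσ0 hs0le hsJ s w hs1 (by linarith) n hnσ
      refine ⟨j0, fun k hk => ?_⟩
      obtain ⟨h1, h2, h3⟩ := hj0 k hk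
      refine ⟨h1, hclose _ ?_⟩
      rw [abs_le]; constructor <;> linarith
    · obtain ⟨j0, hj0⟩ := arc_count s0 σ J hσ0 hs0le hsJ (s - w) w (by linarith) (by linarith) n hnσ
      refine ⟨j0, fun k hk => ?_⟩
      obtain ⟨h1, h2, h3⟩ := hj0 k hk
      refine ⟨h1, hclose _ ?_⟩
      rw [abs_le]; constructor <;> linarith
  choose! j0 hj0 using hex
  set f : ℕ × ℕ → ℕ := fun p => j0 p.1 + p.2 with hf
  have hinj : Set.InjOn f (((Finset.range M) ×ˢ (Finset.range n) : Finset (ℕ × ℕ)) : Set (ℕ × ℕ)) := by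
    rintro ⟨m, k⟩ h1 ⟨m', k'⟩ h2 h3
    simp only [Finset.coe_product, Set.mem_prod, Finset.coe_range, Set.mem_Iio] at h1 h2
    simp only [hf] at h3
    obtain ⟨-, e1⟩ := hj0 m h1.1 k h1.2
    obtain ⟨-, e2⟩ := hj0 m' h2.1 k' h2.2
    rw [h3] at e1
    have e3 : |κ * m - κ * m'| ≤ ε / 2 := by
      rw [abs_le] at e1 e2 ⊢
      constructor <;> linarith [e1.1, e1.2, e2.1, e2.2]
    have e4 : |(m : ℝ) - m'| ≤ 1 / 2 := by
      have : |κ * m - κ * m'| = |(m : ℝ) - m'| := by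
        rw [← mul_sub, abs_mul]
        rcases hκ with h | h <;> rw [h] <;> simp
      rw [this] at e3
      linarith
    have e5 : m = m' := by
      have e6 : |((m : ℤ) : ℝ) - ((m' : ℤ) : ℝ)| < 1 := by
        push_cast
        linarith
      have e7 : |(m : ℤ) - m'| < 1 := by exact_mod_cast e6
      rw [Int.abs_lt_one_iff] at e7
      omega
    subst e5
    have : k = k' := by omega
    rw [this]
  refine ⟨((Finset.range M) ×ˢ (Finset.range n)).image f, ?_, ?_, ?_⟩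
  · intro j hj
    rw [Finset.mem_image] at hj
    obtain ⟨⟨m, k⟩, hmk, rfl⟩ := hj
    rw [Finset.mem_product, Finset.mem_range, Finset.mem_range] at hmk
    exact Finset.mem_range.2 (hj0 m hmk.1 k hmk.2).1
  · rw [Finset.card_image_of_injOn hinj, Finset.card_product, Finset.card_range,
      Finset.card_range]
    push_cast
    have h1 : ε / 400 * J * σ ≤ (M * n) * σ := by
      calc ε / 400 * J * σ = ε / 400 * (J * σ) := by ring
        _ ≤ ε / 400 * 6 := mul_le_mul_of_nonneg_left hJσ (by positivity)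
        _ ≤ ε / 16 := by linarith
        _ = τ * (w / 2) := by rw [← hwe]; ring
        _ ≤ M * (n * σ) := mul_le_mul hMτ hnσ2 (by positivity) (by positivity)
        _ = (M * n) * σ := by ring
    exact le_of_mul_le_mul_right h1 hσ0
  · intro j hj
    rw [Finset.mem_image] at hj
    obtain ⟨⟨m, k⟩, hmk, rfl⟩ := hj
    rw [Finset.mem_product, Finset.mem_range, Finset.mem_range] at hmk
    have h1 := (hj0 m hmk.1 k hmk.2).2
    rw [hgv]
    have hfe : f (m, k) = j0 m + k := rfl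
    rw [hfe]
    rcases hκ with h | h
    · refine ⟨(m : ℤ), ?_⟩
      rw [h] at h1
      push_cast
      simpa using h1
    · refine ⟨-(m : ℤ), ?_⟩
      rw [h] at h1
      push_cast
      simpa using h1

end ME9
export ME9 (arc_hit)
end Pyj
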