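import Mathlib
import Pool.Agent.Pyj.Defs2
import Pool.Agent.Pyj.E7
import Pool.Agent.Pyj.E8
import Pool.Agent.Pyj.E9
set_option autoImplicit false
set_option maxHeartbeats 4000000

namespace Pyj
open Finset ComplexConjugate
namespace ME10
/-- TARGET -/
theorem full_P3 (R P J : ℕ) (hR : 4 ≤ R) (hP : 1 ≤ P) (b : ℤ) (hb : 0 < b)
    (ε T : ℝ) (hε : 0 < ε) (hε1 : ε ≤ 1) (hT : 1 ≤ T)
    (hs : 1000 * P * T ≤ ε * b)
    (hJ : J * (P : ℤ) ≤ 2 * ((Nat.sqrt (4 * R) + 1 : ℕ) * b))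
    (hJ2 : 2 * ((Nat.sqrt (4 * R) + 1 : ℕ) * b) ≤ (J + 1) * (P : ℤ)) (t : ℂ) (ht : ‖t‖ ≤ T) :
    ∃ I : Finset ℤ, I ⊆ Om R b P (-((Nat.sqrt (4 * R) + 1 : ℕ) * b)) J ∧
      (∀ a ∈ I, Near (ε / 2) (t * gv R b a).re) ∧
      ε / 400 * ((Om R b P (-((Nat.sqrt (4 * R) + 1 : ℕ) * b)) J).card : ℝ) ≤ (I.card : ℝ) := by
  obtain ⟨S, hSJ, hSc, hSn⟩ := arc_hit R P J hR hP b hb ε T hε hε1 hT hs hJ hJ2 t ht
  obtain ⟨A0, hA0⟩ : ∃ A0 : ℤ, A0 = -((Nat.sqrt (4 * R) + 1 : ℕ) * b) := ⟨_, rfl⟩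
  simp only [← hA0] at hSn ⊢
  have hPZ : (1 : ℤ) ≤ P := by exact_mod_cast hP
  have hbR : (0 : ℝ) < b := by exact_mod_cast hb
  refine ⟨S.biUnion (fun j : ℕ => Om R b P (A0 + j * P) 1), ?_, ?_, ?_⟩
  · intro a ha
    rw [Finset.mem_biUnion] at ha
    obtain ⟨j, hj, hja⟩ := ha
    have hjJ := Finset.mem_range.mp (hSJ hj)
    unfold Om at hja ⊢
    rw [Finset.mem_filter, Finset.mem_Ico] at hja ⊢
    refine ⟨⟨?_, ?_⟩, hja.2⟩
    · have : (0:ℤ) ≤ (j:ℤ) * P := by positivity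
      linarith [hja.1.1]
    · have h1 : (j : ℤ) + 1 ≤ J := by exact_mod_cast hjJ
      have h2 : ((j : ℤ) + 1) * P ≤ J * P := mul_le_mul_of_nonneg_right h1 (by linarith)
      have h3 := hja.1.2
      push_cast at h3
      linarith
  · intro a ha
    rw [Finset.mem_biUnion] at ha
    obtain ⟨j, hj, hja⟩ := ha
    unfold Om at hja
    rw [Finset.mem_filter, Finset.mem_Ico] at hja
    obtain ⟨⟨h1, h2⟩, _⟩ := hja
    push_cast at h2
    obtain ⟨k, hk⟩ := hSn j hj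
    refine ⟨k, ?_⟩
    have h3 := gv_lip R (by omega) b hb a (A0 + j * P)
    have h4 : |(a : ℝ) - ((A0 + j * P : ℤ) : ℝ)| ≤ P := by
      have e1 : ((A0 + j * P : ℤ) : ℝ) ≤ a := by exact_mod_cast h1
      have e2 : (a : ℝ) < ((A0 + j * P + 1 * P : ℤ) : ℝ) := by exact_mod_cast h2
      push_cast at e1 e2 ⊢
      rw [abs_le]
      constructor <;> linarith
    have h5 : |(t * gv R b a).re - (t * gv R b (A0 + j * P)).re| ≤ ε / 250 := by
      rw [← Complex.sub_re, ← mul_sub]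
      refine (Complex.abs_re_le_norm _).trans ?_
      rw [norm_mul]
      have h6 : ‖gv R b a - gv R b (A0 + j * P)‖ ≤ 4 * P / b := by
        refine h3.trans ?_
        apply div_le_div_of_nonneg_right _ hbR.le
        linarith
      have h7 : ‖t‖ * ‖gv R b a - gv R b (A0 + j * P)‖ ≤ T * (4 * P / b) := by
        apply mul_le_mul ht h6 (norm_nonneg _) (by linarith)
      refine h7.trans ?_
      rw [mul_div_assoc', div_le_iff₀ hbR]
      linarith
    have h8 : (t * gv R b a).re - k = ((t * gv R b a).re - (t * gv R b (A0 + j * P)).re)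
        + ((t * gv R b (A0 + j * P)).re - k) := by ring
    rw [h8]
    refine (abs_add_le _ _).trans ?_
    linarith
  · rw [Finset.card_biUnion]
    · simp only [card_Om R b P (by omega)]
      rw [Finset.sum_const, smul_eq_mul]
      push_cast
      have h0 : 0 ≤ (nu R b P : ℝ) := Nat.cast_nonneg _
      have h1 := mul_le_mul_of_nonneg_right hSc h0
      linarith
    · intro i _ j _ hij
      rw [Function.onFun, Finset.disjoint_left]
      intro a ha1 ha2
      unfold Om at ha1 ha2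
      rw [Finset.mem_filter, Finset.mem_Ico] at ha1 ha2
      push_cast at ha1 ha2
      rcases lt_or_gt_of_ne hij with h | h
      · have h1 : (i:ℤ) + 1 ≤ j := by exact_mod_cast h
        have h2 := mul_le_mul_of_nonneg_right h1 (show (0:ℤ) ≤ P by linarith)
        linarith [ha1.1.2, ha2.1.1]
      · have h1 : (j:ℤ) + 1 ≤ i := by exact_mod_cast h
        have h2 := mul_le_mul_of_nonneg_right h1 (show (0:ℤ) ≤ P by linarith)
        linarith [ha2.1.2, ha1.1.1]

end ME10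
export ME10 (full_P3)
end Pyj
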