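import Mathlib
import Pool.Agent.Pyj.Defs2
set_option autoImplicit false
set_option maxHeartbeats 4000000

namespace Pyj
open Finset ComplexConjugate
namespace ME11
theorem hoeff_sum {Ω : Type} [Fintype Ω] [Nonempty Ω] (g : Ω → ℝ) (hg : ∑ a, g a = 0)
    (hb : ∀ a, |g a| ≤ 1) (c : ℝ) (hc : |c| ≤ 1) (m : ℕ) :
    ∑ ω : Fin m → Ω, Real.exp (c * ∑ i, g (ω i)) ≤
      (Fintype.card Ω : ℝ) ^ m * Real.exp (m * c ^ 2) := by
  have h1 : ∀ ω : Fin m → Ω, Real.exp (c * ∑ i, g (ω i)) = ∏ i, Real.exp (c * g (ω i)) := by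
    intro ω
    rw [Finset.mul_sum, Real.exp_sum]
  rw [Finset.sum_congr rfl fun ω _ => h1 ω, ← Fintype.sum_pow (fun a => Real.exp (c * g a)) m]
  have h2 : ∑ a, Real.exp (c * g a) ≤ (Fintype.card Ω : ℝ) * Real.exp (c ^ 2) := by
    have h3 : ∀ a, Real.exp (c * g a) ≤ 1 + c * g a + c ^ 2 := by
      intro a
      have h4 : |c * g a| ≤ 1 := by
        rw [abs_mul]
        exact mul_le_one₀ hc (abs_nonneg _) (hb a)
      have h5 := (abs_le.1 (Real.abs_exp_sub_one_sub_id_le h4)).2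
      have h6 : (c * g a) ^ 2 ≤ c ^ 2 := by
        rw [mul_pow]
        have h7 : (g a) ^ 2 ≤ 1 := by
          rw [sq_le_one_iff_abs_le_one]; exact hb a
        nlinarith [sq_nonneg c]
      linarith
    calc ∑ a, Real.exp (c * g a) ≤ ∑ a, (1 + c * g a + c ^ 2) := Finset.sum_le_sum fun a _ => h3 a
      _ = (Fintype.card Ω : ℝ) * (c ^ 2 + 1) := by
        rw [Finset.sum_add_distrib, Finset.sum_add_distrib, ← Finset.mul_sum, hg]
        simp
        ring
      _ ≤ (Fintype.card Ω : ℝ) * Real.exp (c ^ 2) :=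
        mul_le_mul_of_nonneg_left (Real.add_one_le_exp _) (Nat.cast_nonneg _)
  calc (∑ a, Real.exp (c * g a)) ^ m ≤ ((Fintype.card Ω : ℝ) * Real.exp (c ^ 2)) ^ m :=
        pow_le_pow_left₀ (Finset.sum_nonneg fun a _ => (Real.exp_pos _).le) h2 m
    _ = (Fintype.card Ω : ℝ) ^ m * Real.exp (m * c ^ 2) := by
        rw [mul_pow, ← Real.exp_nat_mul]


/-- TARGET: uniform law of large numbers for finitely many events (Hoeffding + union bound) -/
theorem hoeff {Ω κ : Type} [Fintype Ω] [Nonempty Ω] [DecidableEq Ω] [Fintype κ] (E : κ → Finset Ω)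
    (δ : ℝ) (hδ : 0 < δ) (hδ1 : δ ≤ 1) (m : ℕ)
    (hm : 4 * Real.log (2 * Fintype.card κ + 2) ≤ δ ^ 2 * m) :
    ∃ ω : Fin m → Ω, ∀ k : κ,
      |((Finset.univ.filter (fun i : Fin m => ω i ∈ E k)).card : ℝ) -
        m * ((E k).card / (Fintype.card Ω : ℝ))| ≤ δ * m := by
  classical
  set N : ℝ := (Fintype.card Ω : ℝ) with hN
  have hNpos : 0 < N := by
    rw [hN]; exact_mod_cast Fintype.card_pos
  let g : κ → Ω → ℝ := fun k a => (if a ∈ E k then 1 else 0) - (E k).card / N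
  have hg : ∀ k, ∑ a, g k a = 0 := by
    intro k
    simp only [g]
    rw [Finset.sum_sub_distrib, Finset.sum_ite_mem, Finset.univ_inter]
    simp
    field_simp
    rw [hN]
    ring
  have hp : ∀ k, 0 ≤ ((E k).card : ℝ) / N ∧ ((E k).card : ℝ) / N ≤ 1 := by
    intro k
    refine ⟨by positivity, ?_⟩
    rw [div_le_one hNpos, hN]
    exact_mod_cast Finset.card_le_univ _
  have hb : ∀ k a, |g k a| ≤ 1 := by
    intro k a
    obtain ⟨h1, h2⟩ := hp k
    simp only [g]
    rw [abs_le]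
    split_ifs <;> constructor <;> linarith
  have hX : ∀ (ω : Fin m → Ω) k, ∑ i, g k (ω i) =
      ((Finset.univ.filter (fun i : Fin m => ω i ∈ E k)).card : ℝ) - m * ((E k).card / N) := by
    intro ω k
    simp only [g]
    rw [Finset.sum_sub_distrib, Finset.sum_boole]
    simp
  let s : ℝ := δ / 2
  have hs : |s| ≤ 1 := by
    rw [abs_le]; constructor <;> simp only [s] <;> linarith
  have hs' : |(-s)| ≤ 1 := by rwa [abs_neg]
  have key : ∃ ω : Fin m → Ω, ∑ k, (Real.exp (s * ∑ i, g k (ω i)) +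
      Real.exp (-s * ∑ i, g k (ω i))) ≤ 2 * Fintype.card κ * Real.exp (m * s ^ 2) := by
    by_contra hcon
    push Not at hcon
    have h1 : ∑ ω : Fin m → Ω, (2 * (Fintype.card κ : ℝ) * Real.exp (m * s ^ 2)) <
        ∑ ω : Fin m → Ω, ∑ k, (Real.exp (s * ∑ i, g k (ω i)) +
      Real.exp (-s * ∑ i, g k (ω i))) :=
      Finset.sum_lt_sum_of_nonempty Finset.univ_nonempty fun ω _ => hcon ω
    rw [Finset.sum_comm] at h1
    have h2 : ∀ k, ∑ ω : Fin m → Ω, (Real.exp (s * ∑ i, g k (ω i)) +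
      Real.exp (-s * ∑ i, g k (ω i))) ≤ 2 * (N ^ m * Real.exp (m * s ^ 2)) := by
      intro k
      rw [Finset.sum_add_distrib]
      have e1 := hoeff_sum (g k) (hg k) (hb k) s hs m
      have e2 := hoeff_sum (g k) (hg k) (hb k) (-s) hs' m
      rw [neg_sq] at e2
      linarith
    have h3 := Finset.sum_le_sum (fun k (_ : k ∈ Finset.univ) => h2 k)
    rw [Finset.sum_const, Finset.card_univ] at h3
    rw [Finset.sum_const, Finset.card_univ] at h1
    have h4 : (Fintype.card (Fin m → Ω) : ℝ) = N ^ m := by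
      rw [Fintype.card_fun, Fintype.card_fin, hN]; push_cast; rfl
    rw [nsmul_eq_mul, h4] at h1
    rw [nsmul_eq_mul] at h3
    nlinarith
  obtain ⟨ω, hω⟩ := key
  refine ⟨ω, fun k => ?_⟩
  rw [← hX]
  have h1 : Real.exp (s * ∑ i, g k (ω i)) + Real.exp (-s * ∑ i, g k (ω i)) ≤
      2 * Fintype.card κ * Real.exp (m * s ^ 2) := by
    refine le_trans ?_ hω
    exact Finset.single_le_sum (f := fun k => Real.exp (s * ∑ i, g k (ω i)) +
      Real.exp (-s * ∑ i, g k (ω i))) (fun k _ => by positivity) (Finset.mem_univ k)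
  have h2 : Real.exp (s * |∑ i, g k (ω i)|) ≤ 2 * Fintype.card κ * Real.exp (m * s ^ 2) := by
    have e1 := Real.exp_pos (s * ∑ i, g k (ω i))
    have e2 := Real.exp_pos (-s * ∑ i, g k (ω i))
    rcases abs_cases (∑ i, g k (ω i)) with ⟨h, _⟩ | ⟨h, _⟩
    · rw [h]; linarith
    · rw [h, mul_neg, ← neg_mul]; linarith
  by_contra hcon
  push Not at hcon
  have hspos : 0 < s := by simp only [s]; linarith
  have h3 : Real.exp (s * (δ * m)) < 2 * Fintype.card κ * Real.exp (m * s ^ 2) := by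
    refine lt_of_lt_of_le ?_ h2
    exact Real.exp_lt_exp.2 (mul_lt_mul_of_pos_left hcon hspos)
  have h4 : s * (δ * m) = m * s ^ 2 + δ ^ 2 * m / 4 := by
    simp only [s]; ring
  rw [h4, Real.exp_add, mul_comm (Real.exp (m * s ^ 2))] at h3
  have h5 : Real.exp (δ ^ 2 * m / 4) < 2 * Fintype.card κ :=
    lt_of_mul_lt_mul_right h3 (Real.exp_pos _).le
  have h6 : (2 * (Fintype.card κ : ℝ) + 2) ≤ Real.exp (δ ^ 2 * m / 4) := by
    have h7 : Real.log (2 * (Fintype.card κ : ℝ) + 2) ≤ δ ^ 2 * m / 4 := by linarith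
    have h8 : (0 : ℝ) < 2 * (Fintype.card κ : ℝ) + 2 := by positivity
    rwa [Real.log_le_iff_le_exp h8] at h7
  linarith

end ME11
export ME11 (hoeff)
end Pyj
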