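import Mathlib
import Pool.Agent.Pyj.Defs2
import Pool.Agent.Pyj.E11
set_option autoImplicit false
set_option maxHeartbeats 4000000

namespace Pyj
open Finset ComplexConjugate
namespace ME12
/-- net points -/
noncomputable def sf_t (ε : ℝ) (K : ℕ) (i j : ℕ) : ℂ :=
  ⟨((i:ℝ) - K) * (ε / 8), ((j:ℝ) - K) * (ε / 8)⟩

/-- the index type -/
abbrev sf_κ (A N : ℕ) : Type :=
  Fin (A + 1) ⊕ (Option (Fin (A + 1) × Fin (A + 1) × Fin (A + 1)) × (Fin N × Fin N))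

/-- the events -/
def sf_P (R A : ℕ) (b : ℤ) (ε : ℝ) (K N : ℕ) : sf_κ A N → ℤ → Prop
  | Sum.inl p, a => (p:ℕ) ∣ Ny R b a
  | Sum.inr (none, (i, j)), a => Near (3 / 4 * ε) (sf_t ε K i j * gv R b a).re
  | Sum.inr (some (nl, r1, r2), (i, j)), a =>
      Near (3 / 4 * ε) ((sf_t ε K i j * gv R b a).re + ((r1:ℕ):ℝ) / ((nl:ℕ):ℝ) +
        ph (nl:ℕ) R b (2 * ((r2:ℕ):ℤ) - ((r1:ℕ):ℤ)) (((r2:ℕ):ℤ) - 2 * R * ((r1:ℕ):ℤ)) a)

open Classical in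
theorem sf_card_sub (Om : Finset ℤ) (P : ℤ → Prop) :
    ((Finset.univ : Finset {x // x ∈ Om}).filter (fun a => P a.1)).card = (Om.filter P).card := by
  refine Finset.card_bij (fun a _ => a.1) ?_ ?_ ?_
  · intro a ha
    rw [Finset.mem_filter] at ha ⊢
    exact ⟨a.2, ha.2⟩
  · intro a _ a' _ h
    exact Subtype.ext h
  · intro x hx
    rw [Finset.mem_filter] at hx
    exact ⟨⟨x, hx.1⟩, by rw [Finset.mem_filter]; exact ⟨Finset.mem_univ _, hx.2⟩, rfl⟩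

theorem sf_gv_norm (R : ℕ) (b a : ℤ) : ‖gv R b a‖ ≤ 1 := by
  unfold gv
  rw [norm_div, Complex.norm_conj]
  exact div_self_le_one _

theorem sf_near {ε x y : ℝ} (h : |x - y| ≤ ε / 4) (k0 : ℤ) (hy : Near (3 / 4 * ε) y) :
    Near ε (x + k0) := by
  obtain ⟨k, hk⟩ := hy
  refine ⟨k + k0, ?_⟩
  push_cast
  have h1 : x + k0 - (k + k0) = (x - y) + (y - k) := by ring
  rw [h1]
  refine (abs_add_le _ _).trans ?_
  linarith

theorem sf_near0 {ε x y : ℝ} (h : |x - y| ≤ ε / 4) (hy : Near (3 / 4 * ε) y) :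
    Near ε x := by
  have := sf_near h 0 hy
  simpa using this

/-- the net is dense -/
theorem sf_net (A : ℕ) (ε : ℝ) (hε : 0 < ε) (hε1 : ε ≤ 1) (K N : ℕ)
    (hK : 8 * (A:ℝ) / ε + 1 ≤ K) (hN : N = 2 * K + 1) (t : ℂ) (ht : ‖t‖ ≤ A) :
    ∃ i j : ℕ, i < N ∧ j < N ∧ ‖t - sf_t ε K i j‖ ≤ ε / 4 ∧ ‖sf_t ε K i j‖ ≤ A + 1 := by
  have key : ∀ x : ℝ, |x| ≤ A → ∃ i : ℕ, i < N ∧ |x - ((i:ℝ) - K) * (ε / 8)| ≤ ε / 8 := by
    intro x hx
    have h8 : 0 < ε / 8 := by positivity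
    set q := x / (ε / 8) with hq
    have hq1 : |q| ≤ 8 * (A:ℝ) / ε := by
      rw [hq, abs_div, abs_of_pos h8, div_le_iff₀ h8]
      have : 8 * (A:ℝ) / ε * (ε / 8) = A := by field_simp
      rw [this]
      exact hx
    have hq2 := abs_le.1 hq1
    have hf1 := Int.floor_le q
    have hf2 := Int.lt_floor_add_one q
    have hge : 0 ≤ ⌊q⌋ + (K:ℤ) := by
      have h3 : (-1:ℝ) < (⌊q⌋:ℝ) + K := by linarith
      have h4 : (-1:ℤ) < ⌊q⌋ + (K:ℤ) := by exact_mod_cast h3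
      omega
    have hlt : ⌊q⌋ + (K:ℤ) < (N:ℤ) := by
      have h3 : (⌊q⌋:ℝ) + K < 2 * K + 1 := by linarith
      have h4 : ⌊q⌋ + (K:ℤ) < 2 * (K:ℤ) + 1 := by exact_mod_cast h3
      rw [hN]
      push_cast
      exact h4
    refine ⟨(⌊q⌋ + (K:ℤ)).toNat, by omega, ?_⟩
    have h5 : (((⌊q⌋ + (K:ℤ)).toNat : ℕ) : ℝ) = (⌊q⌋:ℝ) + K := by
      have h6 : (((⌊q⌋ + (K:ℤ)).toNat : ℕ) : ℤ) = ⌊q⌋ + (K:ℤ) := Int.toNat_of_nonneg hge
      have h7 : ((((⌊q⌋ + (K:ℤ)).toNat : ℕ) : ℤ) : ℝ) = ((⌊q⌋ + (K:ℤ) : ℤ) : ℝ) := by rw [h6]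
      push_cast at h7
      exact_mod_cast h7
    rw [h5]
    have h6 : x - ((⌊q⌋:ℝ) + K - K) * (ε / 8) = (q - ⌊q⌋) * (ε / 8) := by
      rw [hq]
      field_simp
      ring
    rw [h6, abs_mul, abs_of_pos h8, abs_of_nonneg (by linarith)]
    have h7 : q - ⌊q⌋ ≤ 1 := by linarith
    calc (q - ⌊q⌋) * (ε / 8) ≤ 1 * (ε / 8) := mul_le_mul_of_nonneg_right h7 h8.le
      _ = ε / 8 := one_mul _
  obtain ⟨i, hi, hi'⟩ := key t.re ((Complex.abs_re_le_norm t).trans ht)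
  obtain ⟨j, hj, hj'⟩ := key t.im ((Complex.abs_im_le_norm t).trans ht)
  have h1 : ‖t - sf_t ε K i j‖ ≤ ε / 4 := by
    refine (Complex.norm_le_abs_re_add_abs_im _).trans ?_
    have e1 : (t - sf_t ε K i j).re = t.re - ((i:ℝ) - K) * (ε / 8) := rfl
    have e2 : (t - sf_t ε K i j).im = t.im - ((j:ℝ) - K) * (ε / 8) := rfl
    rw [e1, e2]
    linarith
  refine ⟨i, j, hi, hj, h1, ?_⟩
  have h2 : ‖sf_t ε K i j‖ ≤ ‖t‖ + ‖t - sf_t ε K i j‖ := by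
    have h3 : sf_t ε K i j = t - (t - sf_t ε K i j) := by ring
    calc ‖sf_t ε K i j‖ = ‖t - (t - sf_t ε K i j)‖ := by rw [← h3]
      _ ≤ _ := norm_sub_le _ _
  linarith

theorem sf_re (R : ℕ) (b a : ℤ) {ε : ℝ} {t t' : ℂ} (h : ‖t - t'‖ ≤ ε / 4) :
    |(t * gv R b a).re - (t' * gv R b a).re| ≤ ε / 4 := by
  rw [← Complex.sub_re, ← sub_mul]
  refine (Complex.abs_re_le_norm _).trans ?_
  rw [norm_mul]
  calc ‖t - t'‖ * ‖gv R b a‖ ≤ ‖t - t'‖ * 1 :=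
        mul_le_mul_of_nonneg_left (sf_gv_norm R b a) (norm_nonneg _)
    _ ≤ ε / 4 := by rw [mul_one]; exact h

theorem sf_log (A : ℕ) (hA : 2 ≤ A) (ε : ℝ) (hε : 0 < ε) (hε1 : ε ≤ 1) (K N : ℕ)
    (hK : (K:ℝ) ≤ 8 * (A:ℝ) / ε + 2) (hN : N = 2 * K + 1) :
    4 * Real.log (2 * (Fintype.card (sf_κ A N) : ℝ) + 2) ≤ 100 * Real.log (100 * A / ε) := by
  have hcard : (Fintype.card (sf_κ A N) : ℝ) =
      ((A:ℝ) + 1) + (((A:ℝ) + 1) * (((A:ℝ) + 1) * ((A:ℝ) + 1)) + 1) * ((N:ℝ) * N) := by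
    simp only [sf_κ, Fintype.card_sum, Fintype.card_prod, Fintype.card_option, Fintype.card_fin]
    push_cast
    ring
  have hA' : (2:ℝ) ≤ A := by exact_mod_cast hA
  set Y := 100 * (A:ℝ) / ε with hY
  have hAε : (A:ℝ) ≤ A / ε := by
    rw [le_div_iff₀ hε]
    nlinarith
  have hY1 : Y = 100 * ((A:ℝ) / ε) := by rw [hY]; ring
  have h1 : (A:ℝ) + 1 ≤ Y := by rw [hY1]; linarith
  have h2 : (N:ℝ) ≤ Y := by
    rw [hN, hY1]
    push_cast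
    have : 8 * (A:ℝ) / ε = 8 * ((A:ℝ) / ε) := by ring
    rw [this] at hK
    linarith
  have hY200 : 200 ≤ Y := by rw [hY1]; linarith
  have hN0 : (0:ℝ) ≤ N := by positivity
  have h3 : 2 * (Fintype.card (sf_κ A N) : ℝ) + 2 ≤ Y ^ 6 := by
    rw [hcard]
    have e1 : ((A:ℝ) + 1) * (((A:ℝ) + 1) * ((A:ℝ) + 1)) ≤ Y * (Y * Y) := by gcongr
    have e2 : (N:ℝ) * N ≤ Y * Y := by gcongr
    have e3 : (((A:ℝ) + 1) * (((A:ℝ) + 1) * ((A:ℝ) + 1)) + 1) * ((N:ℝ) * N) ≤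
        (Y * (Y * Y) + 1) * (Y * Y) := by gcongr
    have hY0 : 0 < Y := by linarith
    have e4 : Y ≤ Y ^ 5 := by
      calc Y = Y * 1 := by ring
        _ ≤ Y * Y ^ 4 := by
          apply mul_le_mul_of_nonneg_left _ hY0.le
          exact one_le_pow₀ (by linarith)
        _ = Y ^ 5 := by ring
    have e5 : Y ^ 2 ≤ Y ^ 5 := pow_le_pow_right₀ (by linarith) (by norm_num)
    have e6 : 1 ≤ Y ^ 5 := one_le_pow₀ (by linarith)
    have e7 : 8 * Y ^ 5 ≤ Y ^ 6 := by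
      calc 8 * Y ^ 5 ≤ Y * Y ^ 5 := by
            apply mul_le_mul_of_nonneg_right _ (by positivity)
            linarith
        _ = Y ^ 6 := by ring
    have e8 : (Y * (Y * Y) + 1) * (Y * Y) = Y ^ 5 + Y ^ 2 := by ring
    rw [e8] at e3
    linarith
  have h4 : 0 < 2 * (Fintype.card (sf_κ A N) : ℝ) + 2 := by positivity
  have h5 := Real.log_le_log h4 h3
  rw [Real.log_pow] at h5
  have h6 : 0 ≤ Real.log Y := Real.log_nonneg (by linarith)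
  push_cast at h5
  linarith

/-- TARGET -/
theorem sample_family (R A : ℕ) (hR : 1 ≤ R) (hA : 2 ≤ A) (b : ℤ) (hb : b ≠ 0) (Om : Finset ℤ)
    (hne : Om.Nonempty) (ε δ c : ℝ) (hε : 0 < ε) (hε1 : ε ≤ 1) (hδ : 0 < δ) (hδ1 : δ ≤ 1)
    (hc : 2 * δ ≤ c)
    (f1 : ∀ p : ℕ, p.Prime → p ≤ A →
      ((Om.filter (fun a : ℤ => p ∣ Ny R b a)).card : ℝ) ≤ δ * Om.card)
    (f2 : ∀ nl : ℕ, 1 ≤ nl → nl ≤ A → nl.Coprime R → ∀ lam mu : ℤ,
      ¬ ((nl : ℤ) ∣ lam ∧ (nl : ℤ) ∣ mu) → ∀ x : ℝ, ∀ t : ℂ, ‖t‖ ≤ A + 1 →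
      ∃ I : Finset ℤ, I ⊆ Om ∧ (∀ a ∈ I, Near (3 / 4 * ε) ((t * gv R b a).re + x +
        ph nl R b lam mu a)) ∧ c * Om.card ≤ (I.card : ℝ))
    (f3 : ∀ t : ℂ, ‖t‖ ≤ A + 1 → ∃ I : Finset ℤ, I ⊆ Om ∧
      (∀ a ∈ I, Near (3 / 4 * ε) (t * gv R b a).re) ∧ c * Om.card ≤ (I.card : ℝ))
    (m : ℕ) (hm : 100 * Real.log (100 * A / ε) ≤ δ ^ 2 * m) :
    ∃ a : Fin m → ℤ, (∀ i, a i ∈ Om) ∧
      (∀ p : ℕ, p.Prime → p ≤ A →
        ((Finset.univ.filter (fun i : Fin m => p ∣ Ny R b (a i))).card : ℝ) ≤ 2 * δ * m) ∧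
      P2 R A b ε (c / 2) a ∧ P3 R A b ε (c / 2) a := by
  classical
  haveI : Nonempty {x // x ∈ Om} := hne.to_subtype
  obtain ⟨K, hK1, hK2⟩ : ∃ K : ℕ, 8 * (A:ℝ) / ε + 1 ≤ K ∧ (K:ℝ) ≤ 8 * (A:ℝ) / ε + 2 := by
    refine ⟨⌈8 * (A:ℝ) / ε⌉₊ + 1, ?_, ?_⟩
    · push_cast
      have := Nat.le_ceil (8 * (A:ℝ) / ε)
      linarith
    · push_cast
      have := Nat.ceil_lt_add_one (show (0:ℝ) ≤ 8 * (A:ℝ) / ε by positivity)
      linarith
  obtain ⟨N, hN⟩ : ∃ N : ℕ, N = 2 * K + 1 := ⟨_, rfl⟩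
  have hlog := sf_log A hA ε hε hε1 K N hK2 hN
  obtain ⟨ω, hω⟩ := hoeff (κ := sf_κ A N)
    (fun k => (Finset.univ : Finset {x // x ∈ Om}).filter (fun a => sf_P R A b ε K N k a.1))
    δ hδ hδ1 m (hlog.trans hm)
  have hcardO : (Fintype.card {x // x ∈ Om} : ℝ) = Om.card := by
    rw [Fintype.card_coe]
  have hOpos : (0:ℝ) < Om.card := by exact_mod_cast hne.card_pos
  have hm0 : (0:ℝ) ≤ m := by positivity
  have hcnt : ∀ k : sf_κ A N, |((Finset.univ.filter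
      (fun i : Fin m => sf_P R A b ε K N k (ω i).1)).card : ℝ) -
      m * (((Om.filter (fun a => sf_P R A b ε K N k a)).card : ℝ) / Om.card)| ≤ δ * m := by
    intro k
    have h := hω k
    rw [hcardO] at h
    have e1 : (Finset.univ.filter (fun i : Fin m => ω i ∈
        (Finset.univ : Finset {x // x ∈ Om}).filter (fun a => sf_P R A b ε K N k a.1))) =
        Finset.univ.filter (fun i : Fin m => sf_P R A b ε K N k (ω i).1) := by
      ext i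
      simp only [Finset.mem_filter, Finset.mem_univ, true_and]
    have e2 := sf_card_sub Om (fun a => sf_P R A b ε K N k a)
    rw [e1, e2] at h
    exact h
  have hlow : ∀ k : sf_κ A N, c * Om.card ≤
      ((Om.filter (fun a => sf_P R A b ε K N k a)).card : ℝ) →
      c / 2 * m ≤ ((Finset.univ.filter
        (fun i : Fin m => sf_P R A b ε K N k (ω i).1)).card : ℝ) := by
    intro k hk
    have h1 := (abs_le.1 (hcnt k)).1
    have h2 : c ≤ ((Om.filter (fun a => sf_P R A b ε K N k a)).card : ℝ) / Om.card := by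
      rw [le_div_iff₀ hOpos]
      exact hk
    have h3 := mul_le_mul_of_nonneg_left h2 hm0
    have h4 := mul_le_mul_of_nonneg_right hc hm0
    linarith
  refine ⟨fun i => (ω i).1, fun i => (ω i).2, ?_, ?_, ?_⟩
  · intro p hp hpA
    have h1 := (abs_le.1 (hcnt (Sum.inl ⟨p, by omega⟩))).2
    have h2 : ((Om.filter (fun a => sf_P R A b ε K N (Sum.inl ⟨p, by omega⟩) a)).card : ℝ) /
        Om.card ≤ δ := by
      rw [div_le_iff₀ hOpos]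
      have h3 := f1 p hp hpA
      have h4 : (Om.filter (fun a => sf_P R A b ε K N (Sum.inl ⟨p, by omega⟩) a)) =
          Om.filter (fun a : ℤ => p ∣ Ny R b a) := by
        apply Finset.filter_congr
        intro a _
        rfl
      rw [h4]
      exact h3
    have h5 := mul_le_mul_of_nonneg_left h2 hm0
    have h6 : (Finset.univ.filter
        (fun i : Fin m => sf_P R A b ε K N (Sum.inl ⟨p, by omega⟩) (ω i).1)) =
        Finset.univ.filter (fun i : Fin m => p ∣ Ny R b (ω i).1) := by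
      apply Finset.filter_congr
      intro a _
      rfl
    rw [h6] at h1
    linarith
  · intro nl hnl1 hnlA hcop rho1 rho2 t ht hnd
    obtain ⟨i, j, hi, hj, htt, htn⟩ := sf_net A ε hε hε1 K N hK1 hN t ht
    have hnl0 : (0:ℤ) < nl := by exact_mod_cast hnl1
    obtain ⟨r1, hr1⟩ : ∃ r1 : ℕ, (r1:ℤ) = rho1 % nl :=
      ⟨(rho1 % nl).toNat, Int.toNat_of_nonneg (Int.emod_nonneg _ hnl0.ne')⟩
    obtain ⟨r2, hr2⟩ : ∃ r2 : ℕ, (r2:ℤ) = rho2 % nl :=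
      ⟨(rho2 % nl).toNat, Int.toNat_of_nonneg (Int.emod_nonneg _ hnl0.ne')⟩
    have hr1lt : r1 < nl := by
      have := Int.emod_lt_of_pos rho1 hnl0
      rw [← hr1] at this
      exact_mod_cast this
    have hr2lt : r2 < nl := by
      have := Int.emod_lt_of_pos rho2 hnl0
      rw [← hr2] at this
      exact_mod_cast this
    have z1 : ((rho1 : ℤ) : ZMod nl) = ((r1 : ℤ) : ZMod nl) := by
      rw [hr1, ZMod.intCast_mod]
    have z2 : ((rho2 : ℤ) : ZMod nl) = ((r2 : ℤ) : ZMod nl) := by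
      rw [hr2, ZMod.intCast_mod]
    have zl : ((2 * rho2 - rho1 : ℤ) : ZMod nl) = ((2 * (r2:ℤ) - (r1:ℤ) : ℤ) : ZMod nl) := by
      rw [Int.cast_sub, Int.cast_sub, Int.cast_mul, Int.cast_mul, z1, z2]
    have zm : ((rho2 - 2 * R * rho1 : ℤ) : ZMod nl) =
        (((r2:ℤ) - 2 * R * (r1:ℤ) : ℤ) : ZMod nl) := by
      rw [Int.cast_sub, Int.cast_sub, Int.cast_mul (2 * (R:ℤ)), Int.cast_mul (2 * (R:ℤ)), z1, z2]
    have hph : ∀ a : ℤ, ph nl R b (2 * rho2 - rho1) (rho2 - 2 * R * rho1) a =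
        ph nl R b (2 * (r2:ℤ) - (r1:ℤ)) ((r2:ℤ) - 2 * R * (r1:ℤ)) a := by
      intro a
      unfold ph
      rw [zl, zm]
    have hnd' : ¬ ((nl : ℤ) ∣ 2 * (r2:ℤ) - (r1:ℤ) ∧ (nl : ℤ) ∣ (r2:ℤ) - 2 * R * (r1:ℤ)) := by
      rintro ⟨h1, h2⟩
      apply hnd
      rw [← ZMod.intCast_zmod_eq_zero_iff_dvd] at h1 h2
      rw [← zl] at h1
      rw [← zm] at h2
      exact ⟨(ZMod.intCast_zmod_eq_zero_iff_dvd _ _).1 h1,
        (ZMod.intCast_zmod_eq_zero_iff_dvd _ _).1 h2⟩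
    obtain ⟨I, hIO, hI, hIc⟩ := f2 nl hnl1 hnlA hcop (2 * (r2:ℤ) - (r1:ℤ))
      ((r2:ℤ) - 2 * R * (r1:ℤ)) hnd' ((r1:ℝ) / nl) (sf_t ε K i j) htn
    have hkey := hlow (Sum.inr (some (⟨nl, by omega⟩, ⟨r1, by omega⟩, ⟨r2, by omega⟩),
      (⟨i, hi⟩, ⟨j, hj⟩))) (by
        refine hIc.trans ?_
        have : I ⊆ Om.filter (fun a => sf_P R A b ε K N (Sum.inr (some (⟨nl, by omega⟩,
            ⟨r1, by omega⟩, ⟨r2, by omega⟩), (⟨i, hi⟩, ⟨j, hj⟩))) a) := by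
          intro a ha
          rw [Finset.mem_filter]
          exact ⟨hIO ha, hI a ha⟩
        exact_mod_cast Finset.card_le_card this)
    refine ⟨_, hkey, ?_⟩
    intro i' hi'
    rw [Finset.mem_filter] at hi'
    have h1 : Near (3 / 4 * ε) ((sf_t ε K i j * gv R b (ω i').1).re + (r1:ℝ) / nl +
        ph nl R b (2 * (r2:ℤ) - (r1:ℤ)) ((r2:ℤ) - 2 * R * (r1:ℤ)) (ω i').1) := hi'.2
    rw [hph]
    have hdecomp : (rho1:ℝ) / nl = (r1:ℝ) / nl + ((rho1 / (nl:ℤ) : ℤ) : ℝ) := by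
      have h2 : rho1 = nl * (rho1 / (nl:ℤ)) + r1 := by
        rw [hr1]
        exact (Int.mul_ediv_add_emod rho1 nl).symm
      have h3 : (rho1:ℝ) = (nl:ℝ) * ((rho1 / (nl:ℤ) : ℤ) : ℝ) + (r1:ℝ) := by
        have h4 : ((rho1:ℤ):ℝ) = ((nl * (rho1 / (nl:ℤ)) + r1 : ℤ) : ℝ) := by rw [← h2]
        rw [h4]
        push_cast
        ring
      have hnlR : (nl:ℝ) ≠ 0 := by
        have : (0:ℝ) < nl := by exact_mod_cast hnl1
        exact this.ne'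
      rw [h3]
      field_simp
      ring
    have h5 := sf_near (ε := ε)
      (x := (t * gv R b (ω i').1).re + (r1:ℝ) / nl +
        ph nl R b (2 * (r2:ℤ) - (r1:ℤ)) ((r2:ℤ) - 2 * R * (r1:ℤ)) (ω i').1)
      (y := (sf_t ε K i j * gv R b (ω i').1).re + (r1:ℝ) / nl +
        ph nl R b (2 * (r2:ℤ) - (r1:ℤ)) ((r2:ℤ) - 2 * R * (r1:ℤ)) (ω i').1) (by
          have h6 := sf_re R b (ω i').1 htt
          have h7 : ((t * gv R b (ω i').1).re + (r1:ℝ) / nl +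
            ph nl R b (2 * (r2:ℤ) - (r1:ℤ)) ((r2:ℤ) - 2 * R * (r1:ℤ)) (ω i').1) -
            ((sf_t ε K i j * gv R b (ω i').1).re + (r1:ℝ) / nl +
            ph nl R b (2 * (r2:ℤ) - (r1:ℤ)) ((r2:ℤ) - 2 * R * (r1:ℤ)) (ω i').1) =
            (t * gv R b (ω i').1).re - (sf_t ε K i j * gv R b (ω i').1).re := by ring
          rw [h7]
          exact h6) (rho1 / (nl:ℤ)) h1
    have h8 : (t * gv R b (ω i').1).re + (rho1:ℝ) / nl +
        ph nl R b (2 * (r2:ℤ) - (r1:ℤ)) ((r2:ℤ) - 2 * R * (r1:ℤ)) (ω i').1 =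
        (t * gv R b (ω i').1).re + (r1:ℝ) / nl +
        ph nl R b (2 * (r2:ℤ) - (r1:ℤ)) ((r2:ℤ) - 2 * R * (r1:ℤ)) (ω i').1 +
        ((rho1 / (nl:ℤ) : ℤ) : ℝ) := by
      rw [hdecomp]
      ring
    rw [h8]
    exact h5
  · intro t ht
    obtain ⟨i, j, hi, hj, htt, htn⟩ := sf_net A ε hε hε1 K N hK1 hN t ht
    obtain ⟨I, hIO, hI, hIc⟩ := f3 (sf_t ε K i j) htn
    have hkey := hlow (Sum.inr (none, (⟨i, hi⟩, ⟨j, hj⟩))) (by
        refine hIc.trans ?_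
        have : I ⊆ Om.filter (fun a => sf_P R A b ε K N
            (Sum.inr (none, (⟨i, hi⟩, ⟨j, hj⟩))) a) := by
          intro a ha
          rw [Finset.mem_filter]
          exact ⟨hIO ha, hI a ha⟩
        exact_mod_cast Finset.card_le_card this)
    refine ⟨_, hkey, ?_⟩
    intro i' hi'
    rw [Finset.mem_filter] at hi'
    have h1 : Near (3 / 4 * ε) (sf_t ε K i j * gv R b (ω i').1).re := hi'.2
    exact sf_near0 (sf_re R b (ω i').1 htt) h1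

end ME12
export ME12 (sample_family)
end Pyj
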