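import Mathlib
import Pool.Agent.Pyj.Defs2
set_option autoImplicit false
set_option maxHeartbeats 4000000

namespace Pyj
open Finset ComplexConjugate
namespace MJ1
noncomputable def vv_10968 (K k : ℕ) : ℝ := if k = 0 then K else 2 * ((K - k : ℕ) : ℝ)

theorem DK_10968 (θ : ℝ) (K : ℕ) :
    (1 - Real.cos θ) * ∑ k ∈ range (K + 1), (if k = 0 then (1 : ℝ) else 2) * Real.cos (k * θ) =
      Real.cos (K * θ) - Real.cos ((K + 1) * θ) := by
  induction K with
  | zero => simp
  | succ K ih =>
    rw [sum_range_succ, mul_add, ih]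
    have h1 : Real.cos ((K : ℝ) * θ) + Real.cos (((K : ℝ) + 1 + 1) * θ) =
        2 * Real.cos (((K : ℝ) + 1) * θ) * Real.cos θ := by
      have e1 : (K : ℝ) * θ = ((K : ℝ) + 1) * θ - θ := by ring
      have e2 : ((K : ℝ) + 1 + 1) * θ = ((K : ℝ) + 1) * θ + θ := by ring
      rw [e1, e2, Real.cos_sub, Real.cos_add]
      ring
    rw [if_neg (Nat.succ_ne_zero K)]
    push_cast
    linear_combination h1

theorem VK_10968 (θ : ℝ) (K : ℕ) :
    (1 - Real.cos θ) * ∑ k ∈ range (K + 1), vv_10968 K k * Real.cos (k * θ) =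
      1 - Real.cos (K * θ) := by
  induction K with
  | zero => simp [vv_10968]
  | succ K ih =>
    have h1 : ∑ k ∈ range (K + 1 + 1), vv_10968 (K + 1) k * Real.cos (k * θ) =
        ∑ k ∈ range (K + 1), vv_10968 K k * Real.cos (k * θ) +
        ∑ k ∈ range (K + 1), (if k = 0 then (1 : ℝ) else 2) * Real.cos (k * θ) := by
      rw [sum_range_succ]
      have h0 : vv_10968 (K + 1) (K + 1) = 0 := by simp [vv_10968]
      rw [h0, zero_mul, add_zero, ← sum_add_distrib]
      apply sum_congr rfl
      intro k hk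
      have hk' : k ≤ K := Nat.lt_succ_iff.1 (mem_range.1 hk)
      have h2 : vv_10968 (K + 1) k = vv_10968 K k + (if k = 0 then (1 : ℝ) else 2) := by
        unfold vv_10968
        by_cases h3 : k = 0
        · simp [h3]
        · rw [if_neg h3, if_neg h3, if_neg h3, Nat.cast_sub (by omega), Nat.cast_sub hk']
          push_cast
          ring
      rw [h2]
      ring
    rw [h1, mul_add, ih, DK_10968]
    push_cast
    ring

theorem vv_bd_10968 (K k : ℕ) : 0 ≤ vv_10968 K k ∧ vv_10968 K k ≤ 2 * K := by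
  unfold vv_10968
  split_ifs with h
  · constructor
    · positivity
    · have : (0 : ℝ) ≤ K := Nat.cast_nonneg K
      linarith
  · have : ((K - k : ℕ) : ℝ) ≤ K := by exact_mod_cast Nat.sub_le K k
    constructor
    · positivity
    · linarith

theorem sumv_10968 (K : ℕ) : ∑ k ∈ range (K + 1), vv_10968 K k = (K : ℝ) ^ 2 := by
  induction K with
  | zero => simp [vv_10968]
  | succ K ih =>
    rw [sum_range_succ]
    have h0 : vv_10968 (K + 1) (K + 1) = 0 := by simp [vv_10968]
    rw [h0, add_zero]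
    have h1 : ∑ k ∈ range (K + 1), vv_10968 (K + 1) k =
        ∑ k ∈ range (K + 1), (vv_10968 K k + (if k = 0 then (1 : ℝ) else 2)) := by
      apply sum_congr rfl
      intro k hk
      have hk' : k ≤ K := Nat.lt_succ_iff.1 (mem_range.1 hk)
      unfold vv_10968
      by_cases h3 : k = 0
      · simp [h3]
      · rw [if_neg h3, if_neg h3, if_neg h3, Nat.cast_sub (by omega), Nat.cast_sub hk']
        push_cast
        ring
    have h2 : ∑ k ∈ range (K + 1), (if k = 0 then (1 : ℝ) else 2) = 2 * K + 1 := by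
      rw [sum_range_succ']
      simp
      ring
    rw [h1, sum_add_distrib, ih, h2]
    push_cast
    ring

theorem test_fn (ε : ℝ) (h0 : 0 < ε) (h1 : ε ≤ 1 / 8) (K : ℕ) (hK : 1 / ε ^ 2 ≤ K) :
    ∃ c : ℕ → ℝ, TestFn ε K c := by
  have hKpos : (0 : ℝ) < K := lt_of_lt_of_le (by positivity) hK
  have hKε : 1 / (K : ℝ) ≤ ε ^ 2 := by
    rw [div_le_iff₀ (by positivity)] at hK
    rw [div_le_iff₀ hKpos]
    linarith
  have hKε1 : 1 / (K : ℝ) ≤ 1 := by
    refine hKε.trans ?_
    nlinarith
  have hKinv : 0 < 1 / (K : ℝ) := by positivity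
  set γ := Real.cos (2 * Real.pi * ε) with hγ
  have hγ1 : 8 * ε ^ 2 ≤ 1 - γ := by
    have h2 : γ = 1 - 2 * Real.sin (Real.pi * ε) ^ 2 := by
      have := Real.cos_sq (Real.pi * ε)
      have h3 := Real.sin_sq_add_cos_sq (Real.pi * ε)
      rw [hγ, show 2 * Real.pi * ε = 2 * (Real.pi * ε) by ring]
      linarith
    have h3 : 2 * ε ≤ Real.sin (Real.pi * ε) := by
      have := Real.mul_le_sin (x := Real.pi * ε) (by positivity)
        (by nlinarith [Real.pi_pos])
      have h4 : 2 / Real.pi * (Real.pi * ε) = 2 * ε := by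
        field_simp
      linarith
    rw [h2]
    nlinarith
  have hγ2 : 1 - γ ≤ 2 := by
    have := Real.neg_one_le_cos (2 * Real.pi * ε)
    linarith
  have hγ0 : 0 < 1 - γ := lt_of_lt_of_le (by positivity) hγ1
  let c : ℕ → ℝ := fun k => (1 - γ) * (vv_10968 K k / K) + (if k = 0 then -(1 / (K : ℝ)) else 0) +
    (if k = K then 1 / (K : ℝ) else 0)
  have hKne : K ≠ 0 := by
    rintro rfl
    simp at hKpos
  have hv01 : ∀ k, 0 ≤ vv_10968 K k / K ∧ vv_10968 K k / K ≤ 2 := by
    intro k
    obtain ⟨ha, hb⟩ := vv_bd_10968 K k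
    constructor
    · positivity
    · rw [div_le_iff₀ hKpos]
      exact hb
  have htf : ∀ x, tf K c x = (1 - γ) / K *
      (∑ k ∈ range (K + 1), vv_10968 K k * Real.cos (k * (2 * Real.pi * x))) -
      (1 - Real.cos (K * (2 * Real.pi * x))) / K := by
    intro x
    unfold tf
    have e1 : ∀ k ∈ range (K + 1), c k * Real.cos (2 * Real.pi * k * x) =
        (1 - γ) / K * (vv_10968 K k * Real.cos (k * (2 * Real.pi * x))) +
        (if k = 0 then -(1 / (K : ℝ)) * Real.cos (k * (2 * Real.pi * x)) else 0) +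
        (if k = K then 1 / (K : ℝ) * Real.cos (k * (2 * Real.pi * x)) else 0) := by
      intro k _
      have e2 : 2 * Real.pi * k * x = k * (2 * Real.pi * x) := by ring
      rw [e2]
      show ((1 - γ) * (vv_10968 K k / K) + (if k = 0 then -(1 / (K : ℝ)) else 0) +
        (if k = K then 1 / (K : ℝ) else 0)) * _ = _
      split_ifs <;> ring
    rw [sum_congr rfl e1, sum_add_distrib, sum_add_distrib, ← mul_sum, sum_ite_eq', sum_ite_eq',
      if_pos (mem_range.2 (by omega)), if_pos (mem_range.2 (by omega))]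
    simp only [Nat.cast_zero, zero_mul, Real.cos_zero]
    ring
  refine ⟨c, ?_, ?_, ?_, ?_⟩
  · intro k
    show |(1 - γ) * (vv_10968 K k / K) + (if k = 0 then -(1 / (K : ℝ)) else 0) +
      (if k = K then 1 / (K : ℝ) else 0)| ≤ 4
    obtain ⟨ha, hb⟩ := hv01 k
    have hc1 : 0 ≤ (1 - γ) * (vv_10968 K k / K) := by positivity
    have hc2 : (1 - γ) * (vv_10968 K k / K) ≤ 4 := by nlinarith
    by_cases hk0 : k = 0
    · subst hk0
      rw [if_pos rfl, if_neg (Ne.symm hKne), add_zero, abs_le]
      constructor <;> linarith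
    · rw [if_neg hk0]
      by_cases hkK : k = K
      · subst hkK
        have : vv_10968 k k = 0 := by simp [vv_10968, hk0]
        rw [if_pos rfl, this, zero_div, mul_zero, add_zero, zero_add, abs_le]
        constructor <;> linarith
      · rw [if_neg hkK, add_zero, add_zero, abs_le]
        constructor <;> linarith
  · show ε ^ 2 ≤ (1 - γ) * (vv_10968 K 0 / K) + (if (0 : ℕ) = 0 then -(1 / (K : ℝ)) else 0) +
      (if 0 = K then 1 / (K : ℝ) else 0)
    have : vv_10968 K 0 / K = 1 := by
      simp only [vv_10968, if_true]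
      exact div_self hKpos.ne'
    rw [this, if_pos rfl, if_neg (Ne.symm hKne)]
    nlinarith
  · intro x
    rw [htf]
    have h2 : ∑ k ∈ range (K + 1), vv_10968 K k * Real.cos (k * (2 * Real.pi * x)) ≤ (K : ℝ) ^ 2 := by
      rw [← sumv_10968]
      apply sum_le_sum
      intro k _
      have := Real.cos_le_one (k * (2 * Real.pi * x))
      have h3 := (vv_bd_10968 K k).1
      nlinarith
    have h3 : 0 ≤ (1 - Real.cos (K * (2 * Real.pi * x))) / K := by
      have := Real.cos_le_one (K * (2 * Real.pi * x))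
      exact div_nonneg (by linarith) hKpos.le
    have h4 : (1 - γ) / K *
      (∑ k ∈ range (K + 1), vv_10968 K k * Real.cos (k * (2 * Real.pi * x))) ≤
      (1 - γ) / K * (K : ℝ) ^ 2 := mul_le_mul_of_nonneg_left h2 (by positivity)
    have h5 : (1 - γ) / K * (K : ℝ) ^ 2 = (1 - γ) * K := by
      field_simp
    nlinarith
  · intro x hx
    rw [htf, ← VK_10968]
    set V := ∑ k ∈ range (K + 1), vv_10968 K k * Real.cos (k * (2 * Real.pi * x)) with hV
    have hcos : Real.cos (2 * Real.pi * x) ≤ γ := by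
      have e1 : Real.cos (2 * Real.pi * x) = Real.cos (2 * Real.pi * |x - round x|) := by
        have : 2 * Real.pi * |x - round x| = |2 * Real.pi * (x - round x)| := by
          rw [abs_mul, abs_of_pos (by positivity : (0 : ℝ) < 2 * Real.pi)]
        rw [this, Real.cos_abs]
        have e2 : 2 * Real.pi * (x - round x) = 2 * Real.pi * x - (round x : ℝ) * (2 * Real.pi) := by
          ring
        rw [e2, Real.cos_sub_int_mul_two_pi]
      rw [e1, hγ]
      have h2 : ε < |x - round x| := by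
        by_contra h3
        exact hx ⟨round x, not_lt.1 h3⟩
      have h3 : |x - round x| ≤ 1 / 2 := abs_sub_round x
      apply Real.cos_le_cos_of_nonneg_of_le_pi
      · positivity
      · nlinarith [Real.pi_pos]
      · nlinarith [Real.pi_pos]
    have hVnn : 0 ≤ V := by
      have h2 := VK_10968 (2 * Real.pi * x) K
      rw [← hV] at h2
      have h3 : 0 < 1 - Real.cos (2 * Real.pi * x) := by linarith
      have h4 := Real.cos_le_one (K * (2 * Real.pi * x))
      by_contra h5
      push Not at h5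
      nlinarith
    have e : (1 - γ) / K * V - (1 - Real.cos (2 * Real.pi * x)) * V / K =
        (Real.cos (2 * Real.pi * x) - γ) * V / K := by ring
    rw [e]
    apply div_nonpos_of_nonpos_of_nonneg _ hKpos.le
    exact mul_nonpos_of_nonpos_of_nonneg (by linarith) hVnn

theorem tf_lip (ε : ℝ) (K : ℕ) (c : ℕ → ℝ) (hc : TestFn ε K c) (x y : ℝ) :
    |tf K c x - tf K c y| ≤ 50 * (K : ℝ) ^ 2 * |x - y| := by
  unfold tf
  rw [← sum_sub_distrib]
  have h1 : ∀ k ∈ range (K + 1), |c k * Real.cos (2 * Real.pi * k * x) -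
      c k * Real.cos (2 * Real.pi * k * y)| ≤ 8 * Real.pi * |x - y| * k := by
    intro k _
    rw [← mul_sub, abs_mul]
    have h2 : |Real.cos (2 * Real.pi * k * x) - Real.cos (2 * Real.pi * k * y)| ≤
        2 * Real.pi * k * |x - y| := by
      have h3 := Real.lipschitzWith_cos.dist_le_mul (2 * Real.pi * k * x) (2 * Real.pi * k * y)
      rw [Real.dist_eq, Real.dist_eq, NNReal.coe_one, one_mul, ← mul_sub, abs_mul,
        abs_of_nonneg (by positivity : (0 : ℝ) ≤ 2 * Real.pi * k)] at h3
      exact h3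
    calc |c k| * |Real.cos (2 * Real.pi * k * x) - Real.cos (2 * Real.pi * k * y)|
        ≤ 4 * (2 * Real.pi * k * |x - y|) :=
          mul_le_mul (hc.bd k) h2 (abs_nonneg _) (by norm_num)
      _ = 8 * Real.pi * |x - y| * k := by ring
  refine (abs_sum_le_sum_abs _ _).trans ((sum_le_sum h1).trans ?_)
  rw [← mul_sum]
  have h2 : (∑ k ∈ range (K + 1), (k : ℝ)) * 2 = ((K : ℝ) + 1) * K := by
    have := Finset.sum_range_id_mul_two (K + 1)
    have h3 : (((∑ k ∈ range (K + 1), k) * 2 : ℕ) : ℝ) = (((K + 1) * (K + 1 - 1) : ℕ) : ℝ) := by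
      rw [this]
    push_cast at h3
    simpa using h3
  have h3 : ∑ k ∈ range (K + 1), (k : ℝ) ≤ (K : ℝ) ^ 2 := by
    have : ((K : ℝ) + 1) * K ≤ 2 * (K : ℝ) ^ 2 := by
      have : (K + 1) * K ≤ 2 * K ^ 2 := by
        rcases Nat.eq_zero_or_pos K with h | h
        · subst h; simp
        · nlinarith
      exact_mod_cast this
    linarith
  have h4 : 0 ≤ 8 * Real.pi * |x - y| := by positivity
  have h5 : 8 * Real.pi * |x - y| * ∑ k ∈ range (K + 1), (k : ℝ) ≤
      8 * Real.pi * |x - y| * (K : ℝ) ^ 2 := mul_le_mul_of_nonneg_left h3 h4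
  have h6 : 8 * Real.pi ≤ 50 := by linarith [Real.pi_lt_four]
  have h7 : 8 * Real.pi * (|x - y| * (K : ℝ) ^ 2) ≤ 50 * (|x - y| * (K : ℝ) ^ 2) :=
    mul_le_mul_of_nonneg_right h6 (by positivity)
  calc _ ≤ _ := h5
    _ = 8 * Real.pi * (|x - y| * (K : ℝ) ^ 2) := by ring
    _ ≤ _ := h7
    _ = _ := by ring

theorem tf_int (K : ℕ) (c : ℕ → ℝ) (x : ℝ) (k : ℤ) : tf K c (x + k) = tf K c x := by
  unfold tf
  apply sum_congr rfl
  intro j _
  congr 1
  have e : 2 * Real.pi * j * (x + k) = 2 * Real.pi * j * x + ((j * k : ℤ) : ℝ) * (2 * Real.pi) := by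
    push_cast
    ring
  rw [e, Real.cos_add_int_mul_two_pi]

end MJ1
export MJ1 (test_fn tf_lip tf_int)
end Pyj
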