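import Mathlib
import Pool.Agent.Pyj.Defs2
set_option autoImplicit false
set_option maxHeartbeats 4000000

namespace Pyj
open Finset ComplexConjugate
namespace MJ2
noncomputable def host1e (x : ℝ) : ℂ := Complex.exp (((2 * Real.pi * x : ℝ) : ℂ) * Complex.I)

theorem host1e_add (x y : ℝ) : host1e (x + y) = host1e x * host1e y := by
  unfold host1e
  rw [← Complex.exp_add]
  congr 1
  push_cast
  ring

theorem host1e_re (x : ℝ) : (host1e x).re = Real.cos (2 * Real.pi * x) := by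
  unfold host1e
  exact Complex.exp_ofReal_mul_I_re _

theorem host1e_conj (x : ℝ) : conj (host1e x) = host1e (-x) := by
  unfold host1e
  rw [← Complex.exp_conj]
  congr 1
  rw [map_mul, Complex.conj_ofReal, Complex.conj_I]
  push_cast
  ring

theorem host1e_zero : host1e 0 = 1 := by
  unfold host1e
  simp

theorem host1e_nat (j : ℕ) (x : ℝ) : host1e (j * x) = host1e x ^ j := by
  unfold host1e
  rw [← Complex.exp_nat_mul]
  congr 1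
  push_cast
  ring

theorem host1e_eq_one {x : ℝ} : host1e x = 1 ↔ ∃ t : ℤ, x = t := by
  unfold host1e
  rw [Complex.exp_eq_one_iff]
  constructor
  · rintro ⟨n, hn⟩
    refine ⟨n, ?_⟩
    have h1 : (((2 * Real.pi * x : ℝ) : ℂ)) = ((2 * Real.pi * n : ℝ) : ℂ) := by
      have h2 : (((2 * Real.pi * x : ℝ) : ℂ)) * Complex.I = ((2 * Real.pi * n : ℝ) : ℂ) * Complex.I := by
        rw [hn]; push_cast; ring
      exact mul_right_cancel₀ Complex.I_ne_zero h2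
    have h3 : 2 * Real.pi * x = 2 * Real.pi * n := by exact_mod_cast h1
    have : (2 * Real.pi) ≠ 0 := by positivity
    exact mul_left_cancel₀ this h3
  · rintro ⟨n, rfl⟩
    exact ⟨n, by push_cast; ring⟩

theorem host1_geom {N : ℕ} {z : ℂ} (h1 : z ^ N = 1) (h2 : z ≠ 1) : ∑ j ∈ range N, z ^ j = 0 := by
  have h := geom_sum_eq h2 N
  rw [h, h1, sub_self, zero_div]

theorem host1_sq {ι : Type} [Fintype ι] [Nonempty ι] (N : ℕ) (k : ℕ) (x θ : ι → ℝ)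
    (h1 : ∀ ξ ξ' : ι, ∃ t : ℤ, (N : ℝ) * (k * (θ ξ - θ ξ')) = t)
    (h2 : ∀ ξ ξ' : ι, ξ ≠ ξ' → ¬ ∃ t : ℤ, (k : ℝ) * (θ ξ - θ ξ') = t) :
    ∑ j ∈ range N, ‖∑ ξ, host1e (k * (x ξ + j * θ ξ))‖ ^ 2 = (Fintype.card ι : ℝ) * N := by
  classical
  have key : ∀ j : ℕ, ((‖∑ ξ, host1e (k * (x ξ + j * θ ξ))‖ ^ 2 : ℝ) : ℂ) =
      ∑ ξ, ∑ ξ', host1e (k * (x ξ - x ξ')) * host1e (k * (θ ξ - θ ξ')) ^ j := by
    intro j
    rw [← Complex.normSq_eq_norm_sq, ← Complex.mul_conj, map_sum, Finset.sum_mul_sum]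
    refine Finset.sum_congr rfl fun ξ _ => Finset.sum_congr rfl fun ξ' _ => ?_
    rw [host1e_conj, ← host1e_add, ← host1e_nat, ← host1e_add]
    congr 1
    ring
  have h3 : ((∑ j ∈ range N, ‖∑ ξ, host1e (k * (x ξ + j * θ ξ))‖ ^ 2 : ℝ) : ℂ) =
      (((Fintype.card ι : ℝ) * N : ℝ) : ℂ) := by
    rw [Complex.ofReal_sum]
    simp_rw [key]
    rw [Finset.sum_comm]
    have h4 : ∀ ξ : ι, ∑ j ∈ range N, ∑ ξ', host1e (k * (x ξ - x ξ')) *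
        host1e (k * (θ ξ - θ ξ')) ^ j = N := by
      intro ξ
      rw [Finset.sum_comm, Finset.sum_eq_single ξ]
      · simp [host1e_zero]
      · intro ξ' _ hne
        rw [← Finset.mul_sum, host1_geom, mul_zero]
        · rw [← host1e_nat]
          exact host1e_eq_one.2 (h1 ξ ξ')
        · intro h
          exact h2 ξ ξ' (Ne.symm hne) (host1e_eq_one.1 h)
      · intro h; exact absurd (Finset.mem_univ _) h
    rw [Finset.sum_congr rfl fun ξ _ => h4 ξ]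
    simp
  exact_mod_cast h3

theorem host1_tf (K : ℕ) (c : ℕ → ℝ) (y : ℝ) :
    tf K c y = c 0 + ∑ k ∈ Finset.Icc 1 K, c k * (host1e (k * y)).re := by
  unfold tf
  rw [Finset.range_eq_Ico, Finset.sum_eq_sum_Ico_succ_bot (Nat.succ_pos K)]
  congr 1
  · simp
  · have : Finset.Ico (0 + 1) (K + 1) = Finset.Icc 1 K := by
      ext a; simp only [Finset.mem_Ico, Finset.mem_Icc]; omega
    rw [this]
    refine Finset.sum_congr rfl fun k _ => ?_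
    rw [host1e_re]
    congr 2
    ring

theorem host1_bad {ι : Type} [Fintype ι] [Nonempty ι] (K : ℕ) (c : ℕ → ℝ)
    (hc : ∀ k, |c k| ≤ 4) (m : ℝ) (hm : 0 < m) (hc0 : m ≤ c 0) (y : ι → ℝ)
    (hb : (∑ ξ, tf K c (y ξ)) / (Fintype.card ι : ℝ) ≤ 3 / 4 * c 0) :
    (Fintype.card ι : ℝ) ^ 2 * m ^ 2 / 256 ≤
      K * ∑ k ∈ Finset.Icc 1 K, ‖∑ ξ, host1e (k * y ξ)‖ ^ 2 := by
  have hn : (0 : ℝ) < Fintype.card ι := by exact_mod_cast Fintype.card_pos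
  have h1 : ∑ ξ, tf K c (y ξ) = (Fintype.card ι : ℝ) * c 0 +
      ∑ k ∈ Finset.Icc 1 K, c k * (∑ ξ, host1e (k * y ξ)).re := by
    simp_rw [host1_tf]
    rw [Finset.sum_add_distrib, Finset.sum_comm]
    congr 1
    · simp
    · refine Finset.sum_congr rfl fun k _ => ?_
      rw [Complex.re_sum, Finset.mul_sum]
  rw [div_le_iff₀ hn, h1] at hb
  have h2 : (Fintype.card ι : ℝ) * m / 4 ≤ - ∑ k ∈ Finset.Icc 1 K, c k * (∑ ξ, host1e (k * y ξ)).re := by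
    nlinarith
  have h3 : - ∑ k ∈ Finset.Icc 1 K, c k * (∑ ξ, host1e (k * y ξ)).re ≤
      ∑ k ∈ Finset.Icc 1 K, 4 * ‖∑ ξ, host1e (k * y ξ)‖ := by
    rw [← Finset.sum_neg_distrib]
    refine Finset.sum_le_sum fun k _ => ?_
    have h5 : |(∑ ξ, host1e (k * y ξ)).re| ≤ ‖∑ ξ, host1e (k * y ξ)‖ := Complex.abs_re_le_norm _
    calc -(c k * (∑ ξ, host1e (k * y ξ)).re) ≤ |c k * (∑ ξ, host1e (k * y ξ)).re| := neg_le_abs _
      _ = |c k| * |(∑ ξ, host1e (k * y ξ)).re| := abs_mul _ _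
      _ ≤ 4 * ‖∑ ξ, host1e (k * y ξ)‖ := mul_le_mul (hc k) h5 (abs_nonneg _) (by norm_num)
  rw [← Finset.mul_sum] at h3
  have h4 : (Fintype.card ι : ℝ) * m / 16 ≤ ∑ k ∈ Finset.Icc 1 K, ‖∑ ξ, host1e (k * y ξ)‖ := by
    linarith
  have h5 : (∑ k ∈ Finset.Icc 1 K, ‖∑ ξ, host1e (k * y ξ)‖) ^ 2 ≤
      K * ∑ k ∈ Finset.Icc 1 K, ‖∑ ξ, host1e (k * y ξ)‖ ^ 2 := by
    have := sq_sum_le_card_mul_sum_sq (s := Finset.Icc 1 K)
      (f := fun k : ℕ => ‖∑ ξ, host1e (k * y ξ)‖)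
    simpa using this
  have h6 : ((Fintype.card ι : ℝ) * m / 16) ^ 2 ≤
      (∑ k ∈ Finset.Icc 1 K, ‖∑ ξ, host1e (k * y ξ)‖) ^ 2 := by
    apply pow_le_pow_left₀ _ h4
    positivity
  calc (Fintype.card ι : ℝ) ^ 2 * m ^ 2 / 256 = ((Fintype.card ι : ℝ) * m / 16) ^ 2 := by ring
    _ ≤ _ := h6.trans h5

theorem host1 {ι : Type} [Fintype ι] [Nonempty ι] (N K : ℕ) (hN : 0 < N) (c : ℕ → ℝ)
    (hc : ∀ k, |c k| ≤ 4) (m : ℝ) (hm : 0 < m) (hc0 : m ≤ c 0) (x θ : ι → ℝ)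
    (h1 : ∀ ξ ξ' : ι, ∀ k ∈ Finset.Icc 1 K, ∃ t : ℤ, (N : ℝ) * (k * (θ ξ - θ ξ')) = t)
    (h2 : ∀ ξ ξ' : ι, ξ ≠ ξ' → ∀ k ∈ Finset.Icc 1 K, ¬ ∃ t : ℤ, (k : ℝ) * (θ ξ - θ ξ') = t) :
    (((range N).filter (fun j : ℕ =>
      (∑ ξ, tf K c (x ξ + j * θ ξ)) / (Fintype.card ι : ℝ) ≤ 3 / 4 * c 0)).card : ℝ) ≤
      256 * (K : ℝ) ^ 2 / m ^ 2 * (N / (Fintype.card ι : ℝ)) := by
  have hn : (0 : ℝ) < Fintype.card ι := by exact_mod_cast Fintype.card_pos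
  set B := (range N).filter (fun j : ℕ =>
      (∑ ξ, tf K c (x ξ + j * θ ξ)) / (Fintype.card ι : ℝ) ≤ 3 / 4 * c 0) with hB
  have e1 : (B.card : ℝ) * ((Fintype.card ι : ℝ) ^ 2 * m ^ 2 / 256) ≤
      ∑ j ∈ B, K * ∑ k ∈ Finset.Icc 1 K, ‖∑ ξ, host1e (k * (x ξ + j * θ ξ))‖ ^ 2 := by
    rw [← nsmul_eq_mul, ← Finset.sum_const]
    refine Finset.sum_le_sum fun j hj => ?_
    rw [hB, Finset.mem_filter] at hj
    exact host1_bad K c hc m hm hc0 (fun ξ => x ξ + j * θ ξ) hj.2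
  have e2 : ∑ j ∈ B, K * ∑ k ∈ Finset.Icc 1 K, ‖∑ ξ, host1e (k * (x ξ + j * θ ξ))‖ ^ 2 ≤
      ∑ j ∈ range N, (K : ℝ) * ∑ k ∈ Finset.Icc 1 K, ‖∑ ξ, host1e (k * (x ξ + j * θ ξ))‖ ^ 2 := by
    apply Finset.sum_le_sum_of_subset_of_nonneg (Finset.filter_subset _ _)
    intro j _ _
    positivity
  have e3 : ∑ j ∈ range N, (K : ℝ) * ∑ k ∈ Finset.Icc 1 K, ‖∑ ξ, host1e (k * (x ξ + j * θ ξ))‖ ^ 2
      = K * (K * ((Fintype.card ι : ℝ) * N)) := by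
    rw [← Finset.mul_sum, Finset.sum_comm]
    congr 1
    rw [Finset.sum_congr rfl fun k hk => host1_sq N k x θ (fun ξ ξ' => h1 ξ ξ' k hk)
      (fun ξ ξ' hne => h2 ξ ξ' hne k hk)]
    simp
  rw [e3] at e2
  have e4 := e1.trans e2
  have e5 : 256 * (K : ℝ) ^ 2 / m ^ 2 * (N / (Fintype.card ι : ℝ)) =
      (K * (K * ((Fintype.card ι : ℝ) * N))) / ((Fintype.card ι : ℝ) ^ 2 * m ^ 2 / 256) := by
    field_simp
  rw [e5, le_div_iff₀ (by positivity)]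
  exact e4

end MJ2
export MJ2 (host1)
end Pyj
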