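import Mathlib
import Pool.Agent.Pyj.Defs2
set_option autoImplicit false
set_option maxHeartbeats 4000000

namespace Pyj
open Finset ComplexConjugate
namespace MJ4
theorem OV_mul (R : ℕ) (ζ γ : ℂ) (hζ : ζ ∈ OV R) (hγ : γ ∈ OO R) : ζ * γ ∈ OV R := by
  intro γ' hγ'
  obtain ⟨k, hk⟩ := hζ (γ * γ') ((OO R).mul_mem hγ hγ')
  exact ⟨k, by rw [mul_assoc, hk]⟩

theorem J4_s_pos (R : ℕ) (hR : 1 ≤ R) : 0 < Real.sqrt (4 * R - 1) := by
  apply Real.sqrt_pos.2
  have : (1 : ℝ) ≤ R := by exact_mod_cast hR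
  linarith

theorem J4_s_sq (R : ℕ) (hR : 1 ≤ R) : Real.sqrt (4 * R - 1) ^ 2 = 4 * R - 1 := by
  apply Real.sq_sqrt
  have : (1 : ℝ) ≤ R := by exact_mod_cast hR
  linarith

theorem J4_om_mul_conj (R : ℕ) (hR : 1 ≤ R) : om R * conj (om R) = (R : ℂ) := by
  have h := J4_s_sq R hR
  rw [Complex.mul_conj, Complex.normSq_apply]
  simp only [om]
  have : 1 / 2 * (1 / 2) + Real.sqrt (4 * R - 1) / 2 * (Real.sqrt (4 * R - 1) / 2) = (R : ℝ) := by
    nlinarith [h]
  rw [this]
  simp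

theorem J4_conj_om (R : ℕ) : conj (om R) = 1 - om R := by
  apply Complex.ext
  · simp [om]; norm_num
  · simp [om]

theorem J4_om_sq (R : ℕ) (hR : 1 ≤ R) : om R * om R = om R - R := by
  have h := J4_om_mul_conj R hR
  rw [J4_conj_om] at h
  linear_combination -h

theorem J4_yv_mem (R : ℕ) (b a : ℤ) : yv R b a ∈ OO R := by
  unfold yv OO
  have h1 : om R ∈ Subring.closure {om R} := Subring.subset_closure rfl
  exact Subring.add_mem _ (intCast_mem _ a) (Subring.mul_mem _ (intCast_mem _ b) h1)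

theorem mem_OO' (R : ℕ) (hR : 1 ≤ R) (z : ℂ) : z ∈ OO R ↔ ∃ a b : ℤ, z = yv R b a := by
  constructor
  · intro h
    unfold OO at h
    refine Subring.closure_induction (p := fun z _ => ∃ a b : ℤ, z = yv R b a)
      ?_ ?_ ?_ ?_ ?_ ?_ h
    · intro x hx
      rw [Set.mem_singleton_iff] at hx
      exact ⟨0, 1, by rw [hx]; simp [yv]⟩
    · exact ⟨0, 0, by simp [yv]⟩
    · exact ⟨1, 0, by simp [yv]⟩
    · rintro x y _ _ ⟨a, b, rfl⟩ ⟨c, d, rfl⟩
      exact ⟨a + c, b + d, by unfold yv; push_cast; ring⟩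
    · rintro x _ ⟨a, b, rfl⟩
      exact ⟨-a, -b, by unfold yv; push_cast; ring⟩
    · rintro x y _ _ ⟨a, b, rfl⟩ ⟨c, d, rfl⟩
      refine ⟨a * c - R * (b * d), a * d + b * c + b * d, ?_⟩
      unfold yv
      push_cast
      linear_combination ((b : ℂ) * d) * J4_om_sq R hR
  · rintro ⟨a, b, rfl⟩
    exact J4_yv_mem R b a

theorem J4_yv_re (R : ℕ) (b a : ℤ) : (yv R b a).re = a + b / 2 := by
  simp [yv, om]; ring

theorem J4_yv_im (R : ℕ) (b a : ℤ) : (yv R b a).im = b * (Real.sqrt (4 * R - 1) / 2) := by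
  simp [yv, om]

theorem J4_mem_OV (R : ℕ) (hR : 1 ≤ R) (ζ : ℂ) : ζ ∈ OV R ↔
    ∃ k l : ℤ, ζ = ⟨k, (k - 2 * l) / Real.sqrt (4 * R - 1)⟩ := by
  have hs := J4_s_pos R hR
  constructor
  · intro h
    obtain ⟨k, hk⟩ := h 1 (OO R).one_mem
    obtain ⟨l, hl⟩ := h (om R) (Subring.subset_closure rfl)
    rw [mul_one] at hk
    rw [Complex.mul_re] at hl
    simp only [om] at hl
    refine ⟨k, l, ?_⟩
    apply Complex.ext
    · exact hk
    · simp only
      rw [eq_div_iff hs.ne']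
      rw [hk] at hl
      linarith
  · rintro ⟨k, l, rfl⟩ γ hγ
    obtain ⟨a, b, rfl⟩ := (mem_OO' R hR γ).1 hγ
    refine ⟨k * a + l * b, ?_⟩
    rw [Complex.mul_re, J4_yv_re, J4_yv_im]
    simp only
    push_cast
    field_simp
    ring

theorem OV_dual (R : ℕ) (hR : 1 ≤ R) (γ : ℂ) (h : ∀ ζ ∈ OV R, ∃ k : ℤ, (ζ * γ).re = k) :
    γ ∈ OO R := by
  have hs := J4_s_pos R hR
  obtain ⟨v, hv⟩ := h ⟨0, 2 / Real.sqrt (4 * R - 1)⟩
    ((J4_mem_OV R hR _).2 ⟨0, -1, by simp⟩)
  obtain ⟨u, hu⟩ := h ⟨1, 1 / Real.sqrt (4 * R - 1)⟩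
    ((J4_mem_OV R hR _).2 ⟨1, 0, by simp⟩)
  rw [Complex.mul_re] at hv hu
  simp only [zero_mul, zero_sub, one_mul] at hv hu
  rw [mem_OO' R hR]
  refine ⟨u, -v, ?_⟩
  apply Complex.ext
  · rw [J4_yv_re]
    push_cast
    have : 1 / Real.sqrt (4 * R - 1) * γ.im = 2 / Real.sqrt (4 * R - 1) * γ.im / 2 := by ring
    rw [this] at hu
    linarith
  · rw [J4_yv_im]
    push_cast
    rw [← hv]
    field_simp

theorem OV_min (R : ℕ) (hR : 2 ≤ R) (ζ : ℂ) (h : ζ ∈ OV R) (h0 : ζ ≠ 0) :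
    1 / (R : ℝ) ≤ ‖ζ‖ := by
  have hR1 : 1 ≤ R := by omega
  have hs := J4_s_pos R hR1
  have hs2 := J4_s_sq R hR1
  have hR2 : (2 : ℝ) ≤ R := by exact_mod_cast hR
  obtain ⟨k, l, rfl⟩ := (J4_mem_OV R hR1 ζ).1 h
  by_cases hk : k = 0
  · subst hk
    have hl : l ≠ 0 := by
      rintro rfl
      apply h0
      apply Complex.ext <;> simp
    have hl1 : (1 : ℝ) ≤ |(l : ℝ)| := by
      have := Int.one_le_abs hl
      exact_mod_cast this
    refine le_trans ?_ (Complex.abs_im_le_norm _)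
    simp only [Int.cast_zero, zero_sub]
    rw [abs_div, abs_neg, abs_mul, abs_of_pos hs, abs_of_pos (two_pos : (0:ℝ) < 2),
      div_le_div_iff₀ (by linarith) hs]
    have h3 : Real.sqrt (4 * R - 1) ≤ 2 * R := by
      apply Real.sqrt_le_iff.2
      constructor <;> nlinarith
    nlinarith
  · have hk1 : (1 : ℝ) ≤ |(k : ℝ)| := by
      have := Int.one_le_abs hk
      exact_mod_cast this
    refine le_trans ?_ (Complex.abs_re_le_norm _)
    simp only
    refine le_trans ?_ hk1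
    rw [div_le_one (by linarith)]
    linarith

theorem OV_eq (R : ℕ) (hR : 1 ≤ R) (ζ : ℂ) : ζ ∈ OV R ↔ ∃ x ∈ OO R, ζ = zet R * x := by
  have hs := J4_s_pos R hR
  have key : ∀ a b : ℤ, zet R * yv R b a = ⟨-b, (2 * a + b) / Real.sqrt (4 * R - 1)⟩ := by
    intro a b
    apply Complex.ext
    · rw [Complex.mul_re, J4_yv_re, J4_yv_im]
      simp only [zet]
      field_simp
      ring
    · rw [Complex.mul_im, J4_yv_re, J4_yv_im]
      simp only [zet]
      field_simp
      ring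
  rw [J4_mem_OV R hR]
  constructor
  · rintro ⟨k, l, rfl⟩
    refine ⟨yv R (-k) (k - l), J4_yv_mem _ _ _, ?_⟩
    rw [key]
    apply Complex.ext
    · simp
    · simp only
      push_cast
      ring
  · rintro ⟨x, hx, rfl⟩
    obtain ⟨a, b, rfl⟩ := (mem_OO' R hR x).1 hx
    refine ⟨-b, -a - b, ?_⟩
    rw [key]
    apply Complex.ext
    · simp
    · simp only
      push_cast
      ring

theorem digits (R E : ℕ) (hR : 2 ≤ R) (x : ℂ) (hx : x ∈ OO R) :
    ∃ j : ℕ, j < R ^ E ∧ ∃ x' ∈ OO R, x = j + conj (om R) ^ E * x' := by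
  have hR1 : 1 ≤ R := by omega
  have hom : om R ∈ OO R := Subring.subset_closure rfl
  have hw : conj (om R) ∈ OO R := by
    rw [J4_conj_om]
    exact (OO R).sub_mem (OO R).one_mem hom
  have hwo := J4_om_mul_conj R hR1
  -- powers of `ω` are `1` modulo `w`
  have hpow : ∀ n : ℕ, ∃ y ∈ OO R, om R ^ n = 1 + conj (om R) * y := by
    intro n
    induction n with
    | zero => exact ⟨0, (OO R).zero_mem, by simp⟩
    | succ n ih =>
      obtain ⟨y, hy, h⟩ := ih
      refine ⟨y * om R - 1, (OO R).sub_mem ((OO R).mul_mem hy hom) (OO R).one_mem, ?_⟩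
      rw [pow_succ, h]
      have := J4_conj_om R
      linear_combination this
  -- one digit
  have one : ∀ z ∈ OO R, ∃ i : ℕ, i < R ∧ ∃ z' ∈ OO R, z = i + conj (om R) * z' := by
    intro z hz
    obtain ⟨a, b, rfl⟩ := (mem_OO' R hR1 z).1 hz
    have hRz : (R : ℤ) ≠ 0 := by
      have : 0 < R := by omega
      exact_mod_cast this.ne'
    have hRp : (0 : ℤ) < R := by
      have : 0 < R := by omega
      exact_mod_cast this
    refine ⟨((a + b) % R).toNat, ?_, om R * (((a + b) / R : ℤ) : ℂ) - b, ?_, ?_⟩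
    · have h1 := Int.emod_lt_of_pos (a + b) hRp
      have h2 := Int.emod_nonneg (a + b) hRz
      omega
    · exact (OO R).sub_mem ((OO R).mul_mem hom (intCast_mem _ _)) (intCast_mem _ _)
    · have h2 := Int.emod_nonneg (a + b) hRz
      have h3 : ((((a + b) % R).toNat : ℕ) : ℂ) = (((a + b) % R : ℤ) : ℂ) := by
        have : ((((a + b) % R).toNat : ℕ) : ℤ) = (a + b) % R := Int.toNat_of_nonneg h2
        exact_mod_cast congrArg (fun t : ℤ => (t : ℂ)) this
      have h4 : (((a + b) % R : ℤ) : ℂ) = a + b - R * (((a + b) / R : ℤ) : ℂ) := by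
        have h5 := Int.emod_def (a + b) R
        have : (((a + b) % R : ℤ) : ℂ) = ((a + b - R * ((a + b) / R) : ℤ) : ℂ) :=
          congrArg (fun t : ℤ => (t : ℂ)) h5
        rw [this]
        push_cast
        ring
      rw [h3, h4]
      unfold yv
      have h5 := J4_conj_om R
      linear_combination (-(((a + b) / R : ℤ) : ℂ)) * hwo + (b : ℂ) * h5
  induction E with
  | zero => exact ⟨0, by simp, x, hx, by simp⟩
  | succ E ih =>
    obtain ⟨j, hj, x', hx', h⟩ := ih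
    obtain ⟨i, hi, x'', hx'', h'⟩ := one x' hx'
    obtain ⟨y, hy, hyE⟩ := hpow E
    refine ⟨j + i * R ^ E, ?_, x'' - i * y, ?_, ?_⟩
    · calc j + i * R ^ E < R ^ E + i * R ^ E := by omega
        _ = (i + 1) * R ^ E := by ring
        _ ≤ R * R ^ E := Nat.mul_le_mul_right _ hi
        _ = R ^ (E + 1) := by ring
    · exact (OO R).sub_mem hx'' ((OO R).mul_mem (natCast_mem _ _) hy)
    · have hRE : (R : ℂ) ^ E = conj (om R) ^ E * (1 + conj (om R) * y) := by
        rw [← hyE, ← hwo, mul_pow]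
        ring
      rw [h, h']
      push_cast
      rw [hRE]
      ring

theorem round_base (R : ℕ) (hR : 2 ≤ R) (J : ℕ) (hJ : 1 ≤ J) :
    ∃ P : Finset ℂ, P.card ≤ J ^ 2 ∧ ∀ z : ℂ, ∃ p ∈ P, ∃ ζ ∈ OV R, ‖z - p - ζ‖ ≤ 4 / J := by
  classical
  have hR1 : 1 ≤ R := by omega
  have hs := J4_s_pos R hR1
  have hs2 := J4_s_sq R hR1
  have hR2 : (2 : ℝ) ≤ R := by exact_mod_cast hR
  have hJ0 : (0 : ℝ) < J := by exact_mod_cast hJ
  have hJz : (0 : ℤ) < J := by exact_mod_cast hJ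
  refine ⟨(range J ×ˢ range J).image (fun pq : ℕ × ℕ =>
    zet R * (((pq.1 : ℝ) / J : ℝ) + ((pq.2 : ℝ) / J : ℝ) * om R)), ?_, ?_⟩
  · refine Finset.card_image_le.trans ?_
    rw [Finset.card_product, Finset.card_range]
    exact le_of_eq (by ring)
  · intro z
    have hzet : zet R ≠ 0 := by
      intro h
      have := congrArg Complex.im h
      simp only [zet, Complex.zero_im] at this
      have h2 : 0 < 2 / Real.sqrt (4 * R - 1) := by positivity
      linarith
    set z' : ℂ := z / zet R with hz'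
    set v : ℝ := 2 * z'.im / Real.sqrt (4 * R - 1) with hv
    set u : ℝ := z'.re - v / 2 with hu
    have hzuv : z = zet R * ((u : ℂ) + (v : ℂ) * om R) := by
      have : z' = (u : ℂ) + (v : ℂ) * om R := by
        apply Complex.ext
        · simp [om, hu]; ring
        · simp [om, hv]; field_simp
      rw [← this, hz']
      field_simp
    -- rounding
    have rnd : ∀ t : ℝ, ∃ (A : ℤ) (p : ℕ) (e : ℝ), p < J ∧ 0 ≤ e ∧ e ≤ 1 / J ∧
        t = A + p / J + e := by
      intro t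
      have h2 := Int.emod_nonneg ⌊t * J⌋ hJz.ne'
      have h1 := Int.emod_lt_of_pos ⌊t * J⌋ hJz
      refine ⟨⌊t * J⌋ / J, (⌊t * J⌋ % J).toNat, t - ⌊t * J⌋ / J, ?_, ?_, ?_, ?_⟩
      · omega
      · have := Int.floor_le (t * J)
        rw [sub_nonneg, div_le_iff₀ hJ0]
        exact this
      · have := Int.lt_floor_add_one (t * J)
        rw [sub_le_iff_le_add, ← add_div, le_div_iff₀ hJ0]
        linarith
      · have h3 : (((⌊t * J⌋ % J).toNat : ℕ) : ℝ) = ((⌊t * J⌋ % J : ℤ) : ℝ) := by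
          have : (((⌊t * J⌋ % J).toNat : ℕ) : ℤ) = ⌊t * J⌋ % J := Int.toNat_of_nonneg h2
          exact_mod_cast congrArg (fun t : ℤ => (t : ℝ)) this
        have h4 : ((⌊t * J⌋ % J : ℤ) : ℝ) = ⌊t * J⌋ - J * ((⌊t * J⌋ / J : ℤ) : ℝ) := by
          have h5 := Int.emod_def ⌊t * J⌋ J
          have : ((⌊t * J⌋ % J : ℤ) : ℝ) = ((⌊t * J⌋ - J * (⌊t * J⌋ / J) : ℤ) : ℝ) :=
            congrArg (fun t : ℤ => (t : ℝ)) h5
          rw [this]
          push_cast
          ring
        rw [h3, h4]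
        field_simp
        ring
    obtain ⟨A, p, e1, hp, he1, he1', hA⟩ := rnd u
    obtain ⟨B, q, e2, hq, he2, he2', hB⟩ := rnd v
    refine ⟨_, Finset.mem_image.2 ⟨(p, q), Finset.mem_product.2 ⟨Finset.mem_range.2 hp,
      Finset.mem_range.2 hq⟩, rfl⟩, zet R * yv R B A, (OV_eq R hR1 _).2 ⟨_, J4_yv_mem _ _ _, rfl⟩, ?_⟩
    have e : z - zet R * ((((p : ℕ) : ℝ) / J : ℝ) + (((q : ℕ) : ℝ) / J : ℝ) * om R) - zet R * yv R B A =
        zet R * ((e1 : ℂ) + (e2 : ℂ) * om R) := by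
      rw [hzuv, hA, hB]
      unfold yv
      push_cast
      ring
    simp only
    rw [e, norm_mul]
    have hzn : ‖zet R‖ = 2 / Real.sqrt (4 * R - 1) := by
      have : zet R = ((2 / Real.sqrt (4 * R - 1) : ℝ) : ℂ) * Complex.I := by
        apply Complex.ext <;> simp [zet]
      rw [this, norm_mul, Complex.norm_I, mul_one, Complex.norm_real, Real.norm_eq_abs,
        abs_of_pos (by positivity)]
    have hon : ‖om R‖ ≤ Real.sqrt (4 * R - 1) := by
      have h1 : ‖om R‖ ^ 2 = R := by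
        have := J4_om_mul_conj R hR1
        rw [Complex.mul_conj, Complex.normSq_eq_norm_sq] at this
        exact_mod_cast this
      apply Real.le_sqrt_of_sq_le
      rw [h1]
      linarith
    have hs1 : 1 ≤ Real.sqrt (4 * R - 1) := by
      rw [Real.one_le_sqrt]
      linarith
    have h6 : ‖(e1 : ℂ) + (e2 : ℂ) * om R‖ ≤ 2 * Real.sqrt (4 * R - 1) / J := by
      refine (norm_add_le _ _).trans ?_
      rw [norm_mul, Complex.norm_real, Complex.norm_real, Real.norm_eq_abs, Real.norm_eq_abs,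
        abs_of_nonneg he1, abs_of_nonneg he2]
      calc e1 + e2 * ‖om R‖ ≤ 1 / J + 1 / J * Real.sqrt (4 * R - 1) :=
            add_le_add he1' (mul_le_mul he2' hon (norm_nonneg _) (by positivity))
        _ ≤ 2 * Real.sqrt (4 * R - 1) / J := by
            have : 1 / (J : ℝ) + 1 / J * Real.sqrt (4 * R - 1) =
              (1 + Real.sqrt (4 * R - 1)) / J := by ring
            rw [this]
            exact div_le_div_of_nonneg_right (by linarith) hJ0.le
    rw [hzn]
    calc 2 / Real.sqrt (4 * R - 1) * ‖(e1 : ℂ) + (e2 : ℂ) * om R‖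
        ≤ 2 / Real.sqrt (4 * R - 1) * (2 * Real.sqrt (4 * R - 1) / J) :=
          mul_le_mul_of_nonneg_left h6 (by positivity)
      _ = 4 / J := by
          field_simp
          ring

end MJ4
export MJ4 (OV_mul OV_dual OV_min OV_eq digits round_base)
end Pyj
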