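import Mathlib
import Pool.Agent.Pyj.Defs2
import Pool.Agent.Pyj.J1
import Pool.Agent.Pyj.J2
import Pool.Agent.Pyj.J4
set_option autoImplicit false
set_option maxHeartbeats 4000000

namespace Pyj
open Finset ComplexConjugate
namespace MJ7
theorem J7_ow (R : ℕ) (hR : 4 ≤ R) : om R * conj (om R) = (R : ℂ) := by
  have h1 : (0 : ℝ) ≤ 4 * (R : ℝ) - 1 := by
    have : (4 : ℝ) ≤ R := by exact_mod_cast hR
    linarith
  rw [Complex.mul_conj]
  have h2 : Complex.normSq (om R) = (R : ℝ) := by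
    unfold om
    rw [Complex.normSq_mk]
    have h3 : Real.sqrt (4 * (R : ℝ) - 1) * Real.sqrt (4 * (R : ℝ) - 1) = 4 * (R : ℝ) - 1 :=
      Real.mul_self_sqrt h1
    linear_combination (1 / 4) * h3
  rw [h2]
  simp

theorem J7_sum (R : ℕ) : om R + conj (om R) = 1 := by
  unfold om
  apply Complex.ext
  · simp
    norm_num
  · simp

theorem J7_om_mem (R : ℕ) : om R ∈ OO R := Subring.subset_closure (by simp)

theorem J7_w_mem (R : ℕ) : conj (om R) ∈ OO R := by
  have h : conj (om R) = 1 - om R := by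
    have := J7_sum R
    linear_combination this
  rw [h]
  exact (OO R).sub_mem (OO R).one_mem (J7_om_mem R)

theorem J7_om_ne (R : ℕ) : om R ≠ 0 := by
  intro h
  have : (om R).re = 0 := by rw [h]; simp
  unfold om at this
  norm_num at this

theorem J7_w_ne (R : ℕ) : conj (om R) ≠ 0 := by
  intro h
  exact J7_om_ne R ((map_eq_zero (starRingEnd ℂ)).mp h)

theorem J7_zet_int (R : ℕ) (hR : 4 ≤ R) (γ : ℂ) (hγ : γ ∈ OO R) :
    ∃ k : ℤ, (zet R * γ).re = k := by
  have hz : zet R ∈ OV R := (OV_eq R (by omega) _).mpr ⟨1, (OO R).one_mem, by simp⟩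
  exact hz γ hγ

/-- the coefficient -/
noncomputable def J7_a (R E : ℕ) (D : ℂ) (y : ℂ) (j : ℕ) : ℂ :=
  om R ^ (E * j) * y / (conj (om R) ^ (E * j) * D)

/-- the average -/
noncomputable def J7_av (R E K : ℕ) (c : ℕ → ℝ) {ι : Type} [Fintype ι] (D : ℂ) (Y : ι → ℂ) (j : ℕ)
    (z : ℂ) : ℝ :=
  (∑ ξ, tf K c (z * J7_a R E D (Y ξ) j).re) / (Fintype.card ι : ℝ)

theorem J7_a_norm (R E : ℕ) (D y : ℂ) (j : ℕ) (hD0 : D ≠ 0) (hy : ‖y‖ = ‖D‖) :
    ‖J7_a R E D y j‖ = 1 := by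
  unfold J7_a
  rw [norm_div, norm_mul, norm_mul, norm_pow, norm_pow, Complex.norm_conj, hy]
  have h1 : ‖om R‖ ^ (E * j) * ‖D‖ ≠ 0 :=
    mul_ne_zero (pow_ne_zero _ (norm_ne_zero_iff.mpr (J7_om_ne R))) (norm_ne_zero_iff.mpr hD0)
  exact div_self h1

/-- key divisibility step -/
theorem J7_div (R E n : ℕ) (hR : 4 ≤ R) (u x0 : ℂ) (hu : u ∈ OO R) (hx0 : x0 ∈ OO R)
    (h : om R ^ n * u = conj (om R) ^ E * x0) : ∃ x ∈ OO R, u = conj (om R) ^ E * x := by
  let o : OO R := ⟨om R, J7_om_mem R⟩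
  let w : OO R := ⟨conj (om R), J7_w_mem R⟩
  have hco : IsCoprime o w := by
    refine ⟨1, 1, ?_⟩
    apply Subtype.ext
    simp only [one_mul]
    exact J7_sum R
  obtain ⟨a, b, hab⟩ := (hco.pow (m := n) (n := E))
  have hab' : (a : ℂ) * om R ^ n + (b : ℂ) * conj (om R) ^ E = 1 := by
    have := congrArg (Subtype.val : OO R → ℂ) hab
    simpa using this
  refine ⟨a * x0 + b * u, (OO R).add_mem ((OO R).mul_mem a.2 hx0) ((OO R).mul_mem b.2 hu), ?_⟩
  linear_combination (-u) * hab' + (a : ℂ) * h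

theorem J7_tree (R E K : ℕ) (hR : 4 ≤ R) {ι : Type} [Fintype ι] [Nonempty ι]
    (D : ℂ) (hD0 : D ≠ 0) (Y : ι → ℂ) (hY : ∀ ξ, Y ξ ∈ OO R)
    (hsep : ∀ ξ ξ' : ι, ξ ≠ ξ' → ∀ k ∈ Finset.Icc 1 K,
        ¬ ∃ x ∈ OO R, (k : ℂ) * (Y ξ - Y ξ') = conj (om R) ^ E * x)
    (ε : ℝ) (hε : 0 < ε) (c : ℕ → ℝ) (hc : TestFn ε K c) (q0 : ℂ) (m : ℕ) :
    ∃ V : Finset ℂ, (V.card : ℝ) ≤
        (256 * (K : ℝ) ^ 2 / ε ^ 4 * ((R : ℝ) ^ E / (Fintype.card ι : ℝ))) ^ m ∧
      ∀ z : ℂ, (∃ x ∈ OO R, z = q0 + D * (zet R * x)) →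
        (∀ j ∈ Finset.Icc 1 m, J7_av R E K c D Y j z ≤ 3 / 4 * c 0) →
        ∃ v ∈ V, ∃ x ∈ OO R, z = v + D * conj (om R) ^ (E * m) * (zet R * x) := by
  classical
  induction m with
  | zero =>
    refine ⟨{q0}, by simp, ?_⟩
    rintro z ⟨x, hx, hz⟩ _
    exact ⟨q0, by simp, x, hx, by simpa using hz⟩
  | succ m ih =>
    obtain ⟨V, hV, hVc⟩ := ih
    set w := conj (om R) with hw
    have hw0 : w ≠ 0 := J7_w_ne R
    set Nx : ℝ := 256 * (K : ℝ) ^ 2 / ε ^ 4 * ((R : ℝ) ^ E / (Fintype.card ι : ℝ)) with hNx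
    let pt : ℂ → ℕ → ℂ := fun v j => v + D * w ^ (E * m) * (zet R * j)
    let S : ℂ → Finset ℕ := fun v => (range (R ^ E)).filter
      (fun j : ℕ => J7_av R E K c D Y (m + 1) (pt v j) ≤ 3 / 4 * c 0)
    have hmulid : ∀ ξ : ι, ∀ t : ℂ, (D * w ^ (E * m) * (zet R * t)) * J7_a R E D (Y ξ) (m + 1)
        = t * (zet R * om R ^ (E * (m + 1)) * Y ξ / w ^ E) := by
      intro ξ t
      unfold J7_a
      rw [← hw]
      have h1 : w ^ (E * (m + 1)) = w ^ (E * m) * w ^ E := by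
        rw [Nat.mul_succ, pow_add]
      rw [h1]
      have h2 : w ^ (E * m) ≠ 0 := pow_ne_zero _ hw0
      have h3 : w ^ E ≠ 0 := pow_ne_zero _ hw0
      field_simp
    have hRE : (R : ℂ) ^ E = om R ^ E * w ^ E := by
      rw [← mul_pow, hw, J7_ow R hR]
    have hpow : om R ^ (E * (m + 1)) ∈ OO R := (OO R).pow_mem (J7_om_mem R) _
    have hS : ∀ v, ((S v).card : ℝ) ≤ Nx := by
      intro v
      have hc0 : ε ^ 2 ≤ c 0 := hc.m0
      have hkey := host1 (ι := ι) (R ^ E) K (pow_pos (by omega) E) c hc.bd (ε ^ 2) (by positivity) hc0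
        (fun ξ => (v * J7_a R E D (Y ξ) (m + 1)).re)
        (fun ξ => (zet R * om R ^ (E * (m + 1)) * Y ξ / w ^ E).re) ?_ ?_
      · have e1 : S v = (range (R ^ E)).filter (fun j : ℕ =>
            (∑ ξ, tf K c ((v * J7_a R E D (Y ξ) (m + 1)).re
              + j * (zet R * om R ^ (E * (m + 1)) * Y ξ / w ^ E).re)) / (Fintype.card ι : ℝ)
                ≤ 3 / 4 * c 0) := by
          apply Finset.filter_congr
          intro j _
          have : J7_av R E K c D Y (m + 1) (pt v j) = (∑ ξ, tf K c ((v * J7_a R E D (Y ξ) (m + 1)).re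
              + j * (zet R * om R ^ (E * (m + 1)) * Y ξ / w ^ E).re)) / (Fintype.card ι : ℝ) := by
            unfold J7_av
            congr 1
            apply Finset.sum_congr rfl
            intro ξ _
            congr 1
            show ((v + D * w ^ (E * m) * (zet R * j)) * J7_a R E D (Y ξ) (m + 1)).re = _
            rw [add_mul, hmulid ξ j, Complex.add_re]
            congr 1
            rw [← Complex.ofReal_natCast, Complex.re_ofReal_mul]
          rw [this]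
        rw [e1]
        refine hkey.trans (le_of_eq ?_)
        rw [hNx]
        push_cast
        ring
      · intro ξ ξ' k hk
        have e2 : ∀ ξ : ι, ∃ t : ℤ, ((R ^ E : ℕ) : ℝ) * (zet R * om R ^ (E * (m + 1)) * Y ξ / w ^ E).re = t := by
          intro ξ
          obtain ⟨t, ht⟩ := J7_zet_int R hR (om R ^ E * om R ^ (E * (m + 1)) * Y ξ)
            ((OO R).mul_mem ((OO R).mul_mem ((OO R).pow_mem (J7_om_mem R) _) hpow) (hY ξ))
          refine ⟨t, ?_⟩
          rw [← ht, ← Complex.re_ofReal_mul]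
          congr 1
          push_cast
          rw [hRE]
          have h3 : w ^ E ≠ 0 := pow_ne_zero _ hw0
          field_simp
        obtain ⟨t, ht⟩ := e2 ξ
        obtain ⟨t', ht'⟩ := e2 ξ'
        refine ⟨k * (t - t'), ?_⟩
        push_cast
        rw [← ht, ← ht']
        push_cast
        ring
      · intro ξ ξ' hne k hk hcon
        obtain ⟨t, ht⟩ := hcon
        apply hsep ξ ξ' hne k hk
        have hu : (k : ℂ) * (Y ξ - Y ξ') ∈ OO R :=
          (OO R).mul_mem (natCast_mem (OO R) k) ((OO R).sub_mem (hY ξ) (hY ξ'))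
        have hγ : om R ^ (E * (m + 1)) * ((k : ℂ) * (Y ξ - Y ξ')) ∈ OO R := (OO R).mul_mem hpow hu
        have h3 : w ^ E ≠ 0 := pow_ne_zero _ hw0
        have hre : (zet R * (om R ^ (E * (m + 1)) * ((k : ℂ) * (Y ξ - Y ξ')) / w ^ E)).re = t := by
          rw [← ht, ← Complex.sub_re, ← Complex.ofReal_natCast, ← Complex.re_ofReal_mul]
          congr 1
          push_cast
          ring
        have hx0 : om R ^ (E * (m + 1)) * ((k : ℂ) * (Y ξ - Y ξ')) / w ^ E ∈ OO R := by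
          apply OV_dual R (by omega)
          intro ζ hζ
          obtain ⟨x, hx, rfl⟩ := (OV_eq R (by omega) ζ).mp hζ
          obtain ⟨j, hj, x', hx', hxx⟩ := digits R E (by omega) x hx
          obtain ⟨t2, ht2⟩ := J7_zet_int R hR (x' * (om R ^ (E * (m + 1)) * ((k : ℂ) * (Y ξ - Y ξ'))))
            ((OO R).mul_mem hx' hγ)
          refine ⟨j * t + t2, ?_⟩
          push_cast
          rw [← ht2, ← hre, ← Complex.ofReal_natCast, ← Complex.re_ofReal_mul, ← Complex.add_re]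
          congr 1
          rw [hxx, ← hw]
          push_cast
          field_simp
        have := J7_div R E (E * (m + 1)) hR ((k : ℂ) * (Y ξ - Y ξ')) _ hu hx0 (by
          rw [← hw]; field_simp)
        exact this
    refine ⟨V.biUnion (fun v => (S v).image (pt v)), ?_, ?_⟩
    · have hNx0 : 0 ≤ Nx := le_trans (Nat.cast_nonneg _) (hS 0)
      have h1 : ((V.biUnion (fun v => (S v).image (pt v))).card : ℝ) ≤ ∑ v ∈ V, Nx := by
        calc ((V.biUnion (fun v => (S v).image (pt v))).card : ℝ)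
            ≤ ((∑ v ∈ V, ((S v).image (pt v)).card : ℕ) : ℝ) := by
              exact_mod_cast Finset.card_biUnion_le
          _ = ∑ v ∈ V, (((S v).image (pt v)).card : ℝ) := by push_cast; rfl
          _ ≤ ∑ v ∈ V, Nx := Finset.sum_le_sum fun v _ =>
              le_trans (by exact_mod_cast Finset.card_image_le) (hS v)
      rw [Finset.sum_const, nsmul_eq_mul] at h1
      refine h1.trans ?_
      rw [pow_succ]
      exact mul_le_mul_of_nonneg_right hV hNx0
    · intro z hz hz2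
      obtain ⟨v, hv, x, hx, hzx⟩ := hVc z hz (fun j hj => hz2 j (by
        rw [Finset.mem_Icc] at hj ⊢; omega))
      obtain ⟨j, hj, x', hx', hxx⟩ := digits R E (by omega) x hx
      have hz3 : z = pt v j + D * w ^ (E * (m + 1)) * (zet R * x') := by
        rw [hzx, hxx, ← hw]
        show _ = v + D * w ^ (E * m) * (zet R * j) + _
        rw [Nat.mul_succ, pow_add]
        ring
      refine ⟨pt v j, ?_, x', hx', hz3⟩
      rw [Finset.mem_biUnion]
      refine ⟨v, hv, Finset.mem_image_of_mem _ ?_⟩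
      rw [Finset.mem_filter]
      refine ⟨Finset.mem_range.mpr hj, ?_⟩
      have h1 := hz2 (m + 1) (by rw [Finset.mem_Icc]; omega)
      have h2 : J7_av R E K c D Y (m + 1) (pt v j) = J7_av R E K c D Y (m + 1) z := by
        unfold J7_av
        congr 1
        apply Finset.sum_congr rfl
        intro ξ _
        obtain ⟨t, ht⟩ := J7_zet_int R hR (x' * (om R ^ (E * (m + 1)) * Y ξ))
          ((OO R).mul_mem hx' ((OO R).mul_mem hpow (hY ξ)))
        have h4 : (z * J7_a R E D (Y ξ) (m + 1)).re = (pt v j * J7_a R E D (Y ξ) (m + 1)).re + t := by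
          rw [← ht, hz3, add_mul, Complex.add_re]
          congr 2
          unfold J7_a
          rw [← hw]
          have h5 : w ^ (E * (m + 1)) ≠ 0 := pow_ne_zero _ hw0
          field_simp
        rw [h4, tf_int]
      rw [h2]
      exact h1

/-- TARGET (everything above is GIVEN, proved elsewhere: leave those sorries) -/
theorem host_cover (R E K s : ℕ) (hR : 4 ≤ R) (hE : 1 ≤ E) {ι : Type} [Fintype ι] [Nonempty ι]
    (D : ℂ) (hD : D ∈ OO R) (hD0 : D ≠ 0) (Y : ι → ℂ) (hY : ∀ ξ, Y ξ ∈ OO R)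
    (hn : ∀ ξ, ‖Y ξ‖ = ‖D‖)
    (hsep : ∀ ξ ξ' : ι, ξ ≠ ξ' → ∀ k ∈ Finset.Icc 1 K,
        ¬ ∃ x ∈ OO R, (k : ℂ) * (Y ξ - Y ξ') = conj (om R) ^ E * x)
    (ε : ℝ) (hε : 0 < ε) (c : ℕ → ℝ) (hc : TestFn ε K c)
    (ρ : ℝ) (hρ : 0 < ρ) (hρ2 : 200 * (K : ℝ) ^ 2 * ρ ≤ ε ^ 2) :
    ∃ Q : Finset ℂ,
      (Q.card : ℝ) ≤ (4 * ‖D‖ / ρ + 1) ^ 2 *
        (256 * (K : ℝ) ^ 2 / ε ^ 4 * ((R : ℝ) ^ E / (Fintype.card ι : ℝ))) ^ s ∧
      ∀ z : ℂ, (∀ j ∈ Finset.Icc 1 s,
          (∑ ξ, tf K c (z * (om R ^ (E * j) * Y ξ / (conj (om R) ^ (E * j) * D))).re) /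
            (Fintype.card ι : ℝ) ≤ c 0 / 2) →
        ∃ q ∈ Q, ∃ ζ ∈ OV R, ‖z - q - D * conj (om R) ^ (E * s) * ζ‖ ≤ ρ := by
  classical
  have hDn : 0 < ‖D‖ := norm_pos_iff.mpr hD0
  set J : ℕ := ⌈4 * ‖D‖ / ρ⌉₊ with hJ
  have hJ1 : 1 ≤ J := Nat.one_le_iff_ne_zero.mpr (by
    rw [hJ]
    exact (Nat.ceil_pos.mpr (by positivity)).ne')
  have hJle : (J : ℝ) ≤ 4 * ‖D‖ / ρ + 1 := (Nat.ceil_lt_add_one (by positivity)).le
  have hJge : 4 * ‖D‖ / ρ ≤ J := Nat.le_ceil _
  obtain ⟨P, hPc, hP⟩ := round_base R (by omega) J hJ1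
  choose V hV hVc using fun q0 : ℂ => J7_tree R E K hR D hD0 Y hY hsep ε hε c hc q0 s
  set Nx : ℝ := 256 * (K : ℝ) ^ 2 / ε ^ 4 * ((R : ℝ) ^ E / (Fintype.card ι : ℝ)) with hNx
  have hNx0 : 0 ≤ Nx := by positivity
  refine ⟨(P.image (fun p => D * p)).biUnion V, ?_, ?_⟩
  · have h1 : (((P.image (fun p => D * p)).biUnion V).card : ℝ)
        ≤ ∑ q ∈ P.image (fun p => D * p), Nx ^ s := by
      calc (((P.image (fun p => D * p)).biUnion V).card : ℝ)
          ≤ ((∑ q ∈ P.image (fun p => D * p), (V q).card : ℕ) : ℝ) := by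
            exact_mod_cast Finset.card_biUnion_le
        _ = ∑ q ∈ P.image (fun p => D * p), ((V q).card : ℝ) := by push_cast; rfl
        _ ≤ _ := Finset.sum_le_sum fun q _ => hV q
    rw [Finset.sum_const, nsmul_eq_mul] at h1
    refine h1.trans ?_
    apply mul_le_mul_of_nonneg_right _ (pow_nonneg hNx0 s)
    have h2 : ((P.image (fun p => D * p)).card : ℝ) ≤ (J : ℝ) ^ 2 := by
      have : (P.image (fun p => D * p)).card ≤ J ^ 2 := Finset.card_image_le.trans hPc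
      exact_mod_cast this
    refine h2.trans ?_
    exact pow_le_pow_left₀ (Nat.cast_nonneg _) hJle 2
  · intro z hz
    obtain ⟨p, hp, ζ, hζ, hd⟩ := hP (z / D)
    obtain ⟨x, hx, rfl⟩ := (OV_eq R (by omega) ζ).mp hζ
    set z' : ℂ := D * p + D * (zet R * x) with hz'
    have hδ : ‖z - z'‖ ≤ ρ := by
      have e1 : z - z' = D * (z / D - p - zet R * x) := by
        rw [hz']
        field_simp
        ring
      rw [e1, norm_mul]
      have hJpos : (0 : ℝ) < J := by exact_mod_cast hJ1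
      calc ‖D‖ * ‖z / D - p - zet R * x‖ ≤ ‖D‖ * (4 / J) :=
            mul_le_mul_of_nonneg_left hd hDn.le
        _ = (4 * ‖D‖) / J := by ring
        _ ≤ ρ := by
            rw [div_le_iff₀ hJpos]
            rw [div_le_iff₀ hρ] at hJge
            linarith
    have hcond : ∀ j ∈ Finset.Icc 1 s, J7_av R E K c D Y j z' ≤ 3 / 4 * c 0 := by
      intro j hj
      have h1 : (∑ ξ, tf K c (z * J7_a R E D (Y ξ) j).re) / (Fintype.card ι : ℝ) ≤ c 0 / 2 := hz j hj
      have hcard : (0 : ℝ) < (Fintype.card ι : ℝ) := by exact_mod_cast Fintype.card_pos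
      unfold J7_av
      rw [div_le_iff₀ hcard] at h1 ⊢
      have h2 : ∑ ξ, tf K c (z' * J7_a R E D (Y ξ) j).re
          ≤ ∑ ξ : ι, (tf K c (z * J7_a R E D (Y ξ) j).re + c 0 / 4) := by
        apply Finset.sum_le_sum
        intro ξ _
        have h3 := tf_lip ε K c hc (z' * J7_a R E D (Y ξ) j).re (z * J7_a R E D (Y ξ) j).re
        have h4 : |(z' * J7_a R E D (Y ξ) j).re - (z * J7_a R E D (Y ξ) j).re| ≤ ρ := by
          rw [← Complex.sub_re, ← sub_mul]
          refine (Complex.abs_re_le_norm _).trans ?_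
          rw [norm_mul, J7_a_norm R E D (Y ξ) j hD0 (hn ξ), mul_one, norm_sub_rev]
          exact hδ
        have h5 : 50 * (K : ℝ) ^ 2 * |(z' * J7_a R E D (Y ξ) j).re - (z * J7_a R E D (Y ξ) j).re|
            ≤ 50 * (K : ℝ) ^ 2 * ρ := mul_le_mul_of_nonneg_left h4 (by positivity)
        have h6 := (abs_le.mp (h3.trans h5)).2
        have h7 := hc.m0
        linarith
      rw [Finset.sum_add_distrib, Finset.sum_const, Finset.card_univ, nsmul_eq_mul] at h2
      linarith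
    obtain ⟨v, hv, x2, hx2, hzv⟩ := hVc (D * p) z' ⟨x, hx, hz'⟩ hcond
    refine ⟨v, ?_, zet R * x2, (OV_eq R (by omega) _).mpr ⟨x2, hx2, rfl⟩, ?_⟩
    · rw [Finset.mem_biUnion]
      exact ⟨D * p, Finset.mem_image_of_mem _ hp, hv⟩
    · have e2 : z - v - D * conj (om R) ^ (E * s) * (zet R * x2) = z - z' := by
        rw [hzv]
        ring
      rw [e2]
      exact hδ

end MJ7
export MJ7 (host_cover)
end Pyj
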