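import Mathlib
import Pool.Agent.Pyj.Defs2
import Pool.Agent.Pyj.J7
set_option autoImplicit false
set_option maxHeartbeats 4000000

namespace Pyj
open Finset ComplexConjugate
namespace MJ10
theorem om_mul_conj833 (R : ℕ) (hR : 1 ≤ R) : om R * conj (om R) = (R : ℂ) := by
  have h : (0:ℝ) ≤ 4 * R - 1 := by
    have : (1:ℝ) ≤ R := by exact_mod_cast hR
    linarith
  rw [Complex.mul_conj]
  have : Complex.normSq (om R) = R := by
    unfold om
    rw [Complex.normSq_mk]
    have := Real.mul_self_sqrt h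
    nlinarith
  rw [this]; simp

theorem conj_om833 (R : ℕ) : conj (om R) = 1 - om R := by
  apply Complex.ext
  · simp [om]; norm_num
  · simp [om]

theorem conj_mem_OO833 (R : ℕ) {x : ℂ} (hx : x ∈ OO R) : conj x ∈ OO R := by
  unfold OO at hx ⊢
  induction hx using Subring.closure_induction with
  | mem x hx =>
    rw [Set.mem_singleton_iff] at hx
    rw [hx, conj_om833]
    exact Subring.sub_mem _ (Subring.one_mem _) (Subring.subset_closure rfl)
  | zero => rw [map_zero]; exact Subring.zero_mem _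
  | one => rw [map_one]; exact Subring.one_mem _
  | add x y _ _ h1 h2 => rw [map_add]; exact Subring.add_mem _ h1 h2
  | neg x _ h1 => rw [map_neg]; exact Subring.neg_mem _ h1
  | mul x y _ _ h1 h2 => rw [map_mul]; exact Subring.mul_mem _ h1 h2

/-- TARGET: tame points, centred version -/
theorem tame_cover (R E K s M : ℕ) (hR : 4 ≤ R) (hE : 1 ≤ E) (hM : 2 * M = E * s) {r : ℕ}
    (y : Fin r → ℂ) (hy : ∀ i, y i ∈ OO R ∧ y i ≠ 0)
    (hsep : ∀ ξ ξ' : Fin r → Bool, ξ ≠ ξ' → ∀ k ∈ Finset.Icc 1 K,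
        ¬ ∃ x ∈ OO R, (k : ℂ) * (YS y ξ - YS y ξ') = conj (om R) ^ E * x)
    (ε : ℝ) (hε : 0 < ε) (c : ℕ → ℝ) (hc : TestFn ε K c)
    (ρ : ℝ) (hρ : 0 < ρ) (hρ2 : 200 * (K : ℝ) ^ 2 * ρ ≤ ε ^ 2) :
    ∃ Q : Finset ℂ,
      (Q.card : ℝ) ≤ (4 * ‖∏ i, conj (y i)‖ / ρ + 1) ^ 2 *
        (256 * (K : ℝ) ^ 2 / ε ^ 4 * ((R : ℝ) ^ E / 2 ^ r)) ^ s ∧
      ∀ z : ℂ, (∀ j ∈ Finset.Icc 1 s,
          pav (famS y) (fun z' => tf K c z'.re) (z * g0 R ^ ((E * j : ℤ) - M)) ≤ c 0 / 2) →
        ∃ q ∈ Q, ∃ l ∈ Ls R (∏ i, conj (y i)) M, ‖z - q - l‖ ≤ ρ := by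
  classical
  have hR1 : 1 ≤ R := by omega
  have hom := om_mul_conj833 R hR1
  have hom0 : om R ≠ 0 := by
    intro e
    rw [e, zero_mul] at hom
    have : (R : ℂ) ≠ 0 := by exact_mod_cast (by omega : R ≠ 0)
    exact this hom.symm
  have hcom0 : conj (om R) ≠ 0 := by
    intro e
    exact hom0 ((map_eq_zero _).1 e)
  have hg0 : g0 R ≠ 0 := div_ne_zero hom0 hcom0
  have hg1 : ‖g0 R‖ = 1 := by
    unfold g0
    rw [norm_div, RCLike.norm_conj, div_self]
    exact norm_ne_zero_iff.2 hom0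
  obtain ⟨D, hDdef⟩ : ∃ D : ℂ, D = ∏ i, conj (y i) := ⟨_, rfl⟩
  have hDO : D ∈ OO R := by
    rw [hDdef]
    exact Subring.prod_mem _ (fun i _ => conj_mem_OO833 R (hy i).1)
  have hD0 : D ≠ 0 := by
    rw [hDdef]
    exact Finset.prod_ne_zero_iff.2 (fun i _ e => (hy i).2 ((map_eq_zero _).1 e))
  have hYO : ∀ ξ, YS y ξ ∈ OO R := by
    intro ξ
    unfold YS
    apply Subring.prod_mem
    intro i _
    split_ifs
    · exact (hy i).1
    · exact conj_mem_OO833 R (hy i).1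
  have hYn : ∀ ξ, ‖YS y ξ‖ = ‖D‖ := by
    intro ξ
    rw [hDdef]
    unfold YS
    rw [norm_prod, norm_prod]
    apply Finset.prod_congr rfl
    intro i _
    split_ifs
    · rw [RCLike.norm_conj]
    · rfl
  obtain ⟨Q', hQ', hQ'2⟩ := host_cover R E K s hR hE D hDO hD0 (YS y) hYO hYn hsep ε hε c hc ρ hρ hρ2
  have hcard : (Fintype.card (Fin r → Bool) : ℝ) = 2 ^ r := by
    simp
  rw [hcard] at hQ' hQ'2
  rw [← hDdef]
  refine ⟨Q'.image (fun q => q * g0 R ^ M), ?_, ?_⟩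
  · refine le_trans ?_ hQ'
    exact_mod_cast Finset.card_image_le
  · intro z hz
    have hzz : z = (z * (g0 R ^ M)⁻¹) * g0 R ^ M := by
      rw [mul_assoc, inv_mul_cancel₀ (pow_ne_zero _ hg0), mul_one]
    obtain ⟨z', hz'⟩ : ∃ z', z' = z * (g0 R ^ M)⁻¹ := ⟨_, rfl⟩
    rw [← hz'] at hzz
    obtain ⟨q, hq, ζ, hζ, hle⟩ := hQ'2 z' (by
      intro j hj
      have h1 := hz j hj
      have e1 : pav (famS y) (fun z' => tf K c z'.re) (z * g0 R ^ ((E * j : ℤ) - M)) =
          (∑ ξ, tf K c (z' * (om R ^ (E * j) * YS y ξ / (conj (om R) ^ (E * j) * D))).re) / 2 ^ r := by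
        unfold pav famS
        rw [Multiset.map_map, Multiset.card_map]
        congr 1
        · rw [← Finset.sum_eq_multiset_sum]
          apply Finset.sum_congr rfl
          intro ξ _
          simp only [Function.comp]
          congr 2
          have e2 : g0 R ^ ((E * j : ℤ) - M) = g0 R ^ (E * j) * (g0 R ^ M)⁻¹ := by
            rw [zpow_sub₀ hg0, div_eq_mul_inv, zpow_natCast]
            congr 1
            try exact_mod_cast zpow_natCast (g0 R) (E * j)
          rw [e2, hz']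
          unfold vS
          rw [← hDdef]
          unfold g0
          rw [div_pow, mul_div_mul_comm]
          ring
      rw [e1] at h1
      exact h1)
    refine ⟨q * g0 R ^ M, Finset.mem_image_of_mem _ hq, D * (R : ℂ) ^ M * ζ, ?_, ?_⟩
    · unfold Ls
      exact AddSubgroup.mem_map.2 ⟨ζ, hζ, rfl⟩
    · have e3 : conj (om R) ^ (E * s) * g0 R ^ M = (R : ℂ) ^ M := by
        rw [← hM, ← hom]
        unfold g0
        rw [div_pow, mul_pow, two_mul, pow_add]
        field_simp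
      have e4 : z - q * g0 R ^ M - D * (R : ℂ) ^ M * ζ =
          (z' - q - D * conj (om R) ^ (E * s) * ζ) * g0 R ^ M := by
        rw [← e3]
        conv_lhs => rw [hzz]
        ring
      rw [e4, norm_mul, norm_pow, hg1, one_pow, mul_one]
      exact hle

end MJ10
export MJ10 (tame_cover)
end Pyj
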