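import Mathlib
import Pool.Agent.Pyj.Defs2
set_option autoImplicit false
set_option maxHeartbeats 4000000

namespace Pyj
open Finset ComplexConjugate
namespace MJ9
theorem j9_om_sq (R : ℕ) (hR : 1 ≤ R) : om R * om R = om R - R := by
  have h1 : (1 : ℝ) ≤ R := by exact_mod_cast hR
  have h2 : (0 : ℝ) ≤ 4 * R - 1 := by linarith
  have h3 : Real.sqrt (4 * R - 1) * Real.sqrt (4 * R - 1) = 4 * R - 1 := Real.mul_self_sqrt h2
  apply Complex.ext
  · simp only [om, Complex.mul_re, Complex.sub_re, Complex.natCast_re]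
    nlinarith [h3]
  · simp only [om, Complex.mul_im, Complex.sub_im, Complex.natCast_im]
    ring

theorem j9_conj_om (R : ℕ) : conj (om R) = 1 - om R := by
  apply Complex.ext
  · simp only [om, Complex.conj_re, Complex.sub_re, Complex.one_re]
    norm_num
  · simp only [om, Complex.conj_im, Complex.sub_im, Complex.one_im]
    ring

theorem j9_om_mem (R : ℕ) : om R ∈ OO R := Subring.subset_closure (Set.mem_singleton _)

theorem j9_form (R : ℕ) (hR : 1 ≤ R) (x : ℂ) (hx : x ∈ OO R) :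
    ∃ a b : ℤ, x = a + b * om R := by
  refine Subring.closure_induction (p := fun x _ => ∃ a b : ℤ, x = a + b * om R)
    ?_ ?_ ?_ ?_ ?_ ?_ hx
  · intro y hy
    rw [Set.mem_singleton_iff] at hy
    exact ⟨0, 1, by rw [hy]; push_cast; ring⟩
  · exact ⟨0, 0, by push_cast; ring⟩
  · exact ⟨1, 0, by push_cast; ring⟩
  · rintro x y _ _ ⟨a, b, rfl⟩ ⟨c, d, rfl⟩
    exact ⟨a + c, b + d, by push_cast; ring⟩
  · rintro x _ ⟨a, b, rfl⟩
    exact ⟨-a, -b, by push_cast; ring⟩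
  · rintro x y _ _ ⟨a, b, rfl⟩ ⟨c, d, rfl⟩
    refine ⟨a * c - R * b * d, a * d + b * c + b * d, ?_⟩
    have h := j9_om_sq R hR
    push_cast
    linear_combination (b * d : ℂ) * h

theorem j9_conj_mem (R : ℕ) (hR : 1 ≤ R) (x : ℂ) (hx : x ∈ OO R) : conj x ∈ OO R := by
  obtain ⟨a, b, rfl⟩ := j9_form R hR x hx
  rw [map_add, map_mul, map_intCast, map_intCast, j9_conj_om]
  exact (OO R).add_mem (intCast_mem (OO R) a) ((OO R).mul_mem (intCast_mem (OO R) b)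
    ((OO R).sub_mem (OO R).one_mem (j9_om_mem R)))

theorem j9_normSq (R : ℕ) (hR : 1 ≤ R) (x : ℂ) (hx : x ∈ OO R) :
    ∃ n : ℕ, (n : ℂ) = x * conj x := by
  obtain ⟨a, b, rfl⟩ := j9_form R hR x hx
  have h1 : (a + b * om R) * conj (a + b * om R) = ((a ^ 2 + a * b + R * b ^ 2 : ℤ) : ℂ) := by
    rw [map_add, map_mul, map_intCast, map_intCast, j9_conj_om]
    have h := j9_om_sq R hR
    push_cast
    linear_combination (-(b ^ 2) : ℂ) * h
  have h2 : 0 ≤ a ^ 2 + a * b + R * b ^ 2 := by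
    have hR' : (1 : ℤ) ≤ R := by exact_mod_cast hR
    nlinarith [sq_nonneg (2 * a + b), sq_nonneg b, mul_le_mul_of_nonneg_right hR' (sq_nonneg b)]
  obtain ⟨n, hn⟩ := Int.eq_ofNat_of_zero_le h2
  refine ⟨n, ?_⟩
  rw [h1, hn]
  simp

theorem j9_OV_mul (R : ℕ) (γ ζ : ℂ) (hγ : γ ∈ OO R) (hζ : ζ ∈ OV R) : γ * ζ ∈ OV R := by
  intro γ' hγ'
  obtain ⟨k, hk⟩ := hζ (γ * γ') ((OO R).mul_mem hγ hγ')
  refine ⟨k, ?_⟩
  rw [← hk]
  congr 1
  ring

theorem j9_Ls_mul (R : ℕ) (D : ℂ) (M : ℕ) (γ l : ℂ) (hγ : γ ∈ OO R) (hl : l ∈ Ls R D M) :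
    γ * l ∈ Ls R D M := by
  obtain ⟨ζ, hζ, rfl⟩ := hl
  refine ⟨γ * ζ, j9_OV_mul R γ ζ hγ hζ, ?_⟩
  show D * (R : ℂ) ^ M * (γ * ζ) = γ * (D * (R : ℂ) ^ M * ζ)
  ring

theorem j9_yH_mem (R : ℕ) (H : Finset ℕ) : yH R H ∈ OO R := by
  unfold yH
  exact (OO R).prod_mem fun a _ => (OO R).add_mem (natCast_mem (OO R) a) (j9_om_mem R)

theorem j9_yH_ne (R : ℕ) (hR : 1 ≤ R) (H : Finset ℕ) : yH R H ≠ 0 := by
  unfold yH
  rw [Finset.prod_ne_zero_iff]
  intro a _ h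
  have h1 : (1 : ℝ) ≤ R := by exact_mod_cast hR
  have h2 := congrArg Complex.im h
  simp only [om, Complex.add_im, Complex.natCast_im, Complex.zero_im, zero_add] at h2
  have h3 : 0 < Real.sqrt (4 * R - 1) := Real.sqrt_pos.2 (by linarith)
  linarith

theorem j9_norm_om (R : ℕ) (hR : 1 ≤ R) : ‖om R‖ = Real.sqrt R := by
  have h1 : (1 : ℝ) ≤ R := by exact_mod_cast hR
  have h3 : Real.sqrt (4 * R - 1) * Real.sqrt (4 * R - 1) = 4 * R - 1 :=
    Real.mul_self_sqrt (by linarith)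
  have h4 : Complex.normSq (om R) = R := by
    simp only [om, Complex.normSq_mk]
    nlinarith [h3]
  rw [← h4, Complex.normSq_eq_norm_sq, Real.sqrt_sq (norm_nonneg _)]

theorem j9_yH_norm (R X r : ℕ) (hR : 1 ≤ R) (H : Finset ℕ) (hH : H.card ≤ r)
    (hX : ∀ a ∈ H, a < X) (hXR : (X : ℝ) + Real.sqrt R ≤ R) : ‖yH R H‖ ≤ (R : ℝ) ^ r := by
  have h1 : (1 : ℝ) ≤ R := by exact_mod_cast hR
  unfold yH
  rw [norm_prod]
  calc ∏ a ∈ H, ‖(a : ℂ) + om R‖ ≤ ∏ a ∈ H, (R : ℝ) := by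
        apply Finset.prod_le_prod
        · intro a _
          exact norm_nonneg _
        · intro a ha
          calc ‖(a : ℂ) + om R‖ ≤ ‖(a : ℂ)‖ + ‖om R‖ := norm_add_le _ _
            _ = (a : ℝ) + Real.sqrt R := by rw [j9_norm_om R hR, Complex.norm_natCast]
            _ ≤ X + Real.sqrt R := by
              have : (a : ℝ) ≤ X := by exact_mod_cast (hX a ha).le
              linarith
            _ ≤ R := hXR
    _ = (R : ℝ) ^ H.card := by rw [Finset.prod_const]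
    _ ≤ (R : ℝ) ^ r := pow_le_pow_right₀ h1 hH

/-- TARGET -/
theorem str_of_close (R M A X r : ℕ) (D : ℂ) (hR : 4 ≤ R) (hD : D ∈ OO R)
    (𝒜 : Finset ℕ) (hcard : 𝒜.card = r) (hX : ∀ a ∈ 𝒜, a < X) (hXR : (X : ℝ) + Real.sqrt R ≤ R)
    (hdist : ∀ H ∈ 𝒜.powerset, ∀ H' ∈ 𝒜.powerset, H ≠ H' →
        yH R H * conj (yH R H') ≠ conj (yH R H) * yH R H')
    (hA : 4 * R ^ (4 * r) ≤ A) (ρ : ℝ) (hρ0 : 0 < ρ) (hρ : ρ ≤ 1) (Q : Finset ℂ) (z : ℂ)
    (S : Finset (Finset ℕ)) (hS : S ⊆ 𝒜.powerset) (hSc : Q.card < S.card)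
    (hclose : ∀ H ∈ S, ∃ q ∈ Q, ∃ l ∈ Ls R D M, ‖z * uH R H - q - l‖ ≤ ρ) :
    Str R D M A z := by
  have hR1 : 1 ≤ R := by omega
  have hR1' : (1 : ℝ) ≤ R := by exact_mod_cast hR1
  have hex : ∀ H : Finset ℕ, ∃ q : ℂ, H ∈ S → (q ∈ Q ∧ ∃ l ∈ Ls R D M, ‖z * uH R H - q - l‖ ≤ ρ) := by
    intro H
    by_cases h : H ∈ S
    · obtain ⟨q, hq, hl⟩ := hclose H h
      exact ⟨q, fun _ => ⟨hq, hl⟩⟩
    · exact ⟨0, fun h' => absurd h' h⟩
  choose q hq using hex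
  obtain ⟨H, hH, H', hH', hne, hqq⟩ := Finset.exists_ne_map_eq_of_card_lt_of_maps_to hSc
    (fun H hH => (hq H hH).1)
  obtain ⟨l, hl, hle⟩ := (hq H hH).2
  obtain ⟨l', hl', hle'⟩ := (hq H' hH').2
  rw [← hqq] at hle'
  have hcH : H.card ≤ r := by
    rw [← hcard]
    exact Finset.card_le_card (Finset.mem_powerset.1 (hS hH))
  have hcH' : H'.card ≤ r := by
    rw [← hcard]
    exact Finset.card_le_card (Finset.mem_powerset.1 (hS hH'))
  have hy1 := j9_yH_norm R X r hR1 H hcH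
    (fun a ha => hX a (Finset.mem_powerset.1 (hS hH) ha)) hXR
  have hy1' := j9_yH_norm R X r hR1 H' hcH'
    (fun a ha => hX a (Finset.mem_powerset.1 (hS hH') ha)) hXR
  have hy0 := j9_yH_ne R hR1 H
  have hy0' := j9_yH_ne R hR1 H'
  have hym := j9_yH_mem R H
  have hym' := j9_yH_mem R H'
  have hd := hdist H (hS hH) H' (hS hH') hne
  unfold uH at hle hle'
  generalize yH R H = y at *
  generalize yH R H' = y' at *
  have hcy : conj y ≠ 0 := by simpa using hy0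
  have hcy' : conj y' ≠ 0 := by simpa using hy0'
  set e := z * (y / conj y) - q H - l with he
  set e' := z * (y' / conj y') - q H - l' with he'
  set b := y * conj y' - conj y * y' with hb
  have hb0 : b ≠ 0 := sub_ne_zero.2 hd
  have hbm : b ∈ OO R := (OO R).sub_mem ((OO R).mul_mem hym (j9_conj_mem R hR1 _ hym'))
    ((OO R).mul_mem (j9_conj_mem R hR1 _ hym) hym')
  obtain ⟨n, hn⟩ := j9_normSq R hR1 b hbm
  have hbz : b * z = conj y * conj y' * ((l - l') + (e - e')) := by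
    rw [he, he', hb]
    field_simp
    ring
  have hP : (0 : ℝ) ≤ (R : ℝ) ^ r := by positivity
  have hnb : ‖b‖ ≤ 2 * ((R : ℝ) ^ r * (R : ℝ) ^ r) := by
    calc ‖b‖ ≤ ‖y * conj y'‖ + ‖conj y * y'‖ := norm_sub_le _ _
      _ = ‖y‖ * ‖y'‖ + ‖y‖ * ‖y'‖ := by simp
      _ ≤ (R : ℝ) ^ r * (R : ℝ) ^ r + (R : ℝ) ^ r * (R : ℝ) ^ r := by
        have := mul_le_mul hy1 hy1' (norm_nonneg _) hP
        linarith
      _ = _ := by ring
  have hA' : 4 * (R : ℝ) ^ (4 * r) ≤ A := by exact_mod_cast hA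
  have hR4 : (R : ℝ) ^ (4 * r) = (R : ℝ) ^ r * (R : ℝ) ^ r * ((R : ℝ) ^ r * (R : ℝ) ^ r) := by
    rw [← pow_add, ← pow_add]
    congr 1
    ring
  have hnn : (n : ℝ) = ‖b‖ ^ 2 := by
    have h1 : (n : ℂ) = ((‖b‖ ^ 2 : ℝ) : ℂ) := by
      rw [hn, Complex.mul_conj, Complex.normSq_eq_norm_sq]
    exact_mod_cast h1
  refine ⟨n, ?_, ?_, conj b * (conj y * conj y' * (e - e')), ?_, ?_⟩
  · have : (0 : ℝ) < n := by
      rw [hnn]
      positivity
    exact_mod_cast this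
  · have : (n : ℝ) ≤ A := by
      rw [hnn]
      calc ‖b‖ ^ 2 ≤ (2 * ((R : ℝ) ^ r * (R : ℝ) ^ r)) ^ 2 :=
            pow_le_pow_left₀ (norm_nonneg _) hnb 2
        _ = 4 * (R : ℝ) ^ (4 * r) := by rw [hR4]; ring
        _ ≤ A := hA'
    exact_mod_cast this
  · have hee : ‖e - e'‖ ≤ 2 := by
      calc ‖e - e'‖ ≤ ‖e‖ + ‖e'‖ := norm_sub_le _ _
        _ ≤ ρ + ρ := add_le_add hle hle'
        _ ≤ 2 := by linarith
    calc ‖conj b * (conj y * conj y' * (e - e'))‖ = ‖b‖ * ((‖y‖ * ‖y'‖) * ‖e - e'‖) := by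
          simp
      _ ≤ 2 * ((R : ℝ) ^ r * (R : ℝ) ^ r) * (((R : ℝ) ^ r * (R : ℝ) ^ r) * 2) := by
          apply mul_le_mul hnb _ (by positivity) (by positivity)
          apply mul_le_mul _ hee (norm_nonneg _) (by positivity)
          exact mul_le_mul hy1 hy1' (norm_nonneg _) hP
      _ = 4 * (R : ℝ) ^ (4 * r) := by rw [hR4]; ring
      _ ≤ A := hA'
  · have h1 : (n : ℂ) * z - conj b * (conj y * conj y' * (e - e')) =
        conj b * (conj y * conj y') * (l - l') := by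
      rw [hn]
      have : b * conj b * z = conj b * (b * z) := by ring
      rw [this, hbz]
      ring
    rw [h1]
    apply j9_Ls_mul R D M _ _ _ ((Ls R D M).sub_mem hl hl')
    exact (OO R).mul_mem (j9_conj_mem R hR1 _ hbm) ((OO R).mul_mem (j9_conj_mem R hR1 _ hym)
      (j9_conj_mem R hR1 _ hym'))

end MJ9
export MJ9 (str_of_close)
end Pyj
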