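import Mathlib
import Pool.Agent.Pyj.Defs2
import Pool.Agent.Pyj.J9
set_option autoImplicit false
set_option maxHeartbeats 4000000

namespace Pyj
open Finset ComplexConjugate
namespace MJ11
theorem pav_nonneg_h845 (l : Multiset ℂ) (h : ℂ → ℝ) (hh : ∀ z, 0 ≤ h z) (z : ℂ) : 0 ≤ pav l h z := by
  unfold pav
  refine div_nonneg (Multiset.sum_nonneg ?_) (Nat.cast_nonneg _)
  intro x hx
  obtain ⟨u, -, rfl⟩ := Multiset.mem_map.mp hx
  exact hh _

theorem pav_mono_h845 (l : Multiset ℂ) (h h' : ℂ → ℝ) (hh : ∀ z, h z ≤ h' z) (z : ℂ) :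
    pav l h z ≤ pav l h' z := by
  unfold pav
  refine div_le_div_of_nonneg_right (Multiset.sum_map_le_sum_map _ _ (fun u _ => hh _)) (Nat.cast_nonneg _)

theorem pav_le_one_h845 (l : Multiset ℂ) (h : ℂ → ℝ) (hh : ∀ z, h z ≤ 1) (z : ℂ) : pav l h z ≤ 1 := by
  unfold pav
  refine div_le_one_of_le₀ ?_ (Nat.cast_nonneg _)
  have h1 := Multiset.sum_le_card_nsmul (l.map (fun u => h (z * u))) (1 : ℝ) (by
    intro x hx
    obtain ⟨u, -, rfl⟩ := Multiset.mem_map.mp hx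
    exact hh _)
  rw [Multiset.card_map, nsmul_eq_mul, mul_one] at h1
  exact h1

theorem pav_smul_h845 (l : Multiset ℂ) (c : ℝ) (h : ℂ → ℝ) (z : ℂ) :
    pav l (fun z => c * h z) z = c * pav l h z := by
  unfold pav
  rw [Multiset.sum_map_mul_left, mul_div_assoc]

theorem famE_pav_h845 (R : ℕ) (𝒜 : Finset ℕ) (h : ℂ → ℝ) (z : ℂ) :
    pav (famE R 𝒜) h z = (∑ H ∈ 𝒜.powerset, h (z * uH R H)) / 2 ^ 𝒜.card := by
  unfold pav famE
  rw [Multiset.map_map, Multiset.card_map, Finset.card_val, Finset.card_powerset]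
  push_cast
  rfl

theorem g0_ne_h845 (R : ℕ) : g0 R ≠ 0 := by
  have h1 : om R ≠ 0 := by
    intro h
    have := congrArg Complex.re h
    simp [om] at this
  unfold g0
  exact div_ne_zero h1 ((map_ne_zero _).mpr h1)

theorem lam_sum_h845 {Λ : (ℂ → ℝ) → ℝ} (hΛ : IsMean Λ) (J : Finset ℕ) (f : ℕ → ℂ → ℝ) :
    Λ (fun z => ∑ j ∈ J, f j z) = ∑ j ∈ J, Λ (f j) := by
  classical
  induction J using Finset.induction_on with
  | empty =>
    have h1 := hΛ.smul 0 (fun _ => 1)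
    simpa using h1
  | insert j J hj ih =>
    rw [Finset.sum_insert hj, ← ih, ← hΛ.add]
    congr 1
    funext z
    rw [Finset.sum_insert hj]

theorem lam_shift_h845 {Λ : (ℂ → ℝ) → ℝ} {θ : ℝ} {g : ℂ} (hg : g ≠ 0)
    (n0 : NearInv θ Λ {g}) (h : ℂ → ℝ) (hh : ∀ z, 0 ≤ h z ∧ h z ≤ 1) (k : ℤ) :
    Λ (fun z => h (z * g ^ k)) ≤ Λ h + |k| * θ := by
  have hstep : ∀ h' : ℂ → ℝ, (∀ z, 0 ≤ h' z ∧ h' z ≤ 1) → |Λ (fun z => h' (z * g)) - Λ h'| ≤ θ := by
    intro h' hh'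
    have h1 := n0 h' 1 hh'
    have h2 : pav {g} h' = fun z => h' (z * g) := by
      funext z
      simp [pav]
    rw [h2, mul_one] at h1
    exact h1
  have hpos : ∀ n : ℕ, Λ (fun z => h (z * g ^ (n : ℤ))) ≤ Λ h + n * θ := by
    intro n
    induction n with
    | zero => simp
    | succ n ih =>
      have h1 := hstep (fun z => h (z * g ^ (n : ℤ))) (fun z => hh _)
      have h2 : (fun z => h (z * g ^ ((n + 1 : ℕ) : ℤ))) = (fun z => h (z * g * g ^ (n : ℤ))) := by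
        funext z
        congr 1
        push_cast
        rw [zpow_add₀ hg, zpow_one]
        ring
      rw [h2]
      have h3 := (abs_le.mp h1).2
      push_cast
      linarith
  have hneg : ∀ n : ℕ, Λ (fun z => h (z * g ^ (-(n : ℤ)))) ≤ Λ h + n * θ := by
    intro n
    induction n with
    | zero => simp
    | succ n ih =>
      have h1 := hstep (fun z => h (z * g ^ (-((n + 1 : ℕ) : ℤ)))) (fun z => hh _)
      have h2 : (fun z => h (z * g * g ^ (-((n + 1 : ℕ) : ℤ)))) = (fun z => h (z * g ^ (-(n : ℤ)))) := by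
        funext z
        congr 1
        push_cast
        rw [mul_assoc]
        congr 1
        rw [← zpow_one_add₀ hg]
        congr 1
        ring
      simp only [h2] at h1
      have h3 := (abs_le.mp h1).1
      push_cast at h3 ⊢
      linarith
  rcases Int.natAbs_eq k with hk | hk
  · have h1 := hpos k.natAbs
    rw [← hk] at h1
    have h2 : (k.natAbs : ℝ) = ((|k| : ℤ) : ℝ) := Nat.cast_natAbs k
    rw [h2] at h1
    exact_mod_cast h1
  · have h1 := hneg k.natAbs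
    rw [← hk] at h1
    have h2 : (k.natAbs : ℝ) = ((|k| : ℤ) : ℝ) := Nat.cast_natAbs k
    rw [h2] at h1
    exact_mod_cast h1

/-- TARGET -/
theorem str_bound (R E K s M A X rE : ℕ) (hR : 4 ≤ R) (hM : 2 * M = E * s) {r : ℕ}
    (y : Fin r → ℂ) (hy : ∀ i, y i ∈ OO R ∧ y i ≠ 0) (hDm : (∏ i, conj (y i)) ∈ OO R)
    (𝒜 : Finset ℕ) (hcard : 𝒜.card = rE) (hX : ∀ a ∈ 𝒜, a < X)
    (hXR : (X : ℝ) + Real.sqrt R ≤ R)
    (hdist : ∀ H ∈ 𝒜.powerset, ∀ H' ∈ 𝒜.powerset, H ≠ H' →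
        yH R H * conj (yH R H') ≠ conj (yH R H) * yH R H')
    (hA : 4 * R ^ (4 * rE) ≤ A)
    (ε : ℝ) (hε : 0 < ε) (c : ℕ → ℝ) (hc : TestFn ε K c)
    (ρ : ℝ) (hρ : 0 < ρ) (hρ1 : ρ ≤ 1)
    (Q : Finset ℂ) (hQ : 2 * Q.card ≤ 2 ^ rE)
    (htame : ∀ z : ℂ, (∀ j ∈ Finset.Icc 1 s,
          pav (famS y) (fun z' => tf K c z'.re) (z * g0 R ^ ((E * j : ℤ) - M)) ≤ c 0 / 2) →
        ∃ q ∈ Q, ∃ l ∈ Ls R (∏ i, conj (y i)) M, ‖z - q - l‖ ≤ ρ)
    (Λ : (ℂ → ℝ) → ℝ) (hΛ : IsMean Λ) (θ η : ℝ) (hθ : 0 ≤ θ)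
    (n0 : NearInv θ Λ {g0 R}) (nS : NearInv θ Λ (famS y)) (nE : NearInv θ Λ (famE R 𝒜))
    (hη : Λ (ind (fun z => Near ε z.re)) ≤ η) :
    Λ (ind (fun z => ¬ Str R (∏ i, conj (y i)) M A z)) ≤
      8 * K / ε ^ 2 * s * (η + (M + 2) * θ) := by
  classical
  set D : ℂ := ∏ i, conj (y i) with hD
  set f : ℂ → ℝ := ind (fun z => Near ε z.re) with hf
  have hf01 : ∀ z, 0 ≤ f z ∧ f z ≤ 1 := by
    intro z
    rw [hf]
    unfold ind
    split_ifs <;> norm_num
  -- K ≥ 1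
  have hc0 : 0 < c 0 := lt_of_lt_of_le (by positivity) hc.m0
  have hK : 1 ≤ K := by
    rcases Nat.eq_zero_or_pos K with h | h
    · exfalso
      subst h
      have h1 := hc.top 0
      simp [tf] at h1
      linarith
    · exact h
  have hKR : (1 : ℝ) ≤ K := by exact_mod_cast hK
  -- (1)
  have h1 : ∀ z : ℂ, tf K c z.re ≤ 2 * K * f z := by
    intro z
    rw [hf]
    unfold ind
    split_ifs with hn
    · rw [mul_one]; exact hc.top _
    · rw [mul_zero]; exact hc.neg _ hn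
  set PS : ℂ → ℝ := pav (famS y) f with hPS
  have hPS01 : ∀ z, 0 ≤ PS z ∧ PS z ≤ 1 := fun z =>
    ⟨pav_nonneg_h845 _ _ (fun w => (hf01 w).1) z, pav_le_one_h845 _ _ (fun w => (hf01 w).2) z⟩
  have h2 : ∀ w : ℂ, c 0 / 2 < pav (famS y) (fun z' => tf K c z'.re) w → ε ^ 2 / (4 * K) ≤ PS w := by
    intro w hw
    have h3 : pav (famS y) (fun z' => tf K c z'.re) w ≤ 2 * K * PS w := by
      refine (pav_mono_h845 _ _ (fun z => 2 * K * f z) h1 w).trans ?_
      rw [pav_smul_h845]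
    have h4 := hc.m0
    rw [div_le_iff₀ (by positivity)]
    linarith
  -- (2)
  set kj : ℕ → ℤ := fun j => (E * j : ℤ) - M with hkj
  set F : ℕ → ℂ → ℝ := fun j z => PS (z * g0 R ^ (kj j)) with hF
  have hF01 : ∀ j z, 0 ≤ F j z ∧ F j z ≤ 1 := fun j z => hPS01 _
  have h5 : ∀ z : ℂ, ε ^ 2 / (8 * K) * ind (fun z => ¬ Str R D M A z) z ≤
      ∑ j ∈ Finset.Icc 1 s, pav (famE R 𝒜) (F j) z := by
    intro z
    by_cases hstr : Str R D M A z
    · have : ind (fun z => ¬ Str R D M A z) z = 0 := by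
        unfold ind
        rw [if_neg (not_not.mpr hstr)]
      rw [this, mul_zero]
      exact Finset.sum_nonneg fun j _ => pav_nonneg_h845 _ _ (fun w => (hF01 j w).1) z
    · have hi : ind (fun z => ¬ Str R D M A z) z = 1 := by
        unfold ind
        rw [if_pos hstr]
      rw [hi, mul_one]
      obtain ⟨P, hP⟩ : ∃ P : Finset ℕ → Prop, ∀ H, P H ↔ ∀ j ∈ Finset.Icc 1 s,
        pav (famS y) (fun z' => tf K c z'.re) (z * uH R H * g0 R ^ ((E * j : ℤ) - M)) ≤ c 0 / 2 :=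
        ⟨_, fun _ => Iff.rfl⟩
      set S : Finset (Finset ℕ) := 𝒜.powerset.filter P with hS
      have hSc : S.card ≤ Q.card := by
        by_contra hcon
        push Not at hcon
        apply hstr
        refine str_of_close R M A X rE D hR hDm 𝒜 hcard hX hXR hdist hA ρ hρ hρ1 Q z S
          (Finset.filter_subset _ _) hcon ?_
        intro H hH
        exact htame (z * uH R H) ((hP H).mp (Finset.mem_filter.mp hH).2)
      have hcomp : 2 ^ rE ≤ 2 * (𝒜.powerset \ S).card := by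
        have h6 := Finset.card_sdiff_add_card_eq_card (Finset.filter_subset P 𝒜.powerset)
        rw [← hS, Finset.card_powerset, hcard] at h6
        omega
      have h7 : ∀ H ∈ 𝒜.powerset \ S, ε ^ 2 / (4 * K) ≤ ∑ j ∈ Finset.Icc 1 s, F j (z * uH R H) := by
        intro H hH
        rw [Finset.mem_sdiff, hS, Finset.mem_filter] at hH
        obtain ⟨hH1, hH2⟩ := hH
        have : ∃ j ∈ Finset.Icc 1 s, c 0 / 2 < pav (famS y) (fun z' => tf K c z'.re)
            (z * uH R H * g0 R ^ ((E * j : ℤ) - M)) := by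
          by_contra hcon
          push Not at hcon
          exact hH2 ⟨hH1, (hP H).mpr hcon⟩
        obtain ⟨j, hj, hlt⟩ := this
        exact (h2 _ hlt).trans (Finset.single_le_sum (f := fun j => F j (z * uH R H))
          (fun j _ => (hF01 j _).1) hj)
      have h8 : ∑ j ∈ Finset.Icc 1 s, pav (famE R 𝒜) (F j) z =
          (∑ H ∈ 𝒜.powerset, ∑ j ∈ Finset.Icc 1 s, F j (z * uH R H)) / 2 ^ rE := by
        rw [Finset.sum_comm, Finset.sum_div]
        refine Finset.sum_congr rfl fun j _ => ?_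
        rw [famE_pav_h845, hcard]
      rw [h8, le_div_iff₀ (by positivity)]
      have h9 : ∑ H ∈ 𝒜.powerset \ S, ∑ j ∈ Finset.Icc 1 s, F j (z * uH R H) ≤
          ∑ H ∈ 𝒜.powerset, ∑ j ∈ Finset.Icc 1 s, F j (z * uH R H) :=
        Finset.sum_le_sum_of_subset_of_nonneg Finset.sdiff_subset
          (fun H _ _ => Finset.sum_nonneg fun j _ => (hF01 j _).1)
      have h10 : ((𝒜.powerset \ S).card : ℝ) * (ε ^ 2 / (4 * K)) ≤
          ∑ H ∈ 𝒜.powerset \ S, ∑ j ∈ Finset.Icc 1 s, F j (z * uH R H) := by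
        have := Finset.card_nsmul_le_sum (𝒜.powerset \ S) (fun H => ∑ j ∈ Finset.Icc 1 s, F j (z * uH R H))
          (ε ^ 2 / (4 * K)) h7
        rwa [nsmul_eq_mul] at this
      have h11 : (2 : ℝ) ^ rE ≤ 2 * ((𝒜.powerset \ S).card : ℝ) := by exact_mod_cast hcomp
      have h12 : ε ^ 2 / (8 * K) * 2 ^ rE ≤ ((𝒜.powerset \ S).card : ℝ) * (ε ^ 2 / (4 * K)) := by
        have e1 : ε ^ 2 / (8 * K) = (ε ^ 2 / (4 * K)) / 2 := by
          field_simp
          norm_num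
        rw [e1]
        have hpos : 0 ≤ ε ^ 2 / (4 * (K:ℝ)) := by positivity
        nlinarith
      linarith
  -- (3)
  have h13 : ε ^ 2 / (8 * K) * Λ (ind (fun z => ¬ Str R D M A z)) ≤
      ∑ j ∈ Finset.Icc 1 s, Λ (fun z => pav (famE R 𝒜) (F j) z) := by
    rw [← hΛ.smul, ← lam_sum_h845 hΛ]
    exact hΛ.mono _ _ h5
  have h14 : ∀ j ∈ Finset.Icc 1 s, Λ (fun z => pav (famE R 𝒜) (F j) z) ≤ η + (M + 2) * θ := by
    intro j hj
    rw [Finset.mem_Icc] at hj
    have g1 := (abs_le.mp (nE (F j) 1 (hF01 j))).2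
    have g2 := lam_shift_h845 (g0_ne_h845 R) n0 PS hPS01 (kj j)
    have g3 := (abs_le.mp (nS f 1 hf01)).2
    have g4 : ((|kj j| : ℤ) : ℝ) ≤ M := by
      have : |kj j| ≤ M := by
        rw [abs_le]
        have e1 : E * j ≤ E * s := Nat.mul_le_mul_left _ hj.2
        have e2 : (E : ℤ) * j ≤ E * s := by exact_mod_cast e1
        have e3 : (2 : ℤ) * M = E * s := by exact_mod_cast hM
        have e4 : (0 : ℤ) ≤ E * j := by positivity
        show -(M : ℤ) ≤ (E * j : ℤ) - M ∧ (E * j : ℤ) - M ≤ M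
        constructor <;> linarith
      exact_mod_cast this
    have g5 : ((|kj j| : ℤ) : ℝ) * θ ≤ M * θ := mul_le_mul_of_nonneg_right g4 hθ
    have g1' : Λ (fun z => pav (famE R 𝒜) (F j) z) - Λ (F j) ≤ θ * 1 := g1
    have g2' : Λ (F j) ≤ Λ PS + ((|kj j| : ℤ) : ℝ) * θ := g2
    have g3' : Λ PS - Λ f ≤ θ * 1 := g3
    linarith
  have h15 : ∑ j ∈ Finset.Icc 1 s, Λ (fun z => pav (famE R 𝒜) (F j) z) ≤ s * (η + (M + 2) * θ) := by
    have := Finset.sum_le_card_nsmul (Finset.Icc 1 s) _ _ h14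
    rw [Nat.card_Icc, nsmul_eq_mul] at this
    simpa using this
  have h16 := h13.trans h15
  have h17 : Λ (ind (fun z => ¬ Str R D M A z)) ≤ (s * (η + (M + 2) * θ)) / (ε ^ 2 / (8 * K)) := by
    rw [le_div_iff₀ (by positivity), mul_comm]
    exact h16
  refine h17.trans (le_of_eq ?_)
  field_simp

end MJ11
export MJ11 (str_bound)
end Pyj
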