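import Mathlib
import Pool.Agent.Pyj.Defs2
set_option autoImplicit false
set_option maxHeartbeats 4000000

namespace Pyj
open Finset ComplexConjugate
namespace MJ12
/-- TARGET 1 -/
theorem str_iff_isTau (R : ℕ) (D : ℂ) (M A : ℕ) (z : ℂ) :
    Str R D M A z ↔ ∃ t, IsTau R D M A z t := by
  constructor
  · rintro ⟨β, h1, h2, T, hT, h3⟩
    have hβ : (β : ℂ) ≠ 0 := by exact_mod_cast (by omega : β ≠ 0)
    have e : (β : ℂ) * (T / β) = T := by field_simp
    refine ⟨T / β, β, h1, h2, ?_, ?_⟩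
    · rw [e]; exact hT
    · rw [mul_sub, e]; exact h3
  · rintro ⟨t, β, h1, h2, hT, h3⟩
    refine ⟨β, h1, h2, β * t, hT, ?_⟩
    rw [← mul_sub]; exact h3

/-- TARGET 2 -/
theorem isTau_tau (R : ℕ) (D : ℂ) (M A : ℕ) (z : ℂ) (h : Str R D M A z) :
    IsTau R D M A z (tau R D M A z) := by
  have h' := (str_iff_isTau R D M A z).1 h
  unfold tau
  rw [dif_pos h']
  exact Classical.choose_spec h'

/-- TARGET 3 -/
theorem norm_tau_le (R : ℕ) (D : ℂ) (M A : ℕ) (z : ℂ) : ‖tau R D M A z‖ ≤ A := by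
  by_cases h : ∃ t, IsTau R D M A z t
  · obtain ⟨β, h1, h2, hT, h3⟩ := isTau_tau R D M A z ((str_iff_isTau R D M A z).2 h)
    rw [norm_mul, Complex.norm_natCast] at hT
    have hβ : (1 : ℝ) ≤ β := by exact_mod_cast h1
    have := norm_nonneg (tau R D M A z)
    nlinarith
  · unfold tau
    rw [dif_neg h, norm_zero]
    positivity

theorem J12_om_sq (R : ℕ) (hR : 2 ≤ R) : om R * om R = om R - R := by
  have hs : Real.sqrt (4 * R - 1) * Real.sqrt (4 * R - 1) = 4 * R - 1 := by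
    apply Real.mul_self_sqrt
    have : (2 : ℝ) ≤ R := by exact_mod_cast hR
    linarith
  apply Complex.ext
  · simp only [om, Complex.mul_re, Complex.sub_re, Complex.natCast_re]
    linarith
  · simp only [om, Complex.mul_im, Complex.sub_im, Complex.natCast_im]
    ring

theorem J12_form (R : ℕ) (hR : 2 ≤ R) (D : ℂ) (hD : D ∈ OO R) :
    ∃ a b : ℤ, D = a + b * om R := by
  unfold OO at hD
  induction hD using Subring.closure_induction with
  | mem x hx =>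
    rw [Set.mem_singleton_iff] at hx
    exact ⟨0, 1, by rw [hx]; simp⟩
  | zero => exact ⟨0, 0, by simp⟩
  | one => exact ⟨1, 0, by simp⟩
  | add x y _ _ hx hy =>
    obtain ⟨a, b, rfl⟩ := hx
    obtain ⟨c, d, rfl⟩ := hy
    exact ⟨a + c, b + d, by push_cast; ring⟩
  | neg x _ hx =>
    obtain ⟨a, b, rfl⟩ := hx
    exact ⟨-a, -b, by push_cast; ring⟩
  | mul x y _ _ hx hy =>
    obtain ⟨a, b, rfl⟩ := hx
    obtain ⟨c, d, rfl⟩ := hy
    refine ⟨a * c - b * d * R, a * d + b * c + b * d, ?_⟩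
    push_cast
    linear_combination (b : ℂ) * d * J12_om_sq R hR

theorem J12_normSq (R : ℕ) (hR : 2 ≤ R) (a b : ℤ) :
    Complex.normSq ((a : ℂ) + b * om R) = ((a ^ 2 + a * b + R * b ^ 2 : ℤ) : ℝ) := by
  have hs : Real.sqrt (4 * R - 1) * Real.sqrt (4 * R - 1) = 4 * R - 1 := by
    apply Real.mul_self_sqrt
    have : (2 : ℝ) ≤ R := by exact_mod_cast hR
    linarith
  rw [Complex.normSq_apply]
  simp only [om, Complex.add_re, Complex.add_im, Complex.mul_re, Complex.mul_im, Complex.intCast_re,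
    Complex.intCast_im]
  push_cast
  linear_combination (b : ℝ) ^ 2 / 4 * hs

theorem J12_norm_one_le (R : ℕ) (hR : 2 ≤ R) (D : ℂ) (hD : D ∈ OO R) (hD0 : D ≠ 0) : 1 ≤ ‖D‖ := by
  obtain ⟨a, b, rfl⟩ := J12_form R hR D hD
  have h1 : 0 < Complex.normSq ((a : ℂ) + b * om R) := Complex.normSq_pos.2 hD0
  rw [J12_normSq R hR] at h1
  have h2 : (1 : ℤ) ≤ a ^ 2 + a * b + R * b ^ 2 := by exact_mod_cast h1
  have h3 : (1 : ℝ) ≤ ‖(a : ℂ) + b * om R‖ ^ 2 := by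
    rw [← Complex.normSq_eq_norm_sq, J12_normSq R hR]
    exact_mod_cast h2
  nlinarith [norm_nonneg ((a : ℂ) + b * om R)]

theorem J12_OV_min (R : ℕ) (hR : 2 ≤ R) (ζ : ℂ) (hζ : ζ ∈ OV R) (h0 : ζ ≠ 0) : 1 ≤ ‖ζ‖ * R := by
  have hR' : (2 : ℝ) ≤ R := by exact_mod_cast hR
  obtain ⟨k, hk⟩ := hζ 1 (Subring.one_mem _)
  obtain ⟨l, hl⟩ := hζ (om R) (Subring.subset_closure rfl)
  rw [mul_one] at hk
  have hs : Real.sqrt (4 * R - 1) * Real.sqrt (4 * R - 1) = 4 * R - 1 := by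
    apply Real.mul_self_sqrt
    linarith
  have hs0 : 0 < Real.sqrt (4 * R - 1) := Real.sqrt_pos.2 (by linarith)
  have hl' : ζ.re * (1 / 2) - ζ.im * (Real.sqrt (4 * R - 1) / 2) = l := by
    rw [← hl]; simp [om, Complex.mul_re]
  by_cases hk0 : k = 0
  · subst hk0
    rw [hk] at hl'
    have hl0 : l ≠ 0 := by
      rintro rfl
      apply h0
      have : ζ.im * Real.sqrt (4 * R - 1) = 0 := by
        push_cast at hl'
        linarith
      rcases mul_eq_zero.1 this with h | h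
      · exact Complex.ext (by rw [hk]; simp) h
      · exact absurd h hs0.ne'
    have h1 : (1 : ℝ) ≤ |(l : ℝ)| := by
      exact_mod_cast Int.one_le_abs hl0
    have h2 : |(l : ℝ)| = |ζ.im| * (Real.sqrt (4 * R - 1) / 2) := by
      have : (l : ℝ) = -(ζ.im * (Real.sqrt (4 * R - 1) / 2)) := by
        push_cast at hl'
        linarith
      rw [this, abs_neg, abs_mul, abs_of_pos (show 0 < Real.sqrt (4 * R - 1) / 2 by positivity)]
    have h3 : |ζ.im| ≤ ‖ζ‖ := Complex.abs_im_le_norm ζ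
    have h4 : Real.sqrt (4 * R - 1) / 2 ≤ R := by nlinarith
    have h5 := abs_nonneg ζ.im
    calc (1 : ℝ) ≤ |ζ.im| * (Real.sqrt (4 * R - 1) / 2) := by rw [← h2]; exact h1
      _ ≤ ‖ζ‖ * R := mul_le_mul h3 h4 (by positivity) (norm_nonneg _)
  · have h1 : (1 : ℝ) ≤ |(k : ℝ)| := by exact_mod_cast Int.one_le_abs hk0
    have h2 : |(k : ℝ)| ≤ ‖ζ‖ := by rw [← hk]; exact Complex.abs_re_le_norm ζ
    nlinarith [norm_nonneg ζ]

/-- TARGET 4: norms of lattice vectors -/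
theorem Ls_min (R : ℕ) (hR : 2 ≤ R) (D : ℂ) (hD : D ∈ OO R) (hD0 : D ≠ 0) (M : ℕ) (l : ℂ)
    (hl : l ∈ Ls R D M) (h : ‖l‖ * R < (R : ℝ) ^ M) : l = 0 := by
  obtain ⟨ζ, hζ, rfl⟩ := hl
  rw [AddMonoidHom.coe_mulLeft] at h ⊢
  by_cases h0 : ζ = 0
  · rw [h0, mul_zero]
  · exfalso
    have h1 := J12_OV_min R hR ζ hζ h0
    have h2 := J12_norm_one_le R hR D hD hD0
    have h3 : (0 : ℝ) ≤ (R : ℝ) ^ M := by positivity
    rw [norm_mul, norm_mul, norm_pow, Complex.norm_natCast] at h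
    have h4 : (R : ℝ) ^ M ≤ ‖D‖ * (R : ℝ) ^ M := by nlinarith
    have h5 : ‖D‖ * (R : ℝ) ^ M ≤ ‖D‖ * (R : ℝ) ^ M * (‖ζ‖ * R) :=
      le_mul_of_one_le_right (by positivity) h1
    have h6 : ‖D‖ * (R : ℝ) ^ M * (‖ζ‖ * R) = ‖D‖ * (R : ℝ) ^ M * ‖ζ‖ * R := by ring
    linarith

/-- TARGET 5 -/
theorem Ls_mul (R : ℕ) (D : ℂ) (M : ℕ) (l γ : ℂ) (hl : l ∈ Ls R D M) (hγ : γ ∈ OO R) :
    γ * l ∈ Ls R D M := by
  obtain ⟨ζ, hζ, rfl⟩ := hl
  refine ⟨γ * ζ, ?_, ?_⟩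
  · intro δ hδ
    obtain ⟨k, hk⟩ := hζ (γ * δ) (Subring.mul_mem _ hγ hδ)
    exact ⟨k, by rw [← hk]; congr 1; ring⟩
  · rw [AddMonoidHom.coe_mulLeft]
    ring

theorem J12_conj_mem (R : ℕ) (hR : 2 ≤ R) (y : ℂ) (hy : y ∈ OO R) : conj y ∈ OO R := by
  obtain ⟨a, b, rfl⟩ := J12_form R hR y hy
  have hc : conj (om R) = 1 - om R := by
    apply Complex.ext
    · simp [om]; norm_num
    · simp [om]
  have hi : ∀ k : ℤ, conj (k : ℂ) = (k : ℂ) := fun k => by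
    simp
  rw [map_add, map_mul, hc, hi, hi]
  have ho : om R ∈ OO R := Subring.subset_closure rfl
  exact Subring.add_mem _ (intCast_mem _ a) (Subring.mul_mem _ (intCast_mem _ b)
    (Subring.sub_mem _ (Subring.one_mem _) ho))

/-- TARGET 6: equivariance of tau -/
theorem tau_rot (R : ℕ) (hR : 2 ≤ R) (D : ℂ) (hD : D ∈ OO R) (hD0 : D ≠ 0) (M A : ℕ) (Y : ℝ)
    (hY : 1 ≤ Y) (hbig : 2 * (A : ℝ) ^ 2 * Y * R < (R : ℝ) ^ M) (z y : ℂ) (hy : y ∈ OO R)
    (hy0 : y ≠ 0) (hyY : ‖y‖ ≤ Y) (h1 : Str R D M A z) (h2 : Str R D M A (z * (y / conj y))) :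
    tau R D M A (z * (y / conj y)) = tau R D M A z * (y / conj y) := by
  have hc0 : conj y ≠ 0 := (map_ne_zero _).2 hy0
  obtain ⟨β, b1, b2, b3, b4⟩ := isTau_tau R D M A z h1
  obtain ⟨β', c1, c2, c3, c4⟩ := isTau_tau R D M A _ h2
  set t := tau R D M A z
  set t' := tau R D M A (z * (y / conj y))
  have hyc := J12_conj_mem R hR y hy
  have m1 := Ls_mul R D M _ ((β' : ℂ) * y) b4 (Subring.mul_mem _ (natCast_mem _ β') hy)
  have m2 := Ls_mul R D M _ ((β : ℂ) * conj y) c4 (Subring.mul_mem _ (natCast_mem _ β) hyc)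
  have m3 := AddSubgroup.sub_mem _ m1 m2
  have e : (β' : ℂ) * y * (β * (z - t)) - β * conj y * (β' * (z * (y / conj y) - t')) =
      conj y * β * (β' * t') - y * β' * (β * t) := by
    field_simp
    ring
  rw [e] at m3
  have hn : ‖conj y * β * (β' * t') - y * β' * (β * t)‖ ≤ 2 * (A : ℝ) ^ 2 * Y := by
    refine (norm_sub_le _ _).trans ?_
    rw [norm_mul, norm_mul (y * (β' : ℂ)), norm_mul (conj y), norm_mul y, Complex.norm_conj,
      Complex.norm_natCast, Complex.norm_natCast]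
    have hb : (β : ℝ) ≤ A := by exact_mod_cast b2
    have hb' : (β' : ℝ) ≤ A := by exact_mod_cast c2
    have hA : (0 : ℝ) ≤ A := Nat.cast_nonneg _
    have i1 : ‖y‖ * β * ‖(β' : ℂ) * t'‖ ≤ Y * A * A :=
      mul_le_mul (mul_le_mul hyY hb (Nat.cast_nonneg _) (by linarith)) c3 (norm_nonneg _) (by positivity)
    have i2 : ‖y‖ * β' * ‖(β : ℂ) * t‖ ≤ Y * A * A :=
      mul_le_mul (mul_le_mul hyY hb' (Nat.cast_nonneg _) (by linarith)) b3 (norm_nonneg _) (by positivity)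
    nlinarith
  have hz := Ls_min R hR D hD hD0 M _ m3 (lt_of_le_of_lt (mul_le_mul_of_nonneg_right hn (Nat.cast_nonneg _)) hbig)
  have hβ : (β : ℂ) ≠ 0 := by exact_mod_cast (by omega : β ≠ 0)
  have hβ' : (β' : ℂ) ≠ 0 := by exact_mod_cast (by omega : β' ≠ 0)
  have e2 : (β : ℂ) * β' * (conj y * t' - y * t) = 0 := by linear_combination hz
  have e3 : conj y * t' - y * t = 0 := (mul_eq_zero.1 e2).resolve_left (mul_ne_zero hβ hβ')
  field_simp
  linear_combination e3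

/-- TARGET 7 -/
theorem ordz_spec (R : ℕ) (D : ℂ) (M A : ℕ) (z : ℂ) (h : Str R D M A z) :
    1 ≤ ordz R D M A z ∧ ordz R D M A z ≤ A ∧
      ∀ m : ℤ, ((m : ℂ) * (z - tau R D M A z) ∈ Ls R D M ↔ (ordz R D M A z : ℤ) ∣ m) := by
  obtain ⟨β, b1, b2, b3, b4⟩ := isTau_tau R D M A z h
  have hne : {n : ℕ | 1 ≤ n ∧ (n : ℂ) * (z - tau R D M A z) ∈ Ls R D M}.Nonempty := ⟨β, b1, b4⟩
  have hmem : ordz R D M A z ∈ {n : ℕ | 1 ≤ n ∧ (n : ℂ) * (z - tau R D M A z) ∈ Ls R D M} :=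
    Nat.sInf_mem hne
  have hle : ordz R D M A z ≤ β := Nat.sInf_le ⟨b1, b4⟩
  refine ⟨hmem.1, hle.trans b2, fun m => ⟨fun hm => ?_, ?_⟩⟩
  · set o := ordz R D M A z with ho
    have ho1 : (0 : ℤ) < o := by exact_mod_cast hmem.1
    by_contra hnd
    have hr0 : m % o ≠ 0 := fun h => hnd (Int.dvd_of_emod_eq_zero h)
    have hr1 : 0 ≤ m % o := Int.emod_nonneg _ ho1.ne'
    have hr2 : m % o < o := Int.emod_lt_of_pos _ ho1
    have hr : ((m % o).toNat : ℤ) = m % o := Int.toNat_of_nonneg hr1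
    have hmem2 : (((m % o).toNat : ℕ) : ℂ) * (z - tau R D M A z) ∈ Ls R D M := by
      have e1 : (((m % o).toNat : ℕ) : ℂ) = (m : ℂ) - (m / o : ℤ) * (o : ℂ) := by
        have : (((m % o).toNat : ℕ) : ℤ) = m - m / o * o := by
          rw [hr, Int.emod_def]; ring
        have h2 := congrArg (fun x : ℤ => (x : ℂ)) this
        push_cast at h2
        exact_mod_cast h2
      rw [e1, sub_mul, mul_assoc]
      refine AddSubgroup.sub_mem _ hm ?_
      have := AddSubgroup.zsmul_mem _ hmem.2 (m / o)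
      rwa [zsmul_eq_mul] at this
    have hin : (m % o).toNat ∈ {n : ℕ | 1 ≤ n ∧ (n : ℂ) * (z - tau R D M A z) ∈ Ls R D M} :=
      ⟨by omega, hmem2⟩
    have := Nat.sInf_le hin
    change ordz R D M A z ≤ _ at this
    omega
  · rintro ⟨k, rfl⟩
    have := AddSubgroup.zsmul_mem _ hmem.2 k
    rw [zsmul_eq_mul] at this
    push_cast
    have e : (ordz R D M A z : ℂ) * k * (z - tau R D M A z) =
      k * (ordz R D M A z * (z - tau R D M A z)) := by ring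
    rw [e]
    exact this

end MJ12
export MJ12 (str_iff_isTau isTau_tau norm_tau_le Ls_min Ls_mul tau_rot ordz_spec)
end Pyj
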