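import Mathlib
import Pool.Agent.Pyj.Defs2
import Pool.Agent.Pyj.J12
set_option autoImplicit false
set_option maxHeartbeats 4000000

namespace Pyj
open Finset ComplexConjugate
namespace MJ13
theorem pf_om_sq (R : ℕ) (hR : 2 ≤ R) : om R ^ 2 = om R - R := by
  have hR' : (2:ℝ) ≤ R := by exact_mod_cast hR
  have hs : Real.sqrt (4 * R - 1) ^ 2 = 4 * R - 1 := Real.sq_sqrt (by linarith)
  apply Complex.ext
  · rw [pow_two, Complex.mul_re, Complex.sub_re, Complex.natCast_re]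
    simp only [om]
    nlinarith [hs]
  · rw [pow_two, Complex.mul_im, Complex.sub_im, Complex.natCast_im]
    simp only [om]
    ring

theorem pf_conj_om (R : ℕ) : conj (om R) = 1 - om R := by
  apply Complex.ext
  · rw [Complex.conj_re, Complex.sub_re, Complex.one_re]
    simp only [om]
    norm_num
  · rw [Complex.conj_im, Complex.sub_im, Complex.one_im]
    simp only [om]
    ring

theorem pf_om_mem (R : ℕ) : om R ∈ OO R := Subring.subset_closure rfl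

theorem pf_yv_mem (R : ℕ) (b a : ℤ) : yv R b a ∈ OO R := by
  unfold yv
  exact add_mem (intCast_mem _ _) (mul_mem (intCast_mem _ _) (pf_om_mem R))

theorem pf_conj_yv (R : ℕ) (b a : ℤ) : conj (yv R b a) = (a : ℂ) + b * (1 - om R) := by
  unfold yv
  rw [map_add, map_mul, pf_conj_om]
  simp

theorem pf_conj_yv_mem (R : ℕ) (b a : ℤ) : conj (yv R b a) ∈ OO R := by
  rw [pf_conj_yv]
  exact add_mem (intCast_mem _ _) (mul_mem (intCast_mem _ _) (sub_mem (one_mem _) (pf_om_mem R)))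

theorem pf_Ny_cast (R : ℕ) (hR : 2 ≤ R) (b a : ℤ) :
    ((Ny R b a : ℕ) : ℤ) = a ^ 2 + a * b + R * b ^ 2 := by
  unfold Ny
  rw [Int.natCast_natAbs, abs_of_nonneg]
  have hR' : (2:ℤ) ≤ R := by exact_mod_cast hR
  nlinarith [sq_nonneg (a + b), sq_nonneg a, sq_nonneg b, mul_nonneg (sub_nonneg.2 hR') (sq_nonneg b)]

theorem pf_yv_sq (R : ℕ) (hR : 2 ≤ R) (b a : ℤ) :
    yv R b a ^ 2 = ((a ^ 2 - R * b ^ 2 : ℤ) : ℂ) + ((2 * a * b + b ^ 2 : ℤ) : ℂ) * om R := by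
  unfold yv
  have h := pf_om_sq R hR
  push_cast
  linear_combination (b:ℂ) ^ 2 * h

theorem pf_yv_mul_conj (R : ℕ) (hR : 2 ≤ R) (b a : ℤ) :
    yv R b a * conj (yv R b a) = (Ny R b a : ℂ) := by
  have h1 : ((Ny R b a : ℕ) : ℂ) = (((Ny R b a : ℕ) : ℤ) : ℂ) := by push_cast; rfl
  rw [h1, pf_Ny_cast R hR, pf_conj_yv]
  unfold yv
  have h := pf_om_sq R hR
  push_cast
  linear_combination -(b:ℂ) ^ 2 * h

theorem pf_yv_ne (R : ℕ) (hR : 2 ≤ R) (b a : ℤ) (hb : b ≠ 0) : yv R b a ≠ 0 := by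
  intro h
  have h1 := congrArg Complex.im h
  unfold yv at h1
  have hR' : (2:ℝ) ≤ R := by exact_mod_cast hR
  have hs : 0 < Real.sqrt (4 * R - 1) := Real.sqrt_pos.2 (by linarith)
  have h2 : ((a : ℂ) + (b : ℂ) * om R).im = b * (Real.sqrt (4 * R - 1) / 2) := by
    rw [Complex.add_im, Complex.mul_im, Complex.intCast_im, Complex.intCast_im,
      Complex.intCast_re]
    simp only [om]
    ring
  rw [h2, Complex.zero_im] at h1
  rcases mul_eq_zero.1 h1 with h3 | h3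
  · exact hb (by exact_mod_cast h3)
  · linarith

/-- the torsion parts before and after a rotation -/
theorem pf_rot (R : ℕ) (hR : 2 ≤ R) (D : ℂ) (hD : D ∈ OO R) (hD0 : D ≠ 0) (M A : ℕ) (Y : ℝ)
    (hY : 1 ≤ Y) (hbig : 2 * (A : ℝ) ^ 2 * Y * R < (R : ℝ) ^ M) (z : ℂ) (b a : ℤ) (hb : b ≠ 0)
    (hyY : ‖yv R b a‖ ≤ Y) (h1 : Str R D M A z) (h2 : Str R D M A (z * gv R b a)) :
    tau R D M A (z * gv R b a) = tau R D M A z * gv R b a ∧
    conj (yv R b a) * (z * gv R b a - tau R D M A (z * gv R b a)) =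
      yv R b a * (z - tau R D M A z) := by
  have hne := pf_yv_ne R hR b a hb
  have hcne : conj (yv R b a) ≠ 0 := by
    intro h
    exact hne ((map_eq_zero _).1 h)
  have ht : tau R D M A (z * gv R b a) = tau R D M A z * gv R b a :=
    tau_rot R hR D hD hD0 M A Y hY hbig z (yv R b a) (pf_yv_mem R b a) hne hyY h1 h2
  refine ⟨ht, ?_⟩
  rw [ht]
  unfold gv
  field_simp

/-- TARGET 1: orders before and after a rotation -/
theorem ordz_rot (R : ℕ) (hR : 2 ≤ R) (D : ℂ) (hD : D ∈ OO R) (hD0 : D ≠ 0) (M A : ℕ) (Y : ℝ)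
    (hY : 1 ≤ Y) (hbig : 2 * (A : ℝ) ^ 2 * Y * R < (R : ℝ) ^ M) (z : ℂ) (b a : ℤ) (hb : b ≠ 0)
    (hyY : ‖yv R b a‖ ≤ Y) (h1 : Str R D M A z) (h2 : Str R D M A (z * gv R b a)) :
    ordz R D M A z ∣ ordz R D M A (z * gv R b a) * Ny R b a ∧
    ordz R D M A (z * gv R b a) ∣ ordz R D M A z * Ny R b a := by
  obtain ⟨-, hrot⟩ := pf_rot R hR D hD hD0 M A Y hY hbig z b a hb hyY h1 h2
  have hny := pf_yv_mul_conj R hR b a
  have hym := pf_yv_mem R b a
  have hcm := pf_conj_yv_mem R b a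
  obtain ⟨-, -, hs⟩ := ordz_spec R D M A z h1
  obtain ⟨-, -, hs'⟩ := ordz_spec R D M A (z * gv R b a) h2
  set n := ordz R D M A z with hn
  set n' := ordz R D M A (z * gv R b a) with hn'
  set al := z - tau R D M A z with hal
  set al' := z * gv R b a - tau R D M A (z * gv R b a) with hal'
  set y := yv R b a with hy
  constructor
  · have h3 : ((n' : ℤ) : ℂ) * al' ∈ Ls R D M := (hs' n').2 dvd_rfl
    have h4 := Ls_mul R D M _ _ (Ls_mul R D M _ _ h3 hcm) hcm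
    have h5 : conj y * (conj y * (((n' : ℤ) : ℂ) * al')) =
        (((n' * Ny R b a : ℕ) : ℤ) : ℂ) * al := by
      push_cast
      rw [← hny]
      linear_combination (conj y * (n' : ℂ)) * hrot
    rw [h5] at h4
    exact_mod_cast (hs _).1 h4
  · have h3 : ((n : ℤ) : ℂ) * al ∈ Ls R D M := (hs n).2 dvd_rfl
    have h4 := Ls_mul R D M _ _ (Ls_mul R D M _ _ h3 hym) hym
    have h5 : y * (y * (((n : ℤ) : ℂ) * al)) =
        (((n * Ny R b a : ℕ) : ℤ) : ℂ) * al' := by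
      push_cast
      rw [← hny]
      linear_combination -(y * (n : ℂ)) * hrot
    rw [h5] at h4
    exact_mod_cast (hs' _).1 h4

theorem pf_coprime (n R M : ℕ) (hn : 1 ≤ n) (hR : 2 ≤ R) (hnM : n < 2 ^ M) :
    (n / Nat.gcd n (R ^ M)).Coprime R := by
  rw [Nat.coprime_iff_gcd_eq_one]
  by_contra hne
  obtain ⟨q, hq, hqd⟩ := Nat.exists_prime_and_dvd hne
  have hq1 : q ∣ n / Nat.gcd n (R ^ M) := hqd.trans (Nat.gcd_dvd_left _ _)
  have hq2 : q ∣ R := hqd.trans (Nat.gcd_dvd_right _ _)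
  haveI : Fact q.Prime := ⟨hq⟩
  have hn0 : n ≠ 0 := by omega
  have h1 : q ^ padicValNat q n ∣ n := pow_padicValNat_dvd
  have h2 : q ^ padicValNat q n < 2 ^ M := lt_of_le_of_lt (Nat.le_of_dvd (by omega) h1) hnM
  have h3 : padicValNat q n < M := by
    by_contra h
    push Not at h
    have h4 : 2 ^ M ≤ q ^ padicValNat q n :=
      le_trans (Nat.pow_le_pow_left hq.two_le M) (Nat.pow_le_pow_right hq.pos h)
    omega
  have h4 : q ^ padicValNat q n ∣ R ^ M :=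
    (pow_dvd_pow q h3.le).trans (pow_dvd_pow_of_dvd hq2 M)
  have h5 : q ^ padicValNat q n ∣ Nat.gcd n (R ^ M) := Nat.dvd_gcd h1 h4
  have h6 : q ^ (padicValNat q n + 1) ∣ n := by
    have h7 := mul_dvd_mul h5 hq1
    rw [Nat.mul_div_cancel' (Nat.gcd_dvd_left _ _)] at h7
    rwa [pow_succ]
  exact pow_succ_padicValNat_not_dvd hn0 h6

theorem pf_ph (nl R : ℕ) (hnl : 1 ≤ nl) (b lam mu a c e : ℤ)
    (hc : c * (a ^ 2 + a * b + R * b ^ 2) = 1 + nl * e) :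
    ∃ k : ℤ, ((c * (a * b * lam + b ^ 2 * mu) : ℤ) : ℝ) / nl = ph nl R b lam mu a + k := by
  haveI : NeZero nl := ⟨by omega⟩
  have hx : ((c : ℤ) : ZMod nl) * ((a : ZMod nl) ^ 2 + a * b + R * b ^ 2) = 1 := by
    have := congrArg (fun t : ℤ => (t : ZMod nl)) hc
    push_cast at this
    rw [ZMod.natCast_self, zero_mul, add_zero] at this
    exact this
  have hu : IsUnit ((a : ZMod nl) ^ 2 + a * b + R * b ^ 2) :=
    IsUnit.of_mul_eq_one _ (by rw [mul_comm]; exact hx)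
  have hinv : ((a : ZMod nl) ^ 2 + a * b + R * b ^ 2)⁻¹ = (c : ZMod nl) := by
    have h1 := ZMod.mul_inv_of_unit _ hu
    calc ((a : ZMod nl) ^ 2 + a * b + R * b ^ 2)⁻¹
        = (c * ((a : ZMod nl) ^ 2 + a * b + R * b ^ 2)) *
            ((a : ZMod nl) ^ 2 + a * b + R * b ^ 2)⁻¹ := by rw [hx, one_mul]
      _ = c * (((a : ZMod nl) ^ 2 + a * b + R * b ^ 2) *
            ((a : ZMod nl) ^ 2 + a * b + R * b ^ 2)⁻¹) := by ring
      _ = c := by rw [h1, mul_one]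
  set X : ZMod nl := ((a : ZMod nl) * b * lam + (b : ZMod nl) ^ 2 * mu) *
    ((a : ZMod nl) ^ 2 + a * b + R * b ^ 2)⁻¹ with hX
  have hXc : X = ((c * (a * b * lam + b ^ 2 * mu) : ℤ) : ZMod nl) := by
    rw [hX, hinv]
    push_cast
    ring
  have h2 : (((X.val : ℕ) : ℤ) : ZMod nl) = ((c * (a * b * lam + b ^ 2 * mu) : ℤ) : ZMod nl) := by
    rw [← hXc]
    push_cast
    exact ZMod.natCast_zmod_val X
  rw [ZMod.intCast_eq_intCast_iff_dvd_sub] at h2
  obtain ⟨k, hk⟩ := h2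
  refine ⟨k, ?_⟩
  have hnl0 : (nl : ℝ) ≠ 0 := by
    have : nl ≠ 0 := by omega
    exact_mod_cast this
  have hk' : ((c * (a * b * lam + b ^ 2 * mu) : ℤ) : ℝ) = (X.val : ℝ) + nl * k := by
    have := congrArg (fun t : ℤ => (t : ℝ)) hk
    push_cast at this ⊢
    linarith
  unfold ph
  rw [← hX, hk']
  field_simp

/-- TARGET 2: the real part of the rotated point, no defect case. nl is the part of the order
prime to R, rho1/nl and rho2/nl are the values of the torsion part at 1 and ω. -/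
theorem point_formula (R : ℕ) (hR : 2 ≤ R) (D : ℂ) (hD : D ∈ OO R) (hD0 : D ≠ 0) (M A : ℕ)
    (hAM : A < 2 ^ M) (z : ℂ) (h1 : Str R D M A z) :
    ∃ nl : ℕ, 1 ≤ nl ∧ nl ≤ A ∧ nl.Coprime R ∧ nl ∣ ordz R D M A z ∧ ∃ rho1 rho2 : ℤ,
      (z - tau R D M A z).re = rho1 / nl ∧
      ∀ (Y : ℝ), 1 ≤ Y → 2 * (A : ℝ) ^ 2 * Y * R < (R : ℝ) ^ M →
        ∀ b a : ℤ, b ≠ 0 → ‖yv R b a‖ ≤ Y → Str R D M A (z * gv R b a) →
        (Ny R b a).Coprime (ordz R D M A z) → (Ny R b a).Coprime (ordz R D M A (z * gv R b a)) →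
        ∃ k : ℤ, (z * gv R b a).re = (tau R D M A z * gv R b a).re + rho1 / nl +
          ph nl R b (2 * rho2 - rho1) (rho2 - 2 * R * rho1) a + k := by
  obtain ⟨hn1, hnA, hs⟩ := ordz_spec R D M A z h1
  set n := ordz R D M A z with hn
  set d := Nat.gcd n (R ^ M) with hd
  have hdn : d ∣ n := Nat.gcd_dvd_left _ _
  have hdR : d ∣ R ^ M := Nat.gcd_dvd_right _ _
  have hd0 : 0 < d := Nat.gcd_pos_of_pos_left _ (by omega)
  have hnld : n / d * d = n := Nat.div_mul_cancel hdn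
  have hnl1 : 1 ≤ n / d := Nat.div_pos (Nat.le_of_dvd (by omega) hdn) hd0
  have hnl0 : ((n / d : ℕ) : ℝ) ≠ 0 := by
    have : n / d ≠ 0 := by omega
    exact_mod_cast this
  have hd0' : (d : ℝ) ≠ 0 := by exact_mod_cast hd0.ne'
  have hn0' : (n : ℝ) ≠ 0 := by
    have : n ≠ 0 := by omega
    exact_mod_cast this
  obtain ⟨RR, hRR⟩ := hdR
  set nl := n / d with hnl
  set al := z - tau R D M A z with hal
  have hnal : ((n : ℤ) : ℂ) * al ∈ Ls R D M := (hs n).2 dvd_rfl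
  have hre : ∀ x ∈ OO R, ∃ rho : ℤ, (al * x).re = rho / nl := by
    intro x hx
    obtain ⟨ζ, hζ, hζe⟩ := hnal
    have hζe' : D * (R : ℂ) ^ M * ζ = ((n : ℤ) : ℂ) * al := hζe
    obtain ⟨k, hk⟩ := hζ (D * x) (mul_mem hD hx)
    refine ⟨RR * k, ?_⟩
    have h2 : ((n : ℝ) : ℂ) * (al * x) = ((R ^ M : ℝ) : ℂ) * (ζ * (D * x)) := by
      push_cast
      have h3 : (n : ℂ) * al = D * (R : ℂ) ^ M * ζ := by rw [hζe']; push_cast; rfl
      linear_combination x * h3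
    have h4 := congrArg Complex.re h2
    rw [Complex.re_ofReal_mul, Complex.re_ofReal_mul, hk] at h4
    have h5 : (R : ℝ) ^ M = d * RR := by exact_mod_cast hRR
    have h6 : (n : ℝ) = nl * d := by exact_mod_cast hnld.symm
    rw [h5, h6] at h4
    rw [eq_div_iff hnl0]
    push_cast
    have h7 : (d : ℝ) * ((al * x).re * nl) = d * (RR * k) := by linarith
    exact mul_left_cancel₀ hd0' h7
  obtain ⟨rho1, hrho1⟩ := hre 1 (one_mem _)
  obtain ⟨rho2, hrho2⟩ := hre (om R) (pf_om_mem R)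
  rw [mul_one] at hrho1
  refine ⟨nl, hnl1, le_trans (Nat.div_le_self _ _) hnA,
    pf_coprime n R M hn1 hR (lt_of_le_of_lt hnA hAM), ⟨d, hnld.symm⟩, rho1, rho2, hrho1, ?_⟩
  intro Y hY hbig b a hb hyY h2 hc1 hc2
  obtain ⟨htau, hrot⟩ := pf_rot R hR D hD hD0 M A Y hY hbig z b a hb hyY h1 h2
  obtain ⟨ho1, ho2⟩ := ordz_rot R hR D hD hD0 M A Y hY hbig z b a hb hyY h1 h2
  obtain ⟨-, -, hs'⟩ := ordz_spec R D M A (z * gv R b a) h2
  rw [← hn] at ho1 ho2
  set n' := ordz R D M A (z * gv R b a) with hn'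
  set al' := z * gv R b a - tau R D M A (z * gv R b a) with hal'
  have hnn' : n = n' := by
    apply Nat.dvd_antisymm
    · exact (Nat.Coprime.dvd_of_dvd_mul_right hc1.symm ho1)
    · exact (Nat.Coprime.dvd_of_dvd_mul_right hc2.symm ho2)
  -- inverse of the norm modulo n
  have hNcast := pf_Ny_cast R hR b a
  obtain ⟨c, e, hce⟩ : ∃ c e : ℤ, c * (Ny R b a : ℤ) = 1 + n * e := by
    have h3 : IsCoprime ((Ny R b a : ℕ) : ℤ) ((n : ℕ) : ℤ) := Nat.isCoprime_iff_coprime.2 hc1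
    obtain ⟨u, v, huv⟩ := h3
    exact ⟨u, -v, by linarith⟩
  -- the lattice vector
  have h4 : ((c * (Ny R b a : ℤ) - 1 : ℤ) : ℂ) * al' ∈ Ls R D M := by
    rw [hs', hce, ← hnn']
    exact ⟨e, by ring⟩
  obtain ⟨k1, hk1⟩ : ∃ k : ℤ, (((c * (Ny R b a : ℤ) - 1 : ℤ) : ℂ) * al').re = k := by
    obtain ⟨ζ, hζ, hζe⟩ := h4
    have hζe' : D * (R : ℂ) ^ M * ζ = ((c * (Ny R b a : ℤ) - 1 : ℤ) : ℂ) * al' := hζe
    obtain ⟨k, hk⟩ := hζ (D * (R : ℂ) ^ M) (mul_mem hD (pow_mem (natCast_mem _ _) _))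
    refine ⟨k, ?_⟩
    rw [← hζe', ← hk, mul_comm]
  have hny := pf_yv_mul_conj R hR b a
  have h5 : (Ny R b a : ℂ) * al' = yv R b a ^ 2 * al := by
    rw [← hny]
    linear_combination (yv R b a) * hrot
  have h6 : (((c * (Ny R b a : ℤ) - 1 : ℤ) : ℂ) * al') =
      ((c : ℝ) : ℂ) * (yv R b a ^ 2 * al) - al' := by
    push_cast
    rw [← h5]; ring
  have h7 : (yv R b a ^ 2 * al).re =
      ((a ^ 2 - R * b ^ 2 : ℤ) : ℝ) * (rho1 / nl) + ((2 * a * b + b ^ 2 : ℤ) : ℝ) * (rho2 / nl) := by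
    rw [pf_yv_sq R hR, ← hrho1, ← hrho2]
    have h8 : (((a ^ 2 - R * b ^ 2 : ℤ) : ℂ) + ((2 * a * b + b ^ 2 : ℤ) : ℂ) * om R) * al =
        (((a ^ 2 - R * b ^ 2 : ℤ) : ℝ) : ℂ) * al +
          (((2 * a * b + b ^ 2 : ℤ) : ℝ) : ℂ) * (al * om R) := by
      push_cast
      ring
    rw [h8, Complex.add_re, Complex.re_ofReal_mul, Complex.re_ofReal_mul]
  have h9 : al'.re = c * (yv R b a ^ 2 * al).re - k1 := by
    rw [h6, Complex.sub_re, Complex.re_ofReal_mul] at hk1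
    linarith
  obtain ⟨k2, hk2⟩ := pf_ph nl R hnl1 b (2 * rho2 - rho1) (rho2 - 2 * R * rho1) a c (d * e) (by
    rw [← hNcast, hce]
    have : (n : ℤ) = nl * d := by exact_mod_cast hnld.symm
    rw [this]; ring)
  refine ⟨k2 - k1 + d * e * rho1, ?_⟩
  have h10 : (z * gv R b a).re = (tau R D M A z * gv R b a).re + al'.re := by
    rw [hal', htau, Complex.sub_re]; ring
  rw [h10, h9, h7]
  have hceR : (c : ℝ) * ((a:ℝ) ^ 2 + a * b + R * b ^ 2) = 1 + nl * d * e := by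
    have h11 : (c : ℤ) * (a ^ 2 + a * b + R * b ^ 2) = 1 + nl * d * e := by
      rw [← hNcast, hce]
      have : (n : ℤ) = nl * d := by exact_mod_cast hnld.symm
      rw [this]
    exact_mod_cast h11
  have h12 : (c : ℝ) * (((a ^ 2 - R * b ^ 2 : ℤ) : ℝ) * (rho1 / nl) +
      ((2 * a * b + b ^ 2 : ℤ) : ℝ) * (rho2 / nl)) =
      rho1 / nl + d * e * rho1 +
      ((c * (a * b * (2 * rho2 - rho1) + b ^ 2 * (rho2 - 2 * R * rho1)) : ℤ) : ℝ) / nl := by
    push_cast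
    field_simp
    linear_combination (rho1 : ℝ) * hceR
  rw [h12, hk2]
  push_cast
  ring

end MJ13
export MJ13 (ordz_rot point_formula)
end Pyj
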