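import Mathlib
import Pool.Agent.Pyj.Defs2
import Pool.Agent.Pyj.J12
import Pool.Agent.Pyj.J13
set_option autoImplicit false
set_option maxHeartbeats 4000000

namespace Pyj
open Finset ComplexConjugate
namespace MJ14
theorem sd_ind_nonneg (p : ℂ → Prop) (z : ℂ) : 0 ≤ ind p z := by
  unfold ind; split_ifs <;> norm_num

theorem sd_ind_le_one (p : ℂ → Prop) (z : ℂ) : ind p z ≤ 1 := by
  unfold ind; split_ifs <;> norm_num

theorem sd_ind_pos {p : ℂ → Prop} {z : ℂ} (h : p z) : ind p z = 1 := by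
  unfold ind; rw [if_pos h]

theorem sd_ind_neg {p : ℂ → Prop} {z : ℂ} (h : ¬ p z) : ind p z = 0 := by
  unfold ind; rw [if_neg h]

theorem sd_pav (R : ℕ) (b : ℤ) {m : ℕ} (a : Fin m → ℤ) (h : ℂ → ℝ) (z : ℂ) :
    pav (famY R b a) h z = (∑ i, h (z * gv R b (a i))) / m := by
  unfold pav famY
  rw [Multiset.map_map, Multiset.card_map]
  simp only [Finset.card_val, Finset.card_univ, Fintype.card_fin]
  rfl

theorem sd_coprime_part (n N n' : ℕ) (hn : n ≠ 0) (hn' : n' ≠ 0) (hdvd : n ∣ n' * N) :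
    (∑ p ∈ n.primeFactors.filter (fun p => ¬ p ∣ N), (n.factorization p : ℝ) * Real.log p) +
      (if ¬ N.Coprime n' then Real.log 2 else 0) ≤ Real.log n' := by
  set c := ∏ p ∈ n.primeFactors.filter (fun p => ¬ p ∣ N), p ^ n.factorization p with hc
  have hprime : ∀ p ∈ n.primeFactors.filter (fun p => ¬ p ∣ N), p.Prime := fun p hp =>
    Nat.prime_of_mem_primeFactors (Finset.mem_filter.1 hp).1
  have hc0 : 0 < c := Finset.prod_pos fun p hp => pow_pos (hprime p hp).pos _
  have hlog : Real.log c =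
      ∑ p ∈ n.primeFactors.filter (fun p => ¬ p ∣ N), (n.factorization p : ℝ) * Real.log p := by
    rw [hc, Nat.cast_prod, Real.log_prod]
    · apply Finset.sum_congr rfl
      intro p _
      rw [Nat.cast_pow, Real.log_pow]
    · intro p hp
      exact_mod_cast (pow_pos (hprime p hp).pos _).ne'
  have hcn : c ∣ n := by
    conv_rhs => rw [← Nat.prod_factorization_pow_eq_self hn]
    rw [hc, Finsupp.prod, Nat.support_factorization]
    exact Finset.prod_dvd_prod_of_subset _ _ _ (Finset.filter_subset _ _)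
  have hcop : c.Coprime N := by
    rw [hc]
    apply Nat.Coprime.prod_left
    intro p hp
    apply Nat.Coprime.pow_left
    exact (hprime p hp).coprime_iff_not_dvd.2 (Finset.mem_filter.1 hp).2
  have hcn' : c ∣ n' := hcop.dvd_of_dvd_mul_right (hcn.trans hdvd)
  rw [← hlog]
  by_cases hco : N.Coprime n'
  · rw [if_neg (not_not.2 hco), add_zero]
    apply Real.log_le_log (by exact_mod_cast hc0)
    exact_mod_cast Nat.le_of_dvd (Nat.pos_of_ne_zero hn') hcn'
  · rw [if_pos hco]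
    obtain ⟨p, hp, hpN, hpn'⟩ := Nat.Prime.not_coprime_iff_dvd.1 hco
    have h1 : p.Coprime c := (Nat.Coprime.coprime_dvd_right hpN hcop).symm
    have h2 : p * c ∣ n' := h1.mul_dvd_of_dvd_of_dvd hpn' hcn'
    have h3 : c * 2 ≤ n' := by
      calc c * 2 ≤ c * p := Nat.mul_le_mul_left _ hp.two_le
        _ = p * c := mul_comm _ _
        _ ≤ n' := Nat.le_of_dvd (Nat.pos_of_ne_zero hn') h2
    rw [← Real.log_mul (by exact_mod_cast hc0.ne') (by norm_num)]
    apply Real.log_le_log (by positivity)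
    exact_mod_cast h3

theorem sd_log_sum (n : ℕ) :
    Real.log n = ∑ p ∈ n.primeFactors, (n.factorization p : ℝ) * Real.log p := by
  rw [Real.log_nat_eq_sum_factorization, Finsupp.sum, Nat.support_factorization]

theorem sd_avg (n A : ℕ) (hnA : n ≤ A) {m : ℕ} (N : Fin m → ℕ) (δ : ℝ)
    (hP : ∀ p : ℕ, p.Prime → p ≤ A →
      ((Finset.univ.filter (fun i : Fin m => p ∣ N i)).card : ℝ) ≤ δ * m) :
    m * Real.log n - δ * m * Real.log n ≤
      ∑ i, ∑ p ∈ n.primeFactors.filter (fun p => ¬ p ∣ N i), (n.factorization p : ℝ) * Real.log p := by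
  have h1 : ∀ i, ∑ p ∈ n.primeFactors.filter (fun p => ¬ p ∣ N i),
      (n.factorization p : ℝ) * Real.log p =
      Real.log n - ∑ p ∈ n.primeFactors, if p ∣ N i then (n.factorization p : ℝ) * Real.log p else 0 := by
    intro i
    rw [sd_log_sum, ← Finset.sum_filter,
      ← Finset.sum_filter_add_sum_filter_not n.primeFactors (fun p => p ∣ N i)]
    ring
  rw [Finset.sum_congr rfl fun i _ => h1 i, Finset.sum_sub_distrib, Finset.sum_const,
    Finset.card_univ, Fintype.card_fin, nsmul_eq_mul]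
  have h2 : ∑ i, ∑ p ∈ n.primeFactors,
      (if p ∣ N i then (n.factorization p : ℝ) * Real.log p else 0) ≤ δ * m * Real.log n := by
    rw [Finset.sum_comm, sd_log_sum, Finset.mul_sum]
    apply Finset.sum_le_sum
    intro p hp
    have hpp := Nat.prime_of_mem_primeFactors hp
    have hpn : p ≤ A := (Nat.le_of_mem_primeFactors hp).trans hnA
    rw [← Finset.sum_filter, Finset.sum_const, nsmul_eq_mul]
    apply mul_le_mul_of_nonneg_right (hP p hpp hpn)
    have : 0 ≤ Real.log p := Real.log_natCast_nonneg p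
    positivity
  linarith

theorem sd_omega (n : ℕ) (hn : 1 ≤ n) : (n.primeFactors.card : ℝ) ≤ Real.logb 2 n := by
  have h1 : 2 ^ n.primeFactors.card ≤ n := by
    calc 2 ^ n.primeFactors.card ≤ ∏ p ∈ n.primeFactors, p :=
          Finset.pow_card_le_prod _ _ _ fun p hp => (Nat.prime_of_mem_primeFactors hp).two_le
      _ ≤ n := Nat.le_of_dvd hn (Nat.prod_primeFactors_dvd n)
  rw [Real.le_logb_iff_rpow_le (by norm_num) (by exact_mod_cast hn), Real.rpow_natCast]
  exact_mod_cast h1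

theorem sd_avg2 (n A : ℕ) (hn : 1 ≤ n) (hnA : n ≤ A) {m : ℕ} (N : Fin m → ℕ) (δ : ℝ) (hδ : 0 ≤ δ)
    (hP : ∀ p : ℕ, p.Prime → p ≤ A →
      ((Finset.univ.filter (fun i : Fin m => p ∣ N i)).card : ℝ) ≤ δ * m) :
    ∑ i, (if ¬ (N i).Coprime n then (1 : ℝ) else 0) ≤ δ * m * Real.logb 2 A := by
  have h1 : ∀ i, (if ¬ (N i).Coprime n then (1 : ℝ) else 0) ≤
      ∑ p ∈ n.primeFactors, if p ∣ N i then (1 : ℝ) else 0 := by
    intro i
    have h0 : ∀ p ∈ n.primeFactors, (0 : ℝ) ≤ if p ∣ N i then (1 : ℝ) else 0 := by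
      intro p _; split_ifs <;> norm_num
    by_cases hc : (N i).Coprime n
    · rw [if_neg (not_not.2 hc)]
      exact Finset.sum_nonneg h0
    · rw [if_pos hc]
      obtain ⟨p, hp, hpN, hpn⟩ := Nat.Prime.not_coprime_iff_dvd.1 hc
      have hmem : p ∈ n.primeFactors := Nat.mem_primeFactors.2 ⟨hp, hpn, by omega⟩
      calc (1 : ℝ) = if p ∣ N i then (1 : ℝ) else 0 := by rw [if_pos hpN]
        _ ≤ _ := Finset.single_le_sum h0 hmem
  calc ∑ i, (if ¬ (N i).Coprime n then (1 : ℝ) else 0)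
      ≤ ∑ i, ∑ p ∈ n.primeFactors, (if p ∣ N i then (1 : ℝ) else 0) :=
        Finset.sum_le_sum fun i _ => h1 i
    _ = ∑ p ∈ n.primeFactors, ((Finset.univ.filter (fun i : Fin m => p ∣ N i)).card : ℝ) := by
        rw [Finset.sum_comm]
        apply Finset.sum_congr rfl
        intro p _
        rw [Finset.sum_boole]
    _ ≤ ∑ p ∈ n.primeFactors, δ * m := by
        apply Finset.sum_le_sum
        intro p hp
        exact hP p (Nat.prime_of_mem_primeFactors hp) ((Nat.le_of_mem_primeFactors hp).trans hnA)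
    _ = n.primeFactors.card * (δ * m) := by
        rw [Finset.sum_const, nsmul_eq_mul]
    _ ≤ Real.logb 2 A * (δ * m) := by
        apply mul_le_mul_of_nonneg_right _ (by positivity)
        refine (sd_omega n hn).trans ?_
        apply Real.logb_le_logb_of_le (by norm_num) (by exact_mod_cast hn)
        exact_mod_cast hnA
    _ = _ := by ring

open Classical in
/-- the log of the order -/
noncomputable def sd_h (R : ℕ) (D : ℂ) (M A : ℕ) (z : ℂ) : ℝ :=
  if Str R D M A z then Real.log (ordz R D M A z) else 0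

/-- first type of defects -/
def sd_D1 (R : ℕ) (D : ℂ) (M A : ℕ) (b : ℤ) (a : ℤ) (z : ℂ) : Prop :=
  Str R D M A z ∧ Str R D M A (z * gv R b a) ∧ ¬ (Ny R b a).Coprime (ordz R D M A (z * gv R b a))

/-- second type of defects -/
def sd_D2 (R : ℕ) (D : ℂ) (M A : ℕ) (b : ℤ) (a : ℤ) (z : ℂ) : Prop :=
  Str R D M A z ∧ ¬ (Ny R b a).Coprime (ordz R D M A z)

theorem sd_Dfc_le (R : ℕ) (D : ℂ) (M A : ℕ) (b : ℤ) (a : ℤ) (z : ℂ) :
    ind (Dfc R D M A b a) z ≤ ind (sd_D1 R D M A b a) z + ind (sd_D2 R D M A b a) z := by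
  have n1 := sd_ind_nonneg (sd_D1 R D M A b a) z
  have n2 := sd_ind_nonneg (sd_D2 R D M A b a) z
  by_cases h : Dfc R D M A b a z
  · rw [sd_ind_pos h]
    obtain ⟨h1, h2, h3 | h3⟩ := h
    · have : ind (sd_D2 R D M A b a) z = 1 := sd_ind_pos ⟨h1, h3⟩
      linarith
    · have : ind (sd_D1 R D M A b a) z = 1 := sd_ind_pos ⟨h1, h2, h3⟩
      linarith
  · rw [sd_ind_neg h]
    linarith

theorem sd_h_bd (R : ℕ) (D : ℂ) (M A : ℕ) (z : ℂ) :
    0 ≤ sd_h R D M A z ∧ sd_h R D M A z ≤ Real.log A := by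
  unfold sd_h
  split_ifs with h
  · obtain ⟨h1, h2, _⟩ := ordz_spec R D M A z h
    refine ⟨Real.log_natCast_nonneg _, Real.log_le_log (by exact_mod_cast h1) (by exact_mod_cast h2)⟩
  · exact ⟨le_rfl, Real.log_natCast_nonneg _⟩

theorem sd_point1 (R : ℕ) (hR : 2 ≤ R) (D : ℂ) (hD : D ∈ OO R) (hD0 : D ≠ 0) (M A : ℕ)
    (Y : ℝ)
    (hY : 1 ≤ Y) (hbig : 2 * (A : ℝ) ^ 2 * Y * R < (R : ℝ) ^ M) (b : ℤ) (hb : b ≠ 0)
    {m : ℕ} (hm : 1 ≤ m) (a : Fin m → ℤ) (hyY : ∀ i, ‖yv R b (a i)‖ ≤ Y)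
    (δ : ℝ) (hδ : 0 ≤ δ)
    (hP : ∀ p : ℕ, p.Prime → p ≤ A →
      ((Finset.univ.filter (fun i : Fin m => p ∣ Ny R b (a i))).card : ℝ) ≤ δ * m) (z : ℂ) :
    Real.log 2 * ((∑ i, ind (sd_D1 R D M A b (a i)) z) / m) + sd_h R D M A z ≤
      pav (famY R b a) (sd_h R D M A) z + (δ * Real.log A * 1 +
        Real.log A * pav (famY R b a) (ind (fun z => ¬ Str R D M A z)) z) := by
  have hm0 : (0 : ℝ) < m := by exact_mod_cast hm
  have hL : 0 ≤ Real.log A := Real.log_natCast_nonneg A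
  rw [sd_pav, sd_pav]
  by_cases hz : Str R D M A z
  · obtain ⟨hn1, hnA, _⟩ := ordz_spec R D M A z hz
    set n := ordz R D M A z with hn
    have hh : sd_h R D M A z = Real.log n := by
      unfold sd_h; rw [if_pos hz]
    rw [hh]
    have hkey : ∀ i, (∑ p ∈ n.primeFactors.filter (fun p => ¬ p ∣ Ny R b (a i)),
        (n.factorization p : ℝ) * Real.log p) + Real.log 2 * ind (sd_D1 R D M A b (a i)) z ≤
        sd_h R D M A (z * gv R b (a i)) +
          Real.log A * ind (fun z => ¬ Str R D M A z) (z * gv R b (a i)) := by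
      intro i
      by_cases hzi : Str R D M A (z * gv R b (a i))
      · have e1 : ind (fun z => ¬ Str R D M A z) (z * gv R b (a i)) = 0 :=
          sd_ind_neg (not_not.2 hzi)
        have e2 : sd_h R D M A (z * gv R b (a i)) =
            Real.log (ordz R D M A (z * gv R b (a i))) := by
          unfold sd_h; rw [if_pos hzi]
        rw [e1, e2, mul_zero, add_zero]
        have hdvd := (ordz_rot R hR D hD hD0 M A Y hY hbig z b (a i) hb (hyY i) hz hzi).1
        have hn'1 := (ordz_spec R D M A _ hzi).1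
        have h1 := sd_coprime_part n (Ny R b (a i)) (ordz R D M A (z * gv R b (a i)))
          (by omega) (by omega) hdvd
        refine le_trans (le_of_eq ?_) h1
        congr 1
        by_cases hc : (Ny R b (a i)).Coprime (ordz R D M A (z * gv R b (a i)))
        · rw [if_neg (not_not.2 hc), sd_ind_neg (fun h => h.2.2 hc), mul_zero]
        · rw [if_pos hc, sd_ind_pos (show sd_D1 R D M A b (a i) z from ⟨hz, hzi, hc⟩), mul_one]
      · have e1 : ind (fun z => ¬ Str R D M A z) (z * gv R b (a i)) = 1 :=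
          sd_ind_pos hzi
        have e2 : sd_h R D M A (z * gv R b (a i)) = 0 := by
          unfold sd_h; rw [if_neg hzi]
        have e3 : ind (sd_D1 R D M A b (a i)) z = 0 := sd_ind_neg (fun h => hzi h.2.1)
        rw [e1, e2, e3, mul_zero, mul_one, add_zero, zero_add]
        calc ∑ p ∈ n.primeFactors.filter (fun p => ¬ p ∣ Ny R b (a i)),
              (n.factorization p : ℝ) * Real.log p
            ≤ ∑ p ∈ n.primeFactors, (n.factorization p : ℝ) * Real.log p := by
              apply Finset.sum_le_sum_of_subset_of_nonneg (Finset.filter_subset _ _)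
              intro p _ _
              have : 0 ≤ Real.log p := Real.log_natCast_nonneg p
              positivity
          _ = Real.log n := (sd_log_sum n).symm
          _ ≤ Real.log A := Real.log_le_log (by exact_mod_cast hn1) (by exact_mod_cast hnA)
    have hsum := Finset.sum_le_sum fun i (_ : i ∈ Finset.univ) => hkey i
    rw [Finset.sum_add_distrib, Finset.sum_add_distrib, ← Finset.mul_sum, ← Finset.mul_sum] at hsum
    have havg := sd_avg n A hnA (fun i => Ny R b (a i)) δ hP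
    have hnL : Real.log n ≤ Real.log A :=
      Real.log_le_log (by exact_mod_cast hn1) (by exact_mod_cast hnA)
    have h5 : δ * m * Real.log n ≤ δ * m * Real.log A :=
      mul_le_mul_of_nonneg_left hnL (by positivity)
    rw [← sub_nonneg]
    have h6 : (∑ i, sd_h R D M A (z * gv R b (a i))) / m + (δ * Real.log A * 1 +
        Real.log A * ((∑ i, ind (fun z => ¬ Str R D M A z) (z * gv R b (a i))) / m)) -
        (Real.log 2 * ((∑ i, ind (sd_D1 R D M A b (a i)) z) / m) + Real.log n) =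
        ((∑ i, sd_h R D M A (z * gv R b (a i))) + δ * m * Real.log A +
        Real.log A * (∑ i, ind (fun z => ¬ Str R D M A z) (z * gv R b (a i))) -
        Real.log 2 * (∑ i, ind (sd_D1 R D M A b (a i)) z) - m * Real.log n) / m := by
      field_simp
      ring
    rw [h6]
    apply div_nonneg _ hm0.le
    linarith
  · have e1 : sd_h R D M A z = 0 := by unfold sd_h; rw [if_neg hz]
    have e2 : ∑ i, ind (sd_D1 R D M A b (a i)) z = 0 :=
      Finset.sum_eq_zero fun i _ => sd_ind_neg fun h => hz h.1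
    rw [e1, e2, zero_div, mul_zero, add_zero]
    have h1 : 0 ≤ ∑ i, sd_h R D M A (z * gv R b (a i)) :=
      Finset.sum_nonneg fun i _ => (sd_h_bd R D M A _).1
    have h2 : 0 ≤ ∑ i, ind (fun z => ¬ Str R D M A z) (z * gv R b (a i)) :=
      Finset.sum_nonneg fun i _ => sd_ind_nonneg _ _
    positivity

theorem sd_point2 (R : ℕ) (D : ℂ) (M A : ℕ) (hA : 2 ≤ A) (b : ℤ)
    {m : ℕ} (hm : 1 ≤ m) (a : Fin m → ℤ)
    (δ : ℝ) (hδ : 0 ≤ δ)
    (hP : ∀ p : ℕ, p.Prime → p ≤ A →
      ((Finset.univ.filter (fun i : Fin m => p ∣ Ny R b (a i))).card : ℝ) ≤ δ * m) (z : ℂ) :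
    (∑ i, ind (sd_D2 R D M A b (a i)) z) / m ≤ δ * Real.logb 2 A * 1 := by
  have hm0 : (0 : ℝ) < m := by exact_mod_cast hm
  have hA1 : (1 : ℝ) ≤ A := by exact_mod_cast (by omega : 1 ≤ A)
  rw [div_le_iff₀ hm0]
  by_cases hz : Str R D M A z
  · obtain ⟨hn1, hnA, _⟩ := ordz_spec R D M A z hz
    have h1 := sd_avg2 _ A hn1 hnA (fun i => Ny R b (a i)) δ hδ hP
    have h2 : ∀ i, ind (sd_D2 R D M A b (a i)) z =
        if ¬ (Ny R b (a i)).Coprime (ordz R D M A z) then (1 : ℝ) else 0 := by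
      intro i
      by_cases hc : (Ny R b (a i)).Coprime (ordz R D M A z)
      · rw [if_neg (not_not.2 hc), sd_ind_neg (fun h => h.2 hc)]
      · rw [if_pos hc, sd_ind_pos (show sd_D2 R D M A b (a i) z from ⟨hz, hc⟩)]
    rw [Finset.sum_congr rfl fun i _ => h2 i]
    calc _ ≤ _ := h1
      _ = _ := by ring
  · have e2 : ∑ i, ind (sd_D2 R D M A b (a i)) z = 0 :=
      Finset.sum_eq_zero fun i _ => sd_ind_neg fun h => hz h.1
    rw [e2]
    have := Real.logb_nonneg (by norm_num : (1 : ℝ) < 2) hA1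
    positivity

/-- TARGET -/
theorem stat_defect (R : ℕ) (hR : 2 ≤ R) (D : ℂ) (hD : D ∈ OO R) (hD0 : D ≠ 0) (M A : ℕ)
    (hA : 2 ≤ A) (Y : ℝ)
    (hY : 1 ≤ Y) (hbig : 2 * (A : ℝ) ^ 2 * Y * R < (R : ℝ) ^ M) (b : ℤ) (hb : b ≠ 0)
    {m : ℕ} (hm : 1 ≤ m) (a : Fin m → ℤ) (hyY : ∀ i, ‖yv R b (a i)‖ ≤ Y)
    (δ : ℝ) (hδ : 0 ≤ δ)
    (hP : ∀ p : ℕ, p.Prime → p ≤ A →
      ((Finset.univ.filter (fun i : Fin m => p ∣ Ny R b (a i))).card : ℝ) ≤ δ * m)
    (Λ : (ℂ → ℝ) → ℝ) (hΛ : IsMean Λ) (θ η2 : ℝ) (hθ : 0 ≤ θ)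
    (nY : NearInv θ Λ (famY R b a))
    (hη : Λ (ind (fun z => ¬ Str R D M A z)) ≤ η2) :
    Λ (fun z => (∑ i, ind (Dfc R D M A b (a i)) z) / m) ≤
      Real.logb 2 A * (2 * θ + 2 * δ + η2) := by
  have hm0 : (0 : ℝ) < m := by exact_mod_cast hm
  have hL : 0 ≤ Real.log A := Real.log_natCast_nonneg A
  have hl2 : 0 < Real.log 2 := Real.log_pos (by norm_num)
  -- application of Λ to the first pointwise estimate
  have h1 := hΛ.mono _ _ (sd_point1 R hR D hD hD0 M A Y hY hbig b hb hm a hyY δ hδ hP)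
  rw [hΛ.add, hΛ.add, hΛ.add, hΛ.smul, hΛ.smul, hΛ.smul, hΛ.one] at h1
  have h2 := nY (sd_h R D M A) (Real.log A) (sd_h_bd R D M A)
  have h3 := nY (ind (fun z => ¬ Str R D M A z)) 1
    (fun z => ⟨sd_ind_nonneg _ _, sd_ind_le_one _ _⟩)
  rw [abs_le] at h2 h3
  have h4 : Λ (pav (famY R b a) (ind (fun z => ¬ Str R D M A z))) ≤ η2 + θ := by linarith [h3.2]
  have h5 : Real.log A * Λ (pav (famY R b a) (ind (fun z => ¬ Str R D M A z))) ≤
      Real.log A * (η2 + θ) := mul_le_mul_of_nonneg_left h4 hL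
  have h6 : Λ (fun z => (∑ i, ind (sd_D1 R D M A b (a i)) z) / m) ≤
      Real.logb 2 A * (2 * θ + δ + η2) := by
    rw [Real.logb, div_mul_eq_mul_div, le_div_iff₀ hl2]
    have e1 : Λ (fun z => pav (famY R b a) (sd_h R D M A) z) =
      Λ (pav (famY R b a) (sd_h R D M A)) := rfl
    have e2 : Λ (fun z => pav (famY R b a) (ind (fun z => ¬ Str R D M A z)) z) =
      Λ (pav (famY R b a) (ind (fun z => ¬ Str R D M A z))) := rfl
    have e3 : Λ (fun z => sd_h R D M A z) = Λ (sd_h R D M A) := rfl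
    rw [e1, e2, e3] at h1
    nlinarith [h2.2]
  have h7 : Λ (fun z => (∑ i, ind (sd_D2 R D M A b (a i)) z) / m) ≤ δ * Real.logb 2 A := by
    have := hΛ.mono _ _ (sd_point2 R D M A hA b hm a δ hδ hP)
    rw [hΛ.smul, hΛ.one, mul_one] at this
    exact this
  have h8 : Λ (fun z => (∑ i, ind (Dfc R D M A b (a i)) z) / m) ≤
      Λ (fun z => (∑ i, ind (sd_D1 R D M A b (a i)) z) / m +
        (∑ i, ind (sd_D2 R D M A b (a i)) z) / m) := by
    apply hΛ.mono
    intro z
    rw [← add_div, ← Finset.sum_add_distrib]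
    apply div_le_div_of_nonneg_right _ hm0.le
    exact Finset.sum_le_sum fun i _ => sd_Dfc_le R D M A b (a i) z
  rw [hΛ.add] at h8
  calc _ ≤ _ := h8
    _ ≤ Real.logb 2 A * (2 * θ + δ + η2) + δ * Real.logb 2 A := add_le_add h6 h7
    _ = _ := by ring

end MJ14
export MJ14 (stat_defect)
end Pyj
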