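import Mathlib
import Pool.Agent.Pyj.Defs2
import Pool.Agent.Pyj.J12
import Pool.Agent.Pyj.J13
set_option autoImplicit false
set_option maxHeartbeats 4000000

namespace Pyj
open Finset ComplexConjugate
namespace MJ15
theorem Ls_re (R : ℕ) (D : ℂ) (hD : D ∈ OO R) (M : ℕ) (x : ℂ) (hx : x ∈ Ls R D M) :
    ∃ k : ℤ, x.re = (R : ℝ) ^ M * k := by
  unfold Ls at hx
  rw [AddSubgroup.mem_map] at hx
  obtain ⟨ζ, hζ, rfl⟩ := hx
  obtain ⟨k, hk⟩ := hζ D hD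
  refine ⟨k, ?_⟩
  have h1 : (AddMonoidHom.mulLeft (D * (R : ℂ) ^ M)) ζ = (((R : ℝ) ^ M : ℝ) : ℂ) * (ζ * D) := by
    simp only [AddMonoidHom.coe_mulLeft]
    push_cast
    ring
  rw [h1, Complex.re_ofReal_mul, hk]

/-- TARGET 1 -/
theorem coupling (R1 R2 : ℕ) (h12 : R1 ∣ R2) (hR1 : 2 ≤ R1) (hR2 : 0 < R2) (D1 D2 : ℂ)
    (hD1 : D1 ∈ OO R1) (hD2 : D2 ∈ OO R2) (M A : ℕ) (hA : 2 * (A : ℝ) ^ 2 < (R1 : ℝ) ^ M) (z : ℂ)
    (h1 : Str R1 D1 M A z) (h2 : Str R2 D2 M A z) :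
    (tau R1 D1 M A z).re = (tau R2 D2 M A z).re := by
  obtain ⟨β1, hβ1, hβ1A, hn1, hl1⟩ := isTau_tau R1 D1 M A z h1
  obtain ⟨β2, hβ2, hβ2A, hn2, hl2⟩ := isTau_tau R2 D2 M A z h2
  set t1 := tau R1 D1 M A z
  set t2 := tau R2 D2 M A z
  obtain ⟨k1, hk1⟩ := Ls_re R1 D1 hD1 M _ hl1
  obtain ⟨k2, hk2⟩ := Ls_re R2 D2 hD2 M _ hl2
  obtain ⟨c, rfl⟩ := h12
  have hβ1r : (1:ℝ) ≤ β1 := by exact_mod_cast hβ1
  have hβ2r : (1:ℝ) ≤ β2 := by exact_mod_cast hβ2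
  have hβ1A' : (β1:ℝ) ≤ A := by exact_mod_cast hβ1A
  have hβ2A' : (β2:ℝ) ≤ A := by exact_mod_cast hβ2A
  have hre1 : ((β1 : ℂ) * (z - t1)).re = β1 * (z.re - t1.re) := by
    have : ((β1 : ℂ)) = ((β1 : ℝ) : ℂ) := by push_cast; rfl
    rw [this, Complex.re_ofReal_mul, Complex.sub_re]
  have hre2 : ((β2 : ℂ) * (z - t2)).re = β2 * (z.re - t2.re) := by
    have : ((β2 : ℂ)) = ((β2 : ℝ) : ℂ) := by push_cast; rfl
    rw [this, Complex.re_ofReal_mul, Complex.sub_re]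
  rw [hre1] at hk1
  rw [hre2] at hk2
  have hb1 : |(β1 : ℝ) * t1.re| ≤ A := by
    have h := Complex.abs_re_le_norm ((β1 : ℂ) * t1)
    have : ((β1 : ℂ)) = ((β1 : ℝ) : ℂ) := by push_cast; rfl
    rw [this, Complex.re_ofReal_mul] at h
    rw [this] at hn1
    exact h.trans hn1
  have hb2 : |(β2 : ℝ) * t2.re| ≤ A := by
    have h := Complex.abs_re_le_norm ((β2 : ℂ) * t2)
    have : ((β2 : ℂ)) = ((β2 : ℝ) : ℂ) := by push_cast; rfl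
    rw [this, Complex.re_ofReal_mul] at h
    rw [this] at hn2
    exact h.trans hn2
  have hRpos : (0:ℝ) < (R1 : ℝ) ^ M := by positivity
  have hW : (β1 : ℝ) * β2 * (t2.re - t1.re) =
      (R1 : ℝ) ^ M * ((β2 * k1 - β1 * (c ^ M * k2) : ℤ) : ℝ) := by
    push_cast at hk2 ⊢
    have e1 : (β1 : ℝ) * β2 * (t2.re - t1.re) = β2 * (β1 * (z.re - t1.re)) -
        β1 * (β2 * (z.re - t2.re)) := by ring
    rw [e1, hk1, hk2]
    rw [mul_pow]; ring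
  have hWb : |(β1 : ℝ) * β2 * (t2.re - t1.re)| ≤ 2 * (A : ℝ) ^ 2 := by
    have e1 : (β1 : ℝ) * β2 * (t2.re - t1.re) = β1 * (β2 * t2.re) - β2 * (β1 * t1.re) := by ring
    rw [e1]
    have e2 : |(β1 : ℝ) * (β2 * t2.re)| ≤ A * A := by
      rw [abs_mul, abs_of_nonneg (by linarith : (0:ℝ) ≤ β1)]
      exact mul_le_mul hβ1A' hb2 (abs_nonneg _) (by positivity)
    have e3 : |(β2 : ℝ) * (β1 * t1.re)| ≤ A * A := by
      rw [abs_mul, abs_of_nonneg (by linarith : (0:ℝ) ≤ β2)]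
      exact mul_le_mul hβ2A' hb1 (abs_nonneg _) (by positivity)
    calc _ ≤ |(β1 : ℝ) * (β2 * t2.re)| + |(β2 : ℝ) * (β1 * t1.re)| := abs_sub _ _
      _ ≤ A * A + A * A := add_le_add e2 e3
      _ = _ := by ring
  have hK : (β2 * k1 - β1 * (c ^ M * k2) : ℤ) = 0 := by
    by_contra hne
    have h5 : (1:ℝ) ≤ |((β2 * k1 - β1 * (c ^ M * k2) : ℤ) : ℝ)| := by
      exact_mod_cast Int.one_le_abs hne
    rw [hW, abs_mul, abs_of_pos hRpos] at hWb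
    have : (R1 : ℝ) ^ M * 1 ≤ (R1 : ℝ) ^ M * |((β2 * k1 - β1 * (c ^ M * k2) : ℤ) : ℝ)| :=
      mul_le_mul_of_nonneg_left h5 hRpos.le
    linarith
  rw [hK] at hW
  have h6 : (β1 : ℝ) * β2 * (t2.re - t1.re) = 0 := by rw [hW]; simp
  have h7 : (β1 : ℝ) * β2 ≠ 0 := by positivity
  have h8 := (mul_eq_zero.1 h6).resolve_left h7
  linarith

theorem ind_nonneg (p : ℂ → Prop) (z : ℂ) : 0 ≤ ind p z := by
  unfold ind; split_ifs <;> norm_num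

theorem ind_one (p : ℂ → Prop) (z : ℂ) (h : p z) : ind p z = 1 := by
  unfold ind; rw [if_pos h]

theorem ev_nonneg (R : ℕ) (D : ℂ) (M A : ℕ) (b : ℤ) (ε : ℝ) (a : ℤ) (z : ℂ) :
    0 ≤ ev R D M A b ε a z := by
  unfold ev
  have h1 := ind_nonneg (fun z => Near ε z.re) (z * gv R b a)
  have h2 := ind_nonneg (fun z => ¬ Str R D M A z) (z * gv R b a)
  have h3 := ind_nonneg (Dfc R D M A b a) z
  linarith

theorem ev_ge_one (R : ℕ) (D : ℂ) (M A : ℕ) (b : ℤ) (ε : ℝ) (a : ℤ) (z : ℂ)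
    (h : Str R D M A (z * gv R b a) → ¬ Dfc R D M A b a z → Near ε (z * gv R b a).re) :
    1 ≤ ev R D M A b ε a z := by
  unfold ev
  have h1 := ind_nonneg (fun z => Near ε z.re) (z * gv R b a)
  have h2 := ind_nonneg (fun z => ¬ Str R D M A z) (z * gv R b a)
  have h3 := ind_nonneg (Dfc R D M A b a) z
  by_cases hs : Str R D M A (z * gv R b a)
  · by_cases hd : Dfc R D M A b a z
    · have := ind_one (Dfc R D M A b a) z hd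
      linarith
    · have := ind_one (fun z => Near ε z.re) (z * gv R b a) (h hs hd)
      linarith
  · have := ind_one (fun z => ¬ Str R D M A z) (z * gv R b a) hs
    linarith

theorem sum_ev {m : ℕ} (hm : 1 ≤ m) (c1 : ℝ) (f : Fin m → ℝ) (hf : ∀ i, 0 ≤ f i)
    (I : Finset (Fin m)) (hI : c1 * m ≤ I.card) (h : ∀ i ∈ I, 1 ≤ f i) :
    c1 ≤ (∑ i, f i) / m := by
  have hmr : (0:ℝ) < m := by exact_mod_cast hm
  rw [le_div_iff₀ hmr]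
  calc c1 * m ≤ I.card := hI
    _ = ∑ i ∈ I, (1:ℝ) := by simp
    _ ≤ ∑ i ∈ I, f i := Finset.sum_le_sum h
    _ ≤ ∑ i, f i := Finset.sum_le_sum_of_subset_of_nonneg (Finset.subset_univ _) (fun i _ _ => hf i)

theorem near_add_int (ε x : ℝ) (k : ℤ) (h : Near ε x) : Near ε (x + k) := by
  obtain ⟨l, hl⟩ := h
  refine ⟨l + k, ?_⟩
  push_cast
  have : x + k - (l + k) = x - l := by ring
  rw [this]; exact hl

theorem ph_zero (n R : ℕ) (hn : 1 ≤ n) (b lam mu a : ℤ) (h1 : (n : ℤ) ∣ lam) (h2 : (n : ℤ) ∣ mu) :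
    ph n R b lam mu a = 0 := by
  have : NeZero n := ⟨by omega⟩
  have e1 : (lam : ZMod n) = 0 := (ZMod.intCast_zmod_eq_zero_iff_dvd lam n).2 h1
  have e2 : (mu : ZMod n) = 0 := (ZMod.intCast_zmod_eq_zero_iff_dvd mu n).2 h2
  unfold ph
  rw [e1, e2]
  simp

theorem not_dfc (R : ℕ) (D : ℂ) (M A : ℕ) (b a : ℤ) (z : ℂ) (h1 : Str R D M A z)
    (h2 : Str R D M A (z * gv R b a)) (h : ¬ Dfc R D M A b a z) :
    (Ny R b a).Coprime (ordz R D M A z) ∧ (Ny R b a).Coprime (ordz R D M A (z * gv R b a)) := by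
  unfold Dfc at h
  by_contra hcon
  apply h
  refine ⟨h1, h2, ?_⟩
  tauto

theorem caseA (R : ℕ) (D : ℂ) (M A : ℕ) (Y : ℝ) (hY : 1 ≤ Y)
    (hbig : 2 * (A : ℝ) ^ 2 * Y * R < (R : ℝ) ^ M)
    (b : ℤ) (hb : b ≠ 0) {m : ℕ} (hm : 1 ≤ m) (a : Fin m → ℤ)
    (hy : ∀ i, ‖yv R b (a i)‖ ≤ Y) (ε c1 : ℝ) (p2 : P2 R A b ε c1 a) (z : ℂ)
    (h1 : Str R D M A z) (nl : ℕ) (hnl : 1 ≤ nl) (hnlA : nl ≤ A) (hcop : nl.Coprime R)
    (rho1 rho2 : ℤ)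
    (hpf : ∀ (Y : ℝ), 1 ≤ Y → 2 * (A : ℝ) ^ 2 * Y * R < (R : ℝ) ^ M →
        ∀ b a : ℤ, b ≠ 0 → ‖yv R b a‖ ≤ Y → Str R D M A (z * gv R b a) →
        (Ny R b a).Coprime (ordz R D M A z) → (Ny R b a).Coprime (ordz R D M A (z * gv R b a)) →
        ∃ k : ℤ, (z * gv R b a).re = (tau R D M A z * gv R b a).re + rho1 / nl +
          ph nl R b (2 * rho2 - rho1) (rho2 - 2 * R * rho1) a + k)
    (hnc : ¬ ((nl : ℤ) ∣ 2 * rho2 - rho1 ∧ (nl : ℤ) ∣ rho2 - 2 * R * rho1)) :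
    c1 ≤ (∑ i, ev R D M A b ε (a i) z) / m := by
  obtain ⟨I, hI, hIn⟩ := p2 nl hnl hnlA hcop rho1 rho2 (tau R D M A z) (norm_tau_le _ _ _ _ _) hnc
  refine sum_ev hm c1 _ (fun i => ev_nonneg _ _ _ _ _ _ _ _) I hI ?_
  intro i hi
  apply ev_ge_one
  intro hs hd
  obtain ⟨hc1, hc2⟩ := not_dfc _ _ _ _ _ _ _ h1 hs hd
  obtain ⟨k, hk⟩ := hpf Y hY hbig b (a i) hb (hy i) hs hc1 hc2
  rw [hk]
  exact near_add_int _ _ _ (hIn i hi)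

/-- TARGET 2 -/
theorem final_point (R1 R2 : ℕ) (h12 : R2 = 2 * R1) (hR1 : 2 ≤ R1) (D1 D2 : ℂ)
    (hD1 : D1 ∈ OO R1) (hD10 : D1 ≠ 0) (hD2 : D2 ∈ OO R2) (hD20 : D2 ≠ 0) (M A : ℕ)
    (hAM : A < 2 ^ M) (Y : ℝ) (hY : 1 ≤ Y)
    (hbig1 : 2 * (A : ℝ) ^ 2 * Y * R1 < (R1 : ℝ) ^ M)
    (hbig2 : 2 * (A : ℝ) ^ 2 * Y * R2 < (R2 : ℝ) ^ M)
    (b1 b2 : ℤ) (hb1 : b1 ≠ 0) (hb2 : b2 ≠ 0) {m1 m2 : ℕ} (hm1 : 1 ≤ m1) (hm2 : 1 ≤ m2)
    (a1 : Fin m1 → ℤ) (a2 : Fin m2 → ℤ)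
    (hy1 : ∀ i, ‖yv R1 b1 (a1 i)‖ ≤ Y) (hy2 : ∀ i, ‖yv R2 b2 (a2 i)‖ ≤ Y)
    (ε c1 : ℝ) (hc1 : 0 ≤ c1)
    (p21 : P2 R1 A b1 ε c1 a1) (p31 : P3 R1 A b1 ε c1 a1) (p22 : P2 R2 A b2 ε c1 a2) (z : ℂ)
    (h1 : Str R1 D1 M A z) (h2 : Str R2 D2 M A z) :
    c1 ≤ (∑ i, ev R1 D1 M A b1 ε (a1 i) z) / m1 + (∑ i, ev R2 D2 M A b2 ε (a2 i) z) / m2 := by
  have hs1 : 0 ≤ (∑ i, ev R1 D1 M A b1 ε (a1 i) z) / m1 :=
    div_nonneg (Finset.sum_nonneg (fun i _ => ev_nonneg _ _ _ _ _ _ _ _)) (Nat.cast_nonneg _)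
  have hs2 : 0 ≤ (∑ i, ev R2 D2 M A b2 ε (a2 i) z) / m2 :=
    div_nonneg (Finset.sum_nonneg (fun i _ => ev_nonneg _ _ _ _ _ _ _ _)) (Nat.cast_nonneg _)
  obtain ⟨nl, hnl, hnlA, hcop, -, rho1, rho2, hx1, hpf1⟩ :=
    point_formula R1 hR1 D1 hD1 hD10 M A hAM z h1
  obtain ⟨nl', hnl', hnlA', hcop', -, rho1', rho2', hx2, hpf2⟩ :=
    point_formula R2 (by omega) D2 hD2 hD20 M A hAM z h2
  by_cases hA : (nl : ℤ) ∣ 2 * rho2 - rho1 ∧ (nl : ℤ) ∣ rho2 - 2 * R1 * rho1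
  · by_cases hB : (nl' : ℤ) ∣ 2 * rho2' - rho1' ∧ (nl' : ℤ) ∣ rho2' - 2 * R2 * rho1'
    · -- both constant
      have hRpos : (0:ℝ) < R1 := by exact_mod_cast (by omega : 0 < R1)
      have hA2 : 2 * (A : ℝ) ^ 2 < (R1 : ℝ) ^ M := by
        have hR1r : (1:ℝ) ≤ R1 := by exact_mod_cast (by omega : 1 ≤ R1)
        have : 2 * (A : ℝ) ^ 2 ≤ 2 * (A : ℝ) ^ 2 * Y * R1 := by
          have h0 : 0 ≤ 2 * (A : ℝ) ^ 2 := by positivity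
          calc 2 * (A : ℝ) ^ 2 = 2 * (A : ℝ) ^ 2 * 1 * 1 := by ring
            _ ≤ 2 * (A : ℝ) ^ 2 * Y * R1 := by gcongr
        linarith
      have hcoup := coupling R1 R2 ⟨2, by omega⟩ hR1 (by omega) D1 D2 hD1 hD2 M A hA2 z h1 h2
      have hxx : (rho1 : ℝ) / nl = (rho1' : ℝ) / nl' := by
        rw [← hx1, ← hx2, Complex.sub_re, Complex.sub_re, hcoup]
      have hd1 : (nl : ℤ) ∣ (4 * R1 - 1) * rho1 := by
        have e : (4 * (R1 : ℤ) - 1) * rho1 = (2 * rho2 - rho1) - 2 * (rho2 - 2 * R1 * rho1) := by ring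
        rw [e]
        exact dvd_sub hA.1 (Dvd.dvd.mul_left hA.2 2)
      have hd2 : (nl' : ℤ) ∣ (4 * R2 - 1) * rho1' := by
        have e : (4 * (R2 : ℤ) - 1) * rho1' = (2 * rho2' - rho1') - 2 * (rho2' - 2 * R2 * rho1') := by
          ring
        rw [e]
        exact dvd_sub hB.1 (Dvd.dvd.mul_left hB.2 2)
      obtain ⟨u, hu⟩ := hd1
      obtain ⟨v, hv⟩ := hd2
      have hnl0 : (nl : ℝ) ≠ 0 := by exact_mod_cast (by omega : nl ≠ 0)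
      have hnl0' : (nl' : ℝ) ≠ 0 := by exact_mod_cast (by omega : nl' ≠ 0)
      have hu' : (4 * (R1 : ℝ) - 1) * (rho1 / nl) = u := by
        have : (4 * (R1 : ℝ) - 1) * rho1 = nl * u := by exact_mod_cast hu
        field_simp
        linarith
      have hv' : (4 * (R2 : ℝ) - 1) * (rho1' / nl') = v := by
        have : (4 * (R2 : ℝ) - 1) * rho1' = nl' * v := by exact_mod_cast hv
        field_simp
        linarith
      have hint : (rho1 : ℝ) / nl = ((v - 2 * u : ℤ) : ℝ) := by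
        push_cast
        rw [← hu', ← hv', ← hxx, h12]
        push_cast
        ring
      obtain ⟨I, hI, hIn⟩ := p31 (tau R1 D1 M A z) (norm_tau_le _ _ _ _ _)
      have hfin : c1 ≤ (∑ i, ev R1 D1 M A b1 ε (a1 i) z) / m1 := by
        refine sum_ev hm1 c1 _ (fun i => ev_nonneg _ _ _ _ _ _ _ _) I hI ?_
        intro i hi
        apply ev_ge_one
        intro hs hd
        obtain ⟨hc1, hc2⟩ := not_dfc _ _ _ _ _ _ _ h1 hs hd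
        obtain ⟨k, hk⟩ := hpf1 Y hY hbig1 b1 (a1 i) hb1 (hy1 i) hs hc1 hc2
        rw [hk, ph_zero nl R1 hnl b1 _ _ _ hA.1 hA.2, hint, add_zero]
        exact near_add_int _ _ _ (near_add_int _ _ _ (hIn i hi))
      linarith
    · have := caseA R2 D2 M A Y hY hbig2 b2 hb2 hm2 a2 hy2 ε c1 p22 z h2 nl' hnl' hnlA' hcop'
        rho1' rho2' hpf2 hB
      linarith
  · have := caseA R1 D1 M A Y hY hbig1 b1 hb1 hm1 a1 hy1 ε c1 p21 z h1 nl hnl hnlA hcop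
      rho1 rho2 hpf1 hA
    linarith

end MJ15
export MJ15 (coupling final_point)
end Pyj
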