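import Mathlib
import Pool.Agent.Pyj.Defs2
set_option autoImplicit false
set_option maxHeartbeats 4000000

namespace Pyj
open Finset ComplexConjugate
namespace MJ16
theorem J16_ind_nonneg (p : ℂ → Prop) (z : ℂ) : 0 ≤ ind p z := by
  unfold ind; split_ifs <;> norm_num

theorem J16_ind_le (p : ℂ → Prop) (z : ℂ) : ind p z ≤ 1 := by
  unfold ind; split_ifs <;> norm_num

theorem J16_pav (R : ℕ) (b : ℤ) {m : ℕ} (a : Fin m → ℤ) (h : ℂ → ℝ) (z : ℂ) :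
    pav (famY R b a) h z = (∑ i, h (z * gv R b (a i))) / m := by
  unfold pav famY
  rw [Multiset.map_map, Multiset.card_map]
  simp [List.sum_ofFn]

theorem J16_one (R : ℕ) (D : ℂ) (M A : ℕ) (b : ℤ) {m : ℕ} (a : Fin m → ℤ) (ε : ℝ)
    (Λ : (ℂ → ℝ) → ℝ) (hΛ : IsMean Λ) (θ η η2 η3 : ℝ)
    (n1 : NearInv θ Λ (famY R b a))
    (hη : Λ (ind (fun z => Near ε z.re)) ≤ η)
    (h21 : Λ (ind (fun z => ¬ Str R D M A z)) ≤ η2)
    (h31 : Λ (fun z => (∑ i, ind (Dfc R D M A b (a i)) z) / m) ≤ η3) :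
    Λ (fun z => (∑ i, ev R D M A b ε (a i) z) / m) ≤ (η + θ) + (η2 + θ) + η3 := by
  have e : (fun z => (∑ i, ev R D M A b ε (a i) z) / m) =
      (fun z => (pav (famY R b a) (ind (fun z => Near ε z.re)) z +
        pav (famY R b a) (ind (fun z => ¬ Str R D M A z)) z) +
        (∑ i, ind (Dfc R D M A b (a i)) z) / m) := by
    funext z
    rw [J16_pav, J16_pav]
    simp only [ev, Finset.sum_add_distrib, add_div]
  rw [e, hΛ.add, hΛ.add]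
  have h1 := n1 (ind (fun z => Near ε z.re)) 1 (fun z => ⟨J16_ind_nonneg _ z, J16_ind_le _ z⟩)
  have h2 := n1 (ind (fun z => ¬ Str R D M A z)) 1 (fun z => ⟨J16_ind_nonneg _ z, J16_ind_le _ z⟩)
  rw [abs_le, mul_one] at h1 h2
  linarith [h1.2, h2.2]

/-- TARGET -/
theorem core_mean (R1 R2 : ℕ) (D1 D2 : ℂ) (M A : ℕ) (b1 b2 : ℤ) {m1 m2 : ℕ} (hm1 : 1 ≤ m1)
    (hm2 : 1 ≤ m2) (a1 : Fin m1 → ℤ) (a2 : Fin m2 → ℤ) (ε c1 : ℝ) (hc0 : 0 ≤ c1) (hc1 : c1 ≤ 1)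
    (hpt : ∀ z : ℂ, Str R1 D1 M A z → Str R2 D2 M A z →
      c1 ≤ (∑ i, ev R1 D1 M A b1 ε (a1 i) z) / m1 + (∑ i, ev R2 D2 M A b2 ε (a2 i) z) / m2)
    (Λ : (ℂ → ℝ) → ℝ) (hΛ : IsMean Λ) (θ η η2 η3 : ℝ)
    (n1 : NearInv θ Λ (famY R1 b1 a1)) (n2 : NearInv θ Λ (famY R2 b2 a2))
    (hη : Λ (ind (fun z => Near ε z.re)) ≤ η)
    (h21 : Λ (ind (fun z => ¬ Str R1 D1 M A z)) ≤ η2)
    (h22 : Λ (ind (fun z => ¬ Str R2 D2 M A z)) ≤ η2)
    (h31 : Λ (fun z => (∑ i, ind (Dfc R1 D1 M A b1 (a1 i)) z) / m1) ≤ η3)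
    (h32 : Λ (fun z => (∑ i, ind (Dfc R2 D2 M A b2 (a2 i)) z) / m2) ≤ η3) :
    c1 ≤ 2 * η + 4 * θ + 4 * η2 + 2 * η3 := by
  have k1 := J16_one R1 D1 M A b1 a1 ε Λ hΛ θ η η2 η3 n1 hη h21 h31
  have k2 := J16_one R2 D2 M A b2 a2 ε Λ hΛ θ η η2 η3 n2 hη h22 h32
  have hev : ∀ (R : ℕ) (D : ℂ) (b a : ℤ) (z : ℂ), 0 ≤ ev R D M A b ε a z := by
    intro R D b a z
    unfold ev
    have := J16_ind_nonneg (fun z => Near ε z.re) (z * gv R b a)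
    have := J16_ind_nonneg (fun z => ¬ Str R D M A z) (z * gv R b a)
    have := J16_ind_nonneg (Dfc R D M A b a) z
    linarith
  have hS1 : ∀ z, 0 ≤ (∑ i, ev R1 D1 M A b1 ε (a1 i) z) / (m1 : ℝ) := fun z =>
    div_nonneg (Finset.sum_nonneg fun i _ => hev _ _ _ _ _) (by positivity)
  have hS2 : ∀ z, 0 ≤ (∑ i, ev R2 D2 M A b2 ε (a2 i) z) / (m2 : ℝ) := fun z =>
    div_nonneg (Finset.sum_nonneg fun i _ => hev _ _ _ _ _) (by positivity)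
  have hmono := hΛ.mono (fun _ => c1 * 1)
    (fun z => (((∑ i, ev R1 D1 M A b1 ε (a1 i) z) / m1 + (∑ i, ev R2 D2 M A b2 ε (a2 i) z) / m2) +
      ind (fun z => ¬ Str R1 D1 M A z) z) + ind (fun z => ¬ Str R2 D2 M A z) z) (by
      intro z
      rw [mul_one]
      have i1 := J16_ind_nonneg (fun z => ¬ Str R1 D1 M A z) z
      have i2 := J16_ind_nonneg (fun z => ¬ Str R2 D2 M A z) z
      have s1 := hS1 z
      have s2 := hS2 z
      by_cases h1 : Str R1 D1 M A z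
      · by_cases h2 : Str R2 D2 M A z
        · have := hpt z h1 h2
          linarith
        · have : ind (fun z => ¬ Str R2 D2 M A z) z = 1 := by
            simp [ind, h2]
          linarith
      · have : ind (fun z => ¬ Str R1 D1 M A z) z = 1 := by
          simp [ind, h1]
        linarith)
  rw [hΛ.smul, hΛ.one, mul_one] at hmono
  rw [hΛ.add (fun z => (((∑ i, ev R1 D1 M A b1 ε (a1 i) z) / m1 +
      (∑ i, ev R2 D2 M A b2 ε (a2 i) z) / m2) + ind (fun z => ¬ Str R1 D1 M A z) z))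
      (fun z => ind (fun z => ¬ Str R2 D2 M A z) z),
    hΛ.add (fun z => ((∑ i, ev R1 D1 M A b1 ε (a1 i) z) / m1 +
      (∑ i, ev R2 D2 M A b2 ε (a2 i) z) / m2)) (fun z => ind (fun z => ¬ Str R1 D1 M A z) z),
    hΛ.add (fun z => (∑ i, ev R1 D1 M A b1 ε (a1 i) z) / (m1 : ℝ))
      (fun z => (∑ i, ev R2 D2 M A b2 ε (a2 i) z) / (m2 : ℝ))] at hmono
  have g1 : Λ (fun z => ind (fun z => ¬ Str R1 D1 M A z) z) ≤ η2 := h21
  have g2 : Λ (fun z => ind (fun z => ¬ Str R2 D2 M A z) z) ≤ η2 := h22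
  linarith

end MJ16
export MJ16 (core_mean)
end Pyj
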