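import Mathlib
import Pool.Agent.Pyj.Defs2
set_option autoImplicit false
set_option maxHeartbeats 4000000

namespace Pyj
open Finset ComplexConjugate
namespace MJ17
/-- class of averaging operators -/
structure Cls (V : ℕ → Set ℂ) (N : ℕ) (S : (ℂ → ℝ) → ℂ → ℝ) : Prop where
  add : ∀ f g : ℂ → ℝ, S (fun z => f z + g z) = fun z => S f z + S g z
  smul : ∀ (c : ℝ) (f : ℂ → ℝ), S (fun z => c * f z) = fun z => c * S f z
  mono : ∀ f g : ℂ → ℝ, (∀ z, f z ≤ g z) → ∀ z, S f z ≤ S g z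
  one : S (fun _ => 1) = fun _ => 1
  dom : ∀ (Z : Finset ℂ) (f : ℂ → ℝ), ∃ u ∈ V N, ∑ z ∈ Z, S f z ≤ ∑ z ∈ Z, f (z * u)

theorem Cls.const {V : ℕ → Set ℂ} {N : ℕ} {S : (ℂ → ℝ) → ℂ → ℝ} (h : Cls V N S) (c : ℝ) (z : ℂ) :
    S (fun _ => c) z = c := by
  have h1 := congrFun (h.smul c (fun _ => 1)) z
  rw [h.one] at h1
  simpa using h1

theorem Cls.le {V : ℕ → Set ℂ} {N : ℕ} {S : (ℂ → ℝ) → ℂ → ℝ} (h : Cls V N S) {f : ℂ → ℝ} {c : ℝ}
    (hf : ∀ z, f z ≤ c) (z : ℂ) : S f z ≤ c := by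
  have h1 := h.mono f (fun _ => c) hf z
  rwa [h.const] at h1

theorem Cls.ge {V : ℕ → Set ℂ} {N : ℕ} {S : (ℂ → ℝ) → ℂ → ℝ} (h : Cls V N S) {f : ℂ → ℝ} {c : ℝ}
    (hf : ∀ z, c ≤ f z) (z : ℂ) : c ≤ S f z := by
  have h1 := h.mono (fun _ => c) f hf z
  rwa [h.const] at h1

theorem Cls.diff {V : ℕ → Set ℂ} {N : ℕ} {S : (ℂ → ℝ) → ℂ → ℝ} (h : Cls V N S) {f g : ℂ → ℝ} {c : ℝ}
    (hf : ∀ z, |f z - g z| ≤ c) (z : ℂ) : |S f z - S g z| ≤ c := by
  have e : ∀ k : ℂ → ℝ, S (fun z => k z + c) z = S k z + c := by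
    intro k
    have h2 := congrFun (h.add k (fun _ => c)) z
    simp only [h.const] at h2
    exact h2
  have h1 := h.mono f (fun z => g z + c) (fun z => by have := (abs_le.1 (hf z)).2; linarith) z
  have h2 := h.mono g (fun z => f z + c) (fun z => by have := (abs_le.1 (hf z)).1; linarith) z
  rw [e] at h1 h2
  rw [abs_le]
  constructor <;> linarith

theorem Cls.ofLe {V : ℕ → Set ℂ} (hmono : ∀ i j, i ≤ j → V i ⊆ V j) {N N' : ℕ} (hN : N ≤ N')
    {S : (ℂ → ℝ) → ℂ → ℝ} (h : Cls V N S) : Cls V N' S :=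
  ⟨h.add, h.smul, h.mono, h.one, fun Z f => by
    obtain ⟨u, hu, h'⟩ := h.dom Z f
    exact ⟨u, hmono _ _ hN hu, h'⟩⟩

theorem Cls.ident {V : ℕ → Set ℂ} (h1 : (1 : ℂ) ∈ V 0) : Cls V 0 (fun h => h) :=
  ⟨fun _ _ => rfl, fun _ _ => rfl, fun _ _ h => h, rfl, fun Z f => ⟨1, h1, by simp⟩⟩

theorem Cls.comp {V : ℕ → Set ℂ} (h0 : ∀ i, (0 : ℂ) ∉ V i)
    (hmul : ∀ i j u v, u ∈ V i → v ∈ V j → u * v ∈ V (i + j)) {N N' : ℕ}
    {S S' : (ℂ → ℝ) → ℂ → ℝ} (h : Cls V N S) (h' : Cls V N' S') :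
    Cls V (N + N') (fun f => S (S' f)) := by
  refine ⟨fun f g => ?_, fun c f => ?_, fun f g hfg => ?_, ?_, fun Z f => ?_⟩
  · show S (S' _) = _
    rw [h'.add, h.add]
  · show S (S' _) = _
    rw [h'.smul, h.smul]
  · exact h.mono _ _ (h'.mono f g hfg)
  · show S (S' _) = _
    rw [h'.one, h.one]
  · obtain ⟨u, hu, hu'⟩ := h.dom Z (S' f)
    have hu0 : u ≠ 0 := fun e => h0 N (e ▸ hu)
    obtain ⟨v, hv, hv'⟩ := h'.dom (Z.image (fun z => z * u)) f
    refine ⟨u * v, hmul _ _ _ _ hu hv, ?_⟩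
    have hinj : Set.InjOn (fun z : ℂ => z * u) Z := fun a _ b _ hab => mul_right_cancel₀ hu0 hab
    rw [Finset.sum_image hinj, Finset.sum_image hinj] at hv'
    refine hu'.trans (hv'.trans (le_of_eq ?_))
    apply Finset.sum_congr rfl
    intro z _
    rw [mul_assoc]

theorem Cls.pav {V : ℕ → Set ℂ} {l : Multiset ℂ} (hne : l ≠ 0) (hV : ∀ u ∈ l, u ∈ V 1) :
    Cls V 1 (Pyj.pav l) := by
  have hc : (0 : ℝ) < (Multiset.card l : ℝ) := by
    exact_mod_cast Multiset.card_pos.2 hne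
  refine ⟨fun f g => ?_, fun c f => ?_, fun f g hfg z => ?_, ?_, fun Z f => ?_⟩
  · funext z
    unfold Pyj.pav
    rw [Multiset.sum_map_add, add_div]
  · funext z
    unfold Pyj.pav
    rw [Multiset.sum_map_mul_left, mul_div_assoc]
  · unfold Pyj.pav
    apply div_le_div_of_nonneg_right _ hc.le
    exact Multiset.sum_map_le_sum_map _ _ (fun u _ => hfg _)
  · funext z
    unfold Pyj.pav
    simp only [Multiset.map_const', Multiset.sum_replicate, nsmul_eq_mul, mul_one]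
    exact div_self hc.ne'
  · have hsum : ∑ z ∈ Z, Pyj.pav l f z =
        (l.map (fun u => ∑ z ∈ Z, f (z * u))).sum / (Multiset.card l : ℝ) := by
      unfold Pyj.pav
      rw [← Finset.sum_div]
      congr 1
      induction l using Multiset.induction_on with
      | empty => simp
      | cons a s ih =>
        by_cases hs : s = 0
        · subst hs
          simp
        · have := ih hs (fun u hu => hV u (Multiset.mem_cons_of_mem hu))
            (by exact_mod_cast Multiset.card_pos.2 hs)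
          simp only [Multiset.map_cons, Multiset.sum_cons, Finset.sum_add_distrib, this]
    obtain ⟨u, hu, hmax⟩ := Finset.exists_max_image l.toFinset (fun u => ∑ z ∈ Z, f (z * u))
      (by
        obtain ⟨a, ha⟩ := Multiset.exists_mem_of_ne_zero hne
        exact ⟨a, Multiset.mem_toFinset.2 ha⟩)
    refine ⟨u, hV u (Multiset.mem_toFinset.1 hu), ?_⟩
    rw [hsum, div_le_iff₀ hc]
    have := Multiset.sum_le_card_nsmul (l.map (fun u => ∑ z ∈ Z, f (z * u)))
      (∑ z ∈ Z, f (z * u)) (by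
        intro x hx
        obtain ⟨v, hv, rfl⟩ := Multiset.mem_map.1 hx
        exact hmax v (Multiset.mem_toFinset.2 hv))
    rw [Multiset.card_map, nsmul_eq_mul] at this
    linarith

theorem Cls.iter {V : ℕ → Set ℂ} (h1 : (1 : ℂ) ∈ V 0) (h0 : ∀ i, (0 : ℂ) ∉ V i)
    (hmul : ∀ i j u v, u ∈ V i → v ∈ V j → u * v ∈ V (i + j)) {S : (ℂ → ℝ) → ℂ → ℝ}
    (h : Cls V 1 S) (n : ℕ) : Cls V n (S^[n]) := by
  induction n with
  | zero => exact Cls.ident h1
  | succ n ih =>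
    have h2 := Cls.comp h0 hmul ih h
    exact h2

/-- Cesaro average of the powers of `P_l` -/
noncomputable def Av (l : Multiset ℂ) (L : ℕ) (f : ℂ → ℝ) (z : ℂ) : ℝ :=
  (∑ n ∈ range L, (pav l)^[n] f z) / L

theorem Cls.Av {V : ℕ → Set ℂ} (h1 : (1 : ℂ) ∈ V 0) (h0 : ∀ i, (0 : ℂ) ∉ V i)
    (hmul : ∀ i j u v, u ∈ V i → v ∈ V j → u * v ∈ V (i + j))
    (hmono : ∀ i j, i ≤ j → V i ⊆ V j) {l : Multiset ℂ} (hne : l ≠ 0) (hV : ∀ u ∈ l, u ∈ V 1)
    {L : ℕ} (hL : 1 ≤ L) : Cls V L (Pyj.MJ17.Av l L) := by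
  have hit : ∀ n, Cls V n ((Pyj.pav l)^[n]) := fun n =>
    Cls.iter h1 h0 hmul (Cls.pav hne hV) n
  have hL0 : (0 : ℝ) < L := by exact_mod_cast hL
  refine ⟨fun f g => ?_, fun c f => ?_, fun f g hfg z => ?_, ?_, fun Z f => ?_⟩
  · funext z
    unfold Pyj.MJ17.Av
    rw [← add_div, ← Finset.sum_add_distrib]
    congr 1
    apply Finset.sum_congr rfl
    intro n _
    rw [(hit n).add]
  · funext z
    unfold Pyj.MJ17.Av
    rw [← mul_div_assoc, Finset.mul_sum]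
    congr 1
    apply Finset.sum_congr rfl
    intro n _
    rw [(hit n).smul]
  · unfold Pyj.MJ17.Av
    apply div_le_div_of_nonneg_right _ hL0.le
    exact Finset.sum_le_sum (fun n _ => (hit n).mono f g hfg z)
  · funext z
    unfold Pyj.MJ17.Av
    rw [Finset.sum_congr rfl (fun n _ => (hit n).const 1 z)]
    simp only [Finset.sum_const, Finset.card_range, nsmul_eq_mul, mul_one]
    exact div_self hL0.ne'
  · obtain ⟨n, hn, hmax⟩ := Finset.exists_max_image (range L)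
      (fun n => ∑ z ∈ Z, (Pyj.pav l)^[n] f z) ⟨0, Finset.mem_range.2 (by omega)⟩
    obtain ⟨u, hu, hu'⟩ := (hit n).dom Z f
    refine ⟨u, hmono _ _ (Finset.mem_range.1 hn).le hu, le_trans ?_ hu'⟩
    unfold Pyj.MJ17.Av
    rw [← Finset.sum_div, Finset.sum_comm, div_le_iff₀ hL0]
    have := Finset.sum_le_card_nsmul (range L) (fun n => ∑ z ∈ Z, (Pyj.pav l)^[n] f z)
      (∑ z ∈ Z, (Pyj.pav l)^[n] f z) hmax
    rw [Finset.card_range, nsmul_eq_mul] at this
    linarith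

theorem pav_comm (l l' : Multiset ℂ) (f : ℂ → ℝ) : pav l (pav l' f) = pav l' (pav l f) := by
  funext z
  have e : ∀ (l l' : Multiset ℂ), pav l (pav l' f) z =
      (l.map (fun u => (l'.map (fun v => f (z * u * v))).sum)).sum *
        ((Multiset.card l' : ℝ)⁻¹ * (Multiset.card l : ℝ)⁻¹) := by
    intro l l'
    unfold pav
    simp only [div_eq_mul_inv]
    rw [Multiset.sum_map_mul_right, mul_assoc]
  rw [e, e, Multiset.sum_map_sum_map, mul_comm ((Multiset.card l' : ℝ)⁻¹)]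
  congr 3
  funext v
  congr 1
  apply Multiset.map_congr rfl
  intro u _
  rw [mul_right_comm]

theorem iter_comm (l l' : Multiset ℂ) (n : ℕ) (f : ℂ → ℝ) :
    (pav l)^[n] (pav l' f) = pav l' ((pav l)^[n] f) := by
  induction n generalizing f with
  | zero => rfl
  | succ n ih =>
    rw [Function.iterate_succ_apply, Function.iterate_succ_apply, pav_comm, ih]

theorem Av_comm (l l' : Multiset ℂ) (L : ℕ) (f : ℂ → ℝ) :
    Av l L (pav l' f) = pav l' (Av l L f) := by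
  funext z
  have lhs : Av l L (pav l' f) z = (∑ n ∈ range L,
      (l'.map (fun u => (pav l)^[n] f (z * u))).sum / (Multiset.card l' : ℝ)) / L := by
    unfold Av
    congr 1
    apply Finset.sum_congr rfl
    intro n _
    rw [iter_comm]
    rfl
  have rhs : pav l' (Av l L f) z =
      (l'.map (fun u => (∑ n ∈ range L, (pav l)^[n] f (z * u)) / (L : ℝ))).sum /
        (Multiset.card l' : ℝ) := rfl
  have e2 : ∀ s : Multiset ℂ, ∑ n ∈ range L, (s.map (fun u => (pav l)^[n] f (z * u))).sum =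
      (s.map (fun u => ∑ n ∈ range L, (pav l)^[n] f (z * u))).sum := by
    intro s
    induction s using Multiset.induction_on with
    | empty => simp
    | cons a s ih => simp only [Multiset.map_cons, Multiset.sum_cons, Finset.sum_add_distrib, ih]
  have e3 : (l'.map (fun u => (∑ n ∈ range L, (pav l)^[n] f (z * u)) / (L : ℝ))).sum =
      (l'.map (fun u => ∑ n ∈ range L, (pav l)^[n] f (z * u))).sum / L := by
    simp only [div_eq_mul_inv]
    rw [Multiset.sum_map_mul_right]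
  rw [lhs, rhs, e3, ← Finset.sum_div, div_right_comm, e2]

theorem Av_near {V : ℕ → Set ℂ} (h1 : (1 : ℂ) ∈ V 0) (h0 : ∀ i, (0 : ℂ) ∉ V i)
    (hmul : ∀ i j u v, u ∈ V i → v ∈ V j → u * v ∈ V (i + j))
    {l : Multiset ℂ} (hne : l ≠ 0) (hV : ∀ u ∈ l, u ∈ V 1)
    {L : ℕ} (hL : 1 ≤ L) (k : ℂ → ℝ) (B : ℝ) (hk : ∀ z, 0 ≤ k z ∧ k z ≤ B) (z : ℂ) :
    |Av l L (pav l k) z - Av l L k z| ≤ 1 / L * B := by
  have hit := Cls.iter h1 h0 hmul (Cls.pav hne hV) L
  have hL0 : (0 : ℝ) < L := by exact_mod_cast hL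
  have e : Av l L (pav l k) z - Av l L k z = ((pav l)^[L] k z - k z) / L := by
    unfold Av
    rw [← sub_div, ← Finset.sum_sub_distrib]
    congr 1
    have := Finset.sum_range_sub (fun n => (pav l)^[n] k z) L
    simp only [Function.iterate_zero, id_eq] at this
    rw [← this]
    apply Finset.sum_congr rfl
    intro n _
    rw [← Function.iterate_succ_apply]
  rw [e, abs_div, abs_of_pos hL0, div_le_iff₀ hL0, one_div, mul_comm, mul_inv_cancel_left₀ hL0.ne']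
  have h2 := hit.le (fun z => (hk z).2) z
  have h3 := hit.ge (fun z => (hk z).1) z
  have h4 := hk z
  rw [abs_le]
  constructor <;> linarith

theorem walk_aux (V : ℕ → Set ℂ) (h1 : (1 : ℂ) ∈ V 0) (h0 : ∀ i, (0 : ℂ) ∉ V i)
    (hmul : ∀ i j u v, u ∈ V i → v ∈ V j → u * v ∈ V (i + j))
    (hmono : ∀ i j, i ≤ j → V i ⊆ V j) (L : ℕ) (hL : 1 ≤ L) (fams : List (Multiset ℂ))
    (hne : ∀ l ∈ fams, l ≠ 0) (hV : ∀ l ∈ fams, ∀ u ∈ l, u ∈ V 1) :
    ∃ T : (ℂ → ℝ) → ℂ → ℝ, Cls V (fams.length * L) T ∧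
      (∀ (l' : Multiset ℂ) (f : ℂ → ℝ), T (pav l' f) = pav l' (T f)) ∧
      (∀ l ∈ fams, ∀ z, NearInv (1 / L) (fun h => T h z) l) := by
  induction fams with
  | nil =>
    refine ⟨fun h => h, ?_, fun _ _ => rfl, ?_⟩
    · rw [List.length_nil, zero_mul]
      exact Cls.ident h1
    · intro l hl
      exact absurd hl (List.not_mem_nil)
  | cons l fams ih =>
    obtain ⟨T, hT, hTc, hTn⟩ := ih (fun l' hl' => hne l' (List.mem_cons_of_mem _ hl'))
      (fun l' hl' => hV l' (List.mem_cons_of_mem _ hl'))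
    have hl := hne l List.mem_cons_self
    have hlV := hV l List.mem_cons_self
    have hA := Cls.Av h1 h0 hmul hmono hl hlV hL
    refine ⟨fun f => Av l L (T f), ?_, ?_, ?_⟩
    · have := Cls.comp h0 hmul hA hT
      rw [List.length_cons, show (fams.length + 1) * L = L + fams.length * L by ring]
      exact this
    · intro l' f
      show Av l L (T (pav l' f)) = _
      rw [hTc, Av_comm]
    · intro l' hl' z f B hf
      show |Av l L (T (pav l' f)) z - Av l L (T f) z| ≤ 1 / L * B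
      rcases List.mem_cons.1 hl' with h | h
      · rw [h, hTc]
        exact Av_near h1 h0 hmul hl hlV hL (T f) B
          (fun z => ⟨hT.ge (fun z => (hf z).1) z, hT.le (fun z => (hf z).2) z⟩) z
      · apply hA.diff
        intro w
        exact hTn l' h w f B hf


/-- TARGET: a long random walk with step distributions given by the families -/
theorem walk (V : ℕ → Set ℂ) (h1 : (1 : ℂ) ∈ V 0) (h0 : ∀ i, (0 : ℂ) ∉ V i)
    (hmul : ∀ i j u v, u ∈ V i → v ∈ V j → u * v ∈ V (i + j))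
    (hmono : ∀ i j, i ≤ j → V i ⊆ V j) (fams : List (Multiset ℂ)) (hne : ∀ l ∈ fams, l ≠ 0)
    (hV : ∀ l ∈ fams, ∀ u ∈ l, u ∈ V 1) (L : ℕ) (hL : 1 ≤ L) :
    ∃ T : (ℂ → ℝ) → ℂ → ℝ, (∀ z, IsMean (fun h => T h z)) ∧
      (∀ l ∈ fams, ∀ z, NearInv (1 / L) (fun h => T h z) l) ∧
      ∀ (Z : Finset ℂ) (f : ℂ → ℝ), ∃ u ∈ V (fams.length * L),
        ∑ z ∈ Z, T f z ≤ ∑ z ∈ Z, f (z * u) := by
  obtain ⟨T, hT, -, hTn⟩ := walk_aux V h1 h0 hmul hmono L hL fams hne hV
  refine ⟨T, fun z => ⟨fun f g => ?_, fun c f => ?_, fun f g h => hT.mono f g h z,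
    hT.const 1 z⟩, hTn, hT.dom⟩
  · show T _ z = _
    rw [hT.add]
  · show T _ z = _
    rw [hT.smul]

end MJ17
export MJ17 (walk)
end Pyj
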