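import Mathlib
import Pool.Agent.Pyj.Defs2
set_option autoImplicit false
set_option maxHeartbeats 4000000

namespace Pyj
open Finset ComplexConjugate
namespace MJ18
open Classical in
theorem greedy_step (ε η : ℝ) (W : Set ℂ)
    (T : (ℂ → ℝ) → ℂ → ℝ)
    (hT : ∀ (Z : Finset ℂ) (f : ℂ → ℝ), ∃ u ∈ W, ∑ z ∈ Z, T f z ≤ ∑ z ∈ Z, f (z * u))
    (hit : ∀ z, η ≤ T (ind (fun z => Near ε z.re)) z) (hη1 : η ≤ 1) (Z0 : Finset ℂ) (n : ℕ) :
    ∃ U : Finset ℂ, (∀ u ∈ U, u ∈ W) ∧ U.card ≤ n ∧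
      ((Z0.filter (fun z => ¬ ∃ u ∈ U, Near ε (z * u).re)).card : ℝ) ≤ (1 - η) ^ n * Z0.card := by
  induction n with
  | zero =>
    refine ⟨∅, by simp, by simp, ?_⟩
    simp
  | succ n ih =>
    obtain ⟨U, hU, hc, hle⟩ := ih
    set Z := Z0.filter (fun z => ¬ ∃ u ∈ U, Near ε (z * u).re) with hZ
    obtain ⟨u, hu, hsum⟩ := hT Z (ind (fun z => Near ε z.re))
    refine ⟨insert u U, ?_, ?_, ?_⟩
    · intro v hv
      rcases Finset.mem_insert.1 hv with rfl | hv
      · exact hu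
      · exact hU v hv
    · exact (Finset.card_insert_le _ _).trans (by omega)
    · have h1 : η * (Z.card : ℝ) ≤ ∑ z ∈ Z, T (ind (fun z => Near ε z.re)) z := by
        have := Finset.card_nsmul_le_sum Z (fun z => T (ind (fun z => Near ε z.re)) z) η
          (fun z _ => hit z)
        rw [nsmul_eq_mul] at this
        linarith
      have h2 : ∑ z ∈ Z, ind (fun z => Near ε z.re) (z * u) =
          ((Z.filter (fun z => Near ε (z * u).re)).card : ℝ) := by
        simp only [ind]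
        rw [Finset.sum_boole]
      have h3 : (Z.filter (fun z => Near ε (z * u).re)).card +
          (Z.filter (fun z => ¬ Near ε (z * u).re)).card = Z.card :=
        Finset.card_filter_add_card_filter_not _
      have h4 : (Z0.filter (fun z => ¬ ∃ v ∈ insert u U, Near ε (z * v).re)) ⊆
          Z.filter (fun z => ¬ Near ε (z * u).re) := by
        intro z hz
        rw [Finset.mem_filter] at hz
        rw [Finset.mem_filter, hZ, Finset.mem_filter]
        refine ⟨⟨hz.1, ?_⟩, ?_⟩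
        · rintro ⟨v, hv, hn⟩
          exact hz.2 ⟨v, Finset.mem_insert_of_mem hv, hn⟩
        · intro hn
          exact hz.2 ⟨u, Finset.mem_insert_self _ _, hn⟩
      have h5 : ((Z0.filter (fun z => ¬ ∃ v ∈ insert u U, Near ε (z * v).re)).card : ℝ) ≤
          ((Z.filter (fun z => ¬ Near ε (z * u).re)).card : ℝ) := by
        exact_mod_cast Finset.card_le_card h4
      have h6 : ((Z.filter (fun z => Near ε (z * u).re)).card : ℝ) +
          ((Z.filter (fun z => ¬ Near ε (z * u).re)).card : ℝ) = Z.card := by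
        exact_mod_cast h3
      rw [h2] at hsum
      have h7 : ((Z.filter (fun z => ¬ Near ε (z * u).re)).card : ℝ) ≤ (1 - η) * Z.card := by
        nlinarith
      have h8 : (1 - η) * (Z.card : ℝ) ≤ (1 - η) * ((1 - η) ^ n * Z0.card) :=
        mul_le_mul_of_nonneg_left hle (by linarith)
      calc _ ≤ _ := h5
        _ ≤ _ := h7
        _ ≤ _ := h8
        _ = _ := by rw [pow_succ]; ring

theorem cell_close {J : ℕ} (hJ : 1 ≤ J) {a b : ℝ}
    (h : ⌊(J : ℝ) * Int.fract a⌋₊ = ⌊(J : ℝ) * Int.fract b⌋₊) :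
    |Int.fract a - Int.fract b| ≤ 1 / J := by
  have hJ0 : (0:ℝ) < J := by exact_mod_cast hJ
  have ha := Int.fract_nonneg a
  have hb := Int.fract_nonneg b
  have h1 := Nat.floor_le (show 0 ≤ (J : ℝ) * Int.fract a by positivity)
  have h2 := Nat.lt_floor_add_one ((J : ℝ) * Int.fract a)
  have h3 := Nat.floor_le (show 0 ≤ (J : ℝ) * Int.fract b by positivity)
  have h4 := Nat.lt_floor_add_one ((J : ℝ) * Int.fract b)
  rw [h] at h1 h2
  rw [le_div_iff₀ hJ0]
  have h5 : |Int.fract a - Int.fract b| * J = |((J : ℝ) * Int.fract a - J * Int.fract b)| := by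
    rw [← mul_sub, abs_mul, abs_of_pos hJ0, mul_comm]
  rw [h5, abs_le]
  constructor <;> linarith

/-- TARGET: greedy covering -/
theorem sampling (ε η : ℝ) (hε : 0 < ε) (hη : 0 < η) (hη1 : η ≤ 1) (W : Set ℂ) (e : Fin 4 → ℂ)
    (B : ℕ) (hB : ∀ u ∈ W, ∃ n : Fin 4 → ℤ, (∀ i, |n i| ≤ B) ∧ u = ∑ i, (n i : ℂ) * e i)
    (T : (ℂ → ℝ) → ℂ → ℝ)
    (hT : ∀ (Z : Finset ℂ) (f : ℂ → ℝ), ∃ u ∈ W, ∑ z ∈ Z, T f z ≤ ∑ z ∈ Z, f (z * u))
    (hit : ∀ z, η ≤ T (ind (fun z => Near ε z.re)) z) (J : ℕ) (hJ1 : 1 ≤ J)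
    (hJ : 4 * (B : ℝ) ≤ ε * J) :
    ∃ U : Finset ℂ, (∀ u ∈ U, u ∈ W) ∧ (U.card : ℝ) ≤ 4 * Real.log J / η + 1 ∧
      ∀ z : ℂ, ∃ u ∈ U, Near (2 * ε) (z * u).re := by
  classical
  have hJ0 : (0:ℝ) < J := by exact_mod_cast hJ1
  have hlt : ∀ (z : ℂ) (i : Fin 4), ⌊(J : ℝ) * Int.fract (z * e i).re⌋₊ < J := by
    intro z i
    rw [Nat.floor_lt' (by omega)]
    have := Int.fract_lt_one (z * e i).re
    nlinarith
  let cell : ℂ → Fin 4 → Fin J := fun z i => ⟨_, hlt z i⟩
  let rep : (Fin 4 → Fin J) → ℂ := fun c => if h : ∃ z, cell z = c then h.choose else 0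
  have hrep : ∀ z, cell (rep (cell z)) = cell z := by
    intro z
    have h : ∃ z', cell z' = cell z := ⟨z, rfl⟩
    simp only [rep, dif_pos h]
    exact h.choose_spec
  let Z0 : Finset ℂ := Finset.univ.image rep
  have hZ0 : (Z0.card : ℝ) ≤ (J : ℝ) ^ 4 := by
    have : Z0.card ≤ Fintype.card (Fin 4 → Fin J) := Finset.card_image_le
    rw [Fintype.card_fun, Fintype.card_fin, Fintype.card_fin] at this
    exact_mod_cast this
  have hlog : 0 ≤ Real.log J := Real.log_nonneg (by exact_mod_cast hJ1)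
  set n := ⌊4 * Real.log J / η⌋₊ + 1 with hn
  have hn1 : 4 * Real.log J / η < n := by
    rw [hn]; push_cast; exact Nat.lt_floor_add_one _
  have hn2 : (n : ℝ) ≤ 4 * Real.log J / η + 1 := by
    rw [hn]; push_cast
    have := Nat.floor_le (show 0 ≤ 4 * Real.log J / η by positivity)
    linarith
  obtain ⟨U, hU, hc, hle⟩ := greedy_step ε η W T hT hit hη1 Z0 n
  have hexp : (1 - η) ^ n ≤ Real.exp (-(η * n)) := by
    have h1 : 1 - η ≤ Real.exp (-η) := by
      have := Real.add_one_le_exp (-η); linarith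
    calc (1 - η) ^ n ≤ (Real.exp (-η)) ^ n := pow_le_pow_left₀ (by linarith) h1 n
      _ = Real.exp (-(η * n)) := by rw [← Real.exp_nat_mul]; congr 1; ring
  have hlt1 : (1 - η) ^ n * (Z0.card : ℝ) < 1 := by
    have h1 : (J : ℝ) ^ 4 = Real.exp (4 * Real.log J) := by
      have : (4 : ℝ) * Real.log J = ((4 : ℕ) : ℝ) * Real.log J := by norm_num
      rw [this, Real.exp_nat_mul, Real.exp_log hJ0]
    have h2 : (1 - η) ^ n * (Z0.card : ℝ) ≤ Real.exp (-(η * n)) * (J : ℝ) ^ 4 :=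
      mul_le_mul hexp hZ0 (by positivity) (Real.exp_nonneg _)
    have h3 : 4 * Real.log J < η * n := by
      rw [div_lt_iff₀ hη] at hn1; linarith
    have h4 : Real.exp (-(η * n)) * (J : ℝ) ^ 4 < 1 := by
      rw [h1, ← Real.exp_add, Real.exp_lt_one_iff]
      linarith
    linarith
  have hempty : Z0.filter (fun z => ¬ ∃ u ∈ U, Near ε (z * u).re) = ∅ := by
    rw [← Finset.card_eq_zero]
    have : ((Z0.filter (fun z => ¬ ∃ u ∈ U, Near ε (z * u).re)).card : ℝ) < 1 := hle.trans_lt hlt1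
    have : (Z0.filter (fun z => ¬ ∃ u ∈ U, Near ε (z * u).re)).card < 1 := by exact_mod_cast this
    omega
  refine ⟨U, hU, (Nat.cast_le.2 hc).trans hn2, ?_⟩
  intro z
  set z' := rep (cell z) with hz'
  have hz'mem : z' ∈ Z0 := Finset.mem_image_of_mem _ (Finset.mem_univ _)
  have hcov : ∃ u ∈ U, Near ε (z' * u).re := by
    by_contra hcon
    have : z' ∈ Z0.filter (fun z => ¬ ∃ u ∈ U, Near ε (z * u).re) :=
      Finset.mem_filter.2 ⟨hz'mem, hcon⟩
    rw [hempty] at this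
    exact absurd this (Finset.notMem_empty _)
  obtain ⟨u, hu, k, hk⟩ := hcov
  refine ⟨u, hu, ?_⟩
  obtain ⟨m, hm, rfl⟩ := hB u (hU u hu)
  have hclose : ∀ i, |Int.fract (z * e i).re - Int.fract (z' * e i).re| ≤ 1 / J := by
    intro i
    apply cell_close hJ1
    have := congrFun (hrep z) i
    exact (congrArg Fin.val this).symm
  have hre : ∀ w : ℂ, (w * ∑ i, (m i : ℂ) * e i).re = ∑ i, (m i : ℝ) * (w * e i).re := by
    intro w
    rw [Finset.mul_sum, Complex.re_sum]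
    apply Finset.sum_congr rfl
    intro i _
    have : w * ((m i : ℂ) * e i) = ((m i : ℝ) : ℂ) * (w * e i) := by push_cast; ring
    rw [this, Complex.re_ofReal_mul]
  rw [hre] at hk ⊢
  refine ⟨k + ∑ i, m i * (⌊(z * e i).re⌋ - ⌊(z' * e i).re⌋), ?_⟩
  have hdiff : ∑ i, (m i : ℝ) * (z * e i).re -
      ((k + ∑ i, m i * (⌊(z * e i).re⌋ - ⌊(z' * e i).re⌋) : ℤ) : ℝ) =
      (∑ i, (m i : ℝ) * (z' * e i).re - k) +
      ∑ i, (m i : ℝ) * (Int.fract (z * e i).re - Int.fract (z' * e i).re) := by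
    push_cast
    simp only [Int.fract, mul_sub, Finset.sum_sub_distrib]
    ring
  rw [hdiff]
  refine (abs_add_le _ _).trans ?_
  have hs : |∑ i, (m i : ℝ) * (Int.fract (z * e i).re - Int.fract (z' * e i).re)| ≤ 4 * (B / J) := by
    refine (Finset.abs_sum_le_sum_abs _ _).trans ?_
    calc ∑ i, |(m i : ℝ) * (Int.fract (z * e i).re - Int.fract (z' * e i).re)|
        ≤ ∑ _i : Fin 4, ((B : ℝ) / J) := by
          apply Finset.sum_le_sum
          intro i _
          rw [abs_mul]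
          have h1 : |(m i : ℝ)| ≤ B := by exact_mod_cast hm i
          calc _ ≤ (B : ℝ) * (1 / J) := mul_le_mul h1 (hclose i) (abs_nonneg _) (by positivity)
            _ = B / J := by ring
      _ = 4 * (B / J) := by simp
  have h4 : 4 * ((B : ℝ) / J) ≤ ε := by
    rw [← mul_div_assoc, div_le_iff₀ hJ0]; exact hJ
  linarith

end MJ18
export MJ18 (sampling)
end Pyj
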