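import Mathlib
import Pool.Agent.Pyj.Defs2
set_option autoImplicit false
set_option maxHeartbeats 4000000

namespace Pyj
open Finset ComplexConjugate
namespace MJ19
theorem VV_one (R1 R2 : ℕ) (D1 D2 : ℂ) : (1 : ℂ) ∈ VV R1 R2 D1 D2 0 :=
  ⟨norm_one, 1, one_mem _, 1, one_mem _, by simp⟩

theorem VV_zero (R1 R2 : ℕ) (D1 D2 : ℂ) (i : ℕ) : (0 : ℂ) ∉ VV R1 R2 D1 D2 i := by
  intro h
  have := h.1
  rw [norm_zero] at this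
  exact zero_ne_one this

theorem VV_mul (R1 R2 : ℕ) (D1 D2 : ℂ) (i j : ℕ) (u v : ℂ) (hu : u ∈ VV R1 R2 D1 D2 i)
    (hv : v ∈ VV R1 R2 D1 D2 j) : u * v ∈ VV R1 R2 D1 D2 (i + j) := by
  obtain ⟨hu1, Y1, hY1, Y2, hY2, hu2⟩ := hu
  obtain ⟨hv1, Z1, hZ1, Z2, hZ2, hv2⟩ := hv
  refine ⟨by rw [norm_mul, hu1, hv1, one_mul], Y1 * Z1, mul_mem hY1 hZ1, Y2 * Z2,
    mul_mem hY2 hZ2, ?_⟩
  rw [pow_add]
  linear_combination ((D1 * D2) ^ j * v) * hu2 + (Y1 * Y2) * hv2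

theorem VV_mono (R1 R2 : ℕ) (D1 D2 : ℂ) (hD1 : D1 ∈ OO R1) (hD2 : D2 ∈ OO R2) (i j : ℕ)
    (hij : i ≤ j) : VV R1 R2 D1 D2 i ⊆ VV R1 R2 D1 D2 j := by
  rintro u ⟨hu1, Y1, hY1, Y2, hY2, hu2⟩
  obtain ⟨k, rfl⟩ := Nat.exists_eq_add_of_le hij
  refine ⟨hu1, D1 ^ k * Y1, mul_mem (pow_mem hD1 k) hY1, D2 ^ k * Y2,
    mul_mem (pow_mem hD2 k) hY2, ?_⟩
  rw [pow_add, mul_pow D1 D2 k]
  linear_combination (D1 ^ k * D2 ^ k) * hu2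

theorem VV_fam1 (R1 R2 : ℕ) (D1 D2 : ℂ) (hD2 : D2 ∈ OO R2) (u : ℂ) (hu : ‖u‖ = 1)
    (h : D1 * u ∈ OO R1) : u ∈ VV R1 R2 D1 D2 1 :=
  ⟨hu, D1 * u, h, D2, hD2, by ring⟩

theorem VV_fam2 (R1 R2 : ℕ) (D1 D2 : ℂ) (hD1 : D1 ∈ OO R1) (u : ℂ) (hu : ‖u‖ = 1)
    (h : D2 * u ∈ OO R2) : u ∈ VV R1 R2 D1 D2 1 :=
  ⟨hu, D1, hD1, D2 * u, h, by ring⟩

theorem VV_coef_sqrt (R : ℕ) (hR : 1 ≤ R) :
    Real.sqrt (4 * R - 1) * Real.sqrt (4 * R - 1) = 4 * R - 1 := by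
  apply Real.mul_self_sqrt
  have : (1 : ℝ) ≤ R := by exact_mod_cast hR
  linarith

theorem VV_coef_om (R : ℕ) (hR : 1 ≤ R) : om R * om R = om R - R := by
  have hs := VV_coef_sqrt R hR
  apply Complex.ext
  · simp [om]; nlinarith
  · simp [om]; ring

theorem VV_coef_rep (R : ℕ) (hR : 1 ≤ R) (x : ℂ) (hx : x ∈ OO R) :
    ∃ a b : ℤ, x = a + b * om R := by
  have hom := VV_coef_om R hR
  refine Subring.closure_induction (p := fun x _ => ∃ a b : ℤ, x = a + b * om R)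
    ?_ ?_ ?_ ?_ ?_ ?_ hx
  · intro y hy
    rw [Set.mem_singleton_iff] at hy
    exact ⟨0, 1, by rw [hy]; push_cast; ring⟩
  · exact ⟨0, 0, by push_cast; ring⟩
  · exact ⟨1, 0, by push_cast; ring⟩
  · rintro y z _ _ ⟨a, b, hy⟩ ⟨c, d, hz⟩
    exact ⟨a + c, b + d, by rw [hy, hz]; push_cast; ring⟩
  · rintro y _ ⟨a, b, hy⟩
    exact ⟨-a, -b, by rw [hy]; push_cast; ring⟩
  · rintro y z _ _ ⟨a, b, hy⟩ ⟨c, d, hz⟩
    refine ⟨a * c - b * d * R, a * d + b * c + b * d, ?_⟩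
    rw [hy, hz]
    push_cast
    linear_combination (b * d : ℂ) * hom

theorem VV_coef_re (R : ℕ) (a b : ℤ) : ((a : ℂ) + b * om R).re = a + b / 2 := by
  simp [om]; ring

theorem VV_coef_im (R : ℕ) (a b : ℤ) :
    ((a : ℂ) + b * om R).im = b * Real.sqrt (4 * R - 1) / 2 := by
  simp [om]; ring

theorem VV_coef_nsq (R : ℕ) (hR : 1 ≤ R) (a b : ℤ) :
    ‖(a : ℂ) + b * om R‖ ^ 2 = ((a ^ 2 + a * b + R * b ^ 2 : ℤ) : ℝ) := by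
  have hs := VV_coef_sqrt R hR
  rw [← Complex.normSq_eq_norm_sq, Complex.normSq_apply, VV_coef_re, VV_coef_im]
  push_cast
  linear_combination ((b : ℝ) ^ 2 / 4) * hs

theorem VV_coef_one_le (R : ℕ) (hR : 1 ≤ R) (a b : ℤ) (h : (a : ℂ) + b * om R ≠ 0) :
    1 ≤ ‖(a : ℂ) + b * om R‖ := by
  have h1 := VV_coef_nsq R hR a b
  have h2 : 0 < ‖(a : ℂ) + b * om R‖ := norm_pos_iff.2 h
  have h3 : 0 < ((a ^ 2 + a * b + R * b ^ 2 : ℤ) : ℝ) := by rw [← h1]; positivity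
  have h4 : 0 < a ^ 2 + a * b + R * b ^ 2 := by exact_mod_cast h3
  have h5 : (1 : ℝ) ≤ ((a ^ 2 + a * b + R * b ^ 2 : ℤ) : ℝ) := by exact_mod_cast h4
  rw [← h1] at h5
  by_contra hcon
  push Not at hcon
  nlinarith

theorem VV_coef_bd (R : ℕ) (hR : 2 ≤ R) (a b : ℤ) (Δ : ℝ) (h : ‖(a : ℂ) + b * om R‖ ≤ Δ) :
    |(a : ℝ)| ≤ 2 * Δ ∧ |(b : ℝ)| ≤ Δ := by
  have hR' : (2 : ℝ) ≤ R := by exact_mod_cast hR
  have h1 := (Complex.abs_re_le_norm ((a : ℂ) + b * om R)).trans h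
  have h2 := (Complex.abs_im_le_norm ((a : ℂ) + b * om R)).trans h
  rw [VV_coef_re] at h1
  rw [VV_coef_im] at h2
  have h3 : (2 : ℝ) ≤ Real.sqrt (4 * R - 1) := by
    apply Real.le_sqrt_of_sq_le
    linarith
  have hb : |(b : ℝ)| ≤ Δ := by
    refine le_trans ?_ h2
    rw [mul_div_assoc, abs_mul]
    have h4 : (1 : ℝ) ≤ |Real.sqrt (4 * R - 1) / 2| := by
      rw [abs_of_nonneg (by positivity)]
      linarith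
    nlinarith [abs_nonneg (b : ℝ)]
  refine ⟨?_, hb⟩
  rw [abs_le] at h1 hb ⊢
  have hΔ : 0 ≤ Δ := (norm_nonneg _).trans h
  constructor
  · linarith [h1.1, hb.2]
  · linarith [h1.2, hb.1]

theorem VV_coef (R1 R2 : ℕ) (hR1 : 2 ≤ R1) (hR2 : 2 ≤ R2) (D1 D2 : ℂ) (hD1 : D1 ≠ 0)
    (hD2 : D2 ≠ 0) (N B : ℕ) (hB : 4 * (‖D1‖ * ‖D2‖) ^ (2 * N) ≤ B) :
    ∀ u ∈ VV R1 R2 D1 D2 N, ∃ n : Fin 4 → ℤ, (∀ i, |n i| ≤ B) ∧
      u = ∑ i, (n i : ℂ) * (![1 / (D1 * D2) ^ N, om R1 / (D1 * D2) ^ N, om R2 / (D1 * D2) ^ N,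
        om R1 * om R2 / (D1 * D2) ^ N] : Fin 4 → ℂ) i := by
  rintro u ⟨hu1, Y1, hY1, Y2, hY2, hu2⟩
  obtain ⟨a1, b1, h1⟩ := VV_coef_rep R1 (by omega) Y1 hY1
  obtain ⟨a2, b2, h2⟩ := VV_coef_rep R2 (by omega) Y2 hY2
  have hD : (D1 * D2) ^ N ≠ 0 := pow_ne_zero _ (mul_ne_zero hD1 hD2)
  have hu0 : u ≠ 0 := by
    intro h
    rw [h, norm_zero] at hu1
    exact zero_ne_one hu1
  have hY0 : Y1 * Y2 ≠ 0 := by
    rw [← hu2]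
    exact mul_ne_zero hD hu0
  have hn : ‖Y1‖ * ‖Y2‖ = (‖D1‖ * ‖D2‖) ^ N := by
    rw [← norm_mul, ← hu2, norm_mul, hu1, mul_one, norm_pow, norm_mul]
  have hY1n : 1 ≤ ‖Y1‖ := by
    rw [h1]
    apply VV_coef_one_le R1 (by omega)
    rw [← h1]
    exact left_ne_zero_of_mul hY0
  have hY2n : 1 ≤ ‖Y2‖ := by
    rw [h2]
    apply VV_coef_one_le R2 (by omega)
    rw [← h2]
    exact right_ne_zero_of_mul hY0
  obtain ⟨Δ, hΔ⟩ : ∃ Δ : ℝ, Δ = (‖D1‖ * ‖D2‖) ^ N := ⟨_, rfl⟩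
  have hY1Δ : ‖Y1‖ ≤ Δ := by rw [hΔ, ← hn]; nlinarith
  have hY2Δ : ‖Y2‖ ≤ Δ := by rw [hΔ, ← hn]; nlinarith
  have hΔ1 : 1 ≤ Δ := hY1n.trans hY1Δ
  have hΔB : 4 * Δ ^ 2 ≤ B := by
    rw [hΔ, ← pow_mul, mul_comm N 2]
    exact hB
  rw [h1] at hY1Δ
  rw [h2] at hY2Δ
  obtain ⟨ha1, hb1⟩ := VV_coef_bd R1 hR1 a1 b1 Δ hY1Δ
  obtain ⟨ha2, hb2⟩ := VV_coef_bd R2 hR2 a2 b2 Δ hY2Δ
  have key : ∀ x y : ℤ, |(x : ℝ)| ≤ 2 * Δ → |(y : ℝ)| ≤ 2 * Δ → |x * y| ≤ (B : ℤ) := by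
    intro x y hx hy
    have h3 : |((x * y : ℤ) : ℝ)| ≤ (B : ℝ) := by
      push_cast
      rw [abs_mul]
      refine le_trans (mul_le_mul hx hy (abs_nonneg _) (by linarith)) ?_
      refine le_trans (le_of_eq ?_) hΔB
      ring
    exact_mod_cast h3
  refine ⟨![a1 * a2, b1 * a2, a1 * b2, b1 * b2], ?_, ?_⟩
  · intro i
    fin_cases i
    · exact key a1 a2 ha1 ha2
    · exact key b1 a2 (by linarith) ha2
    · exact key a1 b2 ha1 (by linarith)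
    · exact key b1 b2 (by linarith) (by linarith)
  · have h4 : u = Y1 * Y2 / (D1 * D2) ^ N := by
      rw [← hu2, mul_div_cancel_left₀ _ hD]
    rw [h4, h1, h2, Fin.sum_univ_four]
    simp only [Matrix.cons_val_zero, Matrix.cons_val_one, Matrix.cons_val]
    push_cast
    field_simp
    ring

end MJ19
export MJ19 (VV_one VV_zero VV_mul VV_mono VV_fam1 VV_fam2 VV_coef)
end Pyj
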