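import Mathlib
import Pool.Agent.Pyj.Defs2
import Pool.Agent.Pyj.J17
import Pool.Agent.Pyj.J18
import Pool.Agent.Pyj.J19
set_option autoImplicit false
set_option maxHeartbeats 4000000

namespace Pyj
open Finset ComplexConjugate
namespace MJ20
/-- TARGET (everything above is GIVEN, leave the sorries) -/
theorem global_cover (R1 R2 : ℕ) (hR1 : 2 ≤ R1) (hR2 : 2 ≤ R2) (D1 D2 : ℂ) (hD1 : D1 ∈ OO R1)
    (hD2 : D2 ∈ OO R2) (hD10 : D1 ≠ 0) (hD20 : D2 ≠ 0) (f1 f2 : List (Multiset ℂ))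
    (hne1 : ∀ l ∈ f1, l ≠ 0) (hne2 : ∀ l ∈ f2, l ≠ 0)
    (hf1 : ∀ l ∈ f1, ∀ u ∈ l, ‖u‖ = 1 ∧ D1 * u ∈ OO R1)
    (hf2 : ∀ l ∈ f2, ∀ u ∈ l, ‖u‖ = 1 ∧ D2 * u ∈ OO R2)
    (ε η θ : ℝ) (hε : 0 < ε) (hη : 0 < η) (hη1 : η ≤ 1) (L : ℕ) (hL : 1 ≤ L) (hθ : 1 / L ≤ θ)
    (hcore : ∀ Λ : (ℂ → ℝ) → ℝ, IsMean Λ → (∀ l ∈ f1 ++ f2, NearInv θ Λ l) →
      η ≤ Λ (ind (fun z => Near ε z.re)))
    (J : ℕ) (hJ1 : 1 ≤ J)
    (hJ : 4 * (4 * (‖D1‖ * ‖D2‖) ^ (2 * ((f1 ++ f2).length * L)) + 1) ≤ ε * J) :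
    ∃ U : Finset ℂ, (∀ u ∈ U, ‖u‖ = 1) ∧ (U.card : ℝ) ≤ 4 * Real.log J / η + 1 ∧
      ∀ z : ℂ, ∃ u ∈ U, Near (2 * ε) (z * u).re := by
  classical
  have hne : ∀ l ∈ f1 ++ f2, l ≠ 0 := by
    intro l hl
    rcases List.mem_append.1 hl with h | h
    · exact hne1 l h
    · exact hne2 l h
  have hV : ∀ l ∈ f1 ++ f2, ∀ u ∈ l, u ∈ VV R1 R2 D1 D2 1 := by
    intro l hl u hu
    rcases List.mem_append.1 hl with h | h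
    · exact VV_fam1 R1 R2 D1 D2 hD2 u (hf1 l h u hu).1 (hf1 l h u hu).2
    · exact VV_fam2 R1 R2 D1 D2 hD1 u (hf2 l h u hu).1 (hf2 l h u hu).2
  obtain ⟨T, hmean, hnear, hsum⟩ := walk (VV R1 R2 D1 D2) (VV_one R1 R2 D1 D2)
    (VV_zero R1 R2 D1 D2) (fun i j u v hu hv => VV_mul R1 R2 D1 D2 i j u v hu hv)
    (fun i j hij => VV_mono R1 R2 D1 D2 hD1 hD2 i j hij) (f1 ++ f2) hne hV L hL
  have hit : ∀ z, η ≤ T (ind (fun z => Near ε z.re)) z := by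
    intro z
    have := hcore (fun h => T h z) (hmean z) (by
      intro l hl h B hB
      have h1 := hnear l hl z h B hB
      have hB0 : 0 ≤ B := le_trans (hB 0).1 (hB 0).2
      exact h1.trans (mul_le_mul_of_nonneg_right hθ hB0))
    exact this
  set N := (f1 ++ f2).length * L with hN
  set X : ℝ := 4 * (‖D1‖ * ‖D2‖) ^ (2 * N) with hX
  have hX0 : 0 ≤ X := by positivity
  have hceil : (⌈X⌉₊ : ℝ) < X + 1 := Nat.ceil_lt_add_one hX0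
  have hJ' : 4 * ((⌈X⌉₊ : ℕ) : ℝ) ≤ ε * J := by linarith
  obtain ⟨U, hU1, hU2, hU3⟩ := sampling ε η hε hη hη1 (VV R1 R2 D1 D2 N) _ ⌈X⌉₊
    (VV_coef R1 R2 hR1 hR2 D1 D2 hD10 hD20 N ⌈X⌉₊ (Nat.le_ceil X)) T hsum hit J hJ1 hJ'
  exact ⟨U, fun u hu => (hU1 u hu).1, hU2, hU3⟩

end MJ20
export MJ20 (global_cover)
end Pyj
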