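import Mathlib
import Pool.Agent.Pyj.Defs2
set_option autoImplicit false
set_option maxHeartbeats 4000000

namespace Pyj
open Finset ComplexConjugate
namespace MJ5
lemma v2_11071 (n : ℕ) (h : n % 4 = 2) : padicValNat 2 n = 1 := by
  obtain ⟨k, hk⟩ : ∃ k, n = 2 * (2 * k + 1) := ⟨n / 4, by omega⟩
  rw [hk, padicValNat.mul (by norm_num) (by omega), padicValNat.self (by norm_num),
    padicValNat.eq_zero_of_not_dvd (by omega)]

lemma val_11071 (R m p : ℕ) (h4 : 4 ∣ R) (hR : 0 < R) (hm : m ≠ 0) (hp : p.Prime) (hpR : p ∣ R) :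
    padicValNat p ((1 + R) ^ m - 1) = padicValNat p R + padicValNat p m := by
  have hpx : ¬ p ∣ 1 + R := by
    intro h
    have h1 : p ∣ 1 := (Nat.dvd_add_left hpR).mp h
    exact hp.one_lt.ne' (Nat.dvd_one.mp h1)
  have hsub : 1 + R - 1 = R := by omega
  rcases hp.eq_two_or_odd' with rfl | hodd
  · have h1 := padicValNat.pow_two_sub_pow (x := 1 + R) (y := 1) (by omega) (by rwa [hsub]) hpx
      (n := 2 * m) (by omega) (even_two_mul m)
    rw [one_pow, hsub] at h1
    have h2 : (1 + R) ^ (2 * m) - 1 = ((1 + R) ^ m - 1) * ((1 + R) ^ m + 1) := by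
      have h3 : 1 ≤ (1 + R) ^ m := Nat.one_le_pow _ _ (by omega)
      obtain ⟨x, hx⟩ : ∃ x, (1 + R) ^ m = x + 1 := ⟨(1 + R) ^ m - 1, by omega⟩
      rw [mul_comm 2 m, pow_mul, hx]
      have : (x + 1) ^ 2 = x * (x + 1 + 1) + 1 := by ring
      rw [this]
      simp
    have hmod : (1 + R) ^ m % 4 = 1 := by
      have h5 : (1 + R) % 4 = 1 := by omega
      simp [Nat.pow_mod, h5]
    have h6 : padicValNat 2 ((1 + R) ^ m + 1) = 1 := v2_11071 _ (by omega)
    have h7 : padicValNat 2 (1 + R + 1) = 1 := v2_11071 _ (by omega)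
    have h8 : 1 < (1 + R) ^ m := Nat.one_lt_pow hm (by omega)
    rw [h2, padicValNat.mul (by omega) (by omega), h6, h7,
      padicValNat.mul (by norm_num) hm, padicValNat.self (by norm_num)] at h1
    omega
  · haveI := Fact.mk hp
    have h1 := padicValNat.pow_sub_pow hodd (x := 1 + R) (y := 1) (by omega) (by rwa [hsub]) hpx
      (n := m) hm
    rw [one_pow, hsub] at h1
    exact h1

lemma core_11071 (R E m : ℕ) (h4 : 4 ∣ R) (hR : 0 < R) (hE : 3 ≤ E)
    (hm : m < R ^ (E - 2)) (h : R ^ (E - 1) ∣ (1 + R) ^ m - 1) : m = 0 := by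
  by_contra hm0
  have hd : R ^ (E - 2) ∣ m := by
    rw [← Nat.factorization_prime_le_iff_dvd (pow_ne_zero _ hR.ne') hm0]
    intro p hp
    by_cases hpR : p ∣ R
    · haveI := Fact.mk hp
      have h8 : 1 < (1 + R) ^ m := Nat.one_lt_pow hm0 (by omega)
      have h1 := (Nat.factorization_prime_le_iff_dvd (pow_ne_zero _ hR.ne')
        (by omega : (1 + R) ^ m - 1 ≠ 0)).mpr h p hp
      rw [Nat.factorization_pow] at h1 ⊢
      simp only [Finsupp.smul_apply, smul_eq_mul] at h1 ⊢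
      rw [Nat.factorization_def _ hp, Nat.factorization_def _ hp] at h1 ⊢
      rw [val_11071 R m p h4 hR hm0 hp hpR] at h1
      have h2 : (E - 1) * padicValNat p R = (E - 2) * padicValNat p R + padicValNat p R := by
        have : E - 1 = (E - 2) + 1 := by omega
        rw [this]
        ring
      omega
    · rw [Nat.factorization_pow]
      simp only [Finsupp.smul_apply, smul_eq_mul]
      rw [Nat.factorization_eq_zero_of_not_dvd hpR]
      simp
  exact absurd (Nat.le_of_dvd (Nat.pos_of_ne_zero hm0) hd) (not_le.mpr hm)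

lemma half_11071 (R E a b : ℕ) (h4 : 4 ∣ R) (hR : 0 < R) (hE : 3 ≤ E)
    (ha : a < R ^ (E - 2)) (hab : b ≤ a)
    (h : (R : ℤ) ^ (E - 1) ∣ (1 + (R : ℤ)) ^ a - (1 + (R : ℤ)) ^ b) : a = b := by
  have h1 : (1 + (R : ℤ)) ^ a - (1 + (R : ℤ)) ^ b =
      (1 + (R : ℤ)) ^ b * ((1 + (R : ℤ)) ^ (a - b) - 1) := by
    rw [mul_sub, ← pow_add, mul_one]
    congr 2
    omega
  rw [h1] at h
  have hc : IsCoprime ((R : ℤ) ^ (E - 1)) ((1 + (R : ℤ)) ^ b) := by
    apply IsCoprime.pow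
    exact ⟨-1, 1, by ring⟩
  have h2 := hc.dvd_of_dvd_mul_left h
  have h3 : R ^ (E - 1) ∣ (1 + R) ^ (a - b) - 1 := by
    have h4 : 1 ≤ (1 + R) ^ (a - b) := Nat.one_le_pow _ _ (by omega)
    rw [← Int.natCast_dvd_natCast]
    push_cast [Nat.cast_sub h4]
    exact h2
  have h5 := core_11071 R E (a - b) h4 hR hE (by omega) h3
  omega

theorem lte_R (R E a b : ℕ) (h4 : 4 ∣ R) (hR : 0 < R) (hE : 3 ≤ E)
    (ha : a < R ^ (E - 2)) (hb : b < R ^ (E - 2))
    (h : (R : ℤ) ^ (E - 1) ∣ (1 + (R : ℤ)) ^ a - (1 + (R : ℤ)) ^ b) : a = b := by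
  rcases le_total b a with hab | hab
  · exact half_11071 R E a b h4 hR hE ha hab h
  · refine (half_11071 R E b a h4 hR hE hb hab ?_).symm
    have := (dvd_neg.mpr h)
    rwa [neg_sub] at this

end MJ5
export MJ5 (lte_R)
end Pyj
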