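import Mathlib
import Pool.Agent.Pyj.Defs2
import Pool.Agent.Pyj.J5
set_option autoImplicit false
set_option maxHeartbeats 4000000

namespace Pyj
open Finset ComplexConjugate
namespace MJ6
theorem J6_re (R : ℕ) : (om R).re = 1 / 2 := rfl

theorem J6_im (R : ℕ) : (om R).im = Real.sqrt (4 * R - 1) / 2 := rfl

theorem J6_impos (R : ℕ) (hR : 1 ≤ R) : 0 < Real.sqrt (4 * R - 1) := by
  have : (1 : ℝ) ≤ R := by exact_mod_cast hR
  exact Real.sqrt_pos.2 (by linarith)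

theorem J6_sq (R : ℕ) (hR : 1 ≤ R) : Real.sqrt (4 * R - 1) * Real.sqrt (4 * R - 1) = 4 * R - 1 := by
  have : (1 : ℝ) ≤ R := by exact_mod_cast hR
  exact Real.mul_self_sqrt (by linarith)

theorem J6_add (R : ℕ) : om R + conj (om R) = 1 := by
  apply Complex.ext
  · simp [J6_re]; norm_num
  · simp

theorem J6_conj (R : ℕ) : conj (om R) = 1 - om R := by
  rw [← J6_add R]; ring

theorem J6_mul (R : ℕ) (hR : 1 ≤ R) : om R * conj (om R) = R := by
  have h := J6_sq R hR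
  apply Complex.ext
  · simp only [Complex.mul_re, Complex.conj_re, Complex.conj_im, J6_re, J6_im, Complex.natCast_re]
    nlinarith
  · simp only [Complex.mul_im, Complex.conj_re, Complex.conj_im, J6_re, J6_im, Complex.natCast_im]
    ring

theorem J6_omsq (R : ℕ) (hR : 1 ≤ R) : om R * om R = om R - R := by
  have h := J6_mul R hR
  rw [J6_conj] at h
  linear_combination -h

theorem J6_om_mem (R : ℕ) : om R ∈ OO R := Subring.subset_closure rfl

theorem J6_mem (R : ℕ) (hR : 1 ≤ R) (x : ℂ) (hx : x ∈ OO R) :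
    ∃ a b : ℤ, x = a + b * om R := by
  have hsq := J6_omsq R hR
  refine Subring.closure_induction (p := fun x _ => ∃ a b : ℤ, x = a + b * om R)
    ?_ ?_ ?_ ?_ ?_ ?_ hx
  · intro x hx
    rw [Set.mem_singleton_iff] at hx
    exact ⟨0, 1, by rw [hx]; simp⟩
  · exact ⟨0, 0, by simp⟩
  · exact ⟨1, 0, by simp⟩
  · rintro x y _ _ ⟨a, b, rfl⟩ ⟨c, d, rfl⟩
    exact ⟨a + c, b + d, by push_cast; ring⟩
  · rintro x _ ⟨a, b, rfl⟩
    exact ⟨-a, -b, by push_cast; ring⟩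
  · rintro x y _ _ ⟨a, b, rfl⟩ ⟨c, d, rfl⟩
    refine ⟨a * c - b * d * R, a * d + b * c + b * d, ?_⟩
    push_cast
    linear_combination (b : ℂ) * d * hsq

theorem J6_int (R : ℕ) (a : ℤ) : (a : ℂ) ∈ OO R := intCast_mem _ a

theorem J6_lin (R : ℕ) (a b : ℤ) : (a : ℂ) + b * om R ∈ OO R :=
  add_mem (J6_int R a) (mul_mem (J6_int R b) (J6_om_mem R))

theorem J6_conj_om_mem (R : ℕ) : conj (om R) ∈ OO R := by
  rw [J6_conj]
  exact sub_mem (one_mem _) (J6_om_mem R)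

theorem J6_conj_mem (R : ℕ) (hR : 1 ≤ R) (x : ℂ) (hx : x ∈ OO R) : conj x ∈ OO R := by
  obtain ⟨a, b, rfl⟩ := J6_mem R hR x hx
  rw [map_add, map_mul, map_intCast, map_intCast]
  exact add_mem (J6_int R a) (mul_mem (J6_int R b) (J6_conj_om_mem R))

theorem J6_coprime (R E : ℕ) :
    ∃ u ∈ OO R, ∃ v ∈ OO R, u * om R ^ E + v * conj (om R) ^ E = 1 := by
  have h : IsCoprime (⟨om R, J6_om_mem R⟩ : OO R) ⟨conj (om R), J6_conj_om_mem R⟩ := by
    refine ⟨1, 1, ?_⟩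
    apply Subtype.ext
    simp only [one_mul]
    exact J6_add R
  obtain ⟨u, v, huv⟩ := h.pow (m := E) (n := E)
  refine ⟨u, u.2, v, v.2, ?_⟩
  have := congrArg (fun z : OO R => (z : ℂ)) huv
  simpa using this

theorem J6_norm_om (R : ℕ) (hR : 1 ≤ R) : ‖om R‖ ^ 2 = R := by
  have h := J6_mul R hR
  rw [Complex.mul_conj] at h
  rw [← Complex.normSq_eq_norm_sq]
  exact_mod_cast h

theorem J6_norm_ge (R : ℕ) (hR : 1 ≤ R) (x : ℂ) (hx : x ∈ OO R) (h0 : x ≠ 0) : 1 ≤ ‖x‖ := by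
  obtain ⟨a, b, rfl⟩ := J6_mem R hR x hx
  have hs := J6_sq R hR
  have h1 : ‖(a : ℂ) + b * om R‖ ^ 2 = ((a ^ 2 + a * b + R * b ^ 2 : ℤ) : ℝ) := by
    rw [← Complex.normSq_eq_norm_sq, Complex.normSq_apply]
    simp only [Complex.add_re, Complex.add_im, Complex.mul_re, Complex.mul_im, Complex.intCast_re,
      Complex.intCast_im, J6_re, J6_im]
    push_cast
    linear_combination ((b : ℝ) ^ 2 / 4) * hs
  have h2 : 0 < ‖(a : ℂ) + b * om R‖ ^ 2 := by positivity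
  rw [h1] at h2
  have h3 : (0 : ℤ) < a ^ 2 + a * b + R * b ^ 2 := by exact_mod_cast h2
  have h4 : (1 : ℤ) ≤ a ^ 2 + a * b + R * b ^ 2 := by omega
  have h5 : (1 : ℝ) ≤ ((a ^ 2 + a * b + R * b ^ 2 : ℤ) : ℝ) := by exact_mod_cast h4
  rw [← h1] at h5
  nlinarith [norm_nonneg ((a : ℂ) + b * om R)]

/-- TARGET 1 -/
theorem exists_y (R E : ℕ) (hR : 4 ≤ R) (hE : 1 ≤ E) (c : ℤ) :
    ∃ y ∈ OO R, y ≠ 0 ∧ ‖y‖ ≤ (R : ℝ) ^ (E + 1) ∧
      (∃ x ∈ OO R, y - c = conj (om R) ^ E * x) ∧ (∃ x ∈ OO R, y - 1 = om R ^ E * x) := by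
  have hR1 : 1 ≤ R := by omega
  have hR4 : (4 : ℝ) ≤ R := by exact_mod_cast hR
  obtain ⟨u, hu, v, hv, huv⟩ := J6_coprime R E
  have hy0 : 1 + ((c : ℂ) - 1) * (u * om R ^ E) ∈ OO R :=
    add_mem (one_mem _) (mul_mem (sub_mem (J6_int R c) (one_mem _))
      (mul_mem hu (pow_mem (J6_om_mem R) E)))
  obtain ⟨a, b, hab⟩ := J6_mem R hR1 _ hy0
  have hRE : (0 : ℤ) < (R : ℤ) ^ E := by positivity
  have hmulE : om R ^ E * conj (om R) ^ E = (R : ℂ) ^ E := by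
    rw [← mul_pow, J6_mul R hR1]
  have ha := Int.emod_add_mul_ediv a ((R : ℤ) ^ E)
  have hb := Int.emod_add_mul_ediv b ((R : ℤ) ^ E)
  have ha0 := Int.emod_nonneg a hRE.ne'
  have hb0 := Int.emod_nonneg b hRE.ne'
  have ha1 := Int.emod_lt_of_pos a hRE
  have hb1 := Int.emod_lt_of_pos b hRE
  set a' : ℤ := a % (R : ℤ) ^ E with ha'
  set b' : ℤ := b % (R : ℤ) ^ E with hb'
  set qa : ℤ := a / (R : ℤ) ^ E with hqa
  set qb : ℤ := b / (R : ℤ) ^ E with hqb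
  have haC : (a : ℂ) = a' + (R : ℂ) ^ E * qa := by
    rw [← ha]; push_cast; ring
  have hbC : (b : ℂ) = b' + (R : ℂ) ^ E * qb := by
    rw [← hb]; push_cast; ring
  have hq : ((qa : ℂ) + qb * om R) ∈ OO R := J6_lin R qa qb
  have hx1 : ((a' : ℂ) + b' * om R) - 1 =
      om R ^ E * (((c : ℂ) - 1) * u - conj (om R) ^ E * ((qa : ℂ) + qb * om R)) := by
    linear_combination -hab - haC - (om R) * hbC + ((qa : ℂ) + qb * om R) * hmulE
  have hx2 : ((a' : ℂ) + b' * om R) - c =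
      conj (om R) ^ E * (-((c : ℂ) - 1) * v - om R ^ E * ((qa : ℂ) + qb * om R)) := by
    linear_combination -hab - haC - (om R) * hbC + ((qa : ℂ) + qb * om R) * hmulE
      + ((c : ℂ) - 1) * huv
  refine ⟨(a' : ℂ) + b' * om R, J6_lin R a' b', ?_, ?_, ⟨_, ?_, hx2⟩, ⟨_, ?_, hx1⟩⟩
  · intro h0
    rw [h0] at hx1
    set x : ℂ := (((c : ℂ) - 1) * u - conj (om R) ^ E * ((qa : ℂ) + qb * om R)) with hx
    have hxm : x ∈ OO R := sub_mem (mul_mem (sub_mem (J6_int R c) (one_mem _)) hu)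
      (mul_mem (pow_mem (J6_conj_om_mem R) E) hq)
    have hx0 : x ≠ 0 := by
      intro h
      rw [h] at hx1
      norm_num at hx1
    have h1 := J6_norm_ge R hR1 x hxm hx0
    have h2 := congrArg norm hx1
    rw [norm_mul, norm_pow] at h2
    have h3 : ‖(0 : ℂ) - 1‖ = 1 := by simp
    rw [h3] at h2
    have h4 := J6_norm_om R hR1
    have h5 : 2 ≤ ‖om R‖ := by nlinarith [norm_nonneg (om R)]
    have h6 : (2 : ℝ) ^ 1 ≤ ‖om R‖ ^ E := by
      calc (2 : ℝ) ^ 1 ≤ 2 ^ E := pow_le_pow_right₀ (by norm_num) hE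
        _ ≤ _ := pow_le_pow_left₀ (by norm_num) h5 E
    nlinarith
  · have h1 : ‖(a' : ℂ) + b' * om R‖ ≤ (R : ℝ) ^ E + (R : ℝ) ^ E * ‖om R‖ := by
      refine (norm_add_le _ _).trans ?_
      rw [norm_mul, Complex.norm_intCast, Complex.norm_intCast]
      have h2 : |(a' : ℝ)| ≤ (R : ℝ) ^ E := by
        rw [abs_of_nonneg (by exact_mod_cast ha0)]
        exact_mod_cast ha1.le
      have h3 : |(b' : ℝ)| ≤ (R : ℝ) ^ E := by
        rw [abs_of_nonneg (by exact_mod_cast hb0)]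
        exact_mod_cast hb1.le
      gcongr
    have h4 := J6_norm_om R hR1
    have h5 : ‖om R‖ ≤ R / 2 := by
      have h6 : ‖om R‖ ^ 2 ≤ ((R : ℝ) / 2) ^ 2 := by rw [h4]; nlinarith
      exact le_of_sq_le_sq h6 (by positivity)
    have h7 : (0 : ℝ) < (R : ℝ) ^ E := by positivity
    rw [pow_succ]
    nlinarith
  · exact sub_mem (mul_mem (neg_mem (sub_mem (J6_int R c) (one_mem _))) hv)
      (mul_mem (pow_mem (J6_om_mem R) E) hq)
  · exact sub_mem (mul_mem (sub_mem (J6_int R c) (one_mem _)) hu)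
      (mul_mem (pow_mem (J6_conj_om_mem R) E) hq)

theorem J6_intdvd (R E : ℕ) (hR : 1 ≤ R) (z : ℤ)
    (h : ∃ x ∈ OO R, (z : ℂ) = conj (om R) ^ E * x) : (R : ℤ) ^ E ∣ z := by
  obtain ⟨x, hx, hz⟩ := h
  obtain ⟨u, hu, v, hv, huv⟩ := J6_coprime R E
  have hmulE : om R ^ E * conj (om R) ^ E = (R : ℂ) ^ E := by
    rw [← mul_pow, J6_mul R hR]
  have hz2 : (z : ℂ) = om R ^ E * conj x := by
    have := congrArg conj hz
    rw [map_intCast, map_mul, map_pow, Complex.conj_conj] at this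
    exact this
  have hw : u * x + v * conj x ∈ OO R :=
    add_mem (mul_mem hu hx) (mul_mem hv (J6_conj_mem R hR x hx))
  obtain ⟨a, b, hab⟩ := J6_mem R hR _ hw
  have hz3 : (z : ℂ) = (R : ℂ) ^ E * (a + b * om R) := by
    rw [← hab]
    linear_combination -(z : ℂ) * huv + u * om R ^ E * hz + v * conj (om R) ^ E * hz2
      + (u * x + v * conj x) * hmulE
  have hb : (b : ℝ) = 0 := by
    have h1 := congrArg Complex.im hz3
    have h2 : ((R : ℂ) ^ E * (a + b * om R)).im = (R : ℝ) ^ E * (b * (Real.sqrt (4 * R - 1) / 2)) := by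
      have : ((R : ℂ) ^ E) = (((R : ℝ) ^ E : ℝ) : ℂ) := by push_cast; rfl
      rw [this, Complex.im_ofReal_mul]
      simp [J6_im]
    rw [h2, Complex.intCast_im] at h1
    have h3 := J6_impos R hR
    have h4 : (0 : ℝ) < (R : ℝ) ^ E := by positivity
    have h5 : (R : ℝ) ^ E * (Real.sqrt (4 * R - 1) / 2) * (b : ℝ) = 0 := by linarith
    rcases mul_eq_zero.1 h5 with h6 | h6
    · exact absurd h6 (by positivity)
    · exact h6
  have hb' : b = 0 := by exact_mod_cast hb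
  rw [hb'] at hz3
  refine ⟨a, ?_⟩
  have : (z : ℂ) = (((R : ℤ) ^ E * a : ℤ) : ℂ) := by
    rw [hz3]; push_cast; ring
  exact_mod_cast this

theorem J6_prod {ι : Type} [Fintype ι] (R E : ℕ) (y c : ι → ℂ) (hy : ∀ i, y i ∈ OO R)
    (hc : ∀ i, c i ∈ OO R) (h : ∀ i, ∃ x ∈ OO R, y i - c i = conj (om R) ^ E * x)
    (s : Finset ι) :
    ∃ x ∈ OO R, ∏ i ∈ s, y i - ∏ i ∈ s, c i = conj (om R) ^ E * x := by
  classical
  induction s using Finset.induction_on with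
  | empty => exact ⟨0, zero_mem _, by simp⟩
  | insert i s hi ih =>
    obtain ⟨x, hx, hxe⟩ := ih
    obtain ⟨w, hw, hwe⟩ := h i
    refine ⟨y i * x + w * ∏ j ∈ s, c j, add_mem (mul_mem (hy i) hx)
      (mul_mem hw (prod_mem fun j _ => hc j)), ?_⟩
    rw [prod_insert hi, prod_insert hi]
    linear_combination (y i) * hxe + (∏ j ∈ s, c j) * hwe

/-- TARGET 2 -/
theorem exists_S (R E K : ℕ) (h4 : 4 ∣ R) (hR : 0 < R) (hE : 3 ≤ E)
    (hK : ∀ k ∈ Finset.Icc 1 K, k ∣ R) :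
    ∃ y : Fin (Nat.log 2 (R ^ (E - 2))) → ℂ,
      (∀ i, y i ∈ OO R ∧ y i ≠ 0 ∧ ‖y i‖ ≤ (R : ℝ) ^ (E + 1)) ∧
      ∀ ξ ξ' : Fin (Nat.log 2 (R ^ (E - 2))) → Bool, ξ ≠ ξ' → ∀ k ∈ Finset.Icc 1 K,
        ¬ ∃ x ∈ OO R, (k : ℂ) * (YS y ξ - YS y ξ') = conj (om R) ^ E * x := by
  have hR4 : 4 ≤ R := Nat.le_of_dvd hR h4
  have hR1 : 1 ≤ R := hR
  set r := Nat.log 2 (R ^ (E - 2)) with hr
  choose y hy hy0 hyn hyc hy1 using fun i : Fin r =>
    exists_y R E hR4 (by omega) ((1 + (R : ℤ)) ^ (2 ^ (i : ℕ)))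
  refine ⟨y, fun i => ⟨hy i, hy0 i, hyn i⟩, ?_⟩
  let S : (Fin r → Bool) → Finset ℕ := fun ξ =>
    (Finset.univ.filter (fun i : Fin r => ξ i = true)).map Fin.valEmbedding
  have hSmem : ∀ ξ (i : Fin r), (i : ℕ) ∈ S ξ ↔ ξ i = true := by
    intro ξ i
    simp only [S, Finset.mem_map, Finset.mem_filter, Finset.mem_univ, true_and,
      Fin.valEmbedding_apply]
    constructor
    · rintro ⟨j, hj, hji⟩
      rwa [Fin.ext hji] at hj
    · intro h
      exact ⟨i, h, rfl⟩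
  have hSinj : Function.Injective S := by
    intro ξ ξ' h
    funext i
    have := hSmem ξ i
    rw [h, hSmem ξ' i] at this
    cases h1 : ξ i <;> cases h2 : ξ' i <;> simp_all
  let N : (Fin r → Bool) → ℕ := fun ξ => ∑ k ∈ S ξ, 2 ^ k
  have hNlt : ∀ ξ, N ξ < R ^ (E - 2) := by
    intro ξ
    refine lt_of_lt_of_le (Nat.geomSum_lt (n := r) le_rfl ?_) (Nat.pow_log_le_self 2 (by positivity))
    intro k hk
    simp only [S, Finset.mem_map, Finset.mem_filter, Finset.mem_univ, true_and,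
      Fin.valEmbedding_apply] at hk
    obtain ⟨j, _, rfl⟩ := hk
    exact j.2
  have hNinj : Function.Injective N := (Finset.geomSum_injective le_rfl).comp hSinj
  have hprod : ∀ ξ, ∃ x ∈ OO R, YS y ξ - (((1 + (R : ℤ)) ^ N ξ : ℤ) : ℂ) = conj (om R) ^ E * x := by
    intro ξ
    have h1 := J6_prod R E (fun i : Fin r => if ξ i then y i else conj (y i))
      (fun i : Fin r => if ξ i then (((1 + (R : ℤ)) ^ (2 ^ (i : ℕ)) : ℤ) : ℂ) else 1) ?_ ?_ ?_
      Finset.univ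
    · have h2 : ∏ i : Fin r, (if ξ i then (((1 + (R : ℤ)) ^ (2 ^ (i : ℕ)) : ℤ) : ℂ) else 1) =
          (((1 + (R : ℤ)) ^ N ξ : ℤ) : ℂ) := by
        simp only [N, S]
        rw [Finset.sum_map, ← Finset.prod_pow_eq_pow_sum, Finset.prod_filter]
        push_cast
        refine Finset.prod_congr rfl fun i _ => ?_
        split_ifs <;> simp
      rw [h2] at h1
      exact h1
    · intro i
      split_ifs
      · exact hy i
      · exact J6_conj_mem R hR1 _ (hy i)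
    · intro i
      split_ifs
      · exact J6_int R _
      · exact one_mem _
    · intro i
      split_ifs
      · exact hyc i
      · obtain ⟨x, hx, hxe⟩ := hy1 i
        refine ⟨conj x, J6_conj_mem R hR1 x hx, ?_⟩
        have := congrArg conj hxe
        rwa [map_sub, map_one, map_mul, map_pow] at this
  intro ξ ξ' hne k hk hcon
  obtain ⟨x, hx, hxe⟩ := hcon
  obtain ⟨x1, hx1, hxe1⟩ := hprod ξ
  obtain ⟨x2, hx2, hxe2⟩ := hprod ξ'
  have hk1 : 1 ≤ k := (Finset.mem_Icc.1 hk).1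
  have hdvd := J6_intdvd R E hR1 ((k : ℤ) * ((1 + (R : ℤ)) ^ N ξ - (1 + (R : ℤ)) ^ N ξ'))
    ⟨x - k * x1 + k * x2, ?_, ?_⟩
  · obtain ⟨m, hm⟩ := hK k hk
    obtain ⟨w, hw⟩ := hdvd
    have hRm : (R : ℤ) = k * m := by exact_mod_cast hm
    have hE1 : (R : ℤ) ^ E = k * m * (R : ℤ) ^ (E - 1) := by
      rw [← hRm, ← pow_succ']
      congr 1
      omega
    have hfin : (R : ℤ) ^ (E - 1) ∣ (1 + (R : ℤ)) ^ N ξ - (1 + (R : ℤ)) ^ N ξ' := by
      refine ⟨m * w, ?_⟩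
      have hk0 : (k : ℤ) ≠ 0 := by exact_mod_cast (by omega : k ≠ 0)
      apply mul_left_cancel₀ hk0
      rw [hw, hE1]; ring
    exact hne (hNinj (lte_R R E (N ξ) (N ξ') h4 hR hE (hNlt ξ) (hNlt ξ') hfin))
  · have hkm : (k : ℂ) ∈ OO R := natCast_mem _ k
    exact add_mem (sub_mem hx (mul_mem hkm hx1)) (mul_mem hkm hx2)
  · push_cast at hxe1 hxe2 ⊢
    linear_combination hxe - (k : ℂ) * hxe1 + (k : ℂ) * hxe2

end MJ6
export MJ6 (exists_y exists_S)
end Pyj
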