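import Mathlib
import Pool.Agent.Pyj.Defs2
set_option autoImplicit false
set_option maxHeartbeats 4000000

namespace Pyj
open Finset ComplexConjugate
namespace MJ8
lemma ef_sum_inj {s : Finset ℕ} (f g : ℕ → ℕ) (M : ℕ) (hg : Set.InjOn g s)
    (hm : ∀ a ∈ s, g a ∈ Icc 1 M) :
    ∑ a ∈ s, f (g a) ≤ ∑ d ∈ Icc 1 M, f d := by
  rw [← Finset.sum_image (f := f) hg]
  refine Finset.sum_le_sum_of_subset ?_
  intro x hx
  rw [mem_image] at hx
  obtain ⟨a, ha, rfl⟩ := hx
  exact hm a ha

lemma ef_fact (p M : ℕ) :
    (M.factorial).factorization p = ∑ d ∈ Icc 1 M, d.factorization p := by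
  induction M with
  | zero => simp
  | succ n ih =>
    rw [Nat.factorial_succ, Nat.factorization_mul (by omega) (Nat.factorial_ne_zero n),
      Finset.sum_Icc_succ_top (by omega), Finsupp.add_apply, ih, Nat.add_comm]

lemma ef_val (R a b p : ℕ) (hab : a ≠ b) (hp : p.Prime)
    (h : (a^2+a+R).factorization p ≤ (b^2+b+R).factorization p) :
    (a^2+a+R).factorization p ≤
      ((a - b) + (b - a)).factorization p + (a + b + 1).factorization p := by
  have h1 : p ^ ((a^2+a+R).factorization p) ∣ a^2+a+R := Nat.ordProj_dvd _ _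
  have h2 : p ^ ((a^2+a+R).factorization p) ∣ b^2+b+R :=
    (pow_dvd_pow _ h).trans (Nat.ordProj_dvd _ _)
  generalize (a^2+a+R).factorization p = k at h1 h2 ⊢
  have h3 : ((p^k : ℕ) : ℤ) ∣ ((a:ℤ) - b) * (((a + b + 1 : ℕ)) : ℤ) := by
    have := dvd_sub (Int.natCast_dvd_natCast.2 h1) (Int.natCast_dvd_natCast.2 h2)
    have e : ((a:ℤ) - b) * (((a + b + 1 : ℕ)) : ℤ) =
        ((a^2+a+R : ℕ) : ℤ) - ((b^2+b+R : ℕ) : ℤ) := by
      push_cast
      ring
    rw [e]
    exact this
  have h4 : p^k ∣ ((a - b) + (b - a)) * (a + b + 1) := by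
    have := Int.natAbs_dvd_natAbs.2 h3
    rw [Int.natAbs_mul, Int.natAbs_natCast, Int.natAbs_natCast] at this
    have h5 : ((a:ℤ) - b).natAbs = (a - b) + (b - a) := by omega
    rwa [h5] at this
  rw [← Finsupp.add_apply, ← Nat.factorization_mul (by omega) (by omega)]
  refine (hp.pow_dvd_iff_le_factorization ?_).1 h4
  have : (a - b) + (b - a) ≠ 0 := by omega
  exact Nat.mul_ne_zero this (by omega)

lemma ef_pi (X : ℕ) (hX : 1000 ≤ X) :
    (((range (2 * X + 1)).filter Nat.Prime).card : ℝ) ≤ 2 * X / 3 + 4 := by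
  have h := Nat.primeCounting'_add_le (a := 6) (k := 7) (by norm_num) (by norm_num) (2 * X + 1 - 7)
  have e : 7 + (2 * X + 1 - 7) = 2 * X + 1 := by omega
  rw [e] at h
  have h7 : Nat.primeCounting' 7 ≤ 3 := by
    rw [Nat.primeCounting', Nat.count_eq_card_filter_range]
    decide
  have h6 : Nat.totient 6 = 2 := by decide
  rw [h6] at h
  have h8 : Nat.primeCounting' (2 * X + 1) = ((range (2 * X + 1)).filter Nat.Prime).card := by
    rw [Nat.primeCounting', Nat.count_eq_card_filter_range]
  rw [← h8]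
  have h9 : 3 * Nat.primeCounting' (2 * X + 1) ≤ 2 * X + 12 := by omega
  have h10 : (3 : ℝ) * (Nat.primeCounting' (2 * X + 1) : ℝ) ≤ 2 * X + 12 := by exact_mod_cast h9
  linarith

lemma ef_log (n M : ℕ) (h : ∀ p, p.Prime → p ∣ n → p ≤ M) (_hn : n ≠ 0) :
    Real.log n = ∑ p ∈ (range (M + 1)).filter Nat.Prime, (n.factorization p : ℝ) * Real.log p := by
  rw [Real.log_nat_eq_sum_factorization, Finsupp.sum]
  refine Finset.sum_subset ?_ ?_
  · intro p hp
    rw [Nat.support_factorization, Nat.mem_primeFactors] at hp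
    rw [mem_filter, mem_range]
    exact ⟨by have := h p hp.1 hp.2.1; omega, hp.1⟩
  · intro p _ hp
    rw [Finsupp.notMem_support_iff] at hp
    rw [hp]
    simp

open Classical in
lemma ef_count (R X : ℕ) (hX : 1000 ≤ X)
    (hRX : 32 * (Real.log (2 * X)) ^ 2 ≤ Real.log R) :
    (X : ℝ) / 16 ≤ (((range X).filter
      (fun a => ∃ l : ℕ, l.Prime ∧ 2 * X < l ∧ l ∣ a^2 + a + R)).card : ℝ) := by
  have hXr : (1000 : ℝ) ≤ X := by exact_mod_cast hX
  have hL1 : 1 ≤ Real.log (2 * X) := by
    rw [Real.le_log_iff_exp_le (by positivity)]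
    have := Real.exp_one_lt_d9
    linarith
  have hlogR : 0 < Real.log R := by nlinarith
  have hR : 1 ≤ R := by
    rcases Nat.eq_zero_or_pos R with h | h
    · subst h
      simp at hlogR
    · exact h
  have hmax : ∀ p : ℕ, ∃ b ∈ range X, ∀ a ∈ range X,
      (a^2+a+R).factorization p ≤ (b^2+b+R).factorization p := by
    intro p
    exact Finset.exists_max_image (range X) (fun a => (a^2+a+R).factorization p)
      ⟨0, by rw [mem_range]; omega⟩
  choose A hA1 hA2 using hmax
  set P := (range (2 * X + 1)).filter Nat.Prime with hP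
  set G := (range X).filter (fun a => ∃ l : ℕ, l.Prime ∧ 2 * X < l ∧ l ∣ a^2 + a + R) with hG
  set B := (range X \ G) \ (P.image A) with hB
  have hcard : X ≤ G.card + P.card + B.card := by
    have h1 : range X ⊆ G ∪ (P.image A ∪ B) := by
      intro a ha
      rw [mem_union, mem_union]
      by_cases h1 : a ∈ G
      · exact Or.inl h1
      · right
        by_cases h2 : a ∈ P.image A
        · exact Or.inl h2
        · right
          rw [hB, mem_sdiff, mem_sdiff]
          exact ⟨⟨ha, h1⟩, h2⟩
    have h2 := Finset.card_le_card h1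
    rw [card_range] at h2
    have h3 := Finset.card_union_le G (P.image A ∪ B)
    have h4 := Finset.card_union_le (P.image A) B
    have h5 := Finset.card_image_le (s := P) (f := A)
    omega
  -- the bound for B
  have hBb : ∀ a ∈ B, Real.log R ≤ ∑ p ∈ P,
      ((((a - A p) + (A p - a)).factorization p + (a + A p + 1).factorization p : ℕ) : ℝ)
        * Real.log p := by
    intro a ha
    rw [hB, mem_sdiff, mem_sdiff] at ha
    obtain ⟨⟨ha1, ha2⟩, ha3⟩ := ha
    have h1 : ∀ p, p.Prime → p ∣ a^2+a+R → p ≤ 2 * X := by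
      intro p hp hd
      by_contra hc
      exact ha2 (by rw [hG, mem_filter]; exact ⟨ha1, p, hp, by omega, hd⟩)
    have h2 : Real.log R ≤ Real.log ((a^2+a+R : ℕ) : ℝ) := by
      apply Real.log_le_log
      · exact_mod_cast hR
      · have : R ≤ a^2+a+R := by omega
        exact_mod_cast this
    rw [ef_log _ (2 * X) h1 (by omega)] at h2
    refine h2.trans (Finset.sum_le_sum ?_)
    intro p hp
    have hpp : p.Prime := (mem_filter.1 hp).2
    refine mul_le_mul_of_nonneg_right ?_ (Real.log_natCast_nonneg p)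
    have hne : a ≠ A p := by
      intro h
      exact ha3 (by rw [mem_image]; exact ⟨p, hp, h.symm⟩)
    exact_mod_cast ef_val R a (A p) p hne hpp (hA2 p a ha1)
  have hsum : (B.card : ℝ) * Real.log R ≤ 3 * Real.log ((2 * X).factorial : ℕ) := by
    have h1 := Finset.sum_le_sum hBb
    rw [Finset.sum_const, nsmul_eq_mul] at h1
    rw [Finset.sum_comm] at h1
    refine h1.trans ?_
    rw [ef_log ((2 * X).factorial) (2 * X) (fun p hp hd => (hp.dvd_factorial).1 hd)
      (Nat.factorial_ne_zero _), Finset.mul_sum]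
    refine Finset.sum_le_sum ?_
    intro p hp
    rw [← Finset.sum_mul, ← mul_assoc]
    refine mul_le_mul_of_nonneg_right ?_ (Real.log_natCast_nonneg p)
    rw [← Nat.cast_sum]
    have h2 : ∑ a ∈ B, (((a - A p) + (A p - a)).factorization p + (a + A p + 1).factorization p)
        ≤ 3 * ((2 * X).factorial).factorization p := by
      rw [Finset.sum_add_distrib, ef_fact]
      have hb := mem_range.1 (hA1 p)
      have hBX : ∀ a ∈ B, a < X := by
        intro a ha
        rw [hB, mem_sdiff, mem_sdiff] at ha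
        exact mem_range.1 ha.1.1
      have hne : ∀ a ∈ B, a ≠ A p := by
        intro a ha h
        rw [hB, mem_sdiff, mem_sdiff] at ha
        exact ha.2 (by rw [mem_image]; exact ⟨p, hp, h.symm⟩)
      have e1 : ∑ a ∈ B, (a + A p + 1).factorization p ≤
          ∑ d ∈ Icc 1 (2 * X), d.factorization p := by
        refine ef_sum_inj (fun d => d.factorization p) (fun a => a + A p + 1) (2 * X) ?_ ?_
        · intro x _ y _ hxy
          simp only at hxy
          omega
        · intro a ha
          have := hBX a ha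
          rw [mem_Icc]
          omega
      have e2 : ∑ a ∈ B.filter (fun a => a < A p), ((a - A p) + (A p - a)).factorization p ≤
          ∑ d ∈ Icc 1 (2 * X), d.factorization p := by
        refine ef_sum_inj (fun d => d.factorization p)
          (fun a => (a - A p) + (A p - a)) (2 * X) ?_ ?_
        · intro x hx y hy hxy
          simp only [coe_filter, Set.mem_ofPred_eq] at hx hy
          simp only at hxy
          omega
        · intro a ha
          rw [mem_filter] at ha
          have := hBX a ha.1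
          rw [mem_Icc]
          omega
      have e3 : ∑ a ∈ B.filter (fun a => ¬ a < A p), ((a - A p) + (A p - a)).factorization p ≤
          ∑ d ∈ Icc 1 (2 * X), d.factorization p := by
        refine ef_sum_inj (fun d => d.factorization p)
          (fun a => (a - A p) + (A p - a)) (2 * X) ?_ ?_
        · intro x hx y hy hxy
          simp only [coe_filter, Set.mem_ofPred_eq] at hx hy
          simp only at hxy
          omega
        · intro a ha
          rw [mem_filter] at ha
          have := hBX a ha.1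
          have := hne a ha.1
          rw [mem_Icc]
          omega
      have e4 := Finset.sum_filter_add_sum_filter_not B (fun a => a < A p)
        (fun a => ((a - A p) + (A p - a)).factorization p)
      omega
    exact_mod_cast h2
  have hfac : Real.log ((2 * X).factorial : ℕ) ≤ 2 * X * Real.log (2 * X) := by
    have h1 : (((2 * X).factorial : ℕ) : ℝ) ≤ ((2 * X : ℕ) : ℝ) ^ (2 * X) := by
      exact_mod_cast Nat.factorial_le_pow (2 * X)
    have h2 := Real.log_le_log (by exact_mod_cast Nat.factorial_pos _) h1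
    rw [Real.log_pow] at h2
    push_cast at h2
    exact h2
  have hBc : (B.card : ℝ) * 32 ≤ 6 * X := by
    have h1 : (B.card : ℝ) * (32 * Real.log (2 * X) ^ 2) ≤ 3 * (2 * X * Real.log (2 * X)) := by
      refine (mul_le_mul_of_nonneg_left hRX (Nat.cast_nonneg _)).trans (hsum.trans ?_)
      linarith
    have hL0 : 0 < Real.log (2 * X) := by linarith
    have h2 : (B.card : ℝ) * 32 * Real.log (2 * X) ≤ 6 * X := by
      have : ((B.card : ℝ) * 32 * Real.log (2 * X)) * Real.log (2 * X) ≤
          (6 * X) * Real.log (2 * X) := by nlinarith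
      exact le_of_mul_le_mul_right this hL0
    have h3 : (B.card : ℝ) * 32 * 1 ≤ (B.card : ℝ) * 32 * Real.log (2 * X) :=
      mul_le_mul_of_nonneg_left hL1 (by positivity)
    linarith
  have hPc := ef_pi X hX
  have hcr : (X : ℝ) ≤ G.card + P.card + B.card := by exact_mod_cast hcard
  rw [← hP] at hPc
  linarith

open Polynomial in
lemma ef_sep (R X : ℕ) (hR : 1 ≤ R) (H H' : Finset ℕ) (hH : ∀ b ∈ H, b < X)
    (hH' : ∀ b ∈ H', b < X) (a l : ℕ) (ha : a ∈ H) (ha' : a ∉ H') (hl : l.Prime)
    (hlX : 2 * X < l) (hd : l ∣ a^2 + a + R) :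
    yH R H * conj (yH R H') ≠ conj (yH R H) * yH R H' := by
  intro heq
  have : Fact l.Prime := ⟨hl⟩
  let F : Finset ℕ → ℤ[X] := fun S => ∏ b ∈ S, ((b : ℤ[X]) + Polynomial.X)
  let G : Finset ℕ → ℤ[X] := fun S => ∏ b ∈ S, ((b : ℤ[X]) + 1 - Polynomial.X)
  have hR4 : (0:ℝ) < 4 * R - 1 := by
    have : (1:ℝ) ≤ R := by exact_mod_cast hR
    linarith
  have hconj : conj (om R) = 1 - om R := by
    apply Complex.ext
    · simp [om]; norm_num
    · simp [om]
  have hsq : om R ^ 2 - om R + R = 0 := by
    have hs := Real.sq_sqrt hR4.le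
    apply Complex.ext
    · simp [om, sq]
      nlinarith
    · simp [om, sq]
      ring
  have hF : ∀ S, aeval (om R) (F S) = yH R S := by
    intro S
    simp [F, yH, map_prod]
  have hG : ∀ S, aeval (om R) (G S) = conj (yH R S) := by
    intro S
    simp only [G, yH, map_prod, map_add, map_sub, map_natCast, map_one, aeval_X, hconj]
    refine Finset.prod_congr rfl ?_
    intro b _
    ring
  let q : ℤ[X] := Polynomial.X ^ 2 - Polynomial.X + (R : ℤ[X])
  have hq2 : q = Polynomial.X ^ 2 + (C (-1) * Polynomial.X + C (R:ℤ)) := by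
    simp [q]; ring
  have hqm : q.Monic := by
    rw [hq2]
    exact monic_X_pow_add (n := 2) (by
      refine lt_of_le_of_lt (degree_linear_le) ?_
      norm_num)
  have hqdeg : q.natDegree = 2 := by
    rw [hq2]
    have : (Polynomial.X ^ 2 + (C (-1) * Polynomial.X + C (R:ℤ)) : ℤ[X]) =
      C 1 * Polynomial.X ^ 2 + C (-1) * Polynomial.X + C (R:ℤ) := by simp; ring
    rw [this]
    exact natDegree_quadratic (by norm_num)
  let P : ℤ[X] := F H * G H' - G H * F H'
  have hP0 : aeval (om R) P = 0 := by
    simp only [P, map_sub, map_mul, hF, hG]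
    rw [heq, sub_self]
  have hq0 : aeval (om R) q = 0 := by
    simp only [q, map_add, map_sub, map_pow, aeval_X, map_natCast]
    exact hsq
  have hmod := modByMonic_add_div P q
  have hr0 : aeval (om R) (P %ₘ q) = 0 := by
    have := congrArg (aeval (om R)) hmod
    rw [map_add, map_mul, hq0, zero_mul, add_zero, hP0] at this
    exact this
  have hrd : (P %ₘ q).natDegree < 2 := by
    have := natDegree_modByMonic_lt P hqm (by
      intro h
      rw [h] at hqdeg
      simp at hqdeg)
    omega
  have hrz : P %ₘ q = 0 := by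
    have hlin := Polynomial.eq_X_add_C_of_natDegree_le_one (p := P %ₘ q) (by omega)
    rw [hlin] at hr0
    simp only [map_add, map_mul, aeval_C, aeval_X] at hr0
    have him := congrArg Complex.im hr0
    have hre := congrArg Complex.re hr0
    simp [om] at him hre
    have hsqrt : Real.sqrt (4 * R - 1) ≠ 0 := (Real.sqrt_pos.2 hR4).ne'
    have h1 : (P %ₘ q).coeff 1 = 0 := by
      rcases him with h | h
      · exact_mod_cast h
      · exact absurd h hsqrt
    rw [h1] at hre
    have h0 : (P %ₘ q).coeff 0 = 0 := by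
      simpa using hre
    rw [hlin, h1, h0]
    simp
  rw [hrz, zero_add] at hmod
  -- evaluate mod l
  have hev := congrArg (Polynomial.eval₂ (Int.castRingHom (ZMod l)) (-(a : ZMod l))) hmod
  have hq0' : Polynomial.eval₂ (Int.castRingHom (ZMod l)) (-(a : ZMod l)) q = 0 := by
    simp only [q, eval₂_add, eval₂_sub, eval₂_pow, eval₂_X, eval₂_natCast]
    have : ((a^2 + a + R : ℕ) : ZMod l) = 0 := (ZMod.natCast_eq_zero_iff _ _).2 hd
    push_cast at this
    linear_combination this
  rw [eval₂_mul, hq0', zero_mul] at hev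
  have hFz : Polynomial.eval₂ (Int.castRingHom (ZMod l)) (-(a : ZMod l)) (F H) = 0 := by
    simp only [F, eval₂_finsetProd]
    refine Finset.prod_eq_zero ha ?_
    simp
  simp only [P, eval₂_sub, eval₂_mul, hFz, zero_mul, zero_sub] at hev
  have hev2 : Polynomial.eval₂ (Int.castRingHom (ZMod l)) (-(a : ZMod l)) (G H) *
      Polynomial.eval₂ (Int.castRingHom (ZMod l)) (-(a : ZMod l)) (F H') = 0 := by
    exact neg_eq_zero.1 hev.symm
  have haX := hH a ha
  rcases mul_eq_zero.1 hev2 with h | h
  · simp only [G, eval₂_finsetProd] at h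
    rw [Finset.prod_eq_zero_iff] at h
    obtain ⟨b, hb, hb0⟩ := h
    simp only [eval₂_add, eval₂_sub, eval₂_natCast, eval₂_one, eval₂_X] at hb0
    have : ((b + 1 + a : ℕ) : ZMod l) = 0 := by
      push_cast
      linear_combination hb0
    rw [ZMod.natCast_eq_zero_iff] at this
    have h1 := Nat.le_of_dvd (by omega) this
    have h2 := hH b hb
    omega
  · simp only [F, eval₂_finsetProd] at h
    rw [Finset.prod_eq_zero_iff] at h
    obtain ⟨b, hb, hb0⟩ := h
    simp only [eval₂_add, eval₂_natCast, eval₂_X] at hb0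
    have : (b : ZMod l) = (a : ZMod l) := by
      linear_combination hb0
    rw [ZMod.natCast_eq_natCast_iff'] at this
    have h2 := hH' b hb
    rw [Nat.mod_eq_of_lt (by omega), Nat.mod_eq_of_lt (by omega)] at this
    subst this
    exact ha' hb

/-- TARGET -/
theorem exists_EF (R X r : ℕ) (hX : 1000 ≤ X) (hr : 16 * r ≤ X)
    (hRX : 32 * (Real.log (2 * X)) ^ 2 ≤ Real.log R) :
    ∃ 𝒜 : Finset ℕ, 𝒜.card = r ∧ (∀ a ∈ 𝒜, a < X) ∧
      ∀ H ∈ 𝒜.powerset, ∀ H' ∈ 𝒜.powerset, H ≠ H' →
        yH R H * conj (yH R H') ≠ conj (yH R H) * yH R H' := by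
  classical
  have hcount := ef_count R X hX hRX
  set G := (range X).filter (fun a => ∃ l : ℕ, l.Prime ∧ 2 * X < l ∧ l ∣ a^2 + a + R) with hG
  have hrG : r ≤ G.card := by
    have h1 : (16 : ℝ) * r ≤ X := by exact_mod_cast hr
    have h2 : (r : ℝ) ≤ G.card := by linarith
    exact_mod_cast h2
  have hXr : (1000 : ℝ) ≤ X := by exact_mod_cast hX
  have hL1 : 1 ≤ Real.log (2 * X) := by
    rw [Real.le_log_iff_exp_le (by positivity)]
    have := Real.exp_one_lt_d9
    linarith
  have hlogR : 0 < Real.log R := by nlinarith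
  have hR : 1 ≤ R := by
    rcases Nat.eq_zero_or_pos R with h | h
    · subst h
      simp at hlogR
    · exact h
  obtain ⟨𝒜, hs, hc⟩ := Finset.exists_subset_card_eq hrG
  have hlt : ∀ a ∈ 𝒜, a < X := fun a ha => mem_range.1 (mem_filter.1 (hs ha)).1
  refine ⟨𝒜, hc, hlt, ?_⟩
  intro H hH H' hH' hne
  rw [mem_powerset] at hH hH'
  by_cases hsub : H ⊆ H'
  · have hns : ¬ H' ⊆ H := fun h => hne (Finset.Subset.antisymm hsub h)
    obtain ⟨a, ha, ha'⟩ := Finset.not_subset.1 hns
    obtain ⟨_, l, hl, hlX, hd⟩ := mem_filter.1 (hs (hH' ha))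
    intro heq
    refine ef_sep R X hR H' H (fun b hb => hlt b (hH' hb)) (fun b hb => hlt b (hH hb)) a l ha ha'
      hl hlX hd ?_
    rw [mul_comm, ← heq, mul_comm]
  · obtain ⟨a, ha, ha'⟩ := Finset.not_subset.1 hsub
    obtain ⟨_, l, hl, hlX, hd⟩ := mem_filter.1 (hs (hH ha))
    exact ef_sep R X hR H H' (fun b hb => hlt b (hH hb)) (fun b hb => hlt b (hH' hb)) a l ha ha'
      hl hlX hd

end MJ8
export MJ8 (exists_EF)
end Pyj
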