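import Mathlib
import Pool.Agent.Pyj.Defs2
set_option autoImplicit false
set_option maxHeartbeats 4000000

namespace Pyj
open Finset ComplexConjugate
namespace MK1
theorem k1_fact (k : ℕ) : 2 ^ k ≤ (k + 1).factorial := by
  induction k with
  | zero => simp
  | succ k ih =>
    rw [Nat.factorial_succ (k + 1), pow_succ, mul_comm]
    exact Nat.mul_le_mul (by omega) ih

theorem k1_mono (n a b : ℕ) (hn : 10 ^ 6 ≤ n) (h : a ≤ b) : n ^ a ≤ n ^ b :=
  Nat.pow_le_pow_right (by omega) h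

theorem k1_step (n a b : ℕ) (hn : 10 ^ 6 ≤ n) (hab : b = a + 1) : 1000000 * n ^ a ≤ n ^ b := by
  rw [hab, pow_succ, mul_comm]
  exact Nat.mul_le_mul_left _ (by omega)

theorem k1_one (n a : ℕ) (hn : 10 ^ 6 ≤ n) : 1 ≤ n ^ a := Nat.one_le_pow _ _ (by omega)

theorem k1_lower (n R : ℕ) (hn : 10 ^ 6 ≤ n)
    (hR : R = (n ^ 20).factorial ∨ R = 2 * (n ^ 20).factorial) : 2 ^ (n ^ 19) ≤ R := by
  have h1 := k1_step n 19 20 hn rfl
  have h2 := k1_one n 19 hn
  obtain ⟨k, hk⟩ : ∃ k, n ^ 20 = k + 1 := ⟨n ^ 20 - 1, by omega⟩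
  have h3 := k1_fact k
  rw [← hk] at h3
  have h4 : 2 ^ (n ^ 19) ≤ 2 ^ k := Nat.pow_le_pow_right (by norm_num) (by omega)
  rcases hR with h | h <;> omega

theorem k1_upper (n R : ℕ) (hn : 10 ^ 6 ≤ n)
    (hR : R = (n ^ 20).factorial ∨ R = 2 * (n ^ 20).factorial) : R ≤ 2 ^ (n ^ 40) := by
  have h1 : (n ^ 20).factorial ≤ (n ^ 20) ^ (n ^ 20) := Nat.factorial_le_pow _
  have h2 : (n ^ 20) ^ (n ^ 20) ≤ 2 ^ (20 * n ^ 21) := by
    have h3 : n ≤ 2 ^ n := Nat.lt_two_pow_self.le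
    calc (n ^ 20) ^ (n ^ 20) ≤ ((2 ^ n) ^ 20) ^ (n ^ 20) :=
          Nat.pow_le_pow_left (Nat.pow_le_pow_left h3 20) _
      _ = 2 ^ (20 * n ^ 21) := by
        rw [← pow_mul, ← pow_mul]
        congr 1
        ring
  have h4 : 2 * 2 ^ (20 * n ^ 21) ≤ 2 ^ (n ^ 40) := by
    rw [← pow_succ']
    apply Nat.pow_le_pow_right (by norm_num)
    have h5 := k1_step n 21 22 hn rfl
    have h6 := k1_mono n 22 40 hn (by norm_num)
    have h7 := k1_one n 21 hn
    omega
  rcases hR with h | h <;> omega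

/-- TARGET 1: elementary facts on R -/
theorem R_facts (n R : ℕ) (hn : 10 ^ 6 ≤ n) (hR : R = (n ^ 20).factorial ∨ R = 2 * (n ^ 20).factorial) :
    4 ∣ R ∧ 16 ≤ R ∧ (∀ k ∈ Finset.Icc 1 (4 * n ^ 2), k ∣ R) ∧
    (∀ p : ℕ, p.Prime → (p ∣ R ↔ p ≤ n ^ 20)) ∧ R ≤ 2 ^ (n ^ 40) ∧ 2 ^ (n ^ 19) ≤ R := by
  have hlow := k1_lower n R hn hR
  have hup := k1_upper n R hn hR
  have hdvd : ∀ k, 0 < k → k ≤ n ^ 20 → k ∣ R := by
    intro k hk hkn
    have h1 : k ∣ (n ^ 20).factorial := Nat.dvd_factorial hk hkn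
    rcases hR with h | h
    · rw [h]; exact h1
    · rw [h]; exact h1.mul_left 2
  have e1 := k1_step n 2 3 hn rfl
  have e2 := k1_mono n 3 20 hn (by norm_num)
  have e3 := k1_one n 2 hn
  have e4 := k1_step n 18 19 hn rfl
  have e5 := k1_one n 18 hn
  refine ⟨hdvd 4 (by norm_num) (by omega), ?_, ?_, ?_, hup, hlow⟩
  · have h1 : 2 ^ 4 ≤ 2 ^ (n ^ 19) := Nat.pow_le_pow_right (by norm_num) (by omega)
    omega
  · intro k hk
    rw [Finset.mem_Icc] at hk
    exact hdvd k (by omega) (by omega)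
  · intro p hp
    constructor
    · intro h
      rcases hR with h1 | h1
      · rw [h1] at h
        exact (Nat.Prime.dvd_factorial hp).1 h
      · rw [h1] at h
        rcases (Nat.Prime.dvd_mul hp).1 h with h2 | h2
        · have := Nat.le_of_dvd (by norm_num) h2
          omega
        · exact (Nat.Prime.dvd_factorial hp).1 h2
    · intro h
      exact hdvd p hp.pos h

/-- TARGET 2 -/
theorem R_facts2 (n R : ℕ) (hn : 10 ^ 6 ≤ n) (hR : R = (n ^ 20).factorial ∨ R = 2 * (n ^ 20).factorial) :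
    32 * (Real.log (2 * ((n ^ 346 : ℕ) : ℝ))) ^ 2 ≤ Real.log R ∧
    (((n ^ 346 : ℕ) : ℝ)) + Real.sqrt R ≤ R ∧
    4 * R ^ (4 * n ^ 345) ≤ 2 ^ (n ^ 386) := by
  have hlow := k1_lower n R hn hR
  have hup := k1_upper n R hn hR
  have hnR : (1000000 : ℝ) ≤ n := by exact_mod_cast hn
  have hn0 : (0 : ℝ) < n := by linarith
  have e0 := k1_step n 18 19 hn rfl
  have e1 := k1_one n 18 hn
  have h16 : 16 ≤ R := by
    have h1 : 2 ^ 4 ≤ 2 ^ (n ^ 19) := Nat.pow_le_pow_right (by norm_num) (by omega)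
    omega
  refine ⟨?_, ?_, ?_⟩
  · have h1 : Real.log (2 * ((n ^ 346 : ℕ) : ℝ)) ≤ 347 * n := by
      rw [Real.log_mul (by norm_num) (by positivity), Nat.cast_pow, Real.log_pow]
      have h2 : Real.log n ≤ n - 1 := Real.log_le_sub_one_of_pos hn0
      have h3 : Real.log 2 ≤ 2 - 1 := Real.log_le_sub_one_of_pos (by norm_num)
      push_cast
      nlinarith
    have h0 : 0 ≤ Real.log (2 * ((n ^ 346 : ℕ) : ℝ)) := by
      apply Real.log_nonneg
      have h2 : (1 : ℝ) ≤ ((n ^ 346 : ℕ) : ℝ) := by exact_mod_cast k1_one n 346 hn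
      linarith
    have h2 : (Real.log (2 * ((n ^ 346 : ℕ) : ℝ))) ^ 2 ≤ (347 * n) ^ 2 :=
      pow_le_pow_left₀ h0 h1 2
    have h3 : (n : ℝ) ^ 19 * Real.log 2 ≤ Real.log R := by
      have h4 : Real.log ((2 ^ (n ^ 19) : ℕ) : ℝ) ≤ Real.log R := by
        apply Real.log_le_log
        · positivity
        · exact_mod_cast hlow
      rw [Nat.cast_pow, Real.log_pow] at h4
      push_cast at h4
      exact h4
    have h4 : (1 / 2 : ℝ) ≤ Real.log 2 := by
      have := Real.log_two_gt_d9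
      linarith
    have h5 : (n : ℝ) ^ 19 * (1 / 2) ≤ (n : ℝ) ^ 19 * Real.log 2 :=
      mul_le_mul_of_nonneg_left h4 (by positivity)
    have h6 : 10000000 * (n : ℝ) ^ 2 ≤ (n : ℝ) ^ 4 := by
      have h7 : (1000000 : ℝ) * 1000000 ≤ n * n := mul_le_mul hnR hnR (by norm_num) hn0.le
      have h8 : (n : ℝ) ^ 4 = (n * n) * n ^ 2 := by ring
      rw [h8]
      apply mul_le_mul_of_nonneg_right _ (by positivity)
      linarith
    have h7 : 2 * (n : ℝ) ^ 4 ≤ (n : ℝ) ^ 19 := by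
      have h8 : (n : ℝ) ^ 5 ≤ (n : ℝ) ^ 19 := pow_le_pow_right₀ (by linarith) (by norm_num)
      have h9 : 2 * (n : ℝ) ^ 4 ≤ (n : ℝ) ^ 5 := by
        have : (n : ℝ) ^ 5 = n * n ^ 4 := by ring
        rw [this]
        apply mul_le_mul_of_nonneg_right _ (by positivity)
        linarith
      linarith
    nlinarith
  · have hR0 : (16 : ℝ) ≤ R := by exact_mod_cast h16
    have h1 : Real.sqrt R * Real.sqrt R = R := Real.mul_self_sqrt (by linarith)
    have h2 : 4 ≤ Real.sqrt R := by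
      apply Real.le_sqrt_of_sq_le
      linarith
    have h3 : 4 * Real.sqrt R ≤ R := by nlinarith
    have h4 : 4 * n ^ 346 ≤ R := by
      have h5 : n ^ 346 ≤ (2 ^ n) ^ 346 := Nat.pow_le_pow_left Nat.lt_two_pow_self.le 346
      rw [← pow_mul] at h5
      have h6 : 2 ^ (n * 346 + 2) ≤ 2 ^ (n ^ 19) := by
        apply Nat.pow_le_pow_right (by norm_num)
        have e2 := k1_step n 1 2 hn rfl
        have e3 := k1_mono n 2 19 hn (by norm_num)
        rw [pow_one] at e2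
        omega
      rw [pow_add] at h6
      omega
    have h5 : 4 * ((n ^ 346 : ℕ) : ℝ) ≤ R := by exact_mod_cast h4
    linarith
  · calc 4 * R ^ (4 * n ^ 345) ≤ 4 * (2 ^ (n ^ 40)) ^ (4 * n ^ 345) :=
          Nat.mul_le_mul_left _ (Nat.pow_le_pow_left hup _)
      _ = 2 ^ (4 * n ^ 385 + 2) := by
        rw [← pow_mul, pow_add]
        have : n ^ 40 * (4 * n ^ 345) = 4 * n ^ 385 := by
          rw [mul_left_comm, ← pow_add]
        rw [this, mul_comm, show (2 : ℕ) ^ 2 = 4 from rfl]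
      _ ≤ 2 ^ (n ^ 386) := by
        apply Nat.pow_le_pow_right (by norm_num)
        have e2 := k1_step n 385 386 hn rfl
        have e3 := k1_one n 385 hn
        omega

/-- TARGET 3 -/
theorem R_big (n R : ℕ) (hn : 10 ^ 6 ≤ n) (hR : R = (n ^ 20).factorial ∨ R = 2 * (n ^ 20).factorial) :
    2 * (((2 ^ (n ^ 386) : ℕ) : ℝ)) ^ 2 * ((2 * (n ^ 20).factorial : ℕ) : ℝ) ^ (n ^ 393 + 1) * R <
      (R : ℝ) ^ (n ^ 400) := by
  have hlow := k1_lower n R hn hR
  have e0 := k1_step n 18 19 hn rfl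
  have e1 := k1_one n 18 hn
  have h16 : 16 ≤ R := by
    have h1 : 2 ^ 4 ≤ 2 ^ (n ^ 19) := Nat.pow_le_pow_right (by norm_num) (by omega)
    omega
  have hF : 2 * (n ^ 20).factorial ≤ R ^ 2 := by
    have h1 : 2 * (n ^ 20).factorial ≤ 2 * R := by rcases hR with h | h <;> omega
    have h2 : 2 * R ≤ R ^ 2 := by
      rw [sq]
      exact Nat.mul_le_mul_right _ (by omega)
    exact h1.trans h2
  have hnat : 2 * (2 ^ (n ^ 386)) ^ 2 * (2 * (n ^ 20).factorial) ^ (n ^ 393 + 1) * R <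
      R ^ (n ^ 400) := by
    calc 2 * (2 ^ (n ^ 386)) ^ 2 * (2 * (n ^ 20).factorial) ^ (n ^ 393 + 1) * R
        ≤ R * (R ^ (n ^ 386)) ^ 2 * (R ^ 2) ^ (n ^ 393 + 1) * R := by
          apply Nat.mul_le_mul_right
          apply Nat.mul_le_mul
          · apply Nat.mul_le_mul (by omega)
            apply Nat.pow_le_pow_left
            exact Nat.pow_le_pow_left (by omega) _
          · exact Nat.pow_le_pow_left hF _
      _ = R ^ (2 * n ^ 386 + 2 * n ^ 393 + 4) := by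
          rw [← pow_mul, ← pow_mul]
          rw [show 2 * n ^ 386 + 2 * n ^ 393 + 4 = 1 + n ^ 386 * 2 + 2 * (n ^ 393 + 1) + 1 by ring]
          rw [pow_add, pow_add, pow_add, pow_one]
      _ < R ^ (n ^ 400) := by
          apply Nat.pow_lt_pow_right (by omega)
          have e2 := k1_step n 393 394 hn rfl
          have e3 := k1_one n 393 hn
          have e4 := k1_mono n 386 393 hn (by norm_num)
          have e5 := k1_mono n 394 400 hn (by norm_num)
          omega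
  exact_mod_cast hnat

end MK1
export MK1 (R_facts R_facts2 R_big)
end Pyj
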