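import Mathlib
import Pool.Agent.Pyj.Defs2
import Pool.Agent.Pyj.J1
import Pool.Agent.Pyj.J10
import Pool.Agent.Pyj.J11
import Pool.Agent.Pyj.J6
import Pool.Agent.Pyj.J8
import Pool.Agent.Pyj.K1
set_option autoImplicit false
set_option maxHeartbeats 4000000

namespace Pyj
open Finset ComplexConjugate
namespace MK2
theorem ps836_conj_om (R : ℕ) : conj (om R) = 1 - om R := by
  apply Complex.ext
  · simp [om]
    norm_num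
  · simp [om]

theorem ps836_conj_mem (R : ℕ) {x : ℂ} (hx : x ∈ OO R) : conj x ∈ OO R := by
  unfold OO at hx ⊢
  induction hx using Subring.closure_induction with
  | mem y hy =>
    rw [Set.mem_singleton_iff] at hy
    subst hy
    rw [ps836_conj_om]
    exact Subring.sub_mem _ (Subring.one_mem _) (Subring.subset_closure rfl)
  | zero => rw [map_zero]; exact Subring.zero_mem _
  | one => rw [map_one]; exact Subring.one_mem _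
  | add x y _ _ hx hy => rw [map_add]; exact Subring.add_mem _ hx hy
  | neg x _ hx => rw [map_neg]; exact Subring.neg_mem _ hx
  | mul x y _ _ hx hy => rw [map_mul]; exact Subring.mul_mem _ hx hy

theorem ps836_r (n R r : ℕ) (hn : 10 ^ 6 ≤ n) (hR : R ≤ 2 ^ (n ^ 40))
    (h1 : 2 ^ r ≤ R ^ (n ^ 100 - 2)) : r ≤ n ^ 140 := by
  have hn1 : 1 ≤ n := by omega
  have h2 : 2 ^ r ≤ 2 ^ (n ^ 40 * (n ^ 100 - 2)) := by
    calc 2 ^ r ≤ R ^ (n ^ 100 - 2) := h1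
      _ ≤ (2 ^ (n ^ 40)) ^ (n ^ 100 - 2) := Nat.pow_le_pow_left hR _
      _ = 2 ^ (n ^ 40 * (n ^ 100 - 2)) := by rw [← pow_mul]
  have h3 : r ≤ n ^ 40 * (n ^ 100 - 2) := (Nat.pow_le_pow_iff_right (by norm_num)).mp h2
  calc r ≤ n ^ 40 * (n ^ 100 - 2) := h3
    _ ≤ n ^ 40 * n ^ 100 := Nat.mul_le_mul_left _ (Nat.sub_le _ _)
    _ = n ^ 140 := by rw [← pow_add]

theorem ps836_D (n R r : ℕ) (hn : 10 ^ 6 ≤ n) (hR0 : 1 ≤ R) (hR : R ≤ 2 ^ (n ^ 40))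
    (h1 : r ≤ n ^ 140) : ((R : ℝ) ^ (n ^ 100 + 1)) ^ r ≤ (2 : ℝ) ^ (2 * n ^ 280) := by
  have hn1 : 1 ≤ n := by omega
  have hRR : (R : ℝ) ≤ 2 ^ (n ^ 40) := by
    have : ((R : ℕ) : ℝ) ≤ ((2 ^ (n ^ 40) : ℕ) : ℝ) := Nat.cast_le.mpr hR
    rwa [Nat.cast_pow, Nat.cast_ofNat] at this
  have hR1 : (1 : ℝ) ≤ R := by exact_mod_cast hR0
  calc ((R : ℝ) ^ (n ^ 100 + 1)) ^ r = (R : ℝ) ^ ((n ^ 100 + 1) * r) := by rw [← pow_mul]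
    _ ≤ (R : ℝ) ^ ((n ^ 100 + 1) * n ^ 140) :=
        pow_le_pow_right₀ hR1 (Nat.mul_le_mul_left _ h1)
    _ ≤ ((2 : ℝ) ^ (n ^ 40)) ^ ((n ^ 100 + 1) * n ^ 140) :=
        pow_le_pow_left₀ (by positivity) hRR _
    _ = (2 : ℝ) ^ (n ^ 40 * ((n ^ 100 + 1) * n ^ 140)) := by rw [← pow_mul]
    _ ≤ (2 : ℝ) ^ (2 * n ^ 280) := by
        apply pow_le_pow_right₀ (by norm_num)
        have e1 : n ^ 40 * ((n ^ 100 + 1) * n ^ 140) = n ^ 280 + n ^ 180 := by ring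
        have e2 : n ^ 180 ≤ n ^ 280 := Nat.pow_le_pow_right hn1 (by norm_num)
        rw [e1]; omega

theorem ps836_ratio (n R r : ℕ) (hn : 10 ^ 6 ≤ n) (hR0 : 1 ≤ R) (hR : R ≤ 2 ^ (n ^ 40))
    (h1 : R ^ (n ^ 100 - 2) < 2 ^ (r + 1)) :
    (R : ℝ) ^ (n ^ 100) / 2 ^ r ≤ (2 : ℝ) ^ (2 * n ^ 40 + 1) := by
  have hn1 : 1 ≤ n := by omega
  have hRR : (R : ℝ) ≤ 2 ^ (n ^ 40) := by
    have : ((R : ℕ) : ℝ) ≤ ((2 ^ (n ^ 40) : ℕ) : ℝ) := Nat.cast_le.mpr hR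
    rwa [Nat.cast_pow, Nat.cast_ofNat] at this
  have h2n : 2 ≤ n ^ 100 := by
    calc 2 ≤ n ^ 1 := by rw [pow_one]; omega
      _ ≤ n ^ 100 := Nat.pow_le_pow_right hn1 (by norm_num)
  have h1' : (R : ℝ) ^ (n ^ 100 - 2) ≤ 2 ^ (r + 1) := by
    have : ((R ^ (n ^ 100 - 2) : ℕ) : ℝ) ≤ ((2 ^ (r + 1) : ℕ) : ℝ) := Nat.cast_le.mpr h1.le
    rwa [Nat.cast_pow, Nat.cast_pow, Nat.cast_ofNat] at this
  rw [div_le_iff₀ (by positivity)]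
  have e1 : (R : ℝ) ^ (n ^ 100) = (R : ℝ) ^ (n ^ 100 - 2) * (R : ℝ) ^ 2 := by
    rw [← pow_add, Nat.sub_add_cancel h2n]
  calc (R : ℝ) ^ (n ^ 100) = (R : ℝ) ^ (n ^ 100 - 2) * (R : ℝ) ^ 2 := e1
    _ ≤ 2 ^ (r + 1) * (2 ^ (n ^ 40)) ^ 2 := by
        apply mul_le_mul h1' _ (by positivity) (by positivity)
        exact pow_le_pow_left₀ (by positivity) hRR 2
    _ = (2 : ℝ) ^ (2 * n ^ 40 + 1) * 2 ^ r := by
        rw [← pow_mul, ← pow_add, ← pow_add]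
        congr 1
        ring

theorem ps836_cast (n : ℕ) : (n : ℝ) ≤ (2 : ℝ) ^ n := by
  have h := (Nat.lt_two_pow_self (n := n)).le
  have : ((n : ℕ) : ℝ) ≤ ((2 ^ n : ℕ) : ℝ) := Nat.cast_le.mpr h
  rwa [Nat.cast_pow, Nat.cast_ofNat] at this

theorem ps836_card (n : ℕ) (hn : 10 ^ 6 ≤ n) (D ra q : ℝ) (hD0 : 0 ≤ D)
    (hD : D ≤ (2 : ℝ) ^ (2 * n ^ 280)) (hra0 : 0 ≤ ra) (hra : ra ≤ (2 : ℝ) ^ (2 * n ^ 40 + 1))
    (hq : q ≤ (4 * D / (1 / (3200 * (n : ℝ) ^ 6)) + 1) ^ 2 *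
      (256 * ((4 * n ^ 2 : ℕ) : ℝ) ^ 2 / (1 / (n : ℝ)) ^ 4 * ra) ^ (2 * n ^ 300)) :
    2 * q ≤ (2 : ℝ) ^ (n ^ 345) := by
  have hn1 : 1 ≤ n := by omega
  have hnR : (0 : ℝ) < n := by exact_mod_cast hn1
  have hc := ps836_cast n
  have hnn : 8 * n + 13 ≤ n * n := by nlinarith
  have b1 : 4 * D / (1 / (3200 * (n : ℝ) ^ 6)) + 1 ≤ (2 : ℝ) ^ (3 * n ^ 280) := by
    have e1 : 4 * D / (1 / (3200 * (n : ℝ) ^ 6)) = 12800 * (n : ℝ) ^ 6 * D := by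
      field_simp
      ring
    have e2 : (n : ℝ) ^ 6 ≤ (2 : ℝ) ^ (6 * n) := by
      calc (n : ℝ) ^ 6 ≤ ((2 : ℝ) ^ n) ^ 6 := pow_le_pow_left₀ hnR.le hc 6
        _ = (2 : ℝ) ^ (6 * n) := by rw [← pow_mul, mul_comm]
    have e3 : 12800 * (n : ℝ) ^ 6 * D ≤ (2 : ℝ) ^ (14 + 6 * n + 2 * n ^ 280) := by
      rw [pow_add, pow_add]
      apply mul_le_mul _ hD hD0 (by positivity)
      apply mul_le_mul _ e2 (by positivity) (by positivity)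
      norm_num
    have e4 : (1 : ℝ) ≤ (2 : ℝ) ^ (14 + 6 * n + 2 * n ^ 280) := one_le_pow₀ (by norm_num)
    have e5 : 14 + 6 * n + 2 * n ^ 280 + 1 ≤ 3 * n ^ 280 := by
      have : n * n ≤ n ^ 280 := by
        calc n * n = n ^ 2 := by ring
          _ ≤ n ^ 280 := Nat.pow_le_pow_right hn1 (by norm_num)
      omega
    calc 4 * D / (1 / (3200 * (n : ℝ) ^ 6)) + 1
        ≤ (2 : ℝ) ^ (14 + 6 * n + 2 * n ^ 280) + (2 : ℝ) ^ (14 + 6 * n + 2 * n ^ 280) := by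
          rw [e1]; exact add_le_add e3 e4
      _ = (2 : ℝ) ^ (14 + 6 * n + 2 * n ^ 280 + 1) := by rw [pow_succ]; ring
      _ ≤ (2 : ℝ) ^ (3 * n ^ 280) := pow_le_pow_right₀ (by norm_num) e5
  have b2 : 256 * ((4 * n ^ 2 : ℕ) : ℝ) ^ 2 / (1 / (n : ℝ)) ^ 4 * ra ≤ (2 : ℝ) ^ (3 * n ^ 40) := by
    have e1 : 256 * ((4 * n ^ 2 : ℕ) : ℝ) ^ 2 / (1 / (n : ℝ)) ^ 4 = 4096 * (n : ℝ) ^ 8 := by
      rw [Nat.cast_mul, Nat.cast_pow, Nat.cast_ofNat]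
      field_simp
      ring
    have e2 : (n : ℝ) ^ 8 ≤ (2 : ℝ) ^ (8 * n) := by
      calc (n : ℝ) ^ 8 ≤ ((2 : ℝ) ^ n) ^ 8 := pow_le_pow_left₀ hnR.le hc 8
        _ = (2 : ℝ) ^ (8 * n) := by rw [← pow_mul, mul_comm]
    have e3 : 12 + 8 * n + (2 * n ^ 40 + 1) ≤ 3 * n ^ 40 := by
      have : n * n ≤ n ^ 40 := by
        calc n * n = n ^ 2 := by ring
          _ ≤ n ^ 40 := Nat.pow_le_pow_right hn1 (by norm_num)
      omega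
    calc 256 * ((4 * n ^ 2 : ℕ) : ℝ) ^ 2 / (1 / (n : ℝ)) ^ 4 * ra
        = 4096 * (n : ℝ) ^ 8 * ra := by rw [e1]
      _ ≤ (2 : ℝ) ^ 12 * (2 : ℝ) ^ (8 * n) * (2 : ℝ) ^ (2 * n ^ 40 + 1) := by
          apply mul_le_mul _ hra hra0 (by positivity)
          apply mul_le_mul _ e2 (by positivity) (by positivity)
          norm_num
      _ = (2 : ℝ) ^ (12 + 8 * n + (2 * n ^ 40 + 1)) := by
          rw [pow_add _ (12 + 8 * n) (2 * n ^ 40 + 1), pow_add _ 12 (8 * n)]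
      _ ≤ (2 : ℝ) ^ (3 * n ^ 40) := pow_le_pow_right₀ (by norm_num) e3
  have b10 : 0 ≤ 4 * D / (1 / (3200 * (n : ℝ) ^ 6)) + 1 := by positivity
  have b20 : 0 ≤ 256 * ((4 * n ^ 2 : ℕ) : ℝ) ^ 2 / (1 / (n : ℝ)) ^ 4 * ra := by positivity
  have b3 : q ≤ ((2 : ℝ) ^ (3 * n ^ 280)) ^ 2 * ((2 : ℝ) ^ (3 * n ^ 40)) ^ (2 * n ^ 300) := by
    refine hq.trans ?_
    exact mul_le_mul (pow_le_pow_left₀ b10 b1 2) (pow_le_pow_left₀ b20 b2 _)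
      (pow_nonneg b20 _) (pow_nonneg (pow_nonneg (by norm_num) _) _)
  have e6 : 1 + (6 * n ^ 280 + 6 * n ^ 340) ≤ n ^ 345 := by
    have f1 : n ^ 280 ≤ n ^ 340 := Nat.pow_le_pow_right hn1 (by norm_num)
    have f2 : n ^ 341 ≤ n ^ 345 := Nat.pow_le_pow_right hn1 (by norm_num)
    have f3 : n ^ 341 = n ^ 340 * n := pow_succ _ _
    have f4 : 1 ≤ n ^ 340 := Nat.one_le_pow _ _ hn1
    have f5 : n ^ 340 * 13 ≤ n ^ 340 * n := Nat.mul_le_mul_left _ (by omega)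
    omega
  calc 2 * q ≤ 2 * (((2 : ℝ) ^ (3 * n ^ 280)) ^ 2 * ((2 : ℝ) ^ (3 * n ^ 40)) ^ (2 * n ^ 300)) :=
        mul_le_mul_of_nonneg_left b3 (by norm_num)
    _ = (2 : ℝ) ^ (1 + (6 * n ^ 280 + 6 * n ^ 340)) := by
        rw [← pow_mul, ← pow_mul, ← pow_add, ← pow_succ']
        congr 1
        ring
    _ ≤ (2 : ℝ) ^ (n ^ 345) := pow_le_pow_right₀ (by norm_num) e6

theorem ps836_S (R E K : ℕ) (h4 : 4 ∣ R) (hR : 0 < R) (hE : 3 ≤ E)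
    (hK : ∀ k ∈ Finset.Icc 1 K, k ∣ R) :
    ∃ (r : ℕ) (y : Fin r → ℂ), 2 ^ r ≤ R ^ (E - 2) ∧ R ^ (E - 2) < 2 ^ (r + 1) ∧
      (∀ i, y i ∈ OO R ∧ y i ≠ 0 ∧ ‖y i‖ ≤ (R : ℝ) ^ (E + 1)) ∧
      ∀ ξ ξ' : Fin r → Bool, ξ ≠ ξ' → ∀ k ∈ Finset.Icc 1 K,
        ¬ ∃ x ∈ OO R, (k : ℂ) * (YS y ξ - YS y ξ') = conj (om R) ^ E * x := by
  obtain ⟨y, hy, hs⟩ := exists_S R E K h4 hR hE hK
  refine ⟨_, y, ?_, ?_, hy, hs⟩
  · exact Nat.pow_log_le_self 2 (pow_pos hR _).ne'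
  · exact Nat.lt_pow_succ_log_self (by norm_num) _

/-- TARGET -/
theorem pack_str (n R : ℕ) (hn : 10 ^ 6 ≤ n)
    (hR : R = (n ^ 20).factorial ∨ R = 2 * (n ^ 20).factorial) :
    ∃ (r : ℕ) (y : Fin r → ℂ) (𝒜 : Finset ℕ),
      (∀ i, y i ∈ OO R ∧ y i ≠ 0) ∧ (∏ i, conj (y i)) ∈ OO R ∧
      ‖∏ i, conj (y i)‖ ≤ (2 : ℝ) ^ (2 * n ^ 280) ∧
      𝒜.card = n ^ 345 ∧ (∀ a ∈ 𝒜, a < n ^ 346) ∧
      ∀ (Λ : (ℂ → ℝ) → ℝ), IsMean Λ → ∀ θ η : ℝ, 0 ≤ θ → NearInv θ Λ {g0 R} →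
        NearInv θ Λ (famS y) → NearInv θ Λ (famE R 𝒜) →
        Λ (ind (fun z => Near (1 / (n : ℝ)) z.re)) ≤ η →
        Λ (ind (fun z => ¬ Str R (∏ i, conj (y i)) (n ^ 400) (2 ^ (n ^ 386)) z)) ≤
          64 * (n : ℝ) ^ 304 * (η + ((n : ℝ) ^ 400 + 2) * θ) := by
  obtain ⟨h4, h16, hdv, -, hR40, -⟩ := R_facts n R hn hR
  obtain ⟨hlog, hX, hA⟩ := R_facts2 n R hn hR
  clear hR
  have hn1 : 1 ≤ n := by omega
  have hnR : (0 : ℝ) < n := by exact_mod_cast hn1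
  have hn6 : (10 ^ 6 : ℝ) ≤ n := by exact_mod_cast hn
  have hE3 : 3 ≤ n ^ 100 := by
    calc 3 ≤ n ^ 1 := by rw [pow_one]; omega
      _ ≤ n ^ 100 := Nat.pow_le_pow_right hn1 (by norm_num)
  obtain ⟨r, y, hr1, hr2, hy, hsep⟩ := ps836_S R (n ^ 100) (4 * n ^ 2) h4 (by omega) hE3 hdv
  have hX1 : 1000 ≤ n ^ 346 := by
    calc 1000 ≤ n ^ 1 := by rw [pow_one]; omega
      _ ≤ n ^ 346 := Nat.pow_le_pow_right hn1 (by norm_num)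
  have hX2 : 16 * n ^ 345 ≤ n ^ 346 := by
    have f3 : n ^ 346 = n * n ^ 345 := pow_succ' _ _
    rw [f3]
    exact Nat.mul_le_mul_right _ (by omega)
  obtain ⟨𝒜, hcard, hlt, hdist⟩ := exists_EF R (n ^ 346) (n ^ 345) hX1 hX2 hlog
  have hε : (0 : ℝ) < 1 / (n : ℝ) := by positivity
  have hε8 : 1 / (n : ℝ) ≤ 1 / 8 := by
    apply one_div_le_one_div_of_le (by norm_num)
    linarith
  have hKK : 1 / (1 / (n : ℝ)) ^ 2 ≤ ((4 * n ^ 2 : ℕ) : ℝ) := by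
    rw [Nat.cast_mul, Nat.cast_pow, Nat.cast_ofNat, one_div_pow, one_div_one_div]
    have : 0 ≤ (n : ℝ) ^ 2 := by positivity
    linarith
  obtain ⟨c, hc⟩ := test_fn (1 / (n : ℝ)) hε hε8 (4 * n ^ 2) hKK
  have hM : 2 * n ^ 400 = n ^ 100 * (2 * n ^ 300) := by ring
  have hρ : (0 : ℝ) < 1 / (3200 * (n : ℝ) ^ 6) := by positivity
  have hρ2 : 200 * ((4 * n ^ 2 : ℕ) : ℝ) ^ 2 * (1 / (3200 * (n : ℝ) ^ 6)) ≤ (1 / (n : ℝ)) ^ 2 := by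
    rw [Nat.cast_mul, Nat.cast_pow, Nat.cast_ofNat]
    apply le_of_eq
    field_simp
    ring
  have hρ1 : 1 / (3200 * (n : ℝ) ^ 6) ≤ 1 := by
    rw [div_le_one (by positivity)]
    have : (1 : ℝ) ≤ (n : ℝ) ^ 6 := one_le_pow₀ (by linarith)
    linarith
  have hy' : ∀ i, y i ∈ OO R ∧ y i ≠ 0 := fun i => ⟨(hy i).1, (hy i).2.1⟩
  obtain ⟨Q, hQ, hcov⟩ := tame_cover R (n ^ 100) (4 * n ^ 2) (2 * n ^ 300) (n ^ 400) (by omega)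
    (by omega) hM y hy' hsep (1 / (n : ℝ)) hε c hc (1 / (3200 * (n : ℝ) ^ 6)) hρ hρ2
  have hDm : (∏ i, conj (y i)) ∈ OO R :=
    Subring.prod_mem _ fun i _ => ps836_conj_mem R (hy i).1
  have hr3 := ps836_r n R r hn hR40 hr1
  have hDn : ‖∏ i, conj (y i)‖ ≤ (2 : ℝ) ^ (2 * n ^ 280) := by
    refine le_trans ?_ (ps836_D n R r hn (by omega) hR40 hr3)
    rw [norm_prod]
    calc ∏ i, ‖conj (y i)‖ ≤ ∏ _i : Fin r, (R : ℝ) ^ (n ^ 100 + 1) := by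
          apply Finset.prod_le_prod
          · intro i _; exact norm_nonneg _
          · intro i _
            rw [RCLike.norm_conj]
            exact (hy i).2.2
      _ = ((R : ℝ) ^ (n ^ 100 + 1)) ^ r := by
          rw [Finset.prod_const, Finset.card_univ, Fintype.card_fin]
  have hra := ps836_ratio n R r hn (by omega) hR40 hr2
  have hQc := ps836_card n hn ‖∏ i, conj (y i)‖ ((R : ℝ) ^ (n ^ 100) / 2 ^ r) (Q.card : ℝ)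
    (norm_nonneg _) hDn (by positivity) hra hQ
  have hQc' : 2 * Q.card ≤ 2 ^ (n ^ 345) := by
    have : ((2 * Q.card : ℕ) : ℝ) ≤ ((2 ^ (n ^ 345) : ℕ) : ℝ) := by
      rw [Nat.cast_mul, Nat.cast_pow, Nat.cast_ofNat]
      exact hQc
    exact Nat.cast_le.mp this
  refine ⟨r, y, 𝒜, hy', hDm, hDn, hcard, hlt, ?_⟩
  intro Λ hΛ θ η hθ n0 nS nE hη
  have h := str_bound R (n ^ 100) (4 * n ^ 2) (2 * n ^ 300) (n ^ 400) (2 ^ (n ^ 386)) (n ^ 346)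
    (n ^ 345) (by omega) hM y hy' hDm 𝒜 hcard hlt hX hdist hA (1 / (n : ℝ)) hε c hc
    (1 / (3200 * (n : ℝ) ^ 6)) hρ hρ1 Q hQc' hcov Λ hΛ θ η hθ n0 nS nE hη
  refine h.trans (le_of_eq ?_)
  have e1 : 8 * ((4 * n ^ 2 : ℕ) : ℝ) / (1 / (n : ℝ)) ^ 2 * ((2 * n ^ 300 : ℕ) : ℝ)
      = 64 * (n : ℝ) ^ 304 := by
    rw [Nat.cast_mul, Nat.cast_mul, Nat.cast_pow, Nat.cast_pow, Nat.cast_ofNat, Nat.cast_ofNat]
    rw [one_div_pow, div_div_eq_mul_div, div_one]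
    ring
  rw [e1, Nat.cast_pow]

end MK2
export MK2 (pack_str)
end Pyj
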