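import Mathlib
import Pool.Agent.Pyj.Defs2
import Pool.Agent.Pyj.E10
import Pool.Agent.Pyj.E12
import Pool.Agent.Pyj.E7
import Pool.Agent.Pyj.E8
import Pool.Agent.Pyj.J1
import Pool.Agent.Pyj.K1
set_option autoImplicit false
set_option maxHeartbeats 4000000

namespace Pyj
open Finset ComplexConjugate
namespace MK3
theorem k3_near_mono {ε ε' x : ℝ} (h : ε ≤ ε') (hx : Near ε x) : Near ε' x := by
  obtain ⟨k, hk⟩ := hx
  exact ⟨k, hk.trans h⟩

theorem k3_norm_om (R : ℕ) (hR : 1 ≤ R) : ‖om R‖ = Real.sqrt R := by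
  have h1 : (0 : ℝ) ≤ 4 * R - 1 := by
    have : (1 : ℝ) ≤ R := by exact_mod_cast hR
    linarith
  rw [Complex.norm_def, Complex.normSq_apply]
  congr 1
  unfold om
  have h2 := Real.mul_self_sqrt h1
  simp only
  nlinarith

/-- TARGET -/
theorem pack_Y (n R : ℕ) (hn : 10 ^ 6 ≤ n)
    (hR : R = (n ^ 20).factorial ∨ R = 2 * (n ^ 20).factorial) :
    ∃ a : Fin (n ^ 1169) → ℤ,
      (∀ i, ‖yv R ((R : ℤ) ^ (n ^ 393)) (a i)‖ ≤ (R : ℝ) ^ (n ^ 393 + 1)) ∧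
      (∀ p : ℕ, p.Prime → p ≤ 2 ^ (n ^ 386) →
        ((Finset.univ.filter (fun i : Fin (n ^ 1169) => p ∣ Ny R ((R : ℤ) ^ (n ^ 393)) (a i))).card : ℝ)
          ≤ 2 / (n : ℝ) ^ 391 * ((n ^ 1169 : ℕ) : ℝ)) ∧
      P2 R (2 ^ (n ^ 386)) ((R : ℤ) ^ (n ^ 393)) (1 / (n : ℝ)) (1 / (512 * (n : ℝ) ^ 4)) a ∧
      P3 R (2 ^ (n ^ 386)) ((R : ℤ) ^ (n ^ 393)) (1 / (n : ℝ)) (1 / (512 * (n : ℝ) ^ 4)) a := by
  obtain ⟨-, h16, -, hRp, -, -⟩ := R_facts n R hn hR
  have hn1 : 1 ≤ n := le_trans (by norm_num) hn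
  have hn0 : (0 : ℝ) < n := by exact_mod_cast hn1
  have hnR : (10 : ℝ) ^ 6 ≤ n := by exact_mod_cast hn
  -- opaque exponents
  obtain ⟨e, he⟩ : ∃ e, e = n ^ 386 := ⟨_, rfl⟩
  obtain ⟨W, hW⟩ : ∃ W, W = n ^ 392 := ⟨_, rfl⟩
  obtain ⟨t, ht⟩ : ∃ t, t = n ^ 393 := ⟨_, rfl⟩
  obtain ⟨m, hm⟩ : ∃ m, m = n ^ 1169 := ⟨_, rfl⟩
  obtain ⟨A, hA⟩ : ∃ A : ℕ, A = 2 ^ e := ⟨_, rfl⟩
  rw [← he, ← ht, ← hm, ← hA]
  have hne : n ≤ e := by rw [he]; exact Nat.le_self_pow (by norm_num) n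
  have hWe : 8 * e ≤ W := by
    rw [he, hW, show (392 : ℕ) = 6 + 386 from rfl, pow_add]
    apply Nat.mul_le_mul_right
    calc 8 ≤ n := le_trans (by norm_num) hn
      _ ≤ n ^ 6 := Nat.le_self_pow (by norm_num) n
  have htW : t = n * W := by
    rw [ht, hW, show (393 : ℕ) = 392 + 1 from rfl, pow_succ, mul_comm]
  have htW' : 10 ^ 6 * W ≤ t := by rw [htW]; exact Nat.mul_le_mul_right _ hn
  have he1 : 1 ≤ e := hn1.trans hne
  have hA2 : 2 ≤ A := by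
    rw [hA]
    calc 2 = 2 ^ 1 := by norm_num
      _ ≤ 2 ^ e := Nat.pow_le_pow_right (by norm_num) he1
  have hA0 : (0 : ℝ) < A := by
    have : 0 < A := by omega
    exact_mod_cast this
  have hW1 : 1 ≤ W := by omega
  have ht1 : 1 ≤ t := by omega
  -- powers of two
  have hRt : ∀ x : ℕ, x ≤ 4 * t → 2 ^ x ≤ R ^ t := by
    intro x hx
    calc 2 ^ x ≤ 2 ^ (4 * t) := Nat.pow_le_pow_right (by norm_num) hx
      _ = (2 ^ 4) ^ t := by rw [pow_mul]
      _ ≤ R ^ t := Nat.pow_le_pow_left (by norm_num; exact h16) t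
  obtain ⟨P, hP⟩ : ∃ P, P = primorial W := ⟨_, rfl⟩
  have hP0 : 0 < P := by rw [hP]; exact primorial_pos W
  have hP4 : P ≤ 2 ^ (2 * W) := by
    rw [hP, pow_mul]
    exact primorial_le_four_pow W
  have hR1 : 1 ≤ R := by omega
  have hRt0 : 0 < R ^ t := Nat.pow_pos (by omega)
  set c0 : ℕ := Nat.sqrt (4 * R) + 1 with hc0
  have hc01 : 1 ≤ c0 := by omega
  obtain ⟨J, hJ⟩ : ∃ J, J = 2 * (c0 * R ^ t) / P := ⟨_, rfl⟩
  have hle2 : R ^ t ≤ 2 * (c0 * R ^ t) := by nlinarith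
  have hWJ : W ≤ J := by
    rw [hJ, Nat.le_div_iff_mul_le hP0]
    calc W * P ≤ 2 ^ W * 2 ^ (2 * W) := Nat.mul_le_mul (Nat.lt_two_pow_self).le hP4
      _ = 2 ^ (W + 2 * W) := by rw [pow_add]
      _ ≤ R ^ t := hRt _ (by omega)
      _ ≤ _ := hle2
  have hJA : 2 * A ≤ J := by
    rw [hJ, Nat.le_div_iff_mul_le hP0]
    calc 2 * A * P ≤ 2 * 2 ^ e * 2 ^ (2 * W) := Nat.mul_le_mul (by rw [hA]) hP4
      _ = 2 ^ (1 + e + 2 * W) := by rw [pow_add, pow_add, pow_one]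
      _ ≤ R ^ t := hRt _ (by omega)
      _ ≤ _ := hle2
  have hJ1n : J * P ≤ 2 * (c0 * R ^ t) := by rw [hJ]; exact Nat.div_mul_le_self _ _
  have hJ2n : 2 * (c0 * R ^ t) ≤ (J + 1) * P := by
    rw [hJ, mul_comm _ P]
    exact (Nat.lt_mul_div_succ _ hP0).le
  -- the integer b
  obtain ⟨b, hb⟩ : ∃ b : ℤ, b = (R : ℤ) ^ t := ⟨_, rfl⟩
  have hbN : b = ((R ^ t : ℕ) : ℤ) := by rw [hb]; push_cast; rfl
  have hbR : (b : ℝ) = (R : ℝ) ^ t := by rw [hb]; push_cast; rfl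
  have hbRN : (b : ℝ) = ((R ^ t : ℕ) : ℝ) := by rw [hbN]; push_cast; rfl
  have hb0 : 0 < b := by rw [hbN]; exact_mod_cast hRt0
  rw [← hb]
  have hJ1 : (J : ℤ) * (P : ℤ) ≤ 2 * ((c0 : ℕ) * b) := by
    rw [hbN]; exact_mod_cast hJ1n
  have hJ2 : 2 * ((c0 : ℕ) * b) ≤ ((J : ℤ) + 1) * (P : ℤ) := by
    rw [hbN]; exact_mod_cast hJ2n
  set a0 : ℤ := -((c0 : ℕ) * b) with ha0
  -- size estimates
  have hPpos : (0 : ℝ) < P := by exact_mod_cast hP0
  have hs1 : (n : ℝ) * (1000 * P * (A + 1)) ≤ b := by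
    rw [hbRN]
    have h1 : n * (1000 * P * (A + 1)) ≤ R ^ t := by
      calc n * (1000 * P * (A + 1)) ≤ 2 ^ n * (2 ^ 10 * 2 ^ (2 * W) * (2 ^ 1 * 2 ^ e)) := by
            apply Nat.mul_le_mul (Nat.lt_two_pow_self).le
            apply Nat.mul_le_mul
            · exact Nat.mul_le_mul (by norm_num) hP4
            · rw [← hA]; omega
        _ = 2 ^ (n + (10 + 2 * W + (1 + e))) := by simp only [pow_add]
        _ ≤ R ^ t := hRt _ (by omega)
    exact_mod_cast h1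
  have hv1 : (n : ℝ) * (16 * (A + 1) * (P * A)) ≤ b := by
    rw [hbRN]
    have h1 : n * (16 * (A + 1) * (P * A)) ≤ R ^ t := by
      calc n * (16 * (A + 1) * (P * A)) ≤ 2 ^ n * (2 ^ 4 * (2 ^ 1 * 2 ^ e) * (2 ^ (2 * W) * 2 ^ e)) := by
            apply Nat.mul_le_mul (Nat.lt_two_pow_self).le
            apply Nat.mul_le_mul
            · apply Nat.mul_le_mul (by norm_num)
              rw [← hA]; omega
            · exact Nat.mul_le_mul hP4 (by rw [hA])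
        _ = 2 ^ (n + (4 + (1 + e) + (2 * W + e))) := by simp only [pow_add]
        _ ≤ R ^ t := hRt _ (by omega)
    exact_mod_cast h1
  -- the sample space
  have hcard : (Om R b P a0 J).card = J * nu R b P := card_Om R b P hP0 a0 J
  have hnu : 0 < nu R b P := by
    rw [hb, hP]
    exact nu_pos R (n ^ 20) W t hRp (by omega) ht1
  have hΩ : (Om R b P a0 J).Nonempty := by
    rw [← Finset.card_pos, hcard]
    exact Nat.mul_pos (by omega) hnu
  have hδpos : (0 : ℝ) < 1 / (n : ℝ) ^ 391 := by positivity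
  have hn1R : (1 : ℝ) ≤ n := by exact_mod_cast hn1
  have hδ1 : 1 / (n : ℝ) ^ 391 ≤ 1 := by
    rw [div_le_one (by positivity)]
    exact one_le_pow₀ hn1R
  have hδW : 4 ≤ 1 / (n : ℝ) ^ 391 * W := by
    have h1 : (W : ℝ) = (n : ℝ) ^ 391 * n := by
      rw [hW]; push_cast
      rw [← pow_succ]
    rw [h1]
    have h2 : 1 / (n : ℝ) ^ 391 * ((n : ℝ) ^ 391 * n) = n := by
      have : (n : ℝ) ^ 391 ≠ 0 := by positivity
      field_simp
    rw [h2]
    linarith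
  -- the test function
  have hε1 : (0 : ℝ) < 1 / (2 * n) := by positivity
  have hε18 : (1 : ℝ) / (2 * n) ≤ 1 / 8 := by
    apply one_div_le_one_div_of_le (by norm_num)
    linarith
  obtain ⟨cc, hcc⟩ := test_fn (1 / (2 * n)) hε1 hε18 (4 * n ^ 2) (by
    push_cast
    have : (1 : ℝ) / (1 / (2 * n)) ^ 2 = 4 * n ^ 2 := by
      field_simp
      ring
    rw [this])
  have hcval : (1 / (2 * (n : ℝ))) ^ 2 / (16 * ((4 * n ^ 2 : ℕ) : ℝ)) = 1 / (256 * (n : ℝ) ^ 4) := by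
    push_cast
    field_simp
    ring
  have hlog : Real.logb 2 (A : ℝ) = e := by
    rw [hA]
    push_cast
    rw [Real.logb_pow, Real.logb_self_eq_one (by norm_num), mul_one]
  have hprime : ∀ p : ℕ, p.Prime → p ≤ n ^ 20 → p ∣ R := fun p hp h => (hRp p hp).2 h
  have h20 : n ≤ n ^ 20 := Nat.le_self_pow (by norm_num) n
  have f1 : ∀ p : ℕ, p.Prime → p ≤ A →
      (((Om R b P a0 J).filter (fun a : ℤ => p ∣ Ny R b a)).card : ℝ) ≤
        1 / (n : ℝ) ^ 391 * (Om R b P a0 J).card := by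
    intro p hp _
    rw [hP]
    exact full_P1 R W J b a0 hW1 hWJ _ hδW p hp
  have f2 : ∀ nl : ℕ, 1 ≤ nl → nl ≤ A → nl.Coprime R → ∀ lam mu : ℤ,
      ¬ ((nl : ℤ) ∣ lam ∧ (nl : ℤ) ∣ mu) → ∀ x : ℝ, ∀ t : ℂ, ‖t‖ ≤ A + 1 →
      ∃ I : Finset ℤ, I ⊆ Om R b P a0 J ∧ (∀ a ∈ I, Near (3 / 4 * (1 / (n : ℝ)))
        ((t * gv R b a).re + x + ph nl R b lam mu a)) ∧
        1 / (256 * (n : ℝ) ^ 4) * (Om R b P a0 J).card ≤ (I.card : ℝ) := by
    intro nl hnl1 hnlA hnlc lam mu hnc x z hz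
    have hbc : IsCoprime b (nl : ℤ) := by
      rw [hb]
      apply IsCoprime.pow_left
      exact Nat.isCoprime_iff_coprime.2 hnlc.symm
    obtain ⟨I, hI1, hI2, hI3⟩ := full_P2 R (n ^ 20) W A J hR1 hA2
      (le_trans (le_trans (by norm_num) hn) h20) hprime
      (by rw [hlog]; exact_mod_cast hWe) hJA nl hnl1 hnlA hnlc b hb0 hbc lam mu hnc
      (768 * (n : ℝ) ^ 4) (by positivity) (by
        push_cast
        have h1 : (768 * (n : ℝ) ^ 4) ^ 4 = 768 ^ 4 * (n : ℝ) ^ 16 := by ring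
        have h2 : (n : ℝ) ^ 20 = (n : ℝ) ^ 4 * (n : ℝ) ^ 16 := by ring
        rw [h1, h2]
        have h3 : (768 : ℝ) ^ 4 ≤ (n : ℝ) ^ 4 := by
          apply pow_le_pow_left₀ (by norm_num)
          linarith
        gcongr) (1 / (2 * n)) hε1 (4 * n ^ 2) (by
        calc 4 * n ^ 2 ≤ n * n ^ 2 := Nat.mul_le_mul_right _ (le_trans (by norm_num) hn)
          _ = n ^ 3 := by ring
          _ ≤ n ^ 20 := Nat.pow_le_pow_right hn1 (by norm_num)) cc hcc (by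
        push_cast
        have : (1 / (2 * (n : ℝ))) ^ 2 * (768 * (n : ℝ) ^ 4) = 48 * (4 * (n : ℝ) ^ 2) := by
          field_simp
          ring
        rw [this]) x a0 z ((A : ℝ) + 1) (1 / (4 * n)) hz (by
        rw [← hP]
        have h1 : 1 / (4 * (n : ℝ)) * b = b / (4 * n) := by ring
        rw [h1, le_div_iff₀ (by positivity)]
        calc 4 * ((A : ℝ) + 1) * (P * A) * (4 * n) = (n : ℝ) * (16 * (A + 1) * (P * A)) := by ring
          _ ≤ b := hv1)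
    rw [← hP] at hI1 hI3
    refine ⟨I, hI1, ?_, ?_⟩
    · intro a ha
      have h1 : (1 : ℝ) / (2 * n) + 1 / (4 * n) = 3 / 4 * (1 / n) := by
        field_simp
        norm_num
      rw [← h1]
      exact hI2 a ha
    · rw [hcval] at hI3
      exact hI3
  have f3 : ∀ t : ℂ, ‖t‖ ≤ A + 1 → ∃ I : Finset ℤ, I ⊆ Om R b P a0 J ∧
      (∀ a ∈ I, Near (3 / 4 * (1 / (n : ℝ))) (t * gv R b a).re) ∧
      1 / (256 * (n : ℝ) ^ 4) * (Om R b P a0 J).card ≤ (I.card : ℝ) := by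
    intro z hz
    obtain ⟨I, hI1, hI2, hI3⟩ := full_P3 R P J (by omega) hP0 b hb0 (1 / n) (A + 1)
      (by positivity) (by rw [div_le_one hn0]; exact hn1R) (by linarith) (by
        have h1 : 1 / (n : ℝ) * b = b / n := by ring
        rw [h1, le_div_iff₀ hn0]
        calc 1000 * (P : ℝ) * ((A : ℝ) + 1) * n = (n : ℝ) * (1000 * P * (A + 1)) := by ring
          _ ≤ b := hs1) hJ1 hJ2 z hz
    refine ⟨I, hI1, ?_, ?_⟩
    · intro a ha
      refine k3_near_mono ?_ (hI2 a ha)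
      have : (0 : ℝ) < 1 / n := by positivity
      linarith
    · refine le_trans ?_ hI3
      apply mul_le_mul_of_nonneg_right _ (Nat.cast_nonneg _)
      rw [div_div, div_le_div_iff₀ (by positivity) (by positivity)]
      have h3 : (n : ℝ) ≤ (n : ℝ) ^ 4 := le_self_pow₀ hn1R (by norm_num)
      have h4 : (10 : ℝ) ^ 6 * n ≤ (n : ℝ) ^ 4 := by
        have h5 : (n : ℝ) ^ 2 ≤ (n : ℝ) ^ 4 := pow_le_pow_right₀ hn1R (by norm_num)
        nlinarith
      nlinarith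
  -- the number of samples
  have hmlog : 100 * Real.log (100 * A / (1 / (n : ℝ))) ≤ (1 / (n : ℝ) ^ 391) ^ 2 * (m : ℝ) := by
    have h1 : (1 / (n : ℝ) ^ 391) ^ 2 * (m : ℝ) = (n : ℝ) ^ 387 := by
      rw [hm]
      push_cast
      have h2 : (n : ℝ) ^ 1169 = ((n : ℝ) ^ 391) ^ 2 * (n : ℝ) ^ 387 := by ring
      rw [h2, div_pow, one_pow]
      have h3 : ((n : ℝ) ^ 391) ^ 2 ≠ 0 := by positivity
      field_simp
    rw [h1]
    have h4 : (100 : ℝ) * A / (1 / (n : ℝ)) = (A : ℝ) * (100 * n) := by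
      field_simp
    rw [h4, Real.log_mul hA0.ne' (by positivity)]
    have h5 : Real.log (A : ℝ) ≤ e := by
      rw [hA]
      push_cast
      rw [Real.log_pow]
      have h6 : Real.log 2 ≤ 1 := by
        have := Real.log_two_lt_d9
        linarith
      have h7 : (0 : ℝ) ≤ e := Nat.cast_nonneg _
      nlinarith
    have h8 : Real.log (100 * (n : ℝ)) ≤ 100 * n := by
      have := Real.log_le_sub_one_of_pos (x := 100 * (n : ℝ)) (by positivity)
      linarith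
    have h9 : (n : ℝ) ≤ e := by exact_mod_cast hne
    have h10 : (n : ℝ) ^ 387 = n * (e : ℝ) := by
      rw [he]
      push_cast
      rw [show (387 : ℕ) = 386 + 1 from rfl, pow_succ, mul_comm]
    rw [h10]
    have h11 : (0 : ℝ) ≤ e := Nat.cast_nonneg _
    calc 100 * (Real.log (A : ℝ) + Real.log (100 * (n : ℝ))) ≤ 100 * (e + 100 * n) := by gcongr
      _ ≤ 100 * (e + 100 * e) := by gcongr
      _ = 10100 * e := by ring
      _ ≤ n * e := by
        apply mul_le_mul_of_nonneg_right _ h11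
        linarith
  have h2δ : 2 * (1 / (n : ℝ) ^ 391) ≤ 1 / (256 * (n : ℝ) ^ 4) := by
    rw [mul_one_div, div_le_div_iff₀ (by positivity) (by positivity)]
    have h1 : (n : ℝ) ^ 5 ≤ (n : ℝ) ^ 391 := pow_le_pow_right₀ hn1R (by norm_num)
    have h2 : (n : ℝ) ^ 5 = n * (n : ℝ) ^ 4 := by ring
    have h3 : (0 : ℝ) < (n : ℝ) ^ 4 := by positivity
    nlinarith
  obtain ⟨a, ha1, ha2, ha3, ha4⟩ := sample_family R A hR1 hA2 b hb0.ne' (Om R b P a0 J) hΩ
    (1 / n) (1 / (n : ℝ) ^ 391) (1 / (256 * (n : ℝ) ^ 4)) (by positivity)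
    (by rw [div_le_one hn0]; exact hn1R) hδpos hδ1 h2δ f1 f2 f3 m hmlog
  have hc2 : 1 / (256 * (n : ℝ) ^ 4) / 2 = 1 / (512 * (n : ℝ) ^ 4) := by
    field_simp
    norm_num
  rw [hc2] at ha3 ha4
  refine ⟨a, ?_, ?_, ha3, ha4⟩
  · intro i
    have hmem := ha1 i
    unfold Om at hmem
    rw [Finset.mem_filter, Finset.mem_Ico] at hmem
    obtain ⟨⟨hl, hu⟩, -⟩ := hmem
    have hl' : -((c0 : ℤ) * b) ≤ a i := hl
    have hu' : a i ≤ (c0 : ℤ) * b := by
      have : a i < -((c0 : ℤ) * b) + J * P := hu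
      have h3 : (J : ℤ) * (P : ℤ) ≤ 2 * ((c0 : ℤ) * b) := hJ1
      linarith
    have habs : |(a i : ℝ)| ≤ c0 * b := by
      rw [abs_le]
      constructor
      · have : ((-((c0 : ℤ) * b) : ℤ) : ℝ) ≤ a i := by exact_mod_cast hl'
        push_cast at this
        exact this
      · have : ((a i : ℤ) : ℝ) ≤ (((c0 : ℤ) * b : ℤ) : ℝ) := by exact_mod_cast hu'
        push_cast at this
        exact this
    have hb0R : (0 : ℝ) < b := by exact_mod_cast hb0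
    have hsq4 : (4 : ℝ) ≤ Real.sqrt R := by
      rw [show (4 : ℝ) = Real.sqrt (4 ^ 2) by rw [Real.sqrt_sq (by norm_num)]]
      apply Real.sqrt_le_sqrt
      have : (16 : ℝ) ≤ R := by exact_mod_cast h16
      linarith
    have hsqR : Real.sqrt R * Real.sqrt R = R := Real.mul_self_sqrt (Nat.cast_nonneg _)
    have hc0R : (c0 : ℝ) ≤ 2 * Real.sqrt R + 1 := by
      rw [hc0]
      push_cast
      have h3 : ((Nat.sqrt (4 * R) : ℕ) : ℝ) ≤ Real.sqrt ((4 * R : ℕ) : ℝ) := Real.nat_sqrt_le_real_sqrt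
      have h4 : Real.sqrt ((4 * R : ℕ) : ℝ) = 2 * Real.sqrt R := by
        push_cast
        rw [Real.sqrt_mul (by norm_num), show (4 : ℝ) = 2 ^ 2 by norm_num, Real.sqrt_sq (by norm_num)]
      linarith
    unfold yv
    calc ‖((a i : ℤ) : ℂ) + (b : ℂ) * om R‖ ≤ ‖((a i : ℤ) : ℂ)‖ + ‖(b : ℂ) * om R‖ := norm_add_le _ _
      _ = |(a i : ℝ)| + b * Real.sqrt R := by
          rw [norm_mul, k3_norm_om R hR1, Complex.norm_intCast, Complex.norm_intCast,
            abs_of_pos hb0R]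
      _ ≤ (2 * Real.sqrt R + 1) * b + b * Real.sqrt R := by
          have : (c0 : ℝ) * b ≤ (2 * Real.sqrt R + 1) * b := by gcongr
          linarith
      _ = (3 * Real.sqrt R + 1) * b := by ring
      _ ≤ R * b := by
          apply mul_le_mul_of_nonneg_right _ hb0R.le
          nlinarith
      _ = (R : ℝ) ^ (t + 1) := by rw [hbR, pow_succ, mul_comm]
  · intro p hp hpA
    have h1 := ha2 p hp hpA
    have h3 : 2 * (1 / (n : ℝ) ^ 391) = 2 / (n : ℝ) ^ 391 := by ring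
    rw [h3] at h1
    exact h1

end MK3
export MK3 (pack_Y)
end Pyj
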