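import Mathlib
import Pool.Agent.Pyj.Defs2
import Pool.Agent.Pyj.J14
import Pool.Agent.Pyj.J15
import Pool.Agent.Pyj.J16
import Pool.Agent.Pyj.K1
set_option autoImplicit false
set_option maxHeartbeats 4000000

namespace Pyj
open Finset ComplexConjugate
namespace MK4
theorem mh_pow {N x : ℝ} (h : N * x = 1) (a b : ℕ) : N ^ a * x ^ (a + b) = x ^ b := by
  rw [pow_add, ← mul_assoc, ← mul_pow, h, one_pow, one_mul]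

theorem mh_num (N : ℝ) (hN : 10 ^ 6 ≤ N) :
    2 * (1 / N ^ 720) + 4 * (1 / N ^ 1130) +
      4 * (64 * N ^ 304 * (1 / N ^ 720 + (N ^ 400 + 2) * (1 / N ^ 1130))) +
      2 * (N ^ 386 * (2 * (1 / N ^ 1130) + 2 * (2 / N ^ 391) +
        64 * N ^ 304 * (1 / N ^ 720 + (N ^ 400 + 2) * (1 / N ^ 1130)))) < 1 / (512 * N ^ 4) := by
  have hNp : 0 < N := by linarith [show (0 : ℝ) < 10 ^ 6 by norm_num]
  obtain ⟨x, hx⟩ : ∃ x : ℝ, x = 1 / N := ⟨_, rfl⟩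
  have hNx : N * x = 1 := by rw [hx]; field_simp
  have hxp : 0 < x := by rw [hx]; positivity
  have hx6 : x ≤ 1 / 10 ^ 6 := by
    rw [hx]
    exact one_div_le_one_div_of_le (by norm_num) hN
  have hx1 : x ≤ 1 := hx6.trans (by norm_num)
  have e : ∀ k : ℕ, 1 / N ^ k = x ^ k := by
    intro k
    rw [hx, div_pow, one_pow]
  have e391 : 2 / N ^ 391 = 2 * x ^ 391 := by rw [← e, mul_one_div]
  have e4 : 1 / (512 * N ^ 4) = x ^ 4 / 512 := by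
    rw [← e]
    field_simp
  rw [e4, e391, e, e]
  have p1 : N ^ 304 * x ^ 720 = x ^ 416 := mh_pow hNx 304 416
  have p2 : N ^ 304 * (N ^ 400 * x ^ 1130) = x ^ 426 := by
    rw [← mul_assoc, ← pow_add]
    exact mh_pow hNx 704 426
  have p3 : N ^ 304 * x ^ 1130 = x ^ 826 := mh_pow hNx 304 826
  have p4 : N ^ 386 * x ^ 1130 = x ^ 744 := mh_pow hNx 386 744
  have p5 : N ^ 386 * x ^ 391 = x ^ 5 := mh_pow hNx 386 5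
  have p6 : N ^ 386 * x ^ 416 = x ^ 30 := mh_pow hNx 386 30
  have p7 : N ^ 386 * x ^ 426 = x ^ 40 := mh_pow hNx 386 40
  have p8 : N ^ 386 * x ^ 826 = x ^ 440 := mh_pow hNx 386 440
  have q1 : 64 * N ^ 304 * (x ^ 720 + (N ^ 400 + 2) * x ^ 1130) =
      64 * (x ^ 416 + x ^ 426 + 2 * x ^ 826) := by
    rw [← p1, ← p2, ← p3]
    generalize N ^ 304 = a
    generalize N ^ 400 = b
    generalize x ^ 720 = c
    generalize x ^ 1130 = d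
    ring
  rw [q1]
  have q2 : N ^ 386 * (2 * x ^ 1130 + 2 * (2 * x ^ 391) + 64 * (x ^ 416 + x ^ 426 + 2 * x ^ 826)) =
      2 * x ^ 744 + 4 * x ^ 5 + 64 * (x ^ 30 + x ^ 40 + 2 * x ^ 440) := by
    rw [← p4, ← p5, ← p6, ← p7, ← p8]
    generalize N ^ 386 = a
    generalize x ^ 1130 = b
    generalize x ^ 391 = c
    generalize x ^ 416 = d
    generalize x ^ 426 = f
    generalize x ^ 826 = g
    ring
  rw [q2]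
  have m : ∀ k : ℕ, 6 ≤ k → x ^ k ≤ x ^ 6 := fun k hk =>
    pow_le_pow_of_le_one hxp.le hx1 hk
  have m1 := m 720 (by norm_num)
  have m2 := m 1130 (by norm_num)
  have m3 := m 416 (by norm_num)
  have m4 := m 426 (by norm_num)
  have m5 := m 826 (by norm_num)
  have m6 := m 744 (by norm_num)
  have m7 := m 30 (by norm_num)
  have m8 := m 40 (by norm_num)
  have m9 := m 440 (by norm_num)
  have h6 : x ^ 6 ≤ x ^ 5 / 10 ^ 6 := by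
    have : x ^ 6 = x ^ 5 * x := by ring
    rw [this, div_eq_mul_one_div]
    exact mul_le_mul_of_nonneg_left hx6 (by positivity)
  have h5 : x ^ 5 ≤ x ^ 4 / 10 ^ 6 := by
    have : x ^ 5 = x ^ 4 * x := by ring
    rw [this, div_eq_mul_one_div]
    exact mul_le_mul_of_nonneg_left hx6 (by positivity)
  have h4 : 0 < x ^ 4 := by positivity
  have h5' : 0 < x ^ 5 := by positivity
  linarith

/-- TARGET -/
theorem mean_hit (n R1 R2 : ℕ) (hn : 10 ^ 6 ≤ n) (hR1 : R1 = (n ^ 20).factorial)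
    (hR2 : R2 = 2 * (n ^ 20).factorial) (D1 D2 : ℂ) (hD1 : D1 ∈ OO R1) (hD10 : D1 ≠ 0)
    (hD2 : D2 ∈ OO R2) (hD20 : D2 ≠ 0) (F1 F2 : List (Multiset ℂ))
    (hs1 : ∀ (Λ : (ℂ → ℝ) → ℝ), IsMean Λ → ∀ θ η : ℝ, 0 ≤ θ → (∀ l ∈ F1, NearInv θ Λ l) →
        Λ (ind (fun z => Near (1 / (n : ℝ)) z.re)) ≤ η →
        Λ (ind (fun z => ¬ Str R1 D1 (n ^ 400) (2 ^ (n ^ 386)) z)) ≤
          64 * (n : ℝ) ^ 304 * (η + ((n : ℝ) ^ 400 + 2) * θ))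
    (hs2 : ∀ (Λ : (ℂ → ℝ) → ℝ), IsMean Λ → ∀ θ η : ℝ, 0 ≤ θ → (∀ l ∈ F2, NearInv θ Λ l) →
        Λ (ind (fun z => Near (1 / (n : ℝ)) z.re)) ≤ η →
        Λ (ind (fun z => ¬ Str R2 D2 (n ^ 400) (2 ^ (n ^ 386)) z)) ≤
          64 * (n : ℝ) ^ 304 * (η + ((n : ℝ) ^ 400 + 2) * θ))
    (a1 a2 : Fin (n ^ 1169) → ℤ)
    (hy1 : ∀ i, ‖yv R1 ((R1 : ℤ) ^ (n ^ 393)) (a1 i)‖ ≤ (R1 : ℝ) ^ (n ^ 393 + 1))
    (hy2 : ∀ i, ‖yv R2 ((R2 : ℤ) ^ (n ^ 393)) (a2 i)‖ ≤ (R2 : ℝ) ^ (n ^ 393 + 1))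
    (hp1 : ∀ p : ℕ, p.Prime → p ≤ 2 ^ (n ^ 386) →
        ((Finset.univ.filter (fun i : Fin (n ^ 1169) => p ∣ Ny R1 ((R1 : ℤ) ^ (n ^ 393)) (a1 i))).card : ℝ)
          ≤ 2 / (n : ℝ) ^ 391 * ((n ^ 1169 : ℕ) : ℝ))
    (hp2 : ∀ p : ℕ, p.Prime → p ≤ 2 ^ (n ^ 386) →
        ((Finset.univ.filter (fun i : Fin (n ^ 1169) => p ∣ Ny R2 ((R2 : ℤ) ^ (n ^ 393)) (a2 i))).card : ℝ)
          ≤ 2 / (n : ℝ) ^ 391 * ((n ^ 1169 : ℕ) : ℝ))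
    (p21 : P2 R1 (2 ^ (n ^ 386)) ((R1 : ℤ) ^ (n ^ 393)) (1 / (n : ℝ)) (1 / (512 * (n : ℝ) ^ 4)) a1)
    (p31 : P3 R1 (2 ^ (n ^ 386)) ((R1 : ℤ) ^ (n ^ 393)) (1 / (n : ℝ)) (1 / (512 * (n : ℝ) ^ 4)) a1)
    (p22 : P2 R2 (2 ^ (n ^ 386)) ((R2 : ℤ) ^ (n ^ 393)) (1 / (n : ℝ)) (1 / (512 * (n : ℝ) ^ 4)) a2)
    (Λ : (ℂ → ℝ) → ℝ) (hΛ : IsMean Λ)
    (n1 : ∀ l ∈ F1, NearInv (1 / (n : ℝ) ^ 1130) Λ l)
    (n2 : ∀ l ∈ F2, NearInv (1 / (n : ℝ) ^ 1130) Λ l)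
    (n3 : NearInv (1 / (n : ℝ) ^ 1130) Λ (famY R1 ((R1 : ℤ) ^ (n ^ 393)) a1))
    (n4 : NearInv (1 / (n : ℝ) ^ 1130) Λ (famY R2 ((R2 : ℤ) ^ (n ^ 393)) a2)) :
    1 / (n : ℝ) ^ 720 ≤ Λ (ind (fun z => Near (1 / (n : ℝ)) z.re)) := by
  by_contra hcon
  rw [not_le] at hcon
  have hη := hcon.le
  have hn1 : 1 < n := by omega
  have hn0 : 0 < n := by omega
  have hNr : (10 : ℝ) ^ 6 ≤ (n : ℝ) := by exact_mod_cast hn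
  have hNp : (0 : ℝ) < (n : ℝ) := by exact_mod_cast hn0
  have hθ : (0 : ℝ) ≤ 1 / (n : ℝ) ^ 1130 := by positivity
  have h21 := hs1 Λ hΛ _ _ hθ n1 hη
  have h22 := hs2 Λ hΛ _ _ hθ n2 hη
  have hA2 : 2 ≤ 2 ^ (n ^ 386) := by
    calc 2 = 2 ^ 1 := (pow_one 2).symm
      _ ≤ 2 ^ (n ^ 386) := Nat.pow_le_pow_right (by norm_num) (Nat.one_le_pow _ _ hn0)
  have hAM : 2 ^ (n ^ 386) < 2 ^ (n ^ 400) :=
    Nat.pow_lt_pow_right (by norm_num) (Nat.pow_lt_pow_right hn1 (by norm_num))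
  have hbig1 := R_big n R1 hn (Or.inl hR1)
  have hbig2 := R_big n R2 hn (Or.inr hR2)
  obtain ⟨-, hR16, -⟩ := R_facts n R1 hn (Or.inl hR1)
  obtain ⟨-, hR26, -⟩ := R_facts n R2 hn (Or.inr hR2)
  have hR12 : R1 ≤ 2 * (n ^ 20).factorial := by rw [hR1]; omega
  have hR22 : R2 ≤ 2 * (n ^ 20).factorial := hR2.le
  have h12 : R2 = 2 * R1 := by rw [hR2, hR1]
  obtain ⟨Y, hYdef⟩ : ∃ Y : ℝ, Y = ((2 * (n ^ 20).factorial : ℕ) : ℝ) ^ (n ^ 393 + 1) := ⟨_, rfl⟩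
  rw [← hYdef] at hbig1 hbig2
  have hF1 : (1 : ℝ) ≤ ((2 * (n ^ 20).factorial : ℕ) : ℝ) := by
    have : 1 ≤ 2 * (n ^ 20).factorial := le_trans (by omega) hR12
    exact_mod_cast this
  have hY : 1 ≤ Y := by rw [hYdef]; exact one_le_pow₀ hF1
  have hy1' : ∀ i, ‖yv R1 ((R1 : ℤ) ^ (n ^ 393)) (a1 i)‖ ≤ Y := by
    intro i
    refine (hy1 i).trans ?_
    rw [hYdef]
    exact pow_le_pow_left₀ (Nat.cast_nonneg _) (Nat.cast_le.2 hR12) _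
  have hy2' : ∀ i, ‖yv R2 ((R2 : ℤ) ^ (n ^ 393)) (a2 i)‖ ≤ Y := by
    intro i
    refine (hy2 i).trans ?_
    rw [hYdef]
    exact pow_le_pow_left₀ (Nat.cast_nonneg _) (Nat.cast_le.2 hR22) _
  have hb1 : ((R1 : ℤ) ^ (n ^ 393)) ≠ 0 := pow_ne_zero _ (by
    have : R1 ≠ 0 := by omega
    exact_mod_cast this)
  have hb2 : ((R2 : ℤ) ^ (n ^ 393)) ≠ 0 := pow_ne_zero _ (by
    have : R2 ≠ 0 := by omega
    exact_mod_cast this)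
  have hm : 1 ≤ n ^ 1169 := Nat.one_le_pow _ _ hn0
  have hδ : (0 : ℝ) ≤ 2 / (n : ℝ) ^ 391 := by positivity
  have h31 := stat_defect R1 (by omega) D1 hD1 hD10 (n ^ 400) (2 ^ (n ^ 386)) hA2 Y hY hbig1
    _ hb1 hm a1 hy1' _ hδ hp1 Λ hΛ _ _ hθ n3 h21
  have h32 := stat_defect R2 (by omega) D2 hD2 hD20 (n ^ 400) (2 ^ (n ^ 386)) hA2 Y hY hbig2
    _ hb2 hm a2 hy2' _ hδ hp2 Λ hΛ _ _ hθ n4 h22
  have hlog : Real.logb 2 ((2 ^ (n ^ 386) : ℕ) : ℝ) = (n : ℝ) ^ 386 := by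
    rw [Nat.cast_pow, Nat.cast_ofNat, Real.logb_pow, Real.logb_self_eq_one (by norm_num), mul_one,
      Nat.cast_pow]
  rw [hlog] at h31 h32
  have hc0 : (0 : ℝ) ≤ 1 / (512 * (n : ℝ) ^ 4) := by positivity
  have hc1 : 1 / (512 * (n : ℝ) ^ 4) ≤ 1 := by
    rw [div_le_one (by positivity)]
    have : (1 : ℝ) ≤ (n : ℝ) ^ 4 := one_le_pow₀ (by linarith [show (1 : ℝ) ≤ 10 ^ 6 by norm_num])
    linarith
  have hpt := final_point R1 R2 h12 (by omega) D1 D2 hD1 hD10 hD2 hD20 (n ^ 400) (2 ^ (n ^ 386))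
    hAM Y hY hbig1 hbig2 _ _ hb1 hb2 hm hm a1 a2 hy1' hy2' _ _ hc0 p21 p31 p22
  have hfin := core_mean R1 R2 D1 D2 (n ^ 400) (2 ^ (n ^ 386)) _ _ hm hm a1 a2 _ _ hc0 hc1 hpt
    Λ hΛ _ _ _ _ n3 n4 hη h21 h22 h31 h32
  exact absurd hfin (not_le.2 (mh_num (n : ℝ) hNr))

end MK4
export MK4 (mean_hit)
end Pyj
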