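import Mathlib
import Pool.Agent.Pyj.Defs2
set_option autoImplicit false
set_option maxHeartbeats 4000000

namespace Pyj
open Finset ComplexConjugate
namespace MK5
theorem den_om_mem (R : ℕ) : om R ∈ OO R := Subring.subset_closure rfl

theorem den_conj_om (R : ℕ) : conj (om R) = 1 - om R := by
  apply Complex.ext
  · simp [om]; norm_num
  · simp [om]

theorem den_conj_mem (R : ℕ) {z : ℂ} (hz : z ∈ OO R) : conj z ∈ OO R := by
  have h : OO R ≤ (OO R).comap (starRingEnd ℂ) := by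
    unfold OO
    rw [Subring.closure_le]
    intro w hw
    rw [Set.mem_singleton_iff] at hw
    subst hw
    show conj (om R) ∈ OO R
    rw [den_conj_om]
    exact (OO R).sub_mem (OO R).one_mem (den_om_mem R)
  exact h hz

theorem den_om_ne (R : ℕ) : om R ≠ 0 := by
  intro h
  have := congrArg Complex.re h
  simp [om] at this

theorem den_norm_conj (z : ℂ) : ‖conj z‖ = ‖z‖ := RCLike.norm_conj z

theorem den_conj_ne {z : ℂ} (hz : z ≠ 0) : conj z ≠ 0 := by
  intro h
  apply hz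
  rw [← norm_eq_zero, ← den_norm_conj, h, norm_zero]

theorem den_norm_quot {z : ℂ} (hz : z ≠ 0) : ‖z / conj z‖ = 1 := by
  rw [norm_div, den_norm_conj, div_self (norm_ne_zero_iff.2 hz)]

theorem den_norm_om (R : ℕ) (hR : 1 ≤ R) : ‖om R‖ = Real.sqrt R := by
  have h1 : (1 : ℝ) ≤ R := by exact_mod_cast hR
  have h2 : Real.sqrt (4 * R - 1) ^ 2 = 4 * R - 1 := Real.sq_sqrt (by linarith)
  rw [Complex.norm_def, Complex.normSq_apply]
  congr 1
  simp only [om]
  nlinarith

/-- TARGETS: denominators of the four families -/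
theorem den_g0 (R : ℕ) (hR : 1 ≤ R) : ‖g0 R‖ = 1 ∧ conj (om R) * g0 R ∈ OO R := by
  refine ⟨den_norm_quot (den_om_ne R), ?_⟩
  unfold g0
  rw [mul_div_cancel₀ _ (den_conj_ne (den_om_ne R))]
  exact den_om_mem R

theorem den_S (R : ℕ) {r : ℕ} (y : Fin r → ℂ) (hy : ∀ i, y i ∈ OO R ∧ y i ≠ 0) :
    famS y ≠ 0 ∧ ∀ u ∈ famS y, ‖u‖ = 1 ∧ (∏ i, conj (y i)) * u ∈ OO R := by
  have hne : (∏ i, conj (y i)) ≠ 0 := Finset.prod_ne_zero_iff.2 fun i _ => den_conj_ne (hy i).2
  constructor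
  · unfold famS
    rw [Ne, Multiset.map_eq_zero]
    intro h
    have h1 : (Finset.univ : Finset (Fin r → Bool)) = ∅ := Finset.val_eq_zero.1 h
    exact Finset.univ_nonempty.ne_empty h1
  · intro u hu
    unfold famS at hu
    rw [Multiset.mem_map] at hu
    obtain ⟨ξ, _, rfl⟩ := hu
    constructor
    · unfold vS YS
      rw [norm_div, norm_prod, norm_prod]
      have h1 : ∀ i, ‖(if ξ i then y i else conj (y i))‖ = ‖conj (y i)‖ := by
        intro i
        split_ifs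
        · rw [den_norm_conj]
        · rfl
      rw [Finset.prod_congr rfl fun i _ => h1 i, ← norm_prod, div_self (norm_ne_zero_iff.2 hne)]
    · unfold vS
      rw [mul_div_cancel₀ _ hne]
      unfold YS
      apply Subring.prod_mem
      intro i _
      split_ifs
      · exact (hy i).1
      · exact den_conj_mem R (hy i).1

theorem den_factor (R a : ℕ) : (a : ℂ) + om R ∈ OO R ∧ (a : ℂ) + om R ≠ 0 := by
  constructor
  · exact (OO R).add_mem (natCast_mem _ _) (den_om_mem R)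
  · intro h
    have h1 := congrArg Complex.re h
    simp [om] at h1
    have h2 : (0 : ℝ) ≤ a := Nat.cast_nonneg a
    linarith

theorem den_E (R X : ℕ) (hR : 4 ≤ R) (𝒜 : Finset ℕ) (hX : ∀ a ∈ 𝒜, a < X)
    (hXR : (X : ℝ) + Real.sqrt R ≤ R) :
    famE R 𝒜 ≠ 0 ∧ conj (yH R 𝒜) ∈ OO R ∧ conj (yH R 𝒜) ≠ 0 ∧
      ‖conj (yH R 𝒜)‖ ≤ (R : ℝ) ^ 𝒜.card ∧
      ∀ u ∈ famE R 𝒜, ‖u‖ = 1 ∧ conj (yH R 𝒜) * u ∈ OO R := by
  have hmem : ∀ H : Finset ℕ, yH R H ∈ OO R := fun H =>
    Subring.prod_mem _ fun a _ => (den_factor R a).1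
  have hne : ∀ H : Finset ℕ, yH R H ≠ 0 := fun H =>
    Finset.prod_ne_zero_iff.2 fun a _ => (den_factor R a).2
  refine ⟨?_, den_conj_mem R (hmem 𝒜), den_conj_ne (hne 𝒜), ?_, ?_⟩
  · unfold famE
    rw [Ne, Multiset.map_eq_zero]
    intro h
    have h1 : 𝒜.powerset = ∅ := Finset.val_eq_zero.1 h
    exact (Finset.powerset_nonempty 𝒜).ne_empty h1
  · rw [den_norm_conj]
    unfold yH
    rw [norm_prod]
    calc ∏ a ∈ 𝒜, ‖(a : ℂ) + om R‖ ≤ ∏ _a ∈ 𝒜, (R : ℝ) := by
          apply Finset.prod_le_prod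
          · intro a _; exact norm_nonneg _
          · intro a ha
            have h1 : ((a : ℕ) : ℝ) ≤ X := by exact_mod_cast (hX a ha).le
            calc ‖(a : ℂ) + om R‖ ≤ ‖(a : ℂ)‖ + ‖om R‖ := norm_add_le _ _
              _ = a + Real.sqrt R := by rw [den_norm_om R (by omega)]; simp
              _ ≤ R := by linarith
      _ = _ := by rw [Finset.prod_const]
  · intro u hu
    unfold famE at hu
    rw [Multiset.mem_map] at hu
    obtain ⟨H, hH, rfl⟩ := hu
    have hH' : H ⊆ 𝒜 := Finset.mem_powerset.1 hH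
    refine ⟨den_norm_quot (hne H), ?_⟩
    unfold uH
    have h1 : yH R 𝒜 = yH R (𝒜 \ H) * yH R H := by
      unfold yH
      exact (Finset.prod_sdiff hH').symm
    have h2 : conj (yH R 𝒜) * (yH R H / conj (yH R H)) = conj (yH R (𝒜 \ H)) * yH R H := by
      rw [h1, map_mul]
      have := den_conj_ne (hne H)
      field_simp
    rw [h2]
    exact (OO R).mul_mem (den_conj_mem R (hmem _)) (hmem _)

theorem den_yv (R : ℕ) (hR : 1 ≤ R) (b : ℤ) (hb : b ≠ 0) (a : ℤ) :
    yv R b a ∈ OO R ∧ yv R b a ≠ 0 := by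
  constructor
  · exact (OO R).add_mem (intCast_mem _ _) ((OO R).mul_mem (intCast_mem _ _) (den_om_mem R))
  · intro h
    have h1 := congrArg Complex.im h
    simp [yv, om] at h1
    have h2 : (1 : ℝ) ≤ R := by exact_mod_cast hR
    have h3 : 0 < Real.sqrt (4 * R - 1) := Real.sqrt_pos.2 (by linarith)
    rcases h1 with h1 | h1
    · exact hb h1
    · exact h3.ne' h1

theorem den_Y (R : ℕ) (hR : 1 ≤ R) (b : ℤ) (hb : b ≠ 0) {m : ℕ} (hm : 1 ≤ m) (a : Fin m → ℤ)
    (Y : ℝ) (hY : ∀ i, ‖yv R b (a i)‖ ≤ Y) :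
    famY R b a ≠ 0 ∧ (∏ i, conj (yv R b (a i))) ∈ OO R ∧ (∏ i, conj (yv R b (a i))) ≠ 0 ∧
      ‖∏ i, conj (yv R b (a i))‖ ≤ Y ^ m ∧
      ∀ u ∈ famY R b a, ‖u‖ = 1 ∧ (∏ i, conj (yv R b (a i))) * u ∈ OO R := by
  classical
  have hyv := fun i => den_yv R hR b hb (a i)
  refine ⟨?_, Subring.prod_mem _ fun i _ => den_conj_mem R (hyv i).1,
    Finset.prod_ne_zero_iff.2 fun i _ => den_conj_ne (hyv i).2, ?_, ?_⟩
  · unfold famY
    rw [Ne, Multiset.map_eq_zero]
    intro h
    have h1 : (Finset.univ : Finset (Fin m)) = ∅ := Finset.val_eq_zero.1 h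
    have h2 : (⟨0, hm⟩ : Fin m) ∈ (Finset.univ : Finset (Fin m)) := Finset.mem_univ _
    rw [h1] at h2
    simp at h2
  · rw [norm_prod]
    calc ∏ i, ‖conj (yv R b (a i))‖ ≤ ∏ _i : Fin m, Y := by
          apply Finset.prod_le_prod
          · intro i _; exact norm_nonneg _
          · intro i _; rw [den_norm_conj]; exact hY i
      _ = Y ^ m := by rw [Finset.prod_const, Finset.card_univ, Fintype.card_fin]
  · intro u hu
    unfold famY at hu
    rw [Multiset.mem_map] at hu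
    obtain ⟨i, _, rfl⟩ := hu
    refine ⟨den_norm_quot (hyv i).2, ?_⟩
    rw [← Finset.mul_prod_erase Finset.univ _ (Finset.mem_univ i)]
    have h2 : conj (yv R b (a i)) * (∏ x ∈ Finset.univ.erase i, conj (yv R b (a x))) *
        gv R b (a i) = (∏ x ∈ Finset.univ.erase i, conj (yv R b (a x))) * yv R b (a i) := by
      unfold gv
      have := den_conj_ne (hyv i).2
      field_simp
    rw [h2]
    exact (OO R).mul_mem (Subring.prod_mem _ fun i _ => den_conj_mem R (hyv i).1) (hyv i).1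

end MK5
export MK5 (den_g0 den_S den_E den_Y)
end Pyj
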