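import Mathlib
import Pool.Agent.Pyj.Defs2
import Pool.Agent.Pyj.J20
import Pool.Agent.Pyj.K1
import Pool.Agent.Pyj.K2
import Pool.Agent.Pyj.K3
import Pool.Agent.Pyj.K4
import Pool.Agent.Pyj.K5
set_option autoImplicit false
set_option maxHeartbeats 4000000

namespace Pyj
open Finset ComplexConjugate
namespace MK6
theorem k6_e1 (n : ℕ) (hn : 10 ^ 6 ≤ n) :
    n ^ 40 + 2 * n ^ 280 + n ^ 40 * n ^ 345 + (n ^ 40 * (n ^ 393 + 1)) * n ^ 1169 ≤ n ^ 1603 := by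
  have hn0 : 0 < n := by omega
  have e1 : n ^ 40 * n ^ 345 = n ^ 385 := by rw [← pow_add]
  have e2 : (n ^ 40 * (n ^ 393 + 1)) * n ^ 1169 = n ^ 1602 + n ^ 1209 := by
    rw [mul_add, add_mul, mul_one, ← pow_add, ← pow_add, ← pow_add]
  have e3 : n ^ 1603 = n ^ 1602 * n := by rw [← pow_succ]
  have h1 : n ^ 40 ≤ n ^ 1602 := Nat.pow_le_pow_right hn0 (by norm_num)
  have h2 : n ^ 280 ≤ n ^ 1602 := Nat.pow_le_pow_right hn0 (by norm_num)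
  have h3 : n ^ 385 ≤ n ^ 1602 := Nat.pow_le_pow_right hn0 (by norm_num)
  have h4 : n ^ 1209 ≤ n ^ 1602 := Nat.pow_le_pow_right hn0 (by norm_num)
  rw [e1, e2, e3]
  have h5 : n ^ 1602 * 6 ≤ n ^ 1602 * n := Nat.mul_le_mul_left _ (by omega)
  omega

theorem k6_e2 (n : ℕ) (hn : 10 ^ 6 ≤ n) :
    n + (5 + (n ^ 1603 + n ^ 1603) * (16 * n ^ 1130)) ≤ n ^ 2735 := by
  have hn0 : 0 < n := by omega
  have e1 : (n ^ 1603 + n ^ 1603) * (16 * n ^ 1130) = 32 * n ^ 2733 := by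
    have : n ^ 2733 = n ^ 1603 * n ^ 1130 := by rw [← pow_add]
    rw [this]; ring
  have e3 : n ^ 2735 = n ^ 2733 * n ^ 2 := by rw [← pow_add]
  have h1 : n ^ 1 ≤ n ^ 2733 := Nat.pow_le_pow_right hn0 (by norm_num)
  have h2 : 1 ≤ n ^ 2733 := Nat.one_le_pow _ _ hn0
  have h5 : n ^ 2733 * 38 ≤ n ^ 2733 * n ^ 2 := by
    apply Nat.mul_le_mul_left
    calc 38 ≤ n ^ 1 := by rw [pow_one]; omega
      _ ≤ n ^ 2 := Nat.pow_le_pow_right hn0 (by norm_num)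
  rw [e1, e3]
  rw [pow_one] at h1
  omega

theorem k6_conj_om (R : ℕ) : conj (om R) = 1 - om R := by
  apply Complex.ext
  · simp [om]; norm_num
  · simp [om]

theorem k6_conj_om_mem (R : ℕ) : conj (om R) ∈ OO R := by
  rw [k6_conj_om]
  exact (OO R).sub_mem (OO R).one_mem (Subring.subset_closure rfl)

theorem k6_om_norm (R : ℕ) (hR : 1 ≤ R) : ‖conj (om R)‖ ≤ R := by
  have hR1 : (1:ℝ) ≤ R := by exact_mod_cast hR
  rw [Complex.norm_conj]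
  have h1 : ‖om R‖ ^ 2 = R := by
    rw [Complex.sq_norm, Complex.normSq_apply]
    simp only [om]
    have : Real.sqrt (4 * R - 1) * Real.sqrt (4 * R - 1) = 4 * R - 1 :=
      Real.mul_self_sqrt (by linarith)
    nlinarith
  have h2 : ‖om R‖ ^ 2 ≤ (R:ℝ) ^ 2 := by
    rw [h1]; nlinarith
  exact le_of_sq_le_sq h2 (by positivity) 

theorem k6_om_ne (R : ℕ) : conj (om R) ≠ 0 := by
  intro h
  have := congrArg Complex.re h
  simp [om] at this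

theorem k6_field (n R : ℕ) (hn : 10 ^ 6 ≤ n)
    (hR : R = (n ^ 20).factorial ∨ R = 2 * (n ^ 20).factorial) :
    ∃ (D : ℂ) (F : List (Multiset ℂ)) (a : Fin (n ^ 1169) → ℤ) (Δ : ℂ),
      D ∈ OO R ∧ D ≠ 0 ∧
      (∀ (Λ : (ℂ → ℝ) → ℝ), IsMean Λ → ∀ θ η : ℝ, 0 ≤ θ → (∀ l ∈ F, NearInv θ Λ l) →
        Λ (ind (fun z => Near (1 / (n : ℝ)) z.re)) ≤ η →
        Λ (ind (fun z => ¬ Str R D (n ^ 400) (2 ^ (n ^ 386)) z)) ≤
          64 * (n : ℝ) ^ 304 * (η + ((n : ℝ) ^ 400 + 2) * θ)) ∧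
      (∀ i, ‖yv R ((R : ℤ) ^ (n ^ 393)) (a i)‖ ≤ (R : ℝ) ^ (n ^ 393 + 1)) ∧
      (∀ p : ℕ, p.Prime → p ≤ 2 ^ (n ^ 386) →
        ((Finset.univ.filter (fun i : Fin (n ^ 1169) => p ∣ Ny R ((R : ℤ) ^ (n ^ 393)) (a i))).card : ℝ)
          ≤ 2 / (n : ℝ) ^ 391 * ((n ^ 1169 : ℕ) : ℝ)) ∧
      P2 R (2 ^ (n ^ 386)) ((R : ℤ) ^ (n ^ 393)) (1 / (n : ℝ)) (1 / (512 * (n : ℝ) ^ 4)) a ∧
      P3 R (2 ^ (n ^ 386)) ((R : ℤ) ^ (n ^ 393)) (1 / (n : ℝ)) (1 / (512 * (n : ℝ) ^ 4)) a ∧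
      Δ ∈ OO R ∧ Δ ≠ 0 ∧ ‖Δ‖ ≤ (2 : ℝ) ^ (n ^ 1603) ∧ F.length = 3 ∧
      (∀ l ∈ famY R ((R : ℤ) ^ (n ^ 393)) a :: F, l ≠ 0 ∧ ∀ u ∈ l, ‖u‖ = 1 ∧ Δ * u ∈ OO R) := by
  have hn0 : 0 < n := by omega
  obtain ⟨h4, h16, -, -, hRle, -⟩ := R_facts n R hn hR
  obtain ⟨-, hsq, -⟩ := R_facts2 n R hn hR
  obtain ⟨r, y, A, hy, hDmem, hDn, hAc, hAlt, hstr⟩ := pack_str n R hn hR
  obtain ⟨a, hya, hpa, p2, p3⟩ := pack_Y n R hn hR
  have hR1 : 1 ≤ R := by omega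
  have hR4 : 4 ≤ R := by omega
  have hRr : (1:ℝ) ≤ R := by exact_mod_cast hR1
  have hbne : ((R : ℤ) ^ (n ^ 393)) ≠ 0 := pow_ne_zero _ (by exact_mod_cast (by omega : R ≠ 0))
  have hm1 : 1 ≤ n ^ 1169 := Nat.one_le_pow _ _ hn0
  obtain ⟨g1, g2⟩ := den_g0 R hR1
  obtain ⟨s1, s2⟩ := den_S R y hy
  obtain ⟨e1, e2, e3, e4, e5⟩ := den_E R (n ^ 346) hR4 A hAlt hsq
  obtain ⟨y1, y2, y3, y4, y5⟩ := den_Y R hR1 _ hbne hm1 a _ hya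
  set D := ∏ i, conj (y i) with hD
  set E := conj (yH R A) with hE
  set Yp := ∏ i, conj (yv R ((R : ℤ) ^ (n ^ 393)) (a i)) with hYp
  have hD0 : D ≠ 0 := by
    rw [hD]
    apply Finset.prod_ne_zero_iff.2
    intro i _
    exact (map_ne_zero _).2 (hy i).2
  have hom := k6_conj_om_mem R
  refine ⟨D, [{g0 R}, famS y, famE R A], a, conj (om R) * D * E * Yp, hDmem, hD0, ?_, hya, hpa, p2,
    p3, ?_, ?_, ?_, rfl, ?_⟩
  · intro Λ hΛ θ η hθ hl hη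
    exact hstr Λ hΛ θ η hθ (hl _ (by simp)) (hl _ (by simp)) (hl _ (by simp)) hη
  · exact (OO R).mul_mem ((OO R).mul_mem ((OO R).mul_mem hom hDmem) e2) y2
  · exact mul_ne_zero (mul_ne_zero (mul_ne_zero (k6_om_ne R) hD0) e3) y3
  · rw [norm_mul, norm_mul, norm_mul]
    have hRle' : (R:ℝ) ≤ (2:ℝ) ^ (n ^ 40) := by exact_mod_cast hRle
    have b1 : ‖conj (om R)‖ ≤ (2:ℝ) ^ (n ^ 40) := (k6_om_norm R hR1).trans hRle'
    have b3 : ‖E‖ ≤ (2:ℝ) ^ (n ^ 40 * n ^ 345) := by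
      refine e4.trans ?_
      rw [hAc, pow_mul]
      exact pow_le_pow_left₀ (by positivity) hRle' _
    have b4 : ‖Yp‖ ≤ (2:ℝ) ^ ((n ^ 40 * (n ^ 393 + 1)) * n ^ 1169) := by
      refine y4.trans ?_
      rw [pow_mul, pow_mul]
      exact pow_le_pow_left₀ (by positivity) (pow_le_pow_left₀ (by positivity) hRle' _) _
    calc ‖conj (om R)‖ * ‖D‖ * ‖E‖ * ‖Yp‖
        ≤ (2:ℝ) ^ (n ^ 40) * (2:ℝ) ^ (2 * n ^ 280) * (2:ℝ) ^ (n ^ 40 * n ^ 345) *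
          (2:ℝ) ^ ((n ^ 40 * (n ^ 393 + 1)) * n ^ 1169) := by
          apply mul_le_mul _ b4 (norm_nonneg _) (by positivity)
          apply mul_le_mul _ b3 (norm_nonneg _) (by positivity)
          exact mul_le_mul b1 hDn (norm_nonneg _) (by positivity)
      _ = (2:ℝ) ^ (n ^ 40 + 2 * n ^ 280 + n ^ 40 * n ^ 345 +
          (n ^ 40 * (n ^ 393 + 1)) * n ^ 1169) := by
          rw [← pow_add, ← pow_add, ← pow_add]
      _ ≤ (2:ℝ) ^ (n ^ 1603) := pow_le_pow_right₀ (by norm_num) (k6_e1 n hn)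
  · intro l hl
    rw [List.mem_cons] at hl
    rcases hl with rfl | hl
    · refine ⟨y1, fun v hv => ⟨(y5 v hv).1, ?_⟩⟩
      have : conj (om R) * D * E * Yp * v = conj (om R) * D * E * (Yp * v) := by ring
      rw [this]
      exact (OO R).mul_mem ((OO R).mul_mem ((OO R).mul_mem hom hDmem) e2) (y5 v hv).2
    · simp only [List.mem_cons, List.not_mem_nil, or_false] at hl
      rcases hl with rfl | rfl | rfl
      · refine ⟨by simp, fun v hv => ?_⟩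
        rw [Multiset.mem_singleton] at hv
        subst hv
        refine ⟨g1, ?_⟩
        have : conj (om R) * D * E * Yp * g0 R = (conj (om R) * g0 R) * D * E * Yp := by ring
        rw [this]
        exact (OO R).mul_mem ((OO R).mul_mem ((OO R).mul_mem g2 hDmem) e2) y2
      · refine ⟨s1, fun v hv => ⟨(s2 v hv).1, ?_⟩⟩
        have : conj (om R) * D * E * Yp * v = conj (om R) * (D * v) * E * Yp := by ring
        rw [this]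
        exact (OO R).mul_mem ((OO R).mul_mem ((OO R).mul_mem hom (s2 v hv).2) e2) y2
      · refine ⟨e1, fun v hv => ⟨(e5 v hv).1, ?_⟩⟩
        have : conj (om R) * D * E * Yp * v = conj (om R) * D * (E * v) * Yp := by ring
        rw [this]
        exact (OO R).mul_mem ((OO R).mul_mem ((OO R).mul_mem hom hDmem) (e5 v hv).2) y2

/-- TARGET -/
theorem pack_final (n : ℕ) (hn : 10 ^ 6 ≤ n) :
    ∃ U : Finset ℂ, (∀ u ∈ U, ‖u‖ = 1) ∧ (U.card : ℝ) ≤ (n : ℝ) ^ 3500 ∧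
      ∀ z : ℂ, ∃ u ∈ U, Near (2 / (n : ℝ)) (z * u).re := by
  have hn0 : 0 < n := by omega
  have hnr : (0:ℝ) < n := by exact_mod_cast hn0
  have hn1 : (1:ℝ) ≤ n := by exact_mod_cast hn0
  obtain ⟨R1, hR1⟩ : ∃ R1, R1 = (n ^ 20).factorial := ⟨_, rfl⟩
  obtain ⟨R2, hR2⟩ : ∃ R2, R2 = 2 * (n ^ 20).factorial := ⟨_, rfl⟩
  obtain ⟨D1, F1, a1, Δ1, hD1, hD10, hs1, hy1, hp1, p21, p31, hΔ1, hΔ10, hΔ1n, hl1, hf1⟩ :=
    k6_field n R1 hn (Or.inl hR1)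
  obtain ⟨D2, F2, a2, Δ2, hD2, hD20, hs2, hy2, hp2, p22, p32, hΔ2, hΔ20, hΔ2n, hl2, hf2⟩ :=
    k6_field n R2 hn (Or.inr hR2)
  obtain ⟨-, h161, -⟩ := R_facts n R1 hn (Or.inl hR1)
  obtain ⟨-, h162, -⟩ := R_facts n R2 hn (Or.inr hR2)
  obtain ⟨J, hJ⟩ : ∃ J : ℕ, J = 2 ^ (n ^ 2735) := ⟨_, rfl⟩
  have hJ1 : 1 ≤ J := by rw [hJ]; exact Nat.one_le_pow _ _ (by norm_num)
  have hlen : (famY R1 ((R1 : ℤ) ^ (n ^ 393)) a1 :: F1 ++
      famY R2 ((R2 : ℤ) ^ (n ^ 393)) a2 :: F2).length = 8 := by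
    simp [hl1, hl2]
  have hbig : 4 * (4 * (‖Δ1‖ * ‖Δ2‖) ^ (2 * (8 * n ^ 1130)) + 1) ≤ 1 / (n:ℝ) * J := by
    have b1 : ‖Δ1‖ * ‖Δ2‖ ≤ (2:ℝ) ^ (n ^ 1603 + n ^ 1603) := by
      rw [pow_add]
      exact mul_le_mul hΔ1n hΔ2n (norm_nonneg _) (by positivity)
    have b2 : (‖Δ1‖ * ‖Δ2‖) ^ (2 * (8 * n ^ 1130)) ≤
        (2:ℝ) ^ ((n ^ 1603 + n ^ 1603) * (16 * n ^ 1130)) := by
      have : 2 * (8 * n ^ 1130) = 16 * n ^ 1130 := by ring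
      rw [this, pow_mul (2:ℝ)]
      exact pow_le_pow_left₀ (by positivity) b1 _
    obtain ⟨q, hq⟩ : ∃ q, q = (n ^ 1603 + n ^ 1603) * (16 * n ^ 1130) := ⟨_, rfl⟩
    rw [← hq] at b2
    have b3 : (1:ℝ) ≤ 2 ^ q := one_le_pow₀ (by norm_num)
    have b4 : 4 * (4 * (‖Δ1‖ * ‖Δ2‖) ^ (2 * (8 * n ^ 1130)) + 1) ≤ (2:ℝ) ^ (5 + q) := by
      rw [pow_add]
      nlinarith
    refine b4.trans ?_
    rw [one_div, ← div_eq_inv_mul, le_div_iff₀ hnr]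
    have b5 : (n:ℝ) ≤ 2 ^ n := by exact_mod_cast Nat.lt_two_pow_self.le
    calc (2:ℝ) ^ (5 + q) * n ≤ (2:ℝ) ^ (5 + q) * 2 ^ n :=
          mul_le_mul_of_nonneg_left b5 (by positivity)
      _ = (2:ℝ) ^ (n + (5 + q)) := by rw [pow_add 2 n (5 + q), mul_comm]
      _ ≤ (2:ℝ) ^ (n ^ 2735) := pow_le_pow_right₀ (by norm_num) (by rw [hq]; exact k6_e2 n hn)
      _ = (J:ℝ) := by rw [hJ, Nat.cast_pow]; norm_num
  obtain ⟨U, hU1, hU2, hU3⟩ := global_cover R1 R2 (by omega) (by omega) Δ1 Δ2 hΔ1 hΔ2 hΔ10 hΔ20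
    (famY R1 ((R1 : ℤ) ^ (n ^ 393)) a1 :: F1) (famY R2 ((R2 : ℤ) ^ (n ^ 393)) a2 :: F2)
    (fun l hl => (hf1 l hl).1) (fun l hl => (hf2 l hl).1)
    (fun l hl => (hf1 l hl).2) (fun l hl => (hf2 l hl).2)
    (1 / (n:ℝ)) (1 / (n:ℝ) ^ 720) (1 / (n:ℝ) ^ 1130) (by positivity) (by positivity)
    (by rw [div_le_one (by positivity)]; exact one_le_pow₀ hn1)
    (n ^ 1130) (Nat.one_le_pow _ _ hn0) (by rw [Nat.cast_pow])
    (by
      intro Λ hΛ hinv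
      refine mean_hit n R1 R2 hn hR1 hR2 D1 D2 hD1 hD10 hD2 hD20 F1 F2 hs1 hs2 a1 a2 hy1 hy2
        hp1 hp2 p21 p31 p22 Λ hΛ ?_ ?_ ?_ ?_
      · intro l hl
        exact hinv l (by simp [hl])
      · intro l hl
        exact hinv l (by simp [hl])
      · exact hinv _ (by simp)
      · exact hinv _ (by simp))
    J hJ1 (by rw [hlen]; exact hbig)
  refine ⟨U, hU1, ?_, ?_⟩
  · refine hU2.trans ?_
    have c1 : Real.log J ≤ (n:ℝ) ^ 2735 := by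
      rw [hJ, Nat.cast_pow, Real.log_pow, Nat.cast_pow]
      have : Real.log ((2:ℕ):ℝ) ≤ 1 := by
        have := Real.log_two_lt_d9
        push_cast
        linarith
      have h0 : (0:ℝ) ≤ (n:ℝ) ^ 2735 := by positivity
      nlinarith
    have c2 : 4 * Real.log J / (1 / (n:ℝ) ^ 720) + 1 ≤ 4 * (n:ℝ) ^ 2735 * (n:ℝ) ^ 720 + 1 := by
      rw [div_div_eq_mul_div, div_one]
      have h0 : (0:ℝ) ≤ (n:ℝ) ^ 720 := by positivity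
      gcongr
    refine c2.trans ?_
    have c3 : 4 * (n:ℝ) ^ 2735 * (n:ℝ) ^ 720 = 4 * (n:ℝ) ^ 3455 := by
      rw [mul_assoc, ← pow_add]
    have c4 : (1:ℝ) ≤ (n:ℝ) ^ 3455 := one_le_pow₀ hn1
    have c5 : (n:ℝ) ^ 3500 = (n:ℝ) ^ 3455 * (n:ℝ) ^ 45 := by rw [← pow_add]
    have c6 : (5:ℝ) ≤ (n:ℝ) ^ 45 := by
      have h6 : (5:ℝ) ≤ n := by
        have : (5:ℕ) ≤ n := by omega
        exact_mod_cast this
      exact h6.trans (le_self_pow₀ hn1 (by norm_num))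
    rw [c3, c5]
    have c7 : (n:ℝ) ^ 3455 * 5 ≤ (n:ℝ) ^ 3455 * (n:ℝ) ^ 45 :=
      mul_le_mul_of_nonneg_left c6 (by positivity)
    linarith
  · intro z
    obtain ⟨v, hv, hN⟩ := hU3 z
    refine ⟨v, hv, ?_⟩
    have : 2 * (1 / (n:ℝ)) = 2 / n := by ring
    rwa [this] at hN

end MK6
export MK6 (pack_final)
end Pyj
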