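import Mathlib
import Pool.Prelude.Def_F_fc5f667c
import Pool.Agent.Pyj.K6
set_option autoImplicit false
set_option maxHeartbeats 4000000

namespace Pyj
open Finset ComplexConjugate

open N29694b66 in
theorem cover_copies (ε : ℝ) (U : Finset ℂ) (hU : ∀ u ∈ U, ‖u‖ = 1)
    (hc : ∀ z : ℂ, ∃ u ∈ U, Near ε (z * u).re) : minCopies ε ≤ U.card := by
  classical
  set Θ : Finset ℝ := U.image (fun u => -Complex.arg u) with hΘ
  have hmem : Θ.card ∈ coveringCopies ε := by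
    refine ⟨Θ, rfl, ?_⟩
    rw [Set.eq_univ_iff_forall]
    intro z
    obtain ⟨u, hu, k, hk⟩ := hc z
    rw [Set.mem_iUnion₂]
    refine ⟨-Complex.arg u, ?_, ?_⟩
    · rw [hΘ]; exact Finset.mem_image_of_mem _ hu
    · have hu1 : Complex.exp (((Complex.arg u : ℝ) : ℂ) * Complex.I) = u := by
        have h := Complex.norm_mul_exp_arg_mul_I u
        rw [hU u hu] at h
        simpa using h
      rw [Set.mem_smul_set]
      refine ⟨z * u, ⟨k, hk⟩, ?_⟩
      rw [smul_eq_mul]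
      have h2 : Complex.exp (((-Complex.arg u : ℝ) : ℂ) * Complex.I) * u = 1 := by
        nth_rewrite 2 [← hu1]
        rw [← Complex.exp_add]
        push_cast
        rw [neg_mul, neg_add_cancel, Complex.exp_zero]
      calc Complex.exp (((-Complex.arg u : ℝ) : ℂ) * Complex.I) * (z * u)
          = z * (Complex.exp (((-Complex.arg u : ℝ) : ℂ) * Complex.I) * u) := by ring
        _ = z := by rw [h2, mul_one]
  calc minCopies ε = sInf (coveringCopies ε) := rfl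
    _ ≤ Θ.card := Nat.sInf_le hmem
    _ ≤ U.card := Finset.card_image_le

open N29694b66 in
theorem main : ∃ C : ℝ, ∃ ε₀ > 0, ∀ ε ∈ Set.Ioc 0 ε₀, (minCopies ε : ℝ) ≤ ε ^ (-C) := by
  refine ⟨7000, 1 / 10 ^ 6, by norm_num, ?_⟩
  rintro ε ⟨h0, h1⟩
  set n : ℕ := ⌈2 / ε⌉₊ with hn
  have h2 : 2 / ε ≤ n := Nat.le_ceil _
  have h3 : (n : ℝ) < 2 / ε + 1 := Nat.ceil_lt_add_one (by positivity)
  have hε1 : (10 : ℝ) ^ 6 ≤ 1 / ε := by
    rw [le_div_iff₀ h0]
    calc (10 : ℝ) ^ 6 * ε ≤ 10 ^ 6 * (1 / 10 ^ 6) := by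
          apply mul_le_mul_of_nonneg_left h1 (by norm_num)
      _ = 1 := by norm_num
  have h4 : (10 : ℝ) ^ 6 ≤ n := by
    have : 2 / ε = 2 * (1 / ε) := by ring
    nlinarith
  have hn6 : 10 ^ 6 ≤ n := by exact_mod_cast h4
  obtain ⟨U, hU, hcard, hcov⟩ := pack_final n hn6
  have hnpos : (0 : ℝ) < n := lt_of_lt_of_le (by norm_num) h4
  have h5 : 2 / (n : ℝ) ≤ ε := by
    rw [div_le_iff₀ hnpos]
    rw [div_le_iff₀ h0] at h2
    linarith [mul_comm ε (n : ℝ)]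
  have hcov' : ∀ z : ℂ, ∃ u ∈ U, Near ε (z * u).re := by
    intro z
    obtain ⟨u, hu, k, hk⟩ := hcov z
    exact ⟨u, hu, k, hk.trans h5⟩
  have h6 := cover_copies ε U hU hcov'
  have h7 : (minCopies ε : ℝ) ≤ (n : ℝ) ^ 3500 := le_trans (by exact_mod_cast h6) hcard
  have h8 : (n : ℝ) ≤ (1 / ε) ^ 2 := by
    have : 2 / ε = 2 * (1 / ε) := by ring
    nlinarith
  calc (minCopies ε : ℝ) ≤ (n : ℝ) ^ 3500 := h7
    _ ≤ ((1 / ε) ^ 2) ^ 3500 := pow_le_pow_left₀ hnpos.le h8 _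
    _ = (1 / ε) ^ 7000 := by rw [← pow_mul]
    _ = ε ^ (-7000 : ℝ) := by
        rw [one_div, inv_pow, Real.rpow_neg h0.le]
        congr 1
        rw [← Real.rpow_natCast]
        norm_num

end Pyj
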